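import Mathlib.Tactic.Monotonicity.Lemmas
import Mathlib.Algebra.Order.Archimedean.Real.Hom
import Mathlib.Algebra.Order.Chebyshev
import Mathlib.Algebra.Ring.IsFormallyReal
import Mathlib.Analysis.Complex.ExponentialBounds
import Mathlib.MeasureTheory.Function.L2Space
import Mathlib.Analysis.SpecialFunctions.Gaussian.FourierTransform
import Mathlib.MeasureTheory.Measure.RegularityCompacts
import Mathlib.RingTheory.PiTensorProduct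
import Mathlib.MeasureTheory.Function.SpecialFunctions.Inner
import Mathlib.RingTheory.SimpleRing.Principal
import Mathlib.RingTheory.RegularLocalRing.Defs
import Mathlib.Tactic.Polynomial.Basic
import Pool.Agent.Lib.helper79.Brouwer

-- ======== part 0: formerly Pool.Agent.MP_2a44fd_gt.hd.Defs
section MrgPart0

/-!
PROJECT BP5HD (fifth Busemann-Petty problem in high dimension): definitions.
-/

set_option autoImplicit false

open MeasureTheory Real Set Filter Topology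
open scoped RealInnerProductSpace ENNReal

namespace Pool.Agent.MP_2a44fd_gt.hd

abbrev Eu (n : ℕ) := EuclideanSpace ℝ (Fin n)

variable {n : ℕ}

/-- `p` is a norm. -/
structure Nrm (p : Eu n → ℝ) : Prop where
  cont : Continuous p
  smul : ∀ (c : ℝ) (x : Eu n), p (c • x) = |c| * p x
  add : ∀ x y, p (x + y) ≤ p x + p y
  low : ∃ c : ℝ, 0 < c ∧ ∀ x, c * ‖x‖ ≤ p x

noncomputable def Zc (p : Eu n → ℝ) : ℝ := ∫ x, exp (-(p x ^ 2 / 2))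

/-- The probability measure with density `exp (-p^2/2) / Z`. -/
noncomputable def mu (p : Eu n → ℝ) : Measure (Eu n) :=
  volume.withDensity fun x => ENNReal.ofReal (exp (-(p x ^ 2 / 2)) / Zc p)

/-- The standard Gaussian measure. -/
noncomputable def gam (n : ℕ) : Measure (Eu n) := mu fun x => ‖x‖

/-- Ratio of the volumes of the unit ball of `p` and of the Euclidean ball. -/
noncomputable def mm (p : Eu n → ℝ) : ℝ := Zc p / Zc fun x : Eu n => ‖x‖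

/-- Density of `mu p` with respect to `gam n`. -/
noncomputable def Wd (p : Eu n → ℝ) (x : Eu n) : ℝ := exp (‖x‖ ^ 2 / 2 - p x ^ 2 / 2) / mm p

/-- Gaussian kernel of variance `δ^2` and its first two derivatives. -/
noncomputable def gk (δ t : ℝ) : ℝ := exp (-(t ^ 2 / (2 * δ ^ 2))) / (√(2 * π) * δ)

noncomputable def gk1 (δ t : ℝ) : ℝ := -(t / δ ^ 2) * gk δ t

noncomputable def gk2 (δ t : ℝ) : ℝ := (t ^ 2 / δ ^ 4 - 1 / δ ^ 2) * gk δ t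

/-- Smoothed section function, its gradient and its Hessian. -/
noncomputable def A0 (p : Eu n → ℝ) (δ : ℝ) (ξ : Eu n) : ℝ := ∫ x, gk δ ⟪x, ξ⟫ ∂mu p

noncomputable def A1 (p : Eu n → ℝ) (δ : ℝ) (ξ : Eu n) : Eu n :=
  WithLp.toLp 2 fun i => ∫ x, gk1 δ ⟪x, ξ⟫ * x i ∂mu p

noncomputable def A2 (p : Eu n → ℝ) (δ : ℝ) (ξ : Eu n) : Matrix (Fin n) (Fin n) ℝ :=
  Matrix.of fun i j => ∫ x, gk2 δ ⟪x, ξ⟫ * (x i * x j) ∂mu p

/-- A matrix as a continuous linear map. -/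
noncomputable def mc (M : Matrix (Fin n) (Fin n) ℝ) : Eu n →L[ℝ] Eu n :=
  LinearMap.toContinuousLinearMap (Matrix.toEuclideanLin M)

/-- Squared Hilbert-Schmidt distance to the identity. -/
noncomputable def hs (M : Matrix (Fin n) (Fin n) ℝ) : ℝ := ∑ i, ∑ j, (M - 1) i j ^ 2

/-- The Busemann-Petty equation in weak form: `p` is the gauge of the body, `h` its support
function, and the density at `0` of the marginal `⟪X, ξ⟫` is `b / h ξ`. -/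
structure BP (p h : Eu n → ℝ) (b : ℝ) : Prop where
  nrm : Nrm p
  hcont : Continuous h
  hsmul : ∀ (c : ℝ) (ξ : Eu n), h (c • ξ) = |c| * h ξ
  hpos : ∀ ξ, ξ ≠ 0 → 0 < h ξ
  d1 : ∀ x ξ, ⟪x, ξ⟫ ≤ p x * h ξ
  d2 : ∀ y, (∀ ζ, ⟪y, ζ⟫ ≤ h ζ) → p y ≤ 1
  bpos : 0 < b
  lim : ∀ ξ, ξ ≠ 0 → Tendsto (fun δ => A0 p δ ξ) (𝓝[>] 0) (𝓝 (b / h ξ))

/-- Dimension-free comparison with the Euclidean norm and subexponential marginals. -/
structure Tame (Λ : ℝ) (p : Eu n → ℝ) : Prop where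
  nrm : Nrm p
  lo : ∀ x, ‖x‖ ≤ Λ * p x
  hi : ∀ x, p x ≤ Λ * ‖x‖
  psi : ∀ v : Eu n, ‖v‖ = 1 → ∫ x, exp (|⟪x, v⟫| / Λ) ∂mu p ≤ Λ

structure Cmp (Λ : ℝ) (p h : Eu n → ℝ) (b : ℝ) : Prop where
  bp : BP p h b
  hlo : ∀ ξ, ‖ξ‖ ≤ Λ * h ξ
  hhi : ∀ ξ, h ξ ≤ Λ * ‖ξ‖
  blo : 1 ≤ Λ * b
  bhi : b ≤ Λ

structure Reg (Λ : ℝ) (p h : Eu n → ℝ) (b : ℝ) : Prop where
  cmp : Cmp Λ p h b
  tame : Tame Λ p
  alo : ∀ δ, 0 < δ → ∀ ξ : Eu n, 1 ≤ Λ * (√(‖ξ‖ ^ 2 + δ ^ 2) * (A0 p δ ξ / b))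
  ahi : ∀ δ, 0 < δ → ∀ ξ : Eu n, √(‖ξ‖ ^ 2 + δ ^ 2) * (A0 p δ ξ / b) ≤ Λ
  cov : ∀ v : Eu n, ‖v‖ = 1 → 1 ≤ Λ * ∫ x, ⟪x, v⟫ ^ 2 ∂mu p

noncomputable def lam (b : ℝ) : ℝ := 1 / (b * √(2 * π))

/-- The special position and scale. -/
structure Sp (Λ : ℝ) (p h : Eu n → ℝ) (b : ℝ) : Prop where
  reg : Reg Λ p h b
  iso : ∀ i j : Fin n, ∫ x, x i * x j / ‖x‖ ^ 3 ∂mu p =
    if i = j then (∫ x, ‖x‖⁻¹ ∂mu p) / n else 0
  nor : lam b * ∫ x, ‖x‖⁻¹ ∂mu p = ∫ x, ‖x‖⁻¹ ∂gam n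

noncomputable def Vf (p : Eu n → ℝ) (b : ℝ) (x : Eu n) : ℝ := lam b * Wd p x - 1

/-- Good part of `Vf` when `D` is the bad set. -/
noncomputable def Vg (p : Eu n → ℝ) (b : ℝ) (D : Set (Eu n)) (x : Eu n) : ℝ :=
  Dᶜ.indicator (fun x => lam b * Wd p x) x - 1

noncomputable def psi (h : Eu n → ℝ) (ξ : Eu n) : ℝ := h ξ ^ 2 / 2 - ‖ξ‖ ^ 2 / 2

noncomputable def be0 (V : Eu n → ℝ) (δ : ℝ) (ξ : Eu n) : ℝ :=
  √(2 * π) * ∫ x, V x * gk δ ⟪x, ξ⟫ ∂gam n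

noncomputable def be1 (V : Eu n → ℝ) (δ : ℝ) (ξ : Eu n) (i : Fin n) : ℝ :=
  √(2 * π) * ∫ x, V x * (gk1 δ ⟪x, ξ⟫ * x i) ∂gam n

noncomputable def be2 (V : Eu n → ℝ) (δ : ℝ) (ξ : Eu n) (i j : Fin n) : ℝ :=
  √(2 * π) * ∫ x, V x * (gk2 δ ⟪x, ξ⟫ * (x i * x j)) ∂gam n

noncomputable def Gam (V : Eu n → ℝ) (δ : ℝ) (ξ : Eu n) : ℝ :=
  be0 V δ ξ ^ 2 + ∑ i, be1 V δ ξ i ^ 2 + ∑ i, ∑ j, be2 V δ ξ i j ^ 2 + (∑ i, be2 V δ ξ i i) ^ 2

/-- Cosine of the angle. -/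
noncomputable def cs (x y : Eu n) : ℝ := ⟪x, y⟫ / (‖x‖ * ‖y‖)

noncomputable def KK (z w : Eu n) : ℝ :=
  exp (-((‖z‖ ^ 2 + ‖w‖ ^ 2) / 2)) *
    ((1 + ⟪z, w⟫ ^ 2 + ‖z‖ ^ 2 * ‖w‖ ^ 2) * cosh ⟪z, w⟫ + ⟪z, w⟫ * sinh ⟪z, w⟫)

noncomputable def Kd (δ : ℝ) (x y : Eu n) : ℝ :=
  (2 * π)⁻¹ * ∫ s : ℝ × ℝ, exp (-(δ ^ 2 * (s.1 ^ 2 + s.2 ^ 2) / 2)) * KK (s.1 • x) (s.2 • y)

noncomputable def kint (ρ : ℝ) (s : ℝ × ℝ) : ℝ :=
  exp (-((s.1 ^ 2 + s.2 ^ 2) / 2)) *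
    ((1 + (s.1 * s.2 * ρ) ^ 2 + s.1 ^ 2 * s.2 ^ 2) * cosh (s.1 * s.2 * ρ) +
      s.1 * s.2 * ρ * sinh (s.1 * s.2 * ρ))

noncomputable def kk (ρ : ℝ) : ℝ := (2 * π)⁻¹ * ∫ s : ℝ × ℝ, kint ρ s

/-- Integrand of the quadratic form with angular kernel `k`. -/
noncomputable def qi (k : ℝ → ℝ) (V : Eu n → ℝ) (z : Eu n × Eu n) : ℝ :=
  V z.1 * V z.2 / (‖z.1‖ * ‖z.2‖) * k (cs z.1 z.2)

noncomputable def Qf (k : ℝ → ℝ) (V : Eu n → ℝ) : ℝ :=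
  (n : ℝ) ^ 3 * ∫ z, qi k V z ∂(gam n).prod (gam n)

/-- The deviation functional. -/
noncomputable def NN (p : Eu n → ℝ) (b : ℝ) : ℝ := Qf kk (Vf p b)

noncomputable def Q4 (p : Eu n → ℝ) (b : ℝ) : ℝ := Qf (fun ρ => ρ ^ 4) (Vf p b)

/-- Potential, gradient map and Hessian built from the smoothed section function. -/
noncomputable def Ph (p : Eu n → ℝ) (b δ : ℝ) (ξ : Eu n) : ℝ := b ^ 2 / (2 * A0 p δ ξ ^ 2)

noncomputable def Yv (p : Eu n → ℝ) (b δ : ℝ) (ξ : Eu n) : Eu n :=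
  (-(b ^ 2 / A0 p δ ξ ^ 3)) • A1 p δ ξ

noncomputable def Hm (p : Eu n → ℝ) (b δ : ℝ) (ξ : Eu n) : Matrix (Fin n) (Fin n) ℝ :=
  Matrix.of fun i j => -(b ^ 2 / A0 p δ ξ ^ 3) * A2 p δ ξ i j +
    3 * b ^ 2 / A0 p δ ξ ^ 4 * (A1 p δ ξ i * A1 p δ ξ j)

/-- Abstract gradient map into the body, with all deviations from the identity controlled by `G`. -/
structure Pack (p : Eu n → ℝ) (Φ : Eu n → ℝ) (y : Eu n → Eu n)
    (H : Eu n → Matrix (Fin n) (Fin n) ℝ) (G : Eu n → ℝ) : Prop where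
  cΦ : Continuous Φ
  cH : ∀ i j, Continuous fun ξ => H ξ i j
  der : ∀ ξ, HasFDerivAt y (mc (H ξ)) ξ
  symm : ∀ ξ i j, H ξ i j = H ξ j i
  mono : ∀ ξ ζ, 0 ≤ ⟪y ξ - y ζ, ξ - ζ⟫
  inK : ∀ ξ, p (y ξ) ^ 2 ≤ 2 * Φ ξ
  mG : Measurable G
  iG : Integrable G (gam n)
  G0 : ∀ ξ, 0 ≤ G ξ
  b0 : ∀ ξ, (Φ ξ - ‖ξ‖ ^ 2 / 2) ^ 2 ≤ G ξ
  b1 : ∀ ξ, ‖y ξ - ξ‖ ^ 2 ≤ G ξ
  b2 : ∀ ξ, hs (H ξ) ≤ 2 * G ξ + 2 * G ξ ^ 2
  b3 : ∀ ξ, |(H ξ).trace - n| ≤ √(G ξ) + G ξ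

/-- A `Pack` of size `ν`, together with the bounds on `psi`. -/
def HasPack (p h : Eu n → ℝ) (ν : ℝ) : Prop :=
  (∃ Φ y H G, Pack p Φ y H G ∧ ∫ ξ, G ξ ∂gam n ≤ ν ∧
    -ν ≤ ∫ ξ, ((H ξ).trace - n - (Φ ξ - ‖ξ‖ ^ 2 / 2)) ∂gam n) ∧
  Integrable (fun ξ => psi h ξ ^ 2) (gam n) ∧ ∫ ξ, psi h ξ ^ 2 ∂gam n ≤ ν ∧
  Integrable (psi h) (gam n) ∧ ∫ ξ, psi h ξ ∂gam n ≤ ν

/-- The interpolated map and its Jacobian matrix. -/
noncomputable def Yt (Λ t : ℝ) (y : Eu n → Eu n) (ξ : Eu n) : Eu n := (1 - t) • y ξ + (t / Λ) • ξ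

noncomputable def Mt (Λ t : ℝ) (H : Matrix (Fin n) (Fin n) ℝ) : Matrix (Fin n) (Fin n) ℝ :=
  (1 - t) • H + (t / Λ) • (1 : Matrix (Fin n) (Fin n) ℝ)

/-- Thin shell: the averaged `k`-fold Gaussian bump. -/
noncomputable def qq (R s : ℝ) : ℝ := exp (-(s ^ 2 / (2 * (1 + R)))) / √(1 + R)

noncomputable def Gq (p : Eu n → ℝ) (k : ℕ) (s : ℝ) : ℝ := ∫ x, qq (‖x‖ ^ 2 / n) s ^ k ∂mu p

end Pool.Agent.MP_2a44fd_gt.hd

end MrgPart0

-- ======== part 1: formerly Pool.Agent.MP_2a44fd_gt.hd.Spec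
section MrgPart1

/-!
PROJECT BP5HD: module statements.
-/

set_option autoImplicit false

open MeasureTheory Real Set Filter Topology
open scoped RealInnerProductSpace ENNReal Pointwise

namespace Pool.Agent.MP_2a44fd_gt.hd

/-- One-dimensional quasi-concave Brunn-Minkowski inequality. -/
def QCStmt : Prop :=
  ∀ (f g h : ℝ → ℝ≥0∞) (l : ℝ), 0 < l → l < 1 → Measurable f → Measurable g → Measurable h →
    (∀ x, f x ≤ 1) → (∀ x, g x ≤ 1) → (∀ y < 1, ∃ x, y < f x) → (∀ y < 1, ∃ x, y < g x) →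
    (∀ x x', min (f x) (g x') ≤ h ((1 - l) * x + l * x')) →
    ENNReal.ofReal (1 - l) * (∫⁻ x, f x) + ENNReal.ofReal l * (∫⁻ x, g x) ≤ ∫⁻ x, h x

/-- Prekopa-Leindler. -/
def PLStmt : Prop :=
  ∀ (n : ℕ) (f g h : Eu n → ℝ≥0∞) (l : ℝ), 0 < l → l < 1 →
    Measurable f → Measurable g → Measurable h →
    (∀ x y, f x ^ (1 - l) * g y ^ l ≤ h ((1 - l) • x + l • y)) →
    (∫⁻ x, f x) ^ (1 - l) * (∫⁻ x, g x) ^ l ≤ ∫⁻ x, h x

/-- Busemann-Ball convexity. -/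
def BallStmt : Prop :=
  ∀ (n : ℕ) (p : Eu n → ℝ) (δ : ℝ), Nrm p → 0 < δ → ConvexOn ℝ univ fun ξ => (A0 p δ ξ)⁻¹

/-- Hensley bounds and subexponential tails of one-dimensional marginals. -/
def LCStmt : Prop :=
  ∀ (n : ℕ) (p : Eu n → ℝ) (δ : ℝ) (ξ : Eu n), Nrm p → 0 < δ →
    1 / 32 ≤ A0 p δ ξ ^ 2 * (∫ x, ⟪x, ξ⟫ ^ 2 ∂mu p + δ ^ 2) ∧
    A0 p δ ξ ^ 2 * (∫ x, ⟪x, ξ⟫ ^ 2 ∂mu p + δ ^ 2) ≤ 168 ∧
    ∫ x, exp (A0 p δ ξ * |⟪x, ξ⟫| / 2) ∂mu p ≤ 42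

def RegStmt : Prop :=
  ∀ Λ : ℝ, 1 ≤ Λ → ∃ Λ' : ℝ, 4 ≤ Λ' ∧
    ∀ (n : ℕ) (p h : Eu n → ℝ) (b : ℝ), Cmp Λ p h b → Reg Λ' p h b

def IsoStmt : Prop :=
  ∃ (Λ : ℝ) (n0 : ℕ), 1 ≤ Λ ∧ ∀ n ≥ n0, ∀ (p h : Eu n → ℝ) (b : ℝ), BP p h b →
    ∃ (T : Eu n ≃L[ℝ] Eu n) (h' : Eu n → ℝ), Cmp Λ (fun x => p (T.symm x)) h' b

def TailStmt : Prop :=
  ∀ η : ℝ, 0 < η → ∃ c : ℝ, 0 < c ∧ ∀ (n : ℕ) (p : Eu n → ℝ), Nrm p →
    (mu p).real {x | p x ^ 2 ≤ (1 - η) * n} ≤ exp (-(c * n)) ∧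
    (mu p).real {x | (1 + η) * n ≤ p x ^ 2} ≤ exp (-(c * n))

def PmomStmt : Prop :=
  ∀ j : ℕ, ∃ C : ℝ, ∀ n ≥ 1, ∀ p : Eu n → ℝ, Nrm p → ∫ x, p x ^ (2 * j) ∂mu p ≤ C * (n : ℝ) ^ j

def MomStmt : Prop :=
  ∀ Λ : ℝ, 1 ≤ Λ → ∀ i j : ℕ, ∃ (C : ℝ) (n0 : ℕ), 0 < C ∧ ∀ n ≥ n0, ∀ p : Eu n → ℝ, Tame Λ p →
    (Integrable (fun x => 1 / ‖x‖ ^ i) (mu p) ∧ ∫ x, 1 / ‖x‖ ^ i ∂mu p ≤ C / √(n : ℝ) ^ i) ∧
    (∀ v : Eu n, ‖v‖ = 1 → Integrable (fun x => |⟪x, v⟫| ^ j / ‖x‖ ^ i) (mu p) ∧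
      ∫ x, |⟪x, v⟫| ^ j / ‖x‖ ^ i ∂mu p ≤ C / √(n : ℝ) ^ i) ∧
    1 / (C * √(n : ℝ)) ≤ ∫ x, ‖x‖⁻¹ ∂mu p

def SteinStmt : Prop :=
  ∀ (n : ℕ) (f : Eu n → ℝ) (f' : Eu n → Eu n →L[ℝ] ℝ) (v : Eu n),
    (∀ x, HasFDerivAt f (f' x) x) → Integrable f (gam n) →
    Integrable (fun x => ⟪x, v⟫ * f x) (gam n) → Integrable (fun x => f' x v) (gam n) →
    ∫ x, f' x v ∂gam n = ∫ x, ⟪x, v⟫ * f x ∂gam n

def Cov4Stmt : Prop :=
  ∀ (n : ℕ) (a b : Eu n), ‖a‖ = 1 → ‖b‖ = 1 → ∫ x, ⟪x, a⟫ ^ 4 ∂gam n = 3 ∧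
    ∫ x, ⟪x, a⟫ ^ 4 * ⟪x, b⟫ ^ 4 ∂gam n = 9 + 72 * ⟪a, b⟫ ^ 2 + 24 * ⟪a, b⟫ ^ 4

def IndepStmt : Prop :=
  ∀ n ≥ 1, ∀ (a : Eu n → ℝ) (g : ℝ → ℝ), Measurable a → Measurable g → (∃ C, ∀ x, |a x| ≤ C) →
    (∀ c : ℝ, 0 < c → ∀ x, a (c • x) = a x) → Integrable (fun x => g ‖x‖) (gam n) →
    ∫ x, a x * g ‖x‖ ∂gam n = (∫ x, a x ∂gam n) * ∫ x, g ‖x‖ ∂gam n

def ConcStmt : Prop :=
  ∀ (n : ℕ) (f : Eu n → ℝ) (L t : ℝ), 0 < L → 0 ≤ t → (∀ x y, |f x - f y| ≤ L * ‖x - y‖) →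
    ∫ x, f x ∂gam n = 0 → (gam n).real {x | t ≤ |f x|} ≤ 2 * exp (-(t ^ 2 / (4 * L ^ 2)))

def SymStmt : Prop :=
  ∀ n : ℕ, Integrable (fun x : Eu n => ‖x‖⁻¹) (gam n) → ∀ i j : Fin n,
    ∫ x, x i * x j / ‖x‖ ^ 3 ∂gam n = if i = j then (∫ x, ‖x‖⁻¹ ∂gam n) / n else 0

def TsaStmt : Prop :=
  ∀ Λ R : ℝ, 1 ≤ Λ → 1 ≤ R → ∃ n0 : ℕ, ∀ n ≥ n0, ∀ k : ℕ, k ^ 8 ≤ n → ∀ p : Eu n → ℝ,
    Tame Λ p → ∀ s1 ∈ Icc 1 R, ∀ s2 ∈ Icc 1 R,
      Gq p k s1 * Gq p k s2 ≤ 16 * Gq p k ((s1 + s2) / 2) ^ 2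

/-- Weak thin shell estimate. -/
def TsStmt : Prop :=
  ∀ (Λ η : ℝ) (J : ℕ), 1 ≤ Λ → 0 < η → ∃ n0 : ℕ, ∀ n ≥ n0, ∀ p : Eu n → ℝ, Tame Λ p → ∀ a : ℝ,
    (mu p).real {x | ‖x‖ ^ 2 ≤ a * n} * (mu p).real {x | (a + η) * n ≤ ‖x‖ ^ 2} ≤ 1 / (n : ℝ) ^ J

def PosStmt : Prop :=
  ∀ Λ : ℝ, 1 ≤ Λ → ∃ (Λ' : ℝ) (n0 : ℕ), 4 ≤ Λ' ∧ ∀ n ≥ n0, ∀ (p h : Eu n → ℝ) (b : ℝ),
    Cmp Λ p h b →
    ∃ (T : Eu n ≃L[ℝ] Eu n) (h' : Eu n → ℝ), Sp Λ' (fun x => p (T.symm x)) h' b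

def KerStmt : Prop :=
  Measurable kk ∧ (∀ ρ : ℝ, |ρ| < 1 → Integrable (kint ρ)) ∧
    ∃ k0 k2 k4 C : ℝ, ∀ ρ : ℝ, |ρ| < 1 →
      |kk ρ - (k0 + k2 * ρ ^ 2 + k4 * ρ ^ 4)| ≤ C * (ρ ^ 6 / (1 - |ρ|) ^ 9)

def TwoAStmt : Prop :=
  ∀ (n : ℕ) (V : Eu n → ℝ) (δ : ℝ), Measurable V →
    Integrable (fun x => V x * (1 + ‖x‖ ^ 2)) (gam n) → 0 < δ →
    Integrable (Gam V δ) (gam n) ∧
      ∫ ξ, Gam V δ ξ ∂gam n = ∫ z, V z.1 * V z.2 * Kd δ z.1 z.2 ∂(gam n).prod (gam n)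

def TwoStmt : Prop :=
  ∀ n ≥ 1, ∀ V : Eu n → ℝ, Measurable V → Integrable (fun x => V x * (1 + ‖x‖ ^ 2)) (gam n) →
    (∀ᵐ z ∂(gam n).prod (gam n), |cs z.1 z.2| < 1) →
    Integrable (qi kk V) ((gam n).prod (gam n)) →
    (∀ δ, 0 < δ → Integrable (Gam V δ) (gam n)) ∧
      Tendsto (fun δ => (n : ℝ) ^ 3 * ∫ ξ, Gam V δ ξ ∂gam n) (𝓝[>] 0) (𝓝 (Qf kk V))

def RemStmt : Prop :=
  ∀ Λ : ℝ, 1 ≤ Λ → ∃ (C : ℝ) (n0 : ℕ), 0 < C ∧ ∀ n ≥ n0, ∀ p : Eu n → ℝ, Tame Λ p →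
    ∀ y : Eu n, y ≠ 0 → (∀ᵐ x ∂mu p, |cs x y| < 1) ∧
      Integrable (fun x => cs x y ^ 6 / (1 - |cs x y|) ^ 9 / ‖x‖ ^ 2) (mu p) ∧
      ∫ x, cs x y ^ 6 / (1 - |cs x y|) ^ 9 / ‖x‖ ^ 2 ∂mu p ≤ C / (n : ℝ) ^ 4

def StepAStmt : Prop :=
  ∀ Λ : ℝ, 4 ≤ Λ → ∃ (C : ℝ) (n0 : ℕ), 0 < C ∧ ∀ n ≥ n0, ∀ (p h : Eu n → ℝ) (b : ℝ),
    Sp Λ p h b → (∀ᵐ z ∂(gam n).prod (gam n), |cs z.1 z.2| < 1) ∧
      Integrable (qi kk (Vf p b)) ((gam n).prod (gam n)) ∧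
      ∀ (D : Set (Eu n)) (ν : ℝ), MeasurableSet D → Integrable (fun x => Vg p b D x ^ 2) (gam n) →
        ∫ x, Vg p b D x ^ 2 ∂gam n ≤ ν → (mu p).real D ≤ ν → NN p b ≤ C * (|Q4 p b| + ν / n)

def Q4BStmt : Prop :=
  ∀ Λ : ℝ, 4 ≤ Λ → ∃ (C : ℝ) (n0 : ℕ), 0 < C ∧ ∀ n ≥ n0, ∀ (p h : Eu n → ℝ) (b : ℝ),
    Sp Λ p h b →
      ∀ (D : Set (Eu n)) (ν : ℝ), MeasurableSet D → Integrable (fun x => Vg p b D x ^ 2) (gam n) →
        ∫ x, Vg p b D x ^ 2 ∂gam n ≤ ν → (mu p).real D ≤ ν →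
        |Q4 p b| ≤ C * (ν / √(n : ℝ) + ν * √√ν)

def Q4CStmt : Prop :=
  ∀ Λ ε : ℝ, 4 ≤ Λ → 0 < ε → ∃ (τ : ℝ) (n0 : ℕ), 0 < τ ∧ ∀ n ≥ n0, ∀ (p h : Eu n → ℝ) (b : ℝ),
    Sp Λ p h b → ∀ D : Set (Eu n), MeasurableSet D → (mu p).real D ≤ τ →
      (∀ x, x ∉ D → Wd p x ≤ exp (τ * n)) → |Q4 p b| ≤ ε

def DerStmt : Prop :=
  ∀ (n : ℕ) (p : Eu n → ℝ) (δ : ℝ), Nrm p → 0 < δ →
    (∀ ξ, HasFDerivAt (A0 p δ) (innerSL ℝ (A1 p δ ξ)) ξ) ∧
    (∀ ξ, HasFDerivAt (A1 p δ) (mc (A2 p δ ξ)) ξ) ∧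
    (∀ i j, Continuous fun ξ => A2 p δ ξ i j)

def DecStmt : Prop :=
  ∀ (n : ℕ) (p : Eu n → ℝ) (b δ : ℝ) (ξ : Eu n), Nrm p → 0 < b → 0 < δ →
    A0 p δ ξ / b = 1 / √(‖ξ‖ ^ 2 + δ ^ 2) + be0 (Vf p b) δ ξ ∧
    (∀ i, A1 p δ ξ i / b = -(ξ i / √(‖ξ‖ ^ 2 + δ ^ 2) ^ 3) + be1 (Vf p b) δ ξ i) ∧
    ∀ i j, A2 p δ ξ i j / b = -((if i = j then 1 else 0) / √(‖ξ‖ ^ 2 + δ ^ 2) ^ 3) +
      3 * (ξ i * ξ j) / √(‖ξ‖ ^ 2 + δ ^ 2) ^ 5 + be2 (Vf p b) δ ξ i j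

def GeoStmt : Prop :=
  ∀ (n : ℕ) (p h : Eu n → ℝ) (b δ : ℝ), BP p h b → 0 < δ →
    Continuous (Ph p b δ) ∧ (∀ i j, Continuous fun ξ => Hm p b δ ξ i j) ∧
    (∀ ξ, HasFDerivAt (Yv p b δ) (mc (Hm p b δ ξ)) ξ) ∧
    (∀ ξ ζ, 0 ≤ ⟪Yv p b δ ξ - Yv p b δ ζ, ξ - ζ⟫) ∧
    (∀ ξ, p (Yv p b δ ξ) ^ 2 ≤ 2 * Ph p b δ ξ) ∧
    ∀ ξ, 2 * Ph p b δ ξ - b / A0 p δ ξ * (b * √(2 * π) * δ) ≤ ⟪ξ, Yv p b δ ξ⟫

def ChainStmt : Prop :=
  ∀ Λ : ℝ, 1 ≤ Λ → ∃ C : ℝ, 0 < C ∧ ∀ n ≥ 1, ∀ (p h : Eu n → ℝ) (b δ : ℝ) (ξ : Eu n) (r G : ℝ),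
    Reg Λ p h b → 0 < δ → r = √(‖ξ‖ ^ 2 + δ ^ 2) → G = C * (r ^ 2 + n) ^ 3 * Gam (Vf p b) δ ξ →
    (Ph p b δ ξ - r ^ 2 / 2) ^ 2 ≤ G ∧ ‖Yv p b δ ξ - ξ‖ ^ 2 ≤ G ∧
    hs (Hm p b δ ξ) ≤ 2 * G + 2 * G ^ 2 ∧ |(Hm p b δ ξ).trace - n| ≤ √G + G ∧
    -(r ^ 3 * be0 (Vf p b) δ ξ) ≤ Ph p b δ ξ - r ^ 2 / 2 ∧
    Ph p b δ ξ - r ^ 2 / 2 ≤ -(r ^ 3 * be0 (Vf p b) δ ξ) + G

/-- The zero order limits used by `PackStmt`. -/
def LimStmt : Prop :=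
  ∀ Λ : ℝ, 4 ≤ Λ → ∃ n0 : ℕ, ∀ n ≥ n0, ∀ (p h : Eu n → ℝ) (b : ℝ), Sp Λ p h b →
    Integrable (fun ξ => psi h ξ ^ 2) (gam n) ∧ Integrable (psi h) (gam n) ∧
    (∀ δ, 0 < δ → Integrable (fun ξ => √(‖ξ‖ ^ 2 + δ ^ 2) ^ 3 * be0 (Vf p b) δ ξ) (gam n)) ∧
    Tendsto (fun δ => ∫ ξ, √(‖ξ‖ ^ 2 + δ ^ 2) ^ 3 * be0 (Vf p b) δ ξ ∂gam n) (𝓝[>] 0) (𝓝 0) ∧
    Tendsto (fun δ => ∫ ξ, (Ph p b δ ξ - (‖ξ‖ ^ 2 + δ ^ 2) / 2) ∂gam n) (𝓝[>] 0)
      (𝓝 (∫ ξ, psi h ξ ∂gam n)) ∧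
    Tendsto (fun δ => ∫ ξ, (Ph p b δ ξ - (‖ξ‖ ^ 2 + δ ^ 2) / 2) ^ 2 ∂gam n) (𝓝[>] 0)
      (𝓝 (∫ ξ, psi h ξ ^ 2 ∂gam n))

def PackStmt : Prop :=
  ∀ Λ : ℝ, 4 ≤ Λ → ∃ (C : ℝ) (n0 : ℕ), 0 < C ∧ ∀ n ≥ n0, ∀ (p h : Eu n → ℝ) (b : ℝ),
    Sp Λ p h b → 0 ≤ NN p b ∧ ∀ ε, 0 < ε → HasPack p h (C * NN p b + ε)

def VolStmt : Prop :=
  ∀ (n : ℕ) (p Φ : Eu n → ℝ) (y : Eu n → Eu n) (H : Eu n → Matrix (Fin n) (Fin n) ℝ)
    (G : Eu n → ℝ) (Λ t κ : ℝ) (S D : Set (Eu n)), Nrm p → 1 ≤ Λ → (∀ x, p x ≤ Λ * ‖x‖) →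
    Pack p Φ y H G → 0 < t → t < 1 → 0 < κ → κ ≤ 1 / 2 → MeasurableSet S → MeasurableSet D →
    (∀ ξ ∈ S, Yt Λ t y ξ ∈ D) → (∀ ξ ∈ S, κ ≤ t / Λ ∨ hs (Mt Λ t (H ξ)) ≤ 1 / 4) →
    ∫⁻ ξ in S, ENNReal.ofReal (exp (-((1 - t) * (Φ ξ - ‖ξ‖ ^ 2 / 2)) +
        ((Mt Λ t (H ξ)).trace - n) - 4 * log (1 / κ) * hs (Mt Λ t (H ξ)))) ∂gam n ≤
      ENNReal.ofReal (mm p * (mu p).real D)

/-- Blaschke-Santalo and Jensen. -/
def SanStmt : Prop :=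
  ∀ (n : ℕ) (p h : Eu n → ℝ) (b : ℝ), BP p h b → Integrable (psi h) (gam n) →
    mm p ≤ exp (∫ ξ, psi h ξ ∂gam n)

def StepBStmt : Prop :=
  ∀ Λ : ℝ, 4 ≤ Λ → ∃ (C ν0 : ℝ) (n0 : ℕ), 0 < C ∧ 0 < ν0 ∧ ∀ n ≥ n0,
    ∀ (p h : Eu n → ℝ) (b : ℝ), Sp Λ p h b → ∀ ν, 0 < ν → ν ≤ ν0 → HasPack p h ν →
      ∃ D : Set (Eu n), MeasurableSet D ∧ (mu p).real D ≤ C * ν ∧
        Integrable (fun x => Vg p b D x ^ 2) (gam n) ∧ ∫ x, Vg p b D x ^ 2 ∂gam n ≤ C * ν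

def StepCStmt : Prop :=
  ∀ Λ ν η : ℝ, 4 ≤ Λ → 0 < ν → 0 < η → ∃ J n0 : ℕ, ∀ n ≥ n0, ∀ (p h : Eu n → ℝ) (b : ℝ),
    Sp Λ p h b → HasPack p h ν →
      1 / (n : ℝ) ^ J ≤ mm p ∧ 1 / (n : ℝ) ^ J ≤ (mu p).real {x | ‖x‖ ^ 2 ≤ (1 + η) * n}

def MainStmt : Prop :=
  ∃ n0 : ℕ, ∀ n ≥ n0, ∀ (p h : Eu n → ℝ) (b : ℝ), BP p h b →
    ∃ T : Eu n ≃L[ℝ] Eu n, ∀ x, p x = ‖T x‖

def BridgeStmt : Prop :=
  ∀ n : ℕ, 3 ≤ n → ∀ K : Set (EuclideanSpace ℝ (Fin n)),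
    IsCompact K → Convex ℝ K → (interior K).Nonempty → (∀ x ∈ K, -x ∈ K) →
    (∃ c : ℝ, 0 < c ∧ K = c • {y : EuclideanSpace ℝ (Fin n) |
        ∀ x ∈ {x : EuclideanSpace ℝ (Fin n) |
          ‖x‖ ≤ (MeasureTheory.Measure.hausdorffMeasure ((n : ℝ) - 1)
                  (K ∩ {z : EuclideanSpace ℝ (Fin n) | inner ℝ x z = 0})).toReal},
          inner ℝ x y ≤ 1}) →
    ∃ (p h : Eu n → ℝ) (b : ℝ), BP p h b ∧ K = {x | p x ≤ 1}

end Pool.Agent.MP_2a44fd_gt.hd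

end MrgPart1

-- ======== part 2: formerly Pool.Agent.MP_2a44fd_gt.hd.Basic1
section MrgPart2

/-!
PROJECT BP5HD: basic facts on `mu`, `gam`, `Wd`, scaling, linear maps.
-/

set_option autoImplicit false

open MeasureTheory Real Set Filter Topology
open scoped RealInnerProductSpace ENNReal

namespace Pool.Agent.MP_2a44fd_gt.hd

variable {n : ℕ} {p h : Eu n → ℝ} {b : ℝ}

theorem Nrm.zero (hp : Nrm p) : p 0 = 0 := by simpa using hp.smul 0 0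

theorem Nrm.neg (hp : Nrm p) (x : Eu n) : p (-x) = p x := by simpa using hp.smul (-1) x

theorem Nrm.nonneg (hp : Nrm p) (x : Eu n) : 0 ≤ p x := by
  obtain ⟨c, hc, h⟩ := hp.low
  exact le_trans (by positivity) (h x)

theorem Nrm.pos (hp : Nrm p) {x : Eu n} (hx : x ≠ 0) : 0 < p x := by
  obtain ⟨c, hc, h⟩ := hp.low
  exact lt_of_lt_of_le (mul_pos hc (norm_pos_iff.2 hx)) (h x)

theorem Nrm.meas (hp : Nrm p) : Measurable p := hp.cont.measurable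

theorem Nrm.smul_nonneg (hp : Nrm p) {c : ℝ} (hc : 0 ≤ c) (x : Eu n) : p (c • x) = c * p x := by
  rw [hp.smul, abs_of_nonneg hc]

theorem Nrm.comb (hp : Nrm p) {s t : ℝ} (hs : 0 ≤ s) (ht : 0 ≤ t) (x y : Eu n) :
    p (s • x + t • y) ≤ s * p x + t * p y := by
  simpa [hp.smul_nonneg hs, hp.smul_nonneg ht] using hp.add (s • x) (t • y)

/-- Convexity of `p^2`. -/
theorem Nrm.sq_comb (hp : Nrm p) {s t : ℝ} (hs : 0 ≤ s) (ht : 0 ≤ t) (hst : s + t = 1)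
    (x y : Eu n) : p (s • x + t • y) ^ 2 ≤ s * p x ^ 2 + t * p y ^ 2 := by
  have h1 := pow_le_pow_left₀ (hp.nonneg _) (hp.comb hs ht x y) 2
  have h2 : t = 1 - s := by linarith
  subst h2
  nlinarith [mul_nonneg (mul_nonneg hs ht) (sq_nonneg (p x - p y))]

theorem Nrm.upper (hp : Nrm p) : ∃ C : ℝ, 0 < C ∧ ∀ x, p x ≤ C * ‖x‖ := by
  obtain ⟨C, hC⟩ := (isCompact_closedBall (0 : Eu n) 1).bddAbove_image hp.cont.continuousOn
  refine ⟨|C| + 1, by positivity, fun x => ?_⟩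
  rcases eq_or_ne x 0 with rfl | hx
  · simp [hp.zero]
  have h0 : 0 < ‖x‖ := norm_pos_iff.2 hx
  have h1 : p (‖x‖⁻¹ • x) ≤ C := hC ⟨_, by simp [norm_smul, h0.ne'], rfl⟩
  rw [hp.smul_nonneg (by positivity), inv_mul_le_iff₀ h0] at h1
  nlinarith [le_abs_self C]

theorem nrm_norm : Nrm fun x : Eu n => ‖x‖ :=
  ⟨continuous_norm, fun c x => by simp [norm_smul], norm_add_le, 1, one_pos, fun x => by simp⟩

theorem int_gauss {a : ℝ} (ha : 0 < a) : Integrable fun x : Eu n => exp (-(a * ‖x‖ ^ 2)) := by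
  have := (GaussianFourier.integrable_cexp_neg_mul_sq_norm_add (V := Eu n) (b := a)
    (by simpa using ha) 0 0).norm
  refine this.congr (Eventually.of_forall fun x => ?_)
  simp [Complex.norm_exp, ← Complex.ofReal_pow]

/-- Gaussian decay beats every exponential. -/
theorem Nrm.int_exp (hp : Nrm p) {a : ℝ} (ha : 0 < a) (L : ℝ) :
    Integrable fun x => exp (L * ‖x‖) * exp (-(a * p x ^ 2)) := by
  obtain ⟨c, hc, h⟩ := hp.low
  have hk : 0 < a * c ^ 2 := by positivity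
  refine ((int_gauss (n := n) (half_pos hk)).const_mul (exp (L ^ 2 / (2 * (a * c ^ 2))))).mono'
    (by have := hp.cont; fun_prop) (Eventually.of_forall fun x => ?_)
  rw [Real.norm_of_nonneg (by positivity), ← exp_add, ← exp_add]
  refine exp_le_exp.2 ?_
  have h1 : (c * ‖x‖) ^ 2 ≤ p x ^ 2 := pow_le_pow_left₀ (by positivity) (h x) 2
  have h2 : a * c ^ 2 * ‖x‖ ^ 2 ≤ a * p x ^ 2 := by nlinarith
  have h3 : L * ‖x‖ ≤ L ^ 2 / (2 * (a * c ^ 2)) + a * c ^ 2 / 2 * ‖x‖ ^ 2 := by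
    generalize a * c ^ 2 = k at hk
    have : L ^ 2 / (2 * k) + k / 2 * ‖x‖ ^ 2 - L * ‖x‖ = (L - k * ‖x‖) ^ 2 / (2 * k) := by
      field_simp; ring
    have h4 : 0 ≤ (L - k * ‖x‖) ^ 2 / (2 * k) := by positivity
    linarith
  linarith

theorem Nrm.int_w (hp : Nrm p) : Integrable fun x => exp (-(p x ^ 2 / 2)) := by
  refine (hp.int_exp (a := 1 / 2) (by norm_num) 0).congr (Eventually.of_forall fun x => ?_)
  simp only [zero_mul, exp_zero, one_mul]; ring_nf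

theorem Nrm.Zc_pos (hp : Nrm p) : 0 < Zc p :=
  integral_exp_pos hp.int_w

theorem Nrm.meas_w (hp : Nrm p) :
    Measurable fun x => ENNReal.ofReal (exp (-(p x ^ 2 / 2)) / Zc p) := by
  have := hp.meas; fun_prop

theorem Nrm.lintegral_mu (hp : Nrm p) {f : Eu n → ℝ≥0∞} (hf : Measurable f) :
    ∫⁻ x, f x ∂mu p = ∫⁻ x, ENNReal.ofReal (exp (-(p x ^ 2 / 2)) / Zc p) * f x :=
  lintegral_withDensity_eq_lintegral_mul _ hp.meas_w hf

theorem Nrm.integral_mu (hp : Nrm p) (f : Eu n → ℝ) :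
    ∫ x, f x ∂mu p = ∫ x, exp (-(p x ^ 2 / 2)) / Zc p * f x := by
  have hZ := hp.Zc_pos
  rw [mu, integral_withDensity_eq_integral_toReal_smul hp.meas_w (by simp)]
  refine integral_congr_ae (Eventually.of_forall fun x => ?_)
  simp only [smul_eq_mul]
  rw [ENNReal.toReal_ofReal (by positivity)]

theorem Nrm.integrable_mu (hp : Nrm p) (f : Eu n → ℝ) :
    Integrable f (mu p) ↔ Integrable fun x => exp (-(p x ^ 2 / 2)) / Zc p * f x := by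
  have hZ := hp.Zc_pos
  rw [mu, integrable_withDensity_iff_integrable_smul' hp.meas_w (by simp)]
  refine integrable_congr (Eventually.of_forall fun x => ?_)
  simp only [smul_eq_mul]
  rw [ENNReal.toReal_ofReal (by positivity)]

theorem Nrm.prob (hp : Nrm p) : IsProbabilityMeasure (mu p) := by
  have hZ := hp.Zc_pos
  constructor
  rw [mu, withDensity_apply _ MeasurableSet.univ, Measure.restrict_univ,
    ← ofReal_integral_eq_lintegral_ofReal (hp.int_w.div_const _)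
      (Eventually.of_forall fun x => by positivity), integral_div]
  change ENNReal.ofReal (Zc p / Zc p) = 1
  rw [div_self hZ.ne', ENNReal.ofReal_one]

instance : IsProbabilityMeasure (gam n) := nrm_norm.prob

theorem mu_ac (p : Eu n → ℝ) : mu p ≪ volume := withDensity_absolutelyContinuous _ _

theorem Nrm.ac_mu (hp : Nrm p) : (volume : Measure (Eu n)) ≪ mu p := by
  have hZ := hp.Zc_pos
  refine withDensity_absolutelyContinuous' hp.meas_w.aemeasurable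
    (Eventually.of_forall fun x => ?_)
  simp only [ne_eq, ENNReal.ofReal_eq_zero, not_le]
  positivity

theorem ae_ne_zero (hn : 1 ≤ n) (p : Eu n → ℝ) : ∀ᵐ x ∂mu p, x ≠ 0 := by
  have : Nontrivial (Eu n) := by
    have : Nonempty (Fin n) := ⟨⟨0, hn⟩⟩
    infer_instance
  refine (mu_ac p).ae_le ?_
  exact compl_mem_ae_iff.2 (measure_singleton (0 : Eu n))

theorem Nrm.int_exp_norm (hp : Nrm p) (L : ℝ) : Integrable (fun x => exp (L * ‖x‖)) (mu p) := by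
  rw [hp.integrable_mu]
  refine ((hp.int_exp (a := 1 / 2) (by norm_num) L).div_const (Zc p)).congr
    (Eventually.of_forall fun x => ?_)
  simp only; rw [show 1 / 2 * p x ^ 2 = p x ^ 2 / 2 by ring]; ring

/-- Everything of exponential growth is integrable. -/
theorem Nrm.int_of_exp (hp : Nrm p) {f : Eu n → ℝ} (hf : AEStronglyMeasurable f (mu p))
    (C L : ℝ) (h : ∀ x, |f x| ≤ C * exp (L * ‖x‖)) : Integrable f (mu p) :=
  ((hp.int_exp_norm L).const_mul C).mono' hf (Eventually.of_forall h)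

/-- Everything of polynomial growth is integrable. -/
theorem Nrm.int_of_poly (hp : Nrm p) {f : Eu n → ℝ} (hf : AEStronglyMeasurable f (mu p))
    (C : ℝ) (k : ℕ) (h : ∀ x, |f x| ≤ C * (1 + ‖x‖) ^ k) : Integrable f (mu p) := by
  refine hp.int_of_exp hf |C| k fun x => (h x).trans ?_
  rw [exp_nat_mul]
  exact mul_le_mul (le_abs_self C)
    (pow_le_pow_left₀ (by positivity) (by linarith [add_one_le_exp ‖x‖]) k) (by positivity)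
    (abs_nonneg C)

theorem Nrm.int_norm_pow (hp : Nrm p) (k : ℕ) : Integrable (fun x => ‖x‖ ^ k) (mu p) :=
  hp.int_of_poly (by fun_prop) 1 k fun x => by
    rw [abs_of_nonneg (by positivity), one_mul]
    exact pow_le_pow_left₀ (norm_nonneg _) (by linarith) k

theorem Nrm.int_inner_pow (hp : Nrm p) (v : Eu n) (k : ℕ) :
    Integrable (fun x => ⟪x, v⟫ ^ k) (mu p) :=
  hp.int_of_poly (by fun_prop) (‖v‖ ^ k) k fun x => by
    rw [abs_pow, ← mul_pow]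
    refine pow_le_pow_left₀ (abs_nonneg _) ((abs_real_inner_le_norm x v).trans ?_) k
    nlinarith [norm_nonneg v, norm_nonneg x]

theorem Zc_norm : (Zc fun x : Eu n => ‖x‖) = √(2 * π) ^ n := by
  have := GaussianFourier.integral_rexp_neg_mul_sq_norm (V := Eu n) (b := 1 / 2) (by norm_num)
  rw [Zc, show (fun x : Eu n => exp (-(‖x‖ ^ 2 / 2))) = fun x => exp (-(1 / 2) * ‖x‖ ^ 2) from
    funext fun x => by ring_nf, this, finrank_euclideanSpace_fin, sqrt_eq_rpow, ← rpow_natCast,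
    ← rpow_mul (by positivity)]
  congr 1 <;> ring

theorem Nrm.mm_pos (hp : Nrm p) : 0 < mm p := div_pos hp.Zc_pos nrm_norm.Zc_pos

theorem Nrm.Wd_pos (hp : Nrm p) (x : Eu n) : 0 < Wd p x := div_pos (exp_pos _) hp.mm_pos

theorem Nrm.Wd_cont (hp : Nrm p) : Continuous (Wd p) := by
  have := hp.cont; unfold Wd; fun_prop

theorem Nrm.w_eq (hp : Nrm p) (x : Eu n) : exp (-(p x ^ 2 / 2)) / Zc p =
    exp (-(‖x‖ ^ 2 / 2)) / (Zc fun x : Eu n => ‖x‖) * Wd p x := by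
  have h1 := hp.Zc_pos
  have h2 := (nrm_norm (n := n)).Zc_pos
  rw [Wd, mm, show -(p x ^ 2 / 2) = -(‖x‖ ^ 2 / 2) + (‖x‖ ^ 2 / 2 - p x ^ 2 / 2) by ring, exp_add]
  field_simp

theorem Nrm.integral_gam (hp : Nrm p) (f : Eu n → ℝ) :
    ∫ x, f x ∂mu p = ∫ x, Wd p x * f x ∂gam n := by
  rw [hp.integral_mu, gam, nrm_norm.integral_mu]
  simp only [hp.w_eq, mul_assoc]

theorem Nrm.integrable_gam (hp : Nrm p) (f : Eu n → ℝ) :
    Integrable f (mu p) ↔ Integrable (fun x => Wd p x * f x) (gam n) := by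
  rw [hp.integrable_mu, gam, nrm_norm.integrable_mu]
  simp only [hp.w_eq, mul_assoc]

theorem Nrm.lintegral_gam (hp : Nrm p) {f : Eu n → ℝ≥0∞} (hf : Measurable f) :
    ∫⁻ x, f x ∂mu p = ∫⁻ x, ENNReal.ofReal (Wd p x) * f x ∂gam n := by
  have := hp.Wd_cont
  have h2 := (nrm_norm (n := n)).Zc_pos
  rw [hp.lintegral_mu hf, gam, nrm_norm.lintegral_mu (by fun_prop)]
  refine lintegral_congr fun x => ?_
  rw [hp.w_eq, ENNReal.ofReal_mul (by positivity), mul_assoc]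

theorem Nrm.real_eq (hp : Nrm p) {D : Set (Eu n)} (hD : MeasurableSet D) :
    (mu p).real D = ∫ x, D.indicator (Wd p) x ∂gam n := by
  rw [← integral_indicator_one hD, hp.integral_gam]
  refine integral_congr_ae (Eventually.of_forall fun x => ?_)
  by_cases hx : x ∈ D <;> simp [hx]

/-- Scaling. -/
theorem Nrm.integral_scale (hp : Nrm p) {c : ℝ} (hc : 0 < c) (f : Eu n → ℝ) :
    ∫ x, exp ((1 - c ^ 2) * p x ^ 2 / 2) * f x ∂mu p = (c ^ n)⁻¹ * ∫ x, f (c⁻¹ • x) ∂mu p := by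
  rw [hp.integral_mu, hp.integral_mu]
  have := Measure.integral_comp_smul (μ := (volume : Measure (Eu n)))
    (fun x => exp (-(p x ^ 2 / 2)) / Zc p * f (c⁻¹ • x)) c
  rw [finrank_euclideanSpace_fin, abs_of_nonneg (by positivity), smul_eq_mul] at this
  rw [← this]
  refine integral_congr_ae (Eventually.of_forall fun x => ?_)
  simp only [hp.smul_nonneg hc.le, inv_smul_smul₀ hc.ne']
  rw [show -((c * p x) ^ 2 / 2) = -(p x ^ 2 / 2) + (1 - c ^ 2) * p x ^ 2 / 2 by ring, exp_add]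
  ring

theorem Nrm.integrable_scale (hp : Nrm p) {c : ℝ} (hc : 0 < c) (f : Eu n → ℝ) :
    Integrable (fun x => exp ((1 - c ^ 2) * p x ^ 2 / 2) * f x) (mu p) ↔
      Integrable (fun x => f (c⁻¹ • x)) (mu p) := by
  rw [hp.integrable_mu, hp.integrable_mu,
    ← integrable_comp_smul_iff volume (fun x => exp (-(p x ^ 2 / 2)) / Zc p * f (c⁻¹ • x)) hc.ne']
  refine integrable_congr (Eventually.of_forall fun x => ?_)
  simp only [hp.smul_nonneg hc.le, inv_smul_smul₀ hc.ne']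
  rw [show -((c * p x) ^ 2 / 2) = -(p x ^ 2 / 2) + (1 - c ^ 2) * p x ^ 2 / 2 by ring, exp_add]
  ring

/-- Moment generating function of `p^2`. -/
theorem Nrm.mgf (hp : Nrm p) {c : ℝ} (hc : 0 < c) :
    Integrable (fun x => exp ((1 - c ^ 2) * p x ^ 2 / 2)) (mu p) ∧
      ∫ x, exp ((1 - c ^ 2) * p x ^ 2 / 2) ∂mu p = (c ^ n)⁻¹ := by
  have := hp.prob
  have h1 := (hp.integrable_scale hc fun _ => 1).2 (integrable_const _)
  have h2 := hp.integral_scale hc fun _ => 1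
  simp only [mul_one] at h1 h2
  exact ⟨h1, by simpa using h2⟩

/-! Linear changes of variables. -/

theorem Nrm.gl (hp : Nrm p) (T : Eu n ≃L[ℝ] Eu n) : Nrm fun x => p (T.symm x) := by
  obtain ⟨c, hc, h⟩ := hp.low
  refine ⟨hp.cont.comp T.symm.continuous, fun c x => by rw [map_smul, hp.smul],
    fun x y => by rw [map_add]; exact hp.add _ _, c / (‖(T : Eu n →L[ℝ] Eu n)‖ + 1),
    by positivity, fun x => le_trans ?_ (h _)⟩
  have h1 : ‖x‖ ≤ ‖(T : Eu n →L[ℝ] Eu n)‖ * ‖T.symm x‖ := by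
    simpa using (T : Eu n →L[ℝ] Eu n).le_opNorm (T.symm x)
  rw [div_mul_eq_mul_div, div_le_iff₀ (by positivity)]
  nlinarith [norm_nonneg (T.symm x)]

theorem lintegral_gl (T : Eu n ≃L[ℝ] Eu n) {f : Eu n → ℝ≥0∞} (hf : Measurable f) :
    ∫⁻ x, f x = ENNReal.ofReal |LinearMap.det (T : Eu n →ₗ[ℝ] Eu n)| * ∫⁻ x, f (T x) := by
  have hd : LinearMap.det (T : Eu n →ₗ[ℝ] Eu n) ≠ 0 := T.toLinearEquiv.isUnit_det'.ne_zero
  have h1 := Measure.map_linearMap_addHaar_eq_smul_addHaar (volume : Measure (Eu n)) hd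
  have h2 := lintegral_map (μ := (volume : Measure (Eu n))) hf
    (g := (T : Eu n →ₗ[ℝ] Eu n)) T.continuous.measurable
  rw [h1, lintegral_smul_measure, smul_eq_mul] at h2
  change _ = _ * ∫⁻ x, f ((T : Eu n →ₗ[ℝ] Eu n) x)
  rw [← h2, ← mul_assoc, ← ENNReal.ofReal_mul (abs_nonneg _), ← abs_mul, mul_inv_cancel₀ hd]
  simp

theorem Nrm.Zc_gl (hp : Nrm p) (T : Eu n ≃L[ℝ] Eu n) :
    (Zc fun x => p (T.symm x)) = |LinearMap.det (T : Eu n →ₗ[ℝ] Eu n)| * Zc p := by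
  have h1 := lintegral_gl T (f := fun x => ENNReal.ofReal (exp (-(p (T.symm x) ^ 2 / 2))))
    (((hp.gl T).meas.pow_const 2).div_const 2).neg.exp.ennreal_ofReal
  simp only [ContinuousLinearEquiv.symm_apply_apply] at h1
  rw [← ofReal_integral_eq_lintegral_ofReal (hp.gl T).int_w
      (Eventually.of_forall fun x => by positivity),
    ← ofReal_integral_eq_lintegral_ofReal hp.int_w (Eventually.of_forall fun x => by positivity),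
    ← ENNReal.ofReal_mul (abs_nonneg _)] at h1
  exact (ENNReal.ofReal_eq_ofReal_iff (hp.gl T).Zc_pos.le
    (mul_nonneg (abs_nonneg _) hp.Zc_pos.le)).1 h1

theorem Nrm.mu_gl (hp : Nrm p) (T : Eu n ≃L[ℝ] Eu n) :
    (mu fun x => p (T.symm x)) = (mu p).map T := by
  have hd : LinearMap.det (T : Eu n →ₗ[ℝ] Eu n) ≠ 0 := T.toLinearEquiv.isUnit_det'.ne_zero
  have hZ := hp.Zc_pos
  refine Measure.ext_of_lintegral _ fun f hf => ?_
  have hT := T.continuous.measurable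
  rw [(hp.gl T).lintegral_mu hf, lintegral_map hf hT, hp.lintegral_mu (f := fun a => f (T a)) (hf.comp hT),
    lintegral_gl T ((hp.gl T).meas_w.fun_mul hf), ← lintegral_const_mul' _ _ (by simp)]
  refine lintegral_congr fun x => ?_
  simp only [ContinuousLinearEquiv.symm_apply_apply]
  rw [← mul_assoc, ← ENNReal.ofReal_mul (abs_nonneg _), hp.Zc_gl]
  have : 0 < |LinearMap.det (T : Eu n →ₗ[ℝ] Eu n)| := abs_pos.2 hd
  congr 2
  field_simp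

theorem Nrm.integral_gl (hp : Nrm p) (T : Eu n ≃L[ℝ] Eu n) (f : Eu n → ℝ) :
    ∫ x, f x ∂(mu fun x => p (T.symm x)) = ∫ x, f (T x) ∂mu p := by
  rw [hp.mu_gl]
  exact T.toHomeomorph.measurableEmbedding.integral_map f

theorem Nrm.integrable_gl (hp : Nrm p) (T : Eu n ≃L[ℝ] Eu n) (f : Eu n → ℝ) :
    Integrable f (mu fun x => p (T.symm x)) ↔ Integrable (fun x => f (T x)) (mu p) := by
  rw [hp.mu_gl]
  exact T.toHomeomorph.measurableEmbedding.integrable_map_iff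

theorem integral_gam_iso (R : Eu n ≃ₗᵢ[ℝ] Eu n) (f : Eu n → ℝ) :
    ∫ x, f (R x) ∂gam n = ∫ x, f x ∂gam n := by
  have := nrm_norm.integral_gl R.toContinuousLinearEquiv f
  have e : (fun x => ‖R.toContinuousLinearEquiv.symm x‖) = fun x : Eu n => ‖x‖ :=
    funext fun x => R.symm.norm_map x
  rw [e] at this
  exact this.symm

theorem Nrm.integral_neg (hp : Nrm p) (f : Eu n → ℝ) : ∫ x, f (-x) ∂mu p = ∫ x, f x ∂mu p := by
  have := hp.integral_gl (ContinuousLinearEquiv.neg ℝ) f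
  simp only [ContinuousLinearEquiv.symm_neg, ContinuousLinearEquiv.neg_apply, hp.neg] at this
  exact this.symm

/-- The transpose of `T`. -/
noncomputable def tp (T : Eu n ≃L[ℝ] Eu n) : Eu n →L[ℝ] Eu n :=
  ContinuousLinearMap.adjoint (T : Eu n →L[ℝ] Eu n)

theorem inner_tp (T : Eu n ≃L[ℝ] Eu n) (x ξ : Eu n) : ⟪x, tp T ξ⟫ = ⟪T x, ξ⟫ :=
  ContinuousLinearMap.adjoint_inner_right _ _ _

theorem tp_symm_tp (T : Eu n ≃L[ℝ] Eu n) (ξ : Eu n) : tp T.symm (tp T ξ) = ξ :=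
  ext_inner_left ℝ fun x => by rw [inner_tp, inner_tp]; simp

theorem tp_tp_symm (T : Eu n ≃L[ℝ] Eu n) (ξ : Eu n) : tp T (tp T.symm ξ) = ξ := by
  simpa using tp_symm_tp T.symm ξ

theorem tp_ne_zero (T : Eu n ≃L[ℝ] Eu n) {ξ : Eu n} (hξ : ξ ≠ 0) : tp T ξ ≠ 0 := fun h0 =>
  hξ (by rw [← tp_symm_tp T ξ, h0, map_zero])

theorem Nrm.A0_gl (hp : Nrm p) (T : Eu n ≃L[ℝ] Eu n) (δ : ℝ) (ξ : Eu n) :
    A0 (fun x => p (T.symm x)) δ ξ = A0 p δ (tp T ξ) := by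
  simp only [A0, hp.integral_gl, inner_tp]

theorem BP.gl (H : BP p h b) (T : Eu n ≃L[ℝ] Eu n) :
    BP (fun x => p (T.symm x)) (fun ξ => h (tp T ξ)) b where
  nrm := H.nrm.gl T
  hcont := H.hcont.comp (tp T).continuous
  hsmul c ξ := by rw [map_smul, H.hsmul]
  hpos ξ hξ := H.hpos _ (tp_ne_zero T hξ)
  d1 x ξ := by simpa [inner_tp] using H.d1 (T.symm x) (tp T ξ)
  d2 y hy := H.d2 _ fun ζ => by
    have := hy (tp T.symm ζ)
    rwa [inner_tp, tp_tp_symm] at this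
  bpos := H.bpos
  lim ξ hξ := by simpa only [H.nrm.A0_gl] using H.lim _ (tp_ne_zero T hξ)

theorem BP.h_zero (H : BP p h b) : h 0 = 0 := by simpa using H.hsmul 0 0

theorem BP.h_nonneg (H : BP p h b) (ξ : Eu n) : 0 ≤ h ξ := by
  rcases eq_or_ne ξ 0 with rfl | hξ
  · exact H.h_zero.ge
  · exact (H.hpos ξ hξ).le

theorem Cmp.mono {Λ Λ' : ℝ} (H : Cmp Λ p h b) (hΛ : Λ ≤ Λ') : Cmp Λ' p h b where
  bp := H.bp
  hlo ξ := (H.hlo ξ).trans (mul_le_mul_of_nonneg_right hΛ (H.bp.h_nonneg ξ))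
  hhi ξ := (H.hhi ξ).trans (mul_le_mul_of_nonneg_right hΛ (norm_nonneg ξ))
  blo := H.blo.trans (mul_le_mul_of_nonneg_right hΛ H.bp.bpos.le)
  bhi := H.bhi.trans hΛ

theorem Nrm.int_exp_inner (hp : Nrm p) (v : Eu n) (a : ℝ) :
    Integrable (fun x => exp (a * |⟪x, v⟫|)) (mu p) :=
  hp.int_of_exp (by fun_prop) 1 (|a| * ‖v‖) fun x => by
    rw [abs_of_pos (exp_pos _), one_mul]
    refine exp_le_exp.2 ((mul_le_mul_of_nonneg_right (le_abs_self a) (abs_nonneg _)).trans ?_)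
    rw [mul_assoc, mul_comm ‖v‖]
    exact mul_le_mul_of_nonneg_left (abs_real_inner_le_norm x v) (abs_nonneg a)

theorem Tame.mono {Λ Λ' : ℝ} (H : Tame Λ p) (h0 : 0 < Λ) (hΛ : Λ ≤ Λ') : Tame Λ' p where
  nrm := H.nrm
  lo x := (H.lo x).trans (mul_le_mul_of_nonneg_right hΛ (H.nrm.nonneg x))
  hi x := (H.hi x).trans (mul_le_mul_of_nonneg_right hΛ (norm_nonneg x))
  psi v hv := by
    refine le_trans (integral_mono ?_ ?_ fun x => exp_le_exp.2 ?_) ((H.psi v hv).trans hΛ)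
    · simpa only [div_eq_inv_mul] using H.nrm.int_exp_inner v Λ'⁻¹
    · simpa only [div_eq_inv_mul] using H.nrm.int_exp_inner v Λ⁻¹
    · exact div_le_div_of_nonneg_left (abs_nonneg _) h0 hΛ

theorem mc_apply (M : Matrix (Fin n) (Fin n) ℝ) (v : Eu n) (i : Fin n) :
    mc M v i = ∑ j, M i j * v j := rfl

theorem det_mc (M : Matrix (Fin n) (Fin n) ℝ) : (mc M).det = M.det :=
  LinearMap.det_toLpLin 2 M

theorem inner_eq_sum (x y : Eu n) : ⟪x, y⟫ = ∑ i, x i * y i := by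
  simp [PiLp.inner_apply, mul_comm]

theorem norm_sq_eq_sum (x : Eu n) : ‖x‖ ^ 2 = ∑ i, x i ^ 2 := by
  rw [← real_inner_self_eq_norm_sq, inner_eq_sum]; simp only [sq]

theorem abs_coord_le (x : Eu n) (i : Fin n) : |x i| ≤ ‖x‖ := PiLp.norm_apply_le x i

theorem abs_cs_le (x y : Eu n) : |cs x y| ≤ 1 := abs_real_inner_div_norm_mul_norm_le_one x y

theorem cs_comm (x y : Eu n) : cs x y = cs y x := by rw [cs, cs, real_inner_comm, mul_comm]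

theorem meas_cs : Measurable fun z : Eu n × Eu n => cs z.1 z.2 := by unfold cs; fun_prop

theorem lam_pos (hb : 0 < b) : 0 < lam b := by unfold lam; positivity

theorem Cmp.lam_le {Λ : ℝ} (H : Cmp Λ p h b) : lam b ≤ Λ := by
  have hb := H.bp.bpos
  have h1 : 1 ≤ √(2 * π) := one_le_sqrt.2 (by linarith [two_le_pi])
  rw [lam, div_le_iff₀ (by positivity)]
  nlinarith [H.blo]

theorem Cmp.le_lam {Λ : ℝ} (H : Cmp Λ p h b) : 1 ≤ 3 * Λ * lam b := by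
  have hb := H.bp.bpos
  have h1 : √(2 * π) ≤ 3 := sqrt_le_iff.2 ⟨by norm_num, by linarith [pi_le_four]⟩
  have h2 : 0 < √(2 * π) := by positivity
  rw [lam, mul_one_div, le_div_iff₀ (by positivity)]
  nlinarith [H.bhi]

theorem Nrm.Vf_cont (hp : Nrm p) (b : ℝ) : Continuous (Vf p b) := by
  have := hp.Wd_cont; unfold Vf; fun_prop

theorem Nrm.Vg_meas (hp : Nrm p) (b : ℝ) {D : Set (Eu n)} (hD : MeasurableSet D) :
    Measurable (Vg p b D) :=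
  ((hp.Wd_cont.measurable.const_mul _).indicator hD.compl).sub_const _

theorem Vf_eq (p : Eu n → ℝ) (b : ℝ) (D : Set (Eu n)) (x : Eu n) :
    Vf p b x = Vg p b D x + D.indicator (fun x => lam b * Wd p x) x := by
  by_cases hx : x ∈ D <;> simp [Vf, Vg, hx, sub_eq_neg_add]

theorem Vg_univ (p : Eu n → ℝ) (b : ℝ) (x : Eu n) : Vg p b univ x = -1 := by simp [Vg]

/-- Integration against `Vf`. -/
theorem Nrm.int_Vf (hp : Nrm p) (b : ℝ) {f : Eu n → ℝ} (h1 : Integrable f (mu p))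
    (h2 : Integrable f (gam n)) : Integrable (fun x => Vf p b x * f x) (gam n) ∧
      ∫ x, Vf p b x * f x ∂gam n = lam b * ∫ x, f x ∂mu p - ∫ x, f x ∂gam n := by
  have h3 := ((hp.integrable_gam f).1 h1).const_mul (lam b)
  have e : (fun x => Vf p b x * f x) = fun x => lam b * (Wd p x * f x) - f x :=
    funext fun x => by rw [Vf]; ring
  rw [e]
  exact ⟨h3.sub h2, by rw [integral_sub h3 h2, integral_const_mul, hp.integral_gam]⟩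

theorem Nrm.int_Vf_sq (hp : Nrm p) (b : ℝ) :
    Integrable (fun x => Vf p b x * (1 + ‖x‖ ^ 2)) (gam n) := by
  have := hp.prob
  exact (hp.int_Vf b ((integrable_const _).add (hp.int_norm_pow 2))
    ((integrable_const _).add (nrm_norm.int_norm_pow 2))).1

end Pool.Agent.MP_2a44fd_gt.hd

end MrgPart2

-- ======== part 3: formerly Pool.Agent.MP_2a44fd_gt.hd.Basic2
section MrgPart3

/-!
PROJECT BP5HD: Gaussian integrals, the kernel `gk`, the section function `A0`, splitting.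
-/

set_option autoImplicit false

open MeasureTheory Real Set Filter Topology
open scoped RealInnerProductSpace ENNReal

namespace Pool.Agent.MP_2a44fd_gt.hd

variable {n : ℕ} {p h : Eu n → ℝ} {b δ : ℝ}

theorem gam_cexp (c : ℂ) (z : Eu n) :
    ∫ x, Complex.exp (c * (⟪z, x⟫ : ℝ)) ∂gam n = Complex.exp (c ^ 2 * (‖z‖ ^ 2 / 2 : ℝ)) := by
  have hZ := (nrm_norm (n := n)).Zc_pos
  have h1 := GaussianFourier.integral_cexp_neg_mul_sq_norm_add (V := Eu n) (b := 1 / 2)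
    (by norm_num) c z
  have h2 := GaussianFourier.integral_cexp_neg_mul_sq_norm_add (V := Eu n) (b := 1 / 2)
    (by norm_num) 0 z
  have h3 : ((Zc fun x : Eu n => ‖x‖ : ℝ) : ℂ) =
      ∫ v : Eu n, Complex.exp (-(1 / 2 : ℂ) * (‖v‖ : ℂ) ^ 2 + 0 * (⟪z, v⟫ : ℝ)) := by
    rw [Zc, ← integral_complex_ofReal]
    refine integral_congr_ae (Eventually.of_forall fun x => ?_)
    simp only [Complex.ofReal_exp]; push_cast; ring_nf
  rw [gam, mu, integral_withDensity_eq_integral_toReal_smul nrm_norm.meas_w (by simp)]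
  have e : ∀ x : Eu n, (ENNReal.ofReal (exp (-(‖x‖ ^ 2 / 2)) / Zc fun x : Eu n => ‖x‖)).toReal •
      Complex.exp (c * (⟪z, x⟫ : ℝ)) = Complex.exp (-(1 / 2 : ℂ) * (‖x‖ : ℂ) ^ 2 +
        c * (⟪z, x⟫ : ℝ)) / (Zc fun x : Eu n => ‖x‖ : ℝ) := fun x => by
    rw [ENNReal.toReal_ofReal (by positivity), Complex.real_smul, Complex.exp_add]
    push_cast
    rw [show -((‖x‖ : ℂ) ^ 2 / 2) = -(1 / 2 : ℂ) * (‖x‖ : ℂ) ^ 2 by ring]
    ring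
  have hZ' : ((Zc fun x : Eu n => ‖x‖ : ℝ) : ℂ) ≠ 0 := by exact_mod_cast hZ.ne'
  simp only [e]
  rw [integral_div, div_eq_iff hZ', h1, h3, h2]
  push_cast
  simp only [ne_eq, OfNat.ofNat_ne_zero, not_false_eq_true, zero_pow, zero_mul, zero_div,
    Complex.exp_zero, mul_one]
  rw [mul_comm]
  congr 2
  ring

theorem gam_cis (z : Eu n) : ∫ x, Complex.exp (Complex.I * (⟪z, x⟫ : ℝ)) ∂gam n =
    (exp (-(‖z‖ ^ 2 / 2)) : ℝ) := by
  rw [gam_cexp, Complex.I_sq]; push_cast; ring_nf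

theorem int_cis (z : Eu n) :
    Integrable (fun x => Complex.exp (Complex.I * (⟪z, x⟫ : ℝ))) (gam n) :=
  (integrable_const (1 : ℝ)).mono' (by fun_prop) (Eventually.of_forall fun x => by
    rw [mul_comm, Complex.norm_exp_ofReal_mul_I])

theorem gam_cos (z : Eu n) : ∫ x, cos ⟪z, x⟫ ∂gam n = exp (-(‖z‖ ^ 2 / 2)) := by
  have := integral_re (int_cis z)
  rw [gam_cis] at this
  simpa [mul_comm Complex.I, Complex.exp_ofReal_mul_I_re, -Complex.ofReal_exp] using this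

theorem gam_sin (z : Eu n) : ∫ x, sin ⟪z, x⟫ ∂gam n = 0 := by
  have := integral_im (int_cis z)
  rw [gam_cis] at this
  simpa [mul_comm Complex.I, Complex.exp_ofReal_mul_I_im, -Complex.ofReal_exp] using this

theorem gam_exp (z : Eu n) : ∫ x, exp ⟪z, x⟫ ∂gam n = exp (‖z‖ ^ 2 / 2) := by
  have := gam_cexp 1 z
  simp only [one_mul, one_pow, ← Complex.ofReal_exp, integral_complex_ofReal] at this
  exact_mod_cast this

theorem int_gam_exp (z : Eu n) : Integrable (fun x => exp ⟪z, x⟫) (gam n) :=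
  nrm_norm.int_of_exp (by fun_prop) 1 ‖z‖ fun x => by
    rw [abs_of_pos (exp_pos _), one_mul]; exact exp_le_exp.2 (real_inner_le_norm z x)

theorem tame_gam : Tame 4 fun x : Eu n => ‖x‖ where
  nrm := nrm_norm
  lo x := by linarith [norm_nonneg x]
  hi x := by linarith [norm_nonneg x]
  psi v hv := by
    have h1 := int_gam_exp ((1 / 4 : ℝ) • v)
    have h2 := int_gam_exp (-((1 / 4 : ℝ) • v))
    have h3 : exp (‖(1 / 4 : ℝ) • v‖ ^ 2 / 2) ≤ 2 := by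
      rw [norm_smul, hv]
      have := exp_one_lt_d9
      have h4 : exp (1 / 2) ^ 2 = exp 1 := by rw [← exp_nat_mul]; norm_num
      have h5 : exp (1 / 2) ≤ 2 := by nlinarith [exp_pos (1 / 2)]
      exact le_trans (exp_le_exp.2 (by norm_num)) h5
    refine (integral_mono (g := fun x => exp ⟪(1 / 4 : ℝ) • v, x⟫ + exp ⟪-((1 / 4 : ℝ) • v), x⟫)
      ?_ (h1.add h2) fun x => ?_).trans ?_
    · simpa only [div_eq_inv_mul, gam] using nrm_norm.int_exp_inner v 4⁻¹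
    · simp only [inner_neg_left, real_inner_smul_left, real_inner_comm x v]
      have a1 := exp_pos (1 / 4 * ⟪x, v⟫)
      have a2 := exp_pos (-(1 / 4 * ⟪x, v⟫))
      rcases abs_cases ⟪x, v⟫ with h | h <;> rw [h.1]
      · rw [show ⟪x, v⟫ / 4 = 1 / 4 * ⟪x, v⟫ by ring]; linarith
      · rw [show -⟪x, v⟫ / 4 = -(1 / 4 * ⟪x, v⟫) by ring]; linarith
    · rw [integral_add h1 h2, gam_exp, gam_exp, norm_neg]; linarith

/-- One-dimensional Gaussian Fourier transform. -/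
theorem fourier_gauss {a : ℝ} (ha : 0 < a) (t : ℝ) :
    ∫ s : ℝ, cos (s * t) * exp (-(a * s ^ 2 / 2)) = √(2 * π / a) * exp (-(t ^ 2 / (2 * a))) := by
  have h1 := fourierIntegral_gaussian (b := (a / 2 : ℝ)) (by simpa using ha) t
  have h2 : Integrable fun x : ℝ =>
      Complex.exp (Complex.I * t * x) * Complex.exp (-((a / 2 : ℝ) : ℂ) * x ^ 2) := by
    refine (integrable_cexp_neg_mul_sq (b := (a / 2 : ℝ)) (by simpa using ha)).bdd_mul (c := 1)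
      (by fun_prop) (Eventually.of_forall fun x => ?_)
    rw [mul_assoc, mul_comm, ← Complex.ofReal_mul, Complex.norm_exp_ofReal_mul_I]
  have h3 := integral_re h2
  have h4 : ((π : ℂ) / (a / 2 : ℝ)) ^ (1 / 2 : ℂ) * Complex.exp (-(t : ℂ) ^ 2 / (4 * (a / 2 : ℝ))) =
      (√(2 * π / a) * exp (-(t ^ 2 / (2 * a))) : ℝ) := by
    rw [sqrt_eq_rpow, Complex.ofReal_mul, Complex.ofReal_cpow (by positivity)]
    push_cast
    congr 2 <;> ring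
  rw [h1, h4] at h3
  simp only [RCLike.re_to_complex, Complex.ofReal_re] at h3
  rw [← h3]
  refine integral_congr_ae (Eventually.of_forall fun x => ?_)
  have e1 : Complex.I * t * x = ((x * t : ℝ) : ℂ) * Complex.I := by push_cast; ring
  have e2 : -((a / 2 : ℝ) : ℂ) * x ^ 2 = ((-(a * x ^ 2 / 2) : ℝ) : ℂ) := by push_cast; ring
  simp only [e1, e2, ← Complex.ofReal_exp, Complex.re_mul_ofReal, Complex.exp_ofReal_mul_I_re]

theorem int_gauss1 {a : ℝ} (ha : 0 < a) : Integrable fun s : ℝ => exp (-(a * s ^ 2 / 2)) := by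
  refine (integrable_exp_neg_mul_sq (half_pos ha)).congr (Eventually.of_forall fun x => ?_)
  simp only; ring_nf

theorem int_pow_gauss1 {a : ℝ} (ha : 0 < a) (k : ℕ) :
    Integrable fun s : ℝ => s ^ k * exp (-(a * s ^ 2 / 2)) := by
  have := integrable_rpow_mul_exp_neg_mul_sq (half_pos ha) (s := k)
    (lt_of_lt_of_le (by norm_num) (Nat.cast_nonneg k))
  refine this.congr (Eventually.of_forall fun x => ?_)
  simp only [rpow_natCast]; ring_nf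

theorem sqrt_two_pi_pos : 0 < √(2 * π) := by positivity

theorem gk_pos (hδ : 0 < δ) (t : ℝ) : 0 < gk δ t := by unfold gk; positivity

theorem gk_le (hδ : 0 < δ) (t : ℝ) : gk δ t ≤ 1 / (√(2 * π) * δ) :=
  div_le_div_of_nonneg_right (exp_le_one_iff.2 (neg_nonpos.2 (by positivity))) (by positivity)

theorem gk_zero (δ : ℝ) : gk δ 0 = 1 / (√(2 * π) * δ) := by simp [gk]

theorem gk_neg (δ t : ℝ) : gk δ (-t) = gk δ t := by simp [gk]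

@[fun_prop] theorem gk_cont (δ : ℝ) : Continuous (gk δ) := by unfold gk; fun_prop

@[fun_prop] theorem gk1_cont (δ : ℝ) : Continuous (gk1 δ) := by unfold gk1; fun_prop

@[fun_prop] theorem gk2_cont (δ : ℝ) : Continuous (gk2 δ) := by unfold gk2; fun_prop

theorem gk_fourier (hδ : 0 < δ) (t : ℝ) :
    gk δ t = (2 * π)⁻¹ * ∫ s : ℝ, cos (s * t) * exp (-(δ ^ 2 * s ^ 2 / 2)) := by
  have h := sqrt_two_pi_pos
  have h2 : √(2 * π) ^ 2 = 2 * π := sq_sqrt (by positivity)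
  rw [fourier_gauss (by positivity), sqrt_div (by positivity), sqrt_sq hδ.le, gk, ← h2,
    sqrt_sq h.le]
  field_simp

theorem gk_int (hδ : 0 < δ) : Integrable (gk δ) := by
  refine ((int_gauss1 (a := 1 / δ ^ 2) (by positivity)).div_const (√(2 * π) * δ)).congr
    (Eventually.of_forall fun x => ?_)
  simp only [gk]; ring_nf

theorem integral_gk (hδ : 0 < δ) : ∫ t, gk δ t = 1 := by
  have h := sqrt_two_pi_pos
  have := fourier_gauss (a := 1 / δ ^ 2) (by positivity) 0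
  simp only [mul_zero, cos_zero, one_mul] at this
  have e : gk δ = fun t => exp (-(1 / δ ^ 2 * t ^ 2 / 2)) / (√(2 * π) * δ) :=
    funext fun t => by rw [gk]; ring_nf
  rw [e, integral_div, this, div_div_eq_mul_div, div_one, sqrt_mul (by positivity), sqrt_sq hδ.le]
  simp [hδ.ne', pi_pos.le, pi_pos.ne']

theorem hasDerivAt_gk (hδ : 0 < δ) (t : ℝ) : HasDerivAt (gk δ) (gk1 δ t) t := by
  have := ((((hasDerivAt_id t).pow 2).div_const (2 * δ ^ 2)).neg.exp).div_const (√(2 * π) * δ)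
  refine this.congr_deriv ?_
  simp only [gk1, gk, Pi.neg_apply, Pi.pow_apply, id]
  field_simp
  norm_num [mul_comm]

theorem hasDerivAt_gk1 (hδ : 0 < δ) (t : ℝ) : HasDerivAt (gk1 δ) (gk2 δ t) t := by
  have := ((hasDerivAt_id t).div_const (δ ^ 2)).neg.mul (hasDerivAt_gk hδ t)
  refine this.congr_deriv ?_
  simp only [gk1, gk2, Pi.neg_apply, id]
  field_simp
  ring

theorem sq_mul_exp_le (u : ℝ) : u ^ 2 * exp (-(u ^ 2 / 2)) ≤ 2 := by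
  have := add_one_le_exp (u ^ 2 / 2)
  rw [exp_neg, ← div_eq_mul_inv, div_le_iff₀ (exp_pos _)]
  linarith

theorem sq_mul_gk_le (hδ : 0 < δ) (t : ℝ) : (t / δ) ^ 2 * gk δ t ≤ 2 / δ := by
  have h1 : 1 ≤ √(2 * π) := one_le_sqrt.2 (by linarith [two_le_pi])
  have := sq_mul_exp_le (t / δ)
  rw [gk, show t ^ 2 / (2 * δ ^ 2) = (t / δ) ^ 2 / 2 by field_simp, ← mul_div_assoc]
  exact div_le_div₀ (by norm_num) this hδ (by nlinarith)

theorem gk_le' (hδ : 0 < δ) (t : ℝ) : gk δ t ≤ 1 / δ := by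
  have h1 : 1 ≤ √(2 * π) := one_le_sqrt.2 (by linarith [two_le_pi])
  exact (gk_le hδ t).trans (div_le_div_of_nonneg_left zero_le_one hδ (by nlinarith))

theorem abs_gk1_le (hδ : 0 < δ) (t : ℝ) : |gk1 δ t| ≤ 2 / δ ^ 2 := by
  have h1 := sq_mul_gk_le hδ t
  have h2 := gk_le' hδ t
  have h3 := gk_pos hδ t
  have h4 : |t / δ| ≤ ((t / δ) ^ 2 + 1) / 2 := by nlinarith [sq_nonneg (|t / δ| - 1), sq_abs (t / δ)]
  have h5 : |t / δ| * gk δ t ≤ 2 / δ := by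
    have := mul_le_mul_of_nonneg_right h4 h3.le
    have h6 : 2 / δ = 2 * (1 / δ) := by ring
    have h7 : 0 < 1 / δ := by positivity
    linarith
  rw [gk1, abs_mul, abs_neg, abs_of_pos h3, show t / δ ^ 2 = t / δ / δ by field_simp,
    abs_div _ δ, abs_of_pos hδ, div_mul_eq_mul_div, show 2 / δ ^ 2 = 2 / δ / δ by field_simp]
  exact div_le_div_of_nonneg_right h5 hδ.le

theorem abs_gk2_le (hδ : 0 < δ) (t : ℝ) : |gk2 δ t| ≤ 2 / δ ^ 3 := by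
  have h1 := sq_mul_gk_le hδ t
  have h2 := gk_le' hδ t
  have h3 := gk_pos hδ t
  have h4 : 0 ≤ (t / δ) ^ 2 * gk δ t := by positivity
  have h6 : 2 / δ = 2 * (1 / δ) := by ring
  have h7 : 0 < 1 / δ := by positivity
  rw [show gk2 δ t = ((t / δ) ^ 2 * gk δ t - gk δ t) / δ ^ 2 by rw [gk2]; field_simp,
    abs_div, abs_of_pos (pow_pos hδ 2), show 2 / δ ^ 3 = 2 / δ / δ ^ 2 by field_simp]
  exact div_le_div_of_nonneg_right (abs_le.2 ⟨by linarith, by linarith⟩) (by positivity)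

theorem gk_scale {c : ℝ} (hc : 0 < c) (δ t : ℝ) : gk δ (c * t) = c⁻¹ * gk (δ / c) t := by
  rcases eq_or_ne δ 0 with rfl | hδ
  · simp [gk]
  have := sqrt_two_pi_pos
  rw [gk, gk, show (c * t) ^ 2 / (2 * δ ^ 2) = t ^ 2 / (2 * (δ / c) ^ 2) by field_simp]
  field_simp

theorem gk1_scale {c : ℝ} (hc : 0 < c) (δ t : ℝ) : gk1 δ (c * t) = c⁻¹ ^ 2 * gk1 (δ / c) t := by
  rcases eq_or_ne δ 0 with rfl | hδ
  · simp [gk1]
  rw [gk1, gk1, gk_scale hc]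
  field_simp

theorem gk2_scale {c : ℝ} (hc : 0 < c) (δ t : ℝ) : gk2 δ (c * t) = c⁻¹ ^ 3 * gk2 (δ / c) t := by
  rcases eq_or_ne δ 0 with rfl | hδ
  · simp [gk2]
  rw [gk2, gk2, gk_scale hc]
  field_simp

theorem Nrm.int_gk (hp : Nrm p) (hδ : 0 < δ) (ξ : Eu n) :
    Integrable (fun x => gk δ ⟪x, ξ⟫) (mu p) := by
  have := hp.prob
  exact (integrable_const (1 / δ)).mono' (by fun_prop) (Eventually.of_forall fun x => by
    rw [Real.norm_of_nonneg (gk_pos hδ _).le]; exact gk_le' hδ _)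

theorem Nrm.A0_pos (hp : Nrm p) (hδ : 0 < δ) (ξ : Eu n) : 0 < A0 p δ ξ := by
  have := hp.prob
  rw [A0, integral_pos_iff_support_of_nonneg (fun x => (gk_pos hδ _).le) (hp.int_gk hδ ξ),
    show (Function.support fun x : Eu n => gk δ ⟪x, ξ⟫) = univ from
      eq_univ_of_forall fun x => (gk_pos hδ _).ne']
  simp

theorem Nrm.A0_cont (hp : Nrm p) (hδ : 0 < δ) : Continuous (A0 p δ) := by
  have := hp.prob
  refine continuous_of_dominated (bound := fun _ => 1 / δ) (fun ξ => by fun_prop)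
    (fun ξ => Eventually.of_forall fun x => ?_) (integrable_const _)
    (Eventually.of_forall fun x => by fun_prop)
  rw [Real.norm_of_nonneg (gk_pos hδ _).le]; exact gk_le' hδ _

theorem A0_smul {c : ℝ} (hc : 0 < c) (p : Eu n → ℝ) (δ : ℝ) (ξ : Eu n) :
    A0 p δ (c • ξ) = c⁻¹ * A0 p (δ / c) ξ := by
  simp only [A0, real_inner_smul_right, gk_scale hc, integral_const_mul]

theorem A0_neg (p : Eu n → ℝ) (δ : ℝ) (ξ : Eu n) : A0 p δ (-ξ) = A0 p δ ξ := by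
  simp only [A0, inner_neg_right, gk_neg]

theorem Nrm.A0_zero (hp : Nrm p) (δ : ℝ) : A0 p δ 0 = 1 / (√(2 * π) * δ) := by
  have := hp.prob
  simp [A0, gk_zero]

/-- Gaussian average of a shifted kernel. -/
theorem gam_gk (hδ : 0 < δ) (ξ : Eu n) (t : ℝ) :
    ∫ x, gk δ (⟪x, ξ⟫ - t) ∂gam n = gk (√(‖ξ‖ ^ 2 + δ ^ 2)) t := by
  have hr : 0 < ‖ξ‖ ^ 2 + δ ^ 2 := by positivity
  have hi : Integrable (Function.uncurry fun (x : Eu n) (s : ℝ) =>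
      cos (s * (⟪x, ξ⟫ - t)) * exp (-(δ ^ 2 * s ^ 2 / 2))) ((gam n).prod volume) := by
    refine ((integrable_const (1 : ℝ)).mul_prod (int_gauss1 (pow_pos hδ 2))).mono'
      (by fun_prop) (Eventually.of_forall fun z => ?_)
    simp only [Function.uncurry, norm_mul, Real.norm_eq_abs, abs_exp]
    exact mul_le_mul_of_nonneg_right (abs_cos_le_one _) (exp_pos _).le
  simp only [gk_fourier hδ]
  rw [integral_const_mul, integral_integral_swap hi, gk_fourier (sqrt_pos.2 hr), sq_sqrt hr.le]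
  congr 1
  refine integral_congr_ae (Eventually.of_forall fun s => ?_)
  have i1 : Integrable (fun x : Eu n => cos ⟪s • ξ, x⟫) (gam n) :=
    (integrable_const (1 : ℝ)).mono' (by fun_prop) (Eventually.of_forall fun x => abs_cos_le_one _)
  have i2 : Integrable (fun x : Eu n => sin ⟪s • ξ, x⟫) (gam n) :=
    (integrable_const (1 : ℝ)).mono' (by fun_prop) (Eventually.of_forall fun x => abs_sin_le_one _)
  have e : ∀ x : Eu n, cos (s * (⟪x, ξ⟫ - t)) =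
      cos ⟪s • ξ, x⟫ * cos (s * t) + sin ⟪s • ξ, x⟫ * sin (s * t) := fun x => by
    rw [mul_sub, cos_sub, real_inner_smul_left, real_inner_comm]
  simp only [e]
  rw [integral_mul_const, integral_add (i1.mul_const _) (i2.mul_const _), integral_mul_const,
    integral_mul_const, gam_cos, gam_sin, norm_smul, mul_pow, Real.norm_eq_abs, sq_abs,
    show -((‖ξ‖ ^ 2 + δ ^ 2) * s ^ 2 / 2) = -(s ^ 2 * ‖ξ‖ ^ 2 / 2) + -(δ ^ 2 * s ^ 2 / 2) by ring,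
    exp_add]
  ring

theorem A0_gam (hδ : 0 < δ) (ξ : Eu n) :
    A0 (fun x => ‖x‖) δ ξ = 1 / (√(2 * π) * √(‖ξ‖ ^ 2 + δ ^ 2)) := by
  have := gam_gk hδ ξ 0
  simp only [sub_zero, gk_zero] at this
  exact this

/-- Splitting off a unit vector. -/
theorem split {m : ℕ} (u : Eu (m + 1)) (hu : ‖u‖ = 1) : ∃ ι : Eu m →ₗᵢ[ℝ] Eu (m + 1),
    (∀ y, ⟪u, ι y⟫ = 0) ∧ (∀ x, ⟪u, x⟫ = 0 → x ∈ range ι) ∧
      MeasurePreserving (fun q : ℝ × Eu m => q.1 • u + ι q.2) (volume.prod volume) volume := by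
  have hu0 : u ≠ 0 := by rintro rfl; simp at hu
  have : Fact (Module.finrank ℝ (Eu (m + 1)) = m + 1) := ⟨finrank_euclideanSpace_fin⟩
  let e : Eu m ≃ₗᵢ[ℝ] (ℝ ∙ u)ᗮ := (OrthonormalBasis.fromOrthogonalSpanSingleton m hu0).repr.symm
  let f : ℝ ≃ₗᵢ[ℝ] (ℝ ∙ u) := LinearIsometryEquiv.toSpanUnitSingleton u hu
  refine ⟨(ℝ ∙ u)ᗮ.subtypeₗᵢ.comp e.toLinearIsometry,
    fun y => Submodule.mem_orthogonal_singleton_iff_inner_right.1 (e y).2,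
    fun x hx => ⟨e.symm ⟨x, Submodule.mem_orthogonal_singleton_iff_inner_right.2 hx⟩, by simp⟩, ?_⟩
  have h1 := ((ℝ ∙ u).measurePreserving_measurableEquivProd (0 : Eu (m + 1))).symm
  have h2 := h1.comp (f.measurePreserving.prod e.measurePreserving)
  rw [InnerProductSpace.euclideanHausdorffMeasure_eq_volume] at h2
  have e2 : (fun q : ℝ × Eu m => q.1 • u + ((ℝ ∙ u)ᗮ.subtypeₗᵢ.comp e.toLinearIsometry) q.2) =
      ((ℝ ∙ u).measurableEquivProd (0 : Eu (m + 1))).symm ∘ Prod.map f e := by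
    funext q
    simp [f, Submodule.measurableEquivProd_symm_apply]
  rw [e2]
  exact h2

end Pool.Agent.MP_2a44fd_gt.hd

end MrgPart3

-- ======== part 4: formerly Pool.Agent.MP_2a44fd_gt.hd.Pos1
section MrgPart4

/-!
PROJECT BP5HD: the special position as a fixed point.
-/

set_option autoImplicit false

open MeasureTheory Real Set Filter Topology Metric InnerProductSpace
open scoped RealInnerProductSpace ENNReal

namespace Pool.Agent.MP_2a44fd_gt.hd.Pos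

theorem brouwer {V : Type*} [NormedAddCommGroup V] [NormedSpace ℝ V] [FiniteDimensional ℝ V]
    {f : V → V} (hf : ContinuousOn f (closedBall 0 1))
    (hm : MapsTo f (closedBall 0 1) (closedBall 0 1)) : ∃ z ∈ closedBall (0 : V) 1, f z = z := by
  let e : V ≃L[ℝ] (Fin (Module.finrank ℝ V) → ℝ) := .ofFinrankEq (by simp)
  let r : V → V := fun x => (max 1 ‖x‖)⁻¹ • x
  have h0 : ∀ x : V, (0 : ℝ) < max 1 ‖x‖ := fun x => lt_of_lt_of_le one_pos (le_max_left _ _)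
  have r1 : Continuous r :=
    ((continuous_const.max continuous_norm).inv₀ fun x => (h0 x).ne').smul continuous_id
  have r2 : ∀ x, r x ∈ closedBall (0 : V) 1 := fun x => by
    rw [mem_closedBall_zero_iff, norm_smul, norm_inv, Real.norm_of_nonneg (h0 x).le,
      inv_mul_le_iff₀ (h0 x), mul_one]
    exact le_max_right _ _
  set c := ‖(e : V →L[ℝ] (Fin (Module.finrank ℝ V) → ℝ))‖ + 1 with hc
  have c0 : 0 < c := by positivity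
  have hg : Continuous fun z => c⁻¹ • e (f (r (e.symm (c • z)))) :=
    (e.continuous.comp (hf.comp_continuous (r1.comp (e.symm.continuous.comp
      (continuous_const_smul c))) fun _ => r2 _)).fun_const_smul _
  obtain ⟨z, -, hz⟩ := Lib.helper79.brouwer_cube hg.continuousOn fun z _ => by
    rw [mem_closedBall_zero_iff, norm_smul, norm_inv, Real.norm_of_nonneg c0.le,
      inv_mul_le_iff₀ c0, mul_one]
    exact (e.toContinuousLinearMap.le_of_opNorm_le_of_le le_rfl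
      (mem_closedBall_zero_iff.1 (hm (r2 _)))).trans (by linarith)
  have h1 : f (r (e.symm (c • z))) = e.symm (c • z) := by
    rw [e.eq_symm_apply, ← inv_smul_eq_iff₀ c0.ne', hz]
  have h2 := h1 ▸ hm (r2 (e.symm (c • z)))
  simp only [r, max_eq_left (mem_closedBall_zero_iff.1 h2), inv_one, one_smul] at h1
  exact ⟨_, h2, h1⟩

variable {n : ℕ}

theorem exists_sqrt (A : Eu n →L[ℝ] Eu n) (hA : ∀ x, ‖x‖ ^ 2 ≤ ⟪A x, x⟫) :
    ∃ T : Eu n ≃L[ℝ] Eu n, ∀ x, ‖T x‖ ^ 2 = ⟪A x, x⟫ := by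
  let B : Eu n →L[ℝ] Eu n := (1 / 2 : ℝ) • (A + ContinuousLinearMap.adjoint A)
  have b1 : ∀ x y, ⟪B x, y⟫ = 1 / 2 * (⟪A x, y⟫ + ⟪A y, x⟫) := fun x y => by
    simp only [B, smul_apply, add_apply,
      real_inner_smul_left, inner_add_left, ContinuousLinearMap.adjoint_inner_left,
      real_inner_comm x (A y)]
  have b2 : (B : Eu n →ₗ[ℝ] Eu n).IsPositive := ⟨fun x y => by
    change ⟪B x, y⟫ = ⟪x, B y⟫
    rw [real_inner_comm (B y) x, b1, b1, add_comm],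
    fun x => by
    change 0 ≤ ⟪B x, x⟫
    rw [b1]
    nlinarith [hA x, sq_nonneg ‖x‖]⟩
  have hn : Module.finrank ℝ (Eu n) = n := finrank_euclideanSpace_fin
  let b := b2.isSymmetric.eigenvectorBasis hn
  let T : Eu n →L[ℝ] Eu n := mc (Matrix.diagonal fun i => √(b2.isSymmetric.eigenvalues hn i)) ∘L
    b.repr.toContinuousLinearEquiv
  have h1 : ∀ x, ‖T x‖ ^ 2 = ⟪A x, x⟫ := fun x => by
    have h2 : ⟪A x, x⟫ = ⟪b.repr (B x), b.repr x⟫ := by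
      rw [b.repr.inner_map_map, b1]
      ring
    rw [h2, norm_sq_eq_sum, inner_eq_sum]
    refine Finset.sum_congr rfl fun i _ => ?_
    have h3 : b.repr (B x) i = _ := b2.isSymmetric.eigenvectorBasis_apply_self_apply hn x i
    have h4 : T x i = √(b2.isSymmetric.eigenvalues hn i) * b.repr x i := by
      simp [T, mc_apply, Matrix.diagonal_apply]
    rw [h3, h4, mul_pow, sq_sqrt (b2.nonneg_eigenvalues hn i), sq, mul_assoc]
    rfl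
  have h2 : Function.Injective T := (injective_iff_map_eq_zero T).2 fun x hx => by
    have := (hA x).trans_eq (h1 x).symm
    simpa [hx] using this
  exact ⟨(LinearEquiv.ofInjectiveEndo (T : Eu n →ₗ[ℝ] Eu n) h2).toContinuousLinearEquiv, h1⟩

/-- The operator attached to a point of the unit ball. -/
noncomputable def op (M : ℝ) (A : Eu n →L[ℝ] Eu n) : Eu n →L[ℝ] Eu n :=
  ((M + 1) / 2) • 1 + ((M - 1) / 2) • A

theorem op_inner (M : ℝ) (A : Eu n →L[ℝ] Eu n) (x : Eu n) :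
    ⟪op M A x, x⟫ = (M + 1) / 2 * ‖x‖ ^ 2 + (M - 1) / 2 * ⟪A x, x⟫ := by
  simp [op, inner_add_left, real_inner_smul_left]

theorem op_bound {M : ℝ} (hM : 1 < M) {A : Eu n →L[ℝ] Eu n} (hA : A ∈ closedBall 0 1) (x : Eu n) :
    ‖x‖ ^ 2 ≤ ⟪op M A x, x⟫ ∧ ⟪op M A x, x⟫ ≤ M * ‖x‖ ^ 2 := by
  have h1 := abs_le.1 ((abs_real_inner_le_norm (A x) x).trans (mul_le_mul_of_nonneg_right
    (A.le_of_opNorm_le (mem_closedBall_zero_iff.1 hA) x) (norm_nonneg x)))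
  rw [op_inner]
  constructor <;> nlinarith [h1.1, h1.2]

/-- The integrand of the weighted covariance operator. -/
noncomputable def wt (S : Eu n →L[ℝ] Eu n) (x : Eu n) : Eu n →L[ℝ] Eu n :=
  (√⟪S x, x⟫ ^ 3)⁻¹ • rankOne ℝ x x

theorem wt_meas (μ : Measure (Eu n)) (S : Eu n →L[ℝ] Eu n) : AEStronglyMeasurable (wt S) μ := by
  have h1 : Measurable fun x => (√⟪S x, x⟫ ^ 3)⁻¹ := by fun_prop
  have h2 : Continuous fun x : Eu n => rankOne ℝ x x :=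
    (ContinuousLinearMap.smulRightL ℝ (Eu n) (Eu n)).continuous₂.comp
      ((innerSL ℝ).continuous.prodMk continuous_id)
  exact h1.aestronglyMeasurable.smul h2.aestronglyMeasurable

theorem wt_le {S : Eu n →L[ℝ] Eu n} {x : Eu n} (h : ‖x‖ ^ 2 ≤ ⟪S x, x⟫) : ‖wt S x‖ ≤ ‖x‖⁻¹ := by
  rcases eq_or_ne x 0 with rfl | hx
  · simp [wt]
  have h0 := norm_pos_iff.2 hx
  rw [wt, norm_smul, norm_rankOne, Real.norm_of_nonneg (by positivity)]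
  calc _ ≤ (‖x‖ ^ 3)⁻¹ * (‖x‖ * ‖x‖) := by
        gcongr
        exact le_sqrt_of_sq_le h
    _ = _ := by field_simp

theorem bij {R : Eu n →L[ℝ] Eu n} {c : ℝ} (hc : 0 < c) (h : ∀ u, c * ‖u‖ ^ 2 ≤ ⟪R u, u⟫) :
    Function.Bijective R := by
  have h3 : Function.Injective R := (injective_iff_map_eq_zero R).2 fun u hu => by
    have := h u
    rw [hu, inner_zero_left] at this
    simpa using le_antisymm (nonpos_of_mul_nonpos_right this hc) (sq_nonneg _)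
  exact ⟨h3, (LinearMap.injective_iff_surjective (f := (R : Eu n →ₗ[ℝ] Eu n))).1 h3⟩

theorem inv_apply {R : Eu n →L[ℝ] Eu n} (h : Function.Bijective R) (u : Eu n) :
    Ring.inverse R (R u) = u :=
  congrArg (· u) (Ring.inverse_mul_cancel _ (ContinuousLinearMap.isUnit_iff_bijective.2 h))

theorem maps {R : Eu n →L[ℝ] Eu n} {c M : ℝ} (hc : 0 < c) (hM : 1 < M)
    (hs : ∀ u v, ⟪R u, v⟫ = ⟪u, R v⟫) (h : ∀ u, c * ‖u‖ ^ 2 ≤ ⟪R u, u⟫ ∧ ⟪R u, u⟫ ≤ M * c * ‖u‖ ^ 2) :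
    ‖((M - 1) / 2)⁻¹ • ((M * c) • Ring.inverse R - ((M + 1) / 2) • (1 : Eu n →L[ℝ] Eu n))‖ ≤ 1 := by
  have r0 : 0 < (M - 1) / 2 := half_pos (sub_pos.2 hM)
  obtain ⟨B, b1⟩ : ∃ B : Eu n →L[ℝ] Eu n, ∀ u, B u = R u - ((M + 1) * c / 2) • u :=
    ⟨R - ((M + 1) * c / 2) • 1, fun _ => rfl⟩
  have b2 : ‖B‖ ≤ (M - 1) * c / 2 := by
    rw [B.norm_eq_iSup_rayleighQuotient fun u v => by
      simp only [ContinuousLinearMap.coe_coe, b1, inner_sub_left, inner_sub_right, hs,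
        real_inner_smul_left, real_inner_smul_right]]
    refine ciSup_le fun v => ?_
    rw [abs_div, abs_sq]
    refine div_le_of_le_mul₀ (sq_nonneg _) (half_pos (mul_pos (sub_pos.2 hM) hc)).le ?_
    change |⟪B v, v⟫| ≤ _
    rw [b1, inner_sub_left, real_inner_smul_left, real_inner_self_eq_norm_sq, abs_le]
    constructor <;> linarith [(h v).1, (h v).2]
  refine ContinuousLinearMap.opNorm_le_bound _ zero_le_one fun x => ?_
  have b0 := bij hc fun u => (h u).1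
  obtain ⟨u, rfl⟩ := b0.2 x
  have b3 := mul_le_mul_of_nonneg_left
    (pow_le_pow_left₀ (norm_nonneg _) (B.le_of_opNorm_le b2 u) 2) (one_pos.trans hM).le
  rw [b1, norm_sub_sq_real, real_inner_smul_right, norm_smul, mul_pow, Real.norm_eq_abs,
    sq_abs] at b3
  change ‖((M - 1) / 2)⁻¹ • ((M * c) • Ring.inverse R (R u) - ((M + 1) / 2) • R u)‖ ≤ _
  rw [inv_apply b0, norm_smul, norm_inv, Real.norm_of_nonneg r0.le, inv_mul_le_iff₀ r0]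
  refine (abs_le_of_sq_le_sq' ?_ (by positivity)).2
  rw [norm_sub_sq_real, real_inner_smul_left, real_inner_smul_right, norm_smul, norm_smul,
    mul_pow, mul_pow, Real.norm_eq_abs, Real.norm_eq_abs, sq_abs, sq_abs, real_inner_comm]
  linarith

theorem fixed_abs {R : (Eu n →L[ℝ] Eu n) → Eu n →L[ℝ] Eu n} {c M : ℝ} (hc : 0 < c) (hM : 1 < M)
    (a1 : ContinuousOn R (closedBall 0 1)) (hs : ∀ A ∈ closedBall 0 1, ∀ u v, ⟪R A u, v⟫ = ⟪u, R A v⟫)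
    (h : ∀ A ∈ closedBall 0 1, ∀ u, c * ‖u‖ ^ 2 ≤ ⟪R A u, u⟫ ∧ ⟪R A u, u⟫ ≤ M * c * ‖u‖ ^ 2) :
    ∃ A ∈ closedBall 0 1, ∀ u, op M A (R A u) = (M * c) • u := by
  have a8 := fun A hA => bij hc fun u => (h A hA u).1
  obtain ⟨A, hA, e⟩ := brouwer (f := fun A => ((M - 1) / 2)⁻¹ •
    ((M * c) • Ring.inverse (R A) - ((M + 1) / 2) • (1 : Eu n →L[ℝ] Eu n))) (by
      have : ContinuousOn (fun A => Ring.inverse (R A)) (closedBall 0 1) := fun A hA =>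
        (NormedRing.inverse_continuousAt (ContinuousLinearMap.isUnit_iff_bijective.2
          (a8 A hA)).unit).comp_continuousWithinAt_of_eq (a1 A hA) rfl
      fun_prop) fun A hA => mem_closedBall_zero_iff.2 (maps hc hM (hs A hA) (h A hA))
  refine ⟨A, hA, fun u => ?_⟩
  have b2 : op M A = (M * c) • Ring.inverse (R A) := by
    rw [op, ← (inv_smul_eq_iff₀ (half_pos (sub_pos.2 hM)).ne').1 e, add_sub_cancel]
  rw [b2, smul_apply, inv_apply (a8 A hA)]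

theorem exists_root {M : ℝ} (hM : 1 < M) {A : Eu n →L[ℝ] Eu n} (hA : A ∈ closedBall 0 1) :
    ∃ T : Eu n ≃L[ℝ] Eu n, (∀ x, ‖T x‖ ^ 2 = ⟪op M A x, x⟫) ∧
      (∀ x, ‖x‖ ≤ ‖T x‖) ∧ ∀ x, ‖T x‖ ≤ M * ‖x‖ := by
  obtain ⟨T, hT⟩ := exists_sqrt _ fun x => (op_bound hM hA x).1
  refine ⟨T, hT, fun x => ?_, fun x => ?_⟩ <;> refine abs_le_of_sq_le_sq' ?_ (by positivity) |>.2
  · exact hT x ▸ (op_bound hM hA x).1
  · linarith [hT x, (op_bound hM hA x).2, mul_nonneg (mul_pos (one_pos.trans hM)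
      (sub_pos.2 hM)).le (sq_nonneg ‖x‖)]

variable {μ : Measure (Eu n)}

theorem wt_inner (h1 : Integrable (fun x => ‖x‖⁻¹) μ) {S : Eu n →L[ℝ] Eu n}
    (h : ∀ x, ‖x‖ ^ 2 ≤ ⟪S x, x⟫) (u v : Eu n) :
    ⟪(∫ x, wt S x ∂μ) u, v⟫ = ∫ x, ⟪x, u⟫ * ⟪x, v⟫ / √⟪S x, x⟫ ^ 3 ∂μ := by
  have i1 : Integrable (wt S) μ := h1.mono' (wt_meas μ _) (Eventually.of_forall fun x => wt_le (h x))
  rw [ContinuousLinearMap.integral_apply i1, real_inner_comm,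
    ← integral_inner (i1.apply_continuousLinearMap u)]
  simp only [wt, smul_apply, rankOne_apply, real_inner_smul_right, real_inner_comm v,
    div_eq_inv_mul]

theorem cont (h1 : Integrable (fun x => ‖x‖⁻¹) μ) (h2 : Integrable (fun x => ‖x‖ ^ 2) μ) {M : ℝ}
    (hM : 1 < M) : ContinuousOn (fun A => √(∫ x, ⟪op M A x, x⟫ ∂μ) ^ 3 • ∫ x, wt (op M A) x ∂μ)
      (closedBall 0 1) := by
  have a0 : ∀ x : Eu n, Continuous fun A : Eu n →L[ℝ] Eu n => ⟪op M A x, x⟫ := fun x => by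
    simp only [op_inner]
    fun_prop
  refine ((continuousOn_of_dominated (bound := fun x => M * ‖x‖ ^ 2) (fun A _ => by fun_prop)
    (fun A hA => Eventually.of_forall fun x => ?_) (h2.const_mul M)
    (Eventually.of_forall fun x => (a0 x).continuousOn)).sqrt.pow 3).smul
    (continuousOn_of_dominated (fun A _ => wt_meas μ _) (fun A hA => Eventually.of_forall
      fun x => wt_le (op_bound hM hA x).1) h1 (Eventually.of_forall fun x => ?_))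
  · rw [Real.norm_of_nonneg ((sq_nonneg _).trans (op_bound hM hA x).1)]
    exact (op_bound hM hA x).2
  · rcases eq_or_ne x 0 with rfl | hx
    · simp [wt, continuousOn_const]
    exact (((a0 x).sqrt.pow 3).continuousOn.inv₀ fun A hA => (pow_pos (sqrt_pos.2
      ((pow_pos (norm_pos_iff.2 hx) 2).trans_le (op_bound hM hA x).1)) 3).ne').smul
      continuousOn_const

theorem fixed (h1 : Integrable (fun x => ‖x‖⁻¹) μ)
    (h2 : Integrable (fun x => ‖x‖ ^ 2) μ) {c M : ℝ} (hc : 0 < c) (hM : 1 < M)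
    (H : ∀ T : Eu n ≃L[ℝ] Eu n, (∀ x, ‖x‖ ≤ ‖T x‖) → (∀ x, ‖T x‖ ≤ M * ‖x‖) → ∀ e, ‖e‖ = 1 →
      c ≤ √(∫ x, ‖T x‖ ^ 2 ∂μ) ^ 3 * ∫ x, ⟪x, e⟫ ^ 2 / ‖T x‖ ^ 3 ∂μ ∧
      √(∫ x, ‖T x‖ ^ 2 ∂μ) ^ 3 * ∫ x, ⟪x, e⟫ ^ 2 / ‖T x‖ ^ 3 ∂μ ≤ M * c) (hn : 1 ≤ n) :
    ∃ (T : Eu n ≃L[ℝ] Eu n) (κ : ℝ), (∀ x, ‖x‖ ≤ ‖T x‖) ∧ (∀ x, ‖T x‖ ≤ M * ‖x‖) ∧
      ∀ a b, ∫ x, ⟪T x, a⟫ * ⟪T x, b⟫ / ‖T x‖ ^ 3 ∂μ = κ * ⟪a, b⟫ := by
  obtain ⟨R, a1, a2⟩ : ∃ R : (Eu n →L[ℝ] Eu n) → Eu n →L[ℝ] Eu n, ContinuousOn R (closedBall 0 1) ∧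
      ∀ A ∈ closedBall 0 1, ∀ u v, ⟪R A u, v⟫ = √(∫ x, ⟪op M A x, x⟫ ∂μ) ^ 3 *
        ∫ x, ⟪x, u⟫ * ⟪x, v⟫ / √⟪op M A x, x⟫ ^ 3 ∂μ :=
    ⟨_, cont h1 h2 hM, fun A hA u v => by
      rw [smul_apply, real_inner_smul_left, wt_inner h1 fun x => (op_bound hM hA x).1]⟩
  have a4 : ∀ A ∈ closedBall 0 1, ∀ u, c * ‖u‖ ^ 2 ≤ ⟪R A u, u⟫ ∧ ⟪R A u, u⟫ ≤ M * c * ‖u‖ ^ 2 := by
    intro A hA u
    rcases eq_or_ne u 0 with rfl | hu
    · simp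
    have h0 := norm_pos_iff.2 hu
    obtain ⟨T, e1, e2, e3⟩ := exists_root hM hA
    have h3 := H T e2 e3 (‖u‖⁻¹ • u) (by simp [norm_smul, h0.ne'])
    have h4 : ⟪R A u, u⟫ = (√(∫ x, ‖T x‖ ^ 2 ∂μ) ^ 3 *
        ∫ x, ⟪x, ‖u‖⁻¹ • u⟫ ^ 2 / ‖T x‖ ^ 3 ∂μ) * ‖u‖ ^ 2 := by
      rw [a2 A hA, mul_assoc, ← integral_mul_const]
      simp only [← e1, sqrt_sq (norm_nonneg _), real_inner_smul_right]
      congr 2
      funext x
      field_simp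
    rw [h4]
    exact ⟨mul_le_mul_of_nonneg_right h3.1 (sq_nonneg _),
      mul_le_mul_of_nonneg_right h3.2 (sq_nonneg _)⟩
  have a6 : ∀ A ∈ closedBall 0 1, ∀ u v, ⟪R A u, v⟫ = ⟪u, R A v⟫ := fun A hA u v => by
    rw [real_inner_comm _ u, a2 A hA, a2 A hA]
    simp only [mul_comm]
  obtain ⟨A, hA, b1⟩ := fixed_abs hc hM a1 a6 a4
  obtain ⟨T, e1, e2, e3⟩ := exists_root hM hA
  have a8 := bij hc fun u => (a4 A hA u).1
  have b2 : ∀ x y, ⟪T x, T y⟫ = ⟪op M A x, y⟫ := fun x y => by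
    have b3 : ⟪op M A x, y⟫ = ⟪op M A y, x⟫ := by
      obtain ⟨u, rfl⟩ := a8.2 x
      obtain ⟨v, rfl⟩ := a8.2 y
      rw [b1, b1, real_inner_smul_left, real_inner_smul_left, ← a6 A hA, real_inner_comm]
    have b4 := e1 (x + y)
    rw [map_add, map_add, norm_add_sq_real, e1, e1, inner_add_left, inner_add_right,
      inner_add_right] at b4
    linarith
  have b4 := a2 A hA
  generalize √(∫ x, ⟪op M A x, x⟫ ∂μ) ^ 3 = t at b4
  have b3 : t ≠ 0 := fun h => by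
    have := (a4 A hA (EuclideanSpace.single ⟨0, hn⟩ 1)).1
    rw [b4, h] at this
    exact hc.not_ge (by simpa using this)
  refine ⟨T, M * c / t, e2, e3, fun a b => ?_⟩
  have b5 := b4 (tp T a) (tp T b)
  simp only [inner_tp, ← e1, sqrt_sq (norm_nonneg _)] at b5
  rw [div_mul_eq_mul_div, eq_div_iff b3, mul_comm, ← b5]
  obtain ⟨y, rfl⟩ := T.surjective b
  rw [b2, b1, real_inner_smul_left, real_inner_comm, inner_tp, real_inner_comm]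

end Pool.Agent.MP_2a44fd_gt.hd.Pos

end MrgPart4

-- ======== part 5: formerly Pool.Agent.MP_2a44fd_gt.hd.Pos
section MrgPart5

/-!
PROJECT BP5HD: existence of the special position.
-/

set_option autoImplicit false

open MeasureTheory Real Set Filter Topology
open scoped RealInnerProductSpace ENNReal

namespace Pool.Agent.MP_2a44fd_gt.hd

namespace Pos

theorem pt_low {t r s θ : ℝ} (hr : 0 ≤ r) (hs : 0 < s) (hθ : 0 < θ) (h : r = 0 → t = 0) :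
    (s ^ 3)⁻¹ * (t ^ 2 - θ / 2 * t ^ 4 - (2 * θ * s ^ 2)⁻¹ * r ^ 2) ≤ t ^ 2 / r ^ 3 := by
  rcases hr.eq_or_lt with rfl | hr
  · simp [h rfl]
  rcases le_total r s with h1 | h1
  · calc _ ≤ (s ^ 3)⁻¹ * t ^ 2 := by
          have : 0 ≤ θ / 2 * t ^ 4 + (2 * θ * s ^ 2)⁻¹ * r ^ 2 := by positivity
          gcongr
          linarith
      _ ≤ (r ^ 3)⁻¹ * t ^ 2 := by gcongr
      _ = _ := (div_eq_inv_mul _ _).symm
  · refine (mul_nonpos_of_nonneg_of_nonpos (by positivity) ?_).trans (by positivity)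
    have h2 : (2 * θ * s ^ 2)⁻¹ * s ^ 2 ≤ (2 * θ * s ^ 2)⁻¹ * r ^ 2 := by gcongr
    have h3 : θ / 2 * t ^ 4 + (2 * θ * s ^ 2)⁻¹ * s ^ 2 - t ^ 2 = (θ * t ^ 2 - 1) ^ 2 / (2 * θ) := by
      field_simp
      ring
    have h4 : 0 ≤ (θ * t ^ 2 - 1) ^ 2 / (2 * θ) := by positivity
    linarith

theorem amgm {θ : ℝ} (hθ : 0 < θ) (y : ℝ) : y ≤ θ / 2 * y ^ 2 + (2 * θ)⁻¹ := by
  have h3 : θ / 2 * y ^ 2 + (2 * θ)⁻¹ - y = (θ * y - 1) ^ 2 / (2 * θ) := by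
    field_simp
    ring
  have h4 : 0 ≤ (θ * y - 1) ^ 2 / (2 * θ) := by positivity
  linarith

variable {n : ℕ} {p h : Eu n → ℝ} {b : ℝ}

theorem norm_sq_basis (x : Eu n) : ‖x‖ ^ 2 = ∑ i, ⟪x, EuclideanSpace.single i 1⟫ ^ 2 := by
  simp [norm_sq_eq_sum, EuclideanSpace.inner_single_right]

theorem est (hp : Nrm p) (T : Eu n ≃L[ℝ] Eu n) {a D M : ℝ} (ha : 0 < a) (hD : 0 < D) (hM : 0 < M)
    (i1 : Integrable (fun x => ‖x‖⁻¹) (mu p))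
    (m : ∀ v : Eu n, ‖v‖ = 1 → a ≤ ∫ x, ⟪x, v⟫ ^ 2 ∂mu p ∧ ∫ x, ⟪x, v⟫ ^ 2 ∂mu p ≤ D ∧
      ∫ x, ⟪x, v⟫ ^ 4 ∂mu p ≤ D ^ 2 ∧ Integrable (fun x => ⟪x, v⟫ ^ 4 / ‖x‖ ^ 6) (mu p) ∧
      ∫ x, ⟪x, v⟫ ^ 4 / ‖x‖ ^ 6 ∂mu p ≤ D / n ^ 3)
    (t1 : ∀ x, ‖x‖ ≤ ‖T x‖) (t2 : ∀ x, ‖T x‖ ≤ M * ‖x‖)
    (ts : ∀ α : ℝ, (mu p).real {x | ‖T x‖ ^ 2 ≤ α * n} *
      (mu p).real {x | (α + a / 4) * n ≤ ‖T x‖ ^ 2} ≤ 1 / n)
    (hn : 4 * (M ^ 4 * D ^ 2 / a ^ 2) * ((M ^ 2 * D) ^ 3 * D) ≤ n) {e : Eu n} (he : ‖e‖ = 1) :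
    a ^ 4 / (16 * D ^ 3) ≤ √(∫ x, ‖T x‖ ^ 2 ∂mu p) ^ 3 * ∫ x, ⟪x, e⟫ ^ 2 / ‖T x‖ ^ 3 ∂mu p ∧
      √(∫ x, ‖T x‖ ^ 2 ∂mu p) ^ 3 * ∫ x, ⟪x, e⟫ ^ 2 / ‖T x‖ ^ 3 ∂mu p ≤ 8 * D + 1 := by
  have := hp.prob
  have n0 : (0 : ℝ) < n := lt_of_lt_of_le (by positivity) hn
  have u : ∀ i : Fin n, ‖EuclideanSpace.single i (1 : ℝ)‖ = 1 := fun i => by simp
  have i2 : ∀ k, Integrable (fun x => ‖T x‖ ^ k) (mu p) := fun k =>
    (hp.integrable_gl T fun x => ‖x‖ ^ k).1 ((hp.gl T).int_norm_pow k)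
  have i3 : Integrable (fun x => ⟪x, e⟫ ^ 2 / ‖T x‖ ^ 3) (mu p) :=
    i1.mono' (Measurable.aestronglyMeasurable (by fun_prop)) (Eventually.of_forall fun x => by
      rcases eq_or_ne x 0 with rfl | hx
      · simp
      have h0 := norm_pos_iff.2 hx
      have h1 : ⟪x, e⟫ ^ 2 ≤ ‖x‖ ^ 2 :=
        sq_le_sq.2 (by simpa [he] using abs_real_inner_le_norm x e)
      rw [Real.norm_of_nonneg (by positivity)]
      calc _ ≤ ‖x‖ ^ 2 / ‖x‖ ^ 3 := by gcongr; exact t1 x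
        _ = _ := by field_simp)
  have s1 : ∫ x, ‖x‖ ^ 2 ∂mu p = ∑ i, ∫ x, ⟪x, EuclideanSpace.single i 1⟫ ^ 2 ∂mu p := by
    simp only [norm_sq_basis]
    exact integral_finsetSum _ fun i _ => hp.int_inner_pow _ 2
  have τ1 : a * n ≤ ∫ x, ‖T x‖ ^ 2 ∂mu p :=
    calc a * n = ∑ _i : Fin n, a := by simp [mul_comm]
      _ ≤ ∫ x, ‖x‖ ^ 2 ∂mu p := s1 ▸ Finset.sum_le_sum fun i _ => (m _ (u i)).1
      _ ≤ _ := integral_mono (hp.int_norm_pow 2) (i2 2) fun x =>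
        pow_le_pow_left₀ (norm_nonneg _) (t1 x) 2
  have τ2 : ∫ x, ‖T x‖ ^ 2 ∂mu p ≤ M ^ 2 * D * n :=
    calc _ ≤ ∫ x, M ^ 2 * ‖x‖ ^ 2 ∂mu p := integral_mono (i2 2) ((hp.int_norm_pow 2).const_mul _)
          fun x => (pow_le_pow_left₀ (norm_nonneg _) (t2 x) 2).trans_eq (mul_pow _ _ _)
      _ ≤ M ^ 2 * ∑ _i : Fin n, D := by
        rw [integral_const_mul, s1]
        exact mul_le_mul_of_nonneg_left (Finset.sum_le_sum fun i _ => (m _ (u i)).2.1) (sq_nonneg _)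
      _ = _ := by simp; ring
  have τ3 : ∫ x, ‖T x‖ ^ 4 ∂mu p ≤ M ^ 4 * D ^ 2 * n ^ 2 :=
    calc _ ≤ ∫ x, M ^ 4 * n * ∑ i, ⟪x, EuclideanSpace.single i 1⟫ ^ 4 ∂mu p := by
          refine integral_mono (i2 4) ((integrable_finsetSum _ fun i _ =>
            hp.int_inner_pow _ 4).const_mul _) fun x =>
            (pow_le_pow_left₀ (norm_nonneg _) (t2 x) 4).trans ?_
          rw [mul_pow, mul_assoc, show 4 = 2 * 2 from rfl, pow_mul ‖x‖, norm_sq_basis]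
          refine mul_le_mul_of_nonneg_left ?_ (by positivity)
          simpa only [pow_mul, Finset.card_univ, Fintype.card_fin] using
            sq_sum_le_card_mul_sum_sq (s := Finset.univ)
              (f := fun i => ⟪x, EuclideanSpace.single i 1⟫ ^ 2)
      _ ≤ M ^ 4 * n * ∑ _i : Fin n, D ^ 2 := by
        rw [integral_const_mul, integral_finsetSum _ fun i _ => hp.int_inner_pow _ 4]
        exact mul_le_mul_of_nonneg_left (Finset.sum_le_sum fun i _ => (m _ (u i)).2.2.1)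
          (by positivity)
      _ = _ := by simp; ring
  obtain ⟨m1, m2, m3, m4, m5⟩ := m e he
  have j2 := hp.int_inner_pow e 2
  have j4 := hp.int_inner_pow e 4
  have hτ : ∫ x, ‖T x‖ ^ 2 ∂mu p = √(∫ x, ‖T x‖ ^ 2 ∂mu p) ^ 2 :=
    (sq_sqrt (le_trans (by positivity) τ1)).symm
  have s0 : 0 < √(∫ x, ‖T x‖ ^ 2 ∂mu p) := sqrt_pos.2 (lt_of_lt_of_le (by positivity) τ1)
  generalize √(∫ x, ‖T x‖ ^ 2 ∂mu p) = s at hτ s0 ⊢
  rw [hτ] at τ1 τ2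
  constructor
  · have h1 := integral_mono (((j2.sub (j4.const_mul _)).sub ((i2 2).const_mul _)).const_mul _) i3
      fun x => pt_low (t := ⟪x, e⟫) (s := 2 * D / a * s) (θ := a / (2 * D ^ 2)) (norm_nonneg (T x))
        (by positivity) (by positivity) fun h => by
          rw [show x = 0 from norm_le_zero_iff.1 (h ▸ t1 x), inner_zero_left]
    rw [integral_const_mul, integral_sub' (j2.sub (j4.const_mul _)) ((i2 2).const_mul _),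
      integral_sub' j2 (j4.const_mul _), integral_const_mul, integral_const_mul, hτ] at h1
    have h2 : a / (2 * D ^ 2) / 2 * ∫ x, ⟪x, e⟫ ^ 4 ∂mu p ≤ a / (2 * D ^ 2) / 2 * D ^ 2 := by gcongr
    have h3 : a / (2 * D ^ 2) / 2 * D ^ 2 = a / 4 := by field_simp; ring
    have h4 : (2 * (a / (2 * D ^ 2)) * (2 * D / a * s) ^ 2)⁻¹ * s ^ 2 = a / 4 := by field_simp; ring
    refine le_trans ?_ (mul_le_mul_of_nonneg_left h1 (by positivity))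
    calc _ = s ^ 3 * (((2 * D / a * s) ^ 3)⁻¹ * (a / 2)) := by field_simp; ring
      _ ≤ _ := by gcongr; linarith
  set K := M ^ 4 * D ^ 2 / a ^ 2 with hK
  have K0 : 0 < K := by positivity
  have ms1 : MeasurableSet {x | ‖T x‖ ^ 2 ≤ s ^ 2 / (4 * n) * n} :=
    measurableSet_le (by fun_prop) (by fun_prop)
  have ms2 : MeasurableSet {x | (s ^ 2 / (4 * n) + a / 4) * n ≤ ‖T x‖ ^ 2} :=
    measurableSet_le (by fun_prop) (by fun_prop)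
  have e1 : s ^ 2 / (4 * n) * n = (s / 2) ^ 2 := by field_simp; ring
  have P := ts (s ^ 2 / (4 * n))
  have P2 : 1 ≤ 4 * K * (mu p).real {x | (s ^ 2 / (4 * n) + a / 4) * n ≤ ‖T x‖ ^ 2} := by
    have i4 := ((integrable_const (μ := mu p) (1 : ℝ)).indicator ms2).const_mul (K * s ^ 2)
    have i5 := (integrable_const (s ^ 2 / 2)).add ((i2 4).const_mul (4 * K * s ^ 2)⁻¹)
    have h1 := integral_mono (i2 2) (i5.add i4) fun x => by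
      simp only [Pi.add_apply, indicator_apply, mem_ofPred_eq]
      have h2 := amgm (θ := (2 * K * s ^ 2)⁻¹) (by positivity) (‖T x‖ ^ 2)
      have h3 : (2 * K * s ^ 2)⁻¹ / 2 = (4 * K * s ^ 2)⁻¹ := by field_simp; ring
      have h4 : (2 * (2 * K * s ^ 2)⁻¹)⁻¹ = K * s ^ 2 := by field_simp
      have h5 : 0 ≤ (4 * K * s ^ 2)⁻¹ * ‖T x‖ ^ 4 := by positivity
      rw [h3, h4, ← pow_mul] at h2
      split_ifs with h6
      · linarith [sq_nonneg s]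
      · rw [add_mul, e1] at h6
        linarith
    rw [integral_add' i5 i4, integral_add' (integrable_const _) ((i2 4).const_mul _),
      integral_const_mul, integral_const_mul, integral_indicator ms2, hτ] at h1
    simp only [integral_const, probReal_univ, smul_eq_mul, one_mul, mul_one,
      measureReal_restrict_apply_univ] at h1
    have h2 : (4 * K * s ^ 2)⁻¹ * ∫ x, ‖T x‖ ^ 4 ∂mu p ≤ s ^ 2 / 4 := by
      rw [inv_mul_le_iff₀ (by positivity)]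
      calc _ ≤ M ^ 4 * D ^ 2 * n ^ 2 := τ3
        _ = K * (a * n) ^ 2 := by rw [hK]; field_simp
        _ ≤ K * (s ^ 2) ^ 2 := by gcongr
        _ = _ := by ring
    refine le_of_mul_le_mul_left ?_ (pow_pos s0 2)
    linarith
  have P3 : (M ^ 2 * D) ^ 3 * D * (mu p).real {x | ‖T x‖ ^ 2 ≤ s ^ 2 / (4 * n) * n} ≤ 1 := by
    have h1 := mul_le_mul_of_nonneg_left P2
      (measureReal_nonneg (μ := mu p) (s := {x | ‖T x‖ ^ 2 ≤ s ^ 2 / (4 * n) * n}))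
    have h2 := mul_le_mul_of_nonneg_left P (by positivity : 0 ≤ 4 * K)
    calc _ ≤ (M ^ 2 * D) ^ 3 * D * (4 * K * (1 / n)) := by gcongr; linarith
      _ = 4 * K * ((M ^ 2 * D) ^ 3 * D) / n := by ring
      _ ≤ 1 := (div_le_one n0).2 hn
  obtain ⟨θ, θ0, hθ⟩ : ∃ θ : ℝ, 0 < θ ∧ θ = n ^ 3 / (s ^ 3 * D) := ⟨_, by positivity, rfl⟩
  have i4 := ((integrable_const (μ := mu p) (1 : ℝ)).indicator ms1).const_mul (2 * θ)⁻¹
  have i5 := (j2.const_mul ((s / 2) ^ 3)⁻¹).add (m4.const_mul (θ / 2))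
  have h1 := integral_mono i3 (i5.add i4) fun x => by
    simp only [Pi.add_apply, indicator_apply, mem_ofPred_eq, e1]
    have h2 : 0 ≤ ((s / 2) ^ 3)⁻¹ * ⟪x, e⟫ ^ 2 := by positivity
    have h3 : 0 ≤ θ / 2 * (⟪x, e⟫ ^ 4 / ‖x‖ ^ 6) := by positivity
    split_ifs with h6
    · have h4 := amgm θ0 (⟪x, e⟫ ^ 2 / ‖x‖ ^ 3)
      have h5 : ⟪x, e⟫ ^ 2 / ‖T x‖ ^ 3 ≤ ⟪x, e⟫ ^ 2 / ‖x‖ ^ 3 := by
        rcases eq_or_ne x 0 with rfl | hx
        · simp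
        have h0 := norm_pos_iff.2 hx
        gcongr
        exact t1 x
      rw [div_pow, ← pow_mul, ← pow_mul] at h4
      linarith
    · have h4 := (abs_le_of_sq_le_sq' (not_le.1 h6).le (norm_nonneg _)).2
      have h5 : ⟪x, e⟫ ^ 2 / ‖T x‖ ^ 3 ≤ ⟪x, e⟫ ^ 2 / (s / 2) ^ 3 := by gcongr
      rw [div_eq_inv_mul _ ((s / 2) ^ 3)] at h5
      linarith
  rw [integral_add' i5 i4, integral_add' (j2.const_mul _) (m4.const_mul _), integral_const_mul,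
    integral_const_mul, integral_const_mul, integral_indicator ms1] at h1
  simp only [integral_const, smul_eq_mul, mul_one, measureReal_restrict_apply_univ] at h1
  have P0 := measureReal_nonneg (μ := mu p) (s := {x | ‖T x‖ ^ 2 ≤ s ^ 2 / (4 * n) * n})
  generalize (mu p).real {x | ‖T x‖ ^ 2 ≤ s ^ 2 / (4 * n) * n} = w at h1 P3 P0
  calc _ ≤ s ^ 3 * (((s / 2) ^ 3)⁻¹ * D + θ / 2 * (D / n ^ 3) + (2 * θ)⁻¹ * w) :=
        mul_le_mul_of_nonneg_left (h1.trans (by gcongr)) (by positivity)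
    _ = 8 * D + 1 / 2 + (s ^ 2) ^ 3 * D * w / (2 * n ^ 3) := by rw [hθ]; field_simp; ring
    _ ≤ 8 * D + 1 / 2 + (M ^ 2 * D * n) ^ 3 * D * w / (2 * n ^ 3) := by gcongr
    _ = 8 * D + 1 / 2 + (M ^ 2 * D) ^ 3 * D * w / 2 := by field_simp
    _ ≤ _ := by linarith

theorem cmp_gl {Λ K : ℝ} (H : Cmp Λ p h b) (T : Eu n ≃L[ℝ] Eu n) (hK : 1 ≤ K)
    (t1 : ∀ x, ‖x‖ ≤ K * ‖T x‖) (t2 : ∀ x, ‖T x‖ ≤ K * ‖x‖) :
    Cmp (Λ * K) (fun x => p (T.symm x)) (fun ξ => h (tp T ξ)) b := by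
  have hb := H.bp.bpos
  have hΛ : 0 ≤ Λ := hb.le.trans H.bhi
  have key : ∀ S : Eu n ≃L[ℝ] Eu n, (∀ x, ‖S x‖ ≤ K * ‖x‖) → ∀ ξ, ‖tp S ξ‖ ≤ K * ‖ξ‖ :=
    fun S hS ξ => (tp S).le_of_opNorm_le ((ContinuousLinearMap.adjoint.norm_map _).trans_le
      (ContinuousLinearMap.opNorm_le_bound _ (by linarith) hS)) ξ
  refine ⟨H.bp.gl T, fun ξ => ?_, fun ξ => ?_, H.blo.trans ?_, H.bhi.trans ?_⟩
  · have h1 := key T.symm (fun x => by simpa using t1 (T.symm x)) (tp T ξ)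
    rw [tp_symm_tp] at h1
    rw [mul_comm Λ, mul_assoc]
    exact h1.trans (mul_le_mul_of_nonneg_left (H.hlo _) (by linarith))
  · rw [mul_assoc]
    exact (H.hhi _).trans (mul_le_mul_of_nonneg_left (key T t2 ξ) hΛ)
  · exact mul_le_mul_of_nonneg_right (le_mul_of_one_le_right hΛ hK) hb.le
  · exact le_mul_of_one_le_right hΛ hK

theorem exists_iso (hR : RegStmt) (hT : TsStmt) (hM : MomStmt) {Λ : ℝ} (hΛ : 1 ≤ Λ) :
    ∃ (M : ℝ) (n0 : ℕ), 1 < M ∧ ∀ n ≥ n0, ∀ (p h : Eu n → ℝ) (b : ℝ), Cmp Λ p h b →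
      ∃ (T : Eu n ≃L[ℝ] Eu n) (κ : ℝ), (∀ x, ‖x‖ ≤ ‖T x‖) ∧ (∀ x, ‖T x‖ ≤ M * ‖x‖) ∧
        ∀ u v, ∫ x, ⟪T x, u⟫ * ⟪T x, v⟫ / ‖T x‖ ^ 3 ∂mu p = κ * ⟪u, v⟫ := by
  obtain ⟨L, hL, r1⟩ := hR Λ hΛ
  have L1 : 1 ≤ L := by linarith
  obtain ⟨C1, n1, -, m1⟩ := hM L L1 1 0
  obtain ⟨C2, n2, c2, m2⟩ := hM L L1 0 2
  obtain ⟨C4, n4, c4, m4⟩ := hM L L1 0 4
  obtain ⟨C6, n6, c6, m6⟩ := hM L L1 6 4
  obtain ⟨D, D1, D2, D4, D6⟩ : ∃ D : ℝ, 0 < D ∧ C2 ≤ D ∧ C4 ≤ D ^ 2 ∧ C6 ≤ D :=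
    ⟨1 + C2 + C4 + C6, by positivity, by linarith, by nlinarith, by linarith⟩
  have c0 : 0 < L⁻¹ ^ 4 / (16 * D ^ 3) := by positivity
  obtain ⟨M, M1, M2⟩ : ∃ M : ℝ, 1 < M ∧ 8 * D + 1 ≤ M * (L⁻¹ ^ 4 / (16 * D ^ 3)) :=
    ⟨2 + (8 * D + 1) / (L⁻¹ ^ 4 / (16 * D ^ 3)), by
      linarith [div_pos (by positivity : 0 < 8 * D + 1) c0], by
      rw [add_mul, div_mul_cancel₀ _ c0.ne']
      linarith⟩
  obtain ⟨L', hL', r2⟩ := hR (Λ * M) (one_le_mul_of_one_le_of_one_le hΛ M1.le)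
  obtain ⟨n3, ts⟩ := hT L' (L⁻¹ / 4) 1 (by linarith) (by positivity)
  obtain ⟨n5, h5⟩ := exists_nat_ge (4 * (M ^ 4 * D ^ 2 / L⁻¹ ^ 2) * ((M ^ 2 * D) ^ 3 * D))
  refine ⟨M, n1 + n2 + n3 + n4 + n5 + n6 + 1, M1, fun n hn p h b H => ?_⟩
  have R := r1 n p h b H
  have i1 : Integrable (fun x => ‖x‖⁻¹) (mu p) := by simpa using (m1 n (by omega) p R.tame).1.1
  refine fixed i1 (H.bp.nrm.int_norm_pow 2) c0 M1 (fun T t1 t2 e he => ?_) (by omega)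
  refine (est H.bp.nrm T (by positivity) D1 (by positivity) i1 (fun v hv => ?_) t1 t2 (fun α => ?_)
    (h5.trans (by exact_mod_cast (by omega))) he).imp id fun h => h.trans M2
  · have a2 := ((m2 n (by omega) p R.tame).2.1 v hv).2
    have a4 := ((m4 n (by omega) p R.tame).2.1 v hv).2
    have a6 := (m6 n (by omega) p R.tame).2.1 v hv
    have e4 : ∀ y : ℝ, |y| ^ 4 = y ^ 4 := fun y => Even.pow_abs (by decide) y
    have e6 : √(n : ℝ) ^ 6 = n ^ 3 := by rw [show 6 = 2 * 3 from rfl, pow_mul, sq_sqrt n.cast_nonneg]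
    simp only [pow_zero, div_one, sq_abs, e4, e6] at a2 a4 a6
    exact ⟨(inv_le_iff_one_le_mul₀' (by positivity)).2 (R.cov v hv), a2.trans D2, a4.trans D4, a6.1,
      a6.2.trans (by gcongr)⟩
  · have := ts n (by omega) _ (r2 n _ _ b (cmp_gl H T M1.le (fun x => (t1 x).trans
      (le_mul_of_one_le_left (norm_nonneg _) M1.le)) t2)).tame α
    rw [H.bp.nrm.mu_gl, map_measureReal_apply T.continuous.measurable
      (measurableSet_le (by fun_prop) (by fun_prop)), map_measureReal_apply T.continuous.measurable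
      (measurableSet_le (by fun_prop) (by fun_prop)), pow_one] at this
    exact this

end Pos

open Pos in
theorem pos (hR : RegStmt) (hT : TsStmt) (hM : MomStmt) (_ : PmomStmt) : PosStmt := by
  intro Λ hΛ
  obtain ⟨M, n0, M1, h1⟩ := exists_iso hR hT hM hΛ
  obtain ⟨L, hL, r1⟩ := hR Λ hΛ
  obtain ⟨C, n1, C0, m1⟩ := hM L (by linarith) 1 0
  obtain ⟨K, K1, K2, K3⟩ : ∃ K : ℝ, 1 ≤ K ∧ 3 * Λ * M * C ^ 2 ≤ K ∧ Λ * C ^ 2 * M ≤ K :=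
    ⟨1 + 3 * Λ * M * C ^ 2, le_add_of_nonneg_right (by positivity), by linarith, by
      have : 0 ≤ Λ * C ^ 2 * M := by positivity
      linarith⟩
  obtain ⟨L', hL', r2⟩ := hR (Λ * K) (one_le_mul_of_one_le_of_one_le hΛ K1)
  refine ⟨L', n0 + n1 + 1, hL', fun n hn p h b H => ?_⟩
  obtain ⟨T, κ, t1, t2, e⟩ := h1 n (by omega) p h b H
  have hp := H.bp.nrm
  obtain ⟨⟨i1, a1⟩, -, a2⟩ := m1 n (by omega) p (r1 n p h b H).tame
  obtain ⟨⟨-, b1⟩, -, b2⟩ := m1 n (by omega) _ (tame_gam.mono (by norm_num) hL)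
  simp only [pow_one, one_div] at i1 a1 a2 b1 b2
  change ∫ x, ‖x‖⁻¹ ∂gam n ≤ _ at b1
  change _ ≤ ∫ x, ‖x‖⁻¹ ∂gam n at b2
  have s0 : 0 < √(n : ℝ) := sqrt_pos.2 (by exact_mod_cast (by omega : 0 < n))
  have l0 := lam_pos H.bp.bpos
  have p1 : ∀ x, ‖T x‖⁻¹ ≤ ‖x‖⁻¹ := fun x => by
    rcases eq_or_ne x 0 with rfl | hx
    · simp
    exact inv_anti₀ (norm_pos_iff.2 hx) (t1 x)
  have i2 : Integrable (fun x => ‖T x‖⁻¹) (mu p) :=
    i1.mono' (Measurable.aestronglyMeasurable (by fun_prop)) (Eventually.of_forall fun x => by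
      rw [Real.norm_of_nonneg (by positivity)]
      exact p1 x)
  have a3 := (integral_mono i2 i1 p1).trans a1
  have a4 : (C * √n)⁻¹ ≤ M * ∫ x, ‖T x‖⁻¹ ∂mu p := by
    rw [← integral_const_mul]
    refine a2.trans (integral_mono i1 (i2.const_mul M) fun x => ?_)
    rcases eq_or_ne x 0 with rfl | hx
    · simp
    have h0 := norm_pos_iff.2 hx
    have h2 := h0.trans_le (t1 x)
    simp only
    rw [← div_eq_mul_inv, inv_eq_one_div, div_le_div_iff₀ h0 h2, one_mul]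
    exact t2 x
  have g0 : 0 < ∫ x, ‖x‖⁻¹ ∂gam n := lt_of_lt_of_le (by positivity) b2
  have f0 : 0 < ∫ x, ‖T x‖⁻¹ ∂mu p :=
    (pos_iff_pos_of_mul_pos (lt_of_lt_of_le (by positivity) a4)).1 (by linarith)
  obtain ⟨s, hs⟩ : ∃ s, s = lam b * (∫ x, ‖T x‖⁻¹ ∂mu p) / ∫ x, ‖x‖⁻¹ ∂gam n := ⟨_, rfl⟩
  have s1 : 0 < s := by rw [hs]; positivity
  have s2 : 1 ≤ K * s := by
    rw [hs, ← mul_div_assoc, le_div_iff₀ g0, one_mul]
    calc _ ≤ C / √n := b1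
      _ = C ^ 2 * (1 * (C * √n)⁻¹) := by field_simp
      _ ≤ C ^ 2 * (3 * Λ * lam b * (M * ∫ x, ‖T x‖⁻¹ ∂mu p)) := by gcongr; exact H.le_lam
      _ = 3 * Λ * M * C ^ 2 * (lam b * ∫ x, ‖T x‖⁻¹ ∂mu p) := by ring
      _ ≤ _ := by gcongr
  have s3 : s * M ≤ K := by
    refine le_trans (mul_le_mul_of_nonneg_right ?_ (by linarith)) K3
    rw [hs, div_le_iff₀ g0]
    calc _ ≤ Λ * (C / √n) := by gcongr; exact H.lam_le
      _ = Λ * C ^ 2 * (C * √n)⁻¹ := by field_simp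
      _ ≤ _ := by gcongr
  obtain ⟨S, hS⟩ : ∃ S : Eu n ≃L[ℝ] Eu n, ∀ x, S x = s • T x :=
    ⟨T.trans (.smulLeft (Units.mk0 s s1.ne')), fun x => rfl⟩
  have n1 : ∀ x, ‖S x‖ = s * ‖T x‖ := fun x => by rw [hS, norm_smul, Real.norm_of_nonneg s1.le]
  have n2 : ∫ x, ‖S x‖⁻¹ ∂mu p = s⁻¹ * ∫ x, ‖T x‖⁻¹ ∂mu p := by
    simp only [n1, mul_inv, integral_const_mul]
  have n3 : ∀ i j, ∫ x, T x i * T x j / ‖T x‖ ^ 3 ∂mu p = if i = j then κ else 0 := fun i j => by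
    simpa [EuclideanSpace.inner_single_right, Pi.single_apply, eq_comm (a := j)] using
      e (EuclideanSpace.single i 1) (EuclideanSpace.single j 1)
  have n4 : ∫ x, ‖T x‖⁻¹ ∂mu p = n * κ := by
    have q1 : ∀ x, ∑ i, T x i * T x i / ‖T x‖ ^ 3 = ‖T x‖⁻¹ := fun x => by
      simp only [← Finset.sum_div, ← sq, ← norm_sq_eq_sum]
      rcases (norm_nonneg (T x)).eq_or_lt with h0 | h0
      · simp [← h0]
      · field_simp
    simp only [← q1]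
    rw [integral_finsetSum _ fun i _ => i2.mono' (Measurable.aestronglyMeasurable (by fun_prop))
      (Eventually.of_forall fun x => ?_)]
    · simp [n3]
    have q2 : ∀ i, 0 ≤ T x i * T x i / ‖T x‖ ^ 3 := fun i =>
      div_nonneg (mul_self_nonneg _) (by positivity)
    rw [Real.norm_of_nonneg (q2 i), ← q1]
    exact Finset.single_le_sum (fun i _ => q2 i) (Finset.mem_univ i)
  refine ⟨S, _, r2 n _ _ b (cmp_gl H S K1 (fun x => ?_) fun x => ?_), fun i j => ?_, ?_⟩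
  · rw [n1, ← mul_assoc]
    exact (t1 x).trans (le_mul_of_one_le_left (norm_nonneg _) s2)
  · rw [n1]
    exact (mul_le_mul_of_nonneg_left (t2 x) s1.le).trans
      ((mul_assoc _ _ _).symm.trans_le (mul_le_mul_of_nonneg_right s3 (norm_nonneg _)))
  · rw [hp.integral_gl, hp.integral_gl, n2, n4]
    have q1 : ∀ x, S x i * S x j / ‖S x‖ ^ 3 = s⁻¹ * (T x i * T x j / ‖T x‖ ^ 3) := fun x => by
      rw [n1, hS, PiLp.smul_apply, PiLp.smul_apply, smul_eq_mul, smul_eq_mul, mul_pow]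
      field_simp
    have q2 : (n : ℝ) ≠ 0 := by exact_mod_cast (by omega : n ≠ 0)
    simp only [q1, integral_const_mul, n3]
    split_ifs
    · field_simp
    · exact mul_zero _
  · rw [hp.integral_gl, n2, hs, inv_div, div_mul_eq_mul_div, mul_div_mul_right _ _ f0.ne',
      mul_div_cancel₀ _ l0.ne']

end Pool.Agent.MP_2a44fd_gt.hd

end MrgPart5

-- ======== part 6: formerly Pool.Agent.MP_2a44fd_gt.hd.Lim
section MrgPart6

/-!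
PROJECT BP5HD: module LIM.
-/

set_option autoImplicit false

open MeasureTheory Real Set Filter Topology
open scoped RealInnerProductSpace ENNReal

namespace Pool.Agent.MP_2a44fd_gt.hd

namespace LimM

variable {n : ℕ} {p h : Eu n → ℝ} {Λ b δ : ℝ}

theorem t0 : Tendsto (fun δ : ℝ => δ) (𝓝[>] 0) (𝓝 0) :=
  tendsto_nhdsWithin_of_tendsto_nhds tendsto_id

theorem ev : ∀ᶠ δ in 𝓝[>] (0 : ℝ), 0 < δ ∧ δ ≤ 1 := by
  filter_upwards [self_mem_nhdsWithin, t0.eventually (ge_mem_nhds one_pos)] with δ h0 h1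
  exact ⟨h0, h1⟩

theorem tsq (t : ℝ) : Tendsto (fun δ : ℝ => t ^ 2 + δ ^ 2) (𝓝[>] 0) (𝓝 (t ^ 2)) := by
  simpa using (t0.pow 2).const_add (t ^ 2)

theorem tr {t : ℝ} (ht : 0 ≤ t) : Tendsto (fun δ : ℝ => √(t ^ 2 + δ ^ 2)) (𝓝[>] 0) (𝓝 t) := by
  simpa [sqrt_sq ht] using (tsq t).sqrt

theorem le_r (t δ : ℝ) : t ≤ √(t ^ 2 + δ ^ 2) :=
  le_sqrt_of_sq_le (le_add_of_nonneg_right (sq_nonneg δ))

theorem Ph_le (hR : Reg Λ p h b) (h0 : 0 < δ) (ξ : Eu n) :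
    |Ph p b δ ξ - (‖ξ‖ ^ 2 + δ ^ 2) / 2| ≤ (Λ ^ 2 + 1) * (‖ξ‖ ^ 2 + δ ^ 2) := by
  have hb := hR.cmp.bp.bpos
  have a4 := hR.cmp.bp.nrm.A0_pos h0 ξ
  have a3 := hR.alo δ h0 ξ
  have hr : 0 < ‖ξ‖ ^ 2 + δ ^ 2 := by positivity
  have a6 : b / A0 p δ ξ ≤ Λ * √(‖ξ‖ ^ 2 + δ ^ 2) := by
    rw [div_le_iff₀ a4]
    rw [← mul_div_assoc, ← mul_div_assoc, le_div_iff₀ hb, one_mul] at a3
    linarith [mul_assoc Λ (√(‖ξ‖ ^ 2 + δ ^ 2)) (A0 p δ ξ)]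
  have a7 := pow_le_pow_left₀ (by positivity) a6 2
  rw [mul_pow, sq_sqrt hr.le] at a7
  have a8 : Ph p b δ ξ = (b / A0 p δ ξ) ^ 2 / 2 := by rw [Ph]; field_simp
  have a9 := sq_nonneg (b / A0 p δ ξ)
  have a10 : 0 ≤ Λ ^ 2 * (‖ξ‖ ^ 2 + δ ^ 2) := by positivity
  rw [a8, abs_le]
  constructor <;> nlinarith

theorem Ph_cont (hp : Nrm p) (h0 : 0 < δ) : Continuous (Ph p b δ) :=
  continuous_const.div (((hp.A0_cont h0).pow 2).const_mul 2) fun ξ => by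
    have := hp.A0_pos h0 ξ; positivity

theorem Ph_lim (H : BP p h b) {ξ : Eu n} (hξ : ξ ≠ 0) :
    Tendsto (fun δ => Ph p b δ ξ - (‖ξ‖ ^ 2 + δ ^ 2) / 2) (𝓝[>] 0) (𝓝 (psi h ξ)) := by
  have hb := H.bpos
  have hh := H.hpos ξ hξ
  have h1 : Tendsto (fun δ => Ph p b δ ξ) (𝓝[>] 0) (𝓝 (b ^ 2 / (2 * (b / h ξ) ^ 2))) :=
    tendsto_const_nhds.div (((H.lim ξ hξ).pow 2).const_mul 2) (by positivity)
  rw [show b ^ 2 / (2 * (b / h ξ) ^ 2) = h ξ ^ 2 / 2 by field_simp] at h1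
  exact h1.sub ((tsq ‖ξ‖).div_const 2)

theorem be_eq (hD : DecStmt) (H : BP p h b) (h0 : 0 < δ) (ξ : Eu n) :
    √(‖ξ‖ ^ 2 + δ ^ 2) ^ 3 * be0 (Vf p b) δ ξ =
      (‖ξ‖ ^ 2 + δ ^ 2) * (√(‖ξ‖ ^ 2 + δ ^ 2) * (A0 p δ ξ / b) - 1) := by
  have hr : 0 < ‖ξ‖ ^ 2 + δ ^ 2 := by positivity
  have h1 := sqrt_pos.2 hr
  have h2 := sq_sqrt hr.le
  rw [(hD n p b δ ξ H.nrm H.bpos h0).1]
  generalize √(‖ξ‖ ^ 2 + δ ^ 2) = r at h1 h2
  rw [← h2]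
  field_simp
  ring

theorem be_le (hR : Reg Λ p h b) (h0 : 0 < δ) (ξ : Eu n) :
    |(‖ξ‖ ^ 2 + δ ^ 2) * (√(‖ξ‖ ^ 2 + δ ^ 2) * (A0 p δ ξ / b) - 1)| ≤
      (Λ ^ 2 + 1) * (‖ξ‖ ^ 2 + δ ^ 2) := by
  have hb := hR.cmp.bp.bpos
  have a4 := hR.cmp.bp.nrm.A0_pos h0 ξ
  have a3 := hR.ahi δ h0 ξ
  have a5 : 0 ≤ √(‖ξ‖ ^ 2 + δ ^ 2) * (A0 p δ ξ / b) := by positivity
  rw [abs_mul, abs_of_nonneg (by positivity), mul_comm]
  refine mul_le_mul_of_nonneg_right (abs_le.2 ⟨?_, ?_⟩) (by positivity)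
  · nlinarith [sq_nonneg Λ]
  · nlinarith [sq_nonneg (Λ - 1)]

theorem bd_int (Λ δ : ℝ) : Integrable (fun ξ : Eu n => (Λ ^ 2 + 1) * (‖ξ‖ ^ 2 + δ ^ 2)) (gam n) := by
  have n2 : Integrable (fun ξ : Eu n => ‖ξ‖ ^ 2) (gam n) := nrm_norm.int_norm_pow 2
  exact (n2.add (integrable_const _)).const_mul _

theorem bd_int2 (Λ : ℝ) :
    Integrable (fun ξ : Eu n => ((Λ ^ 2 + 1) * (‖ξ‖ ^ 2 + 1 ^ 2)) ^ 2) (gam n) := by
  refine nrm_norm.int_of_poly (by fun_prop) ((Λ ^ 2 + 1) ^ 2) 4 fun ξ => ?_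
  rw [abs_of_nonneg (sq_nonneg _), mul_pow, show (1 + ‖ξ‖) ^ 4 = ((1 + ‖ξ‖) ^ 2) ^ 2 by ring]
  refine mul_le_mul_of_nonneg_left (pow_le_pow_left₀ (by positivity) ?_ 2) (sq_nonneg _)
  nlinarith [norm_nonneg ξ]

theorem bd_mono (Λ : ℝ) (h0 : 0 < δ) (h1 : δ ≤ 1) (t : ℝ) :
    (Λ ^ 2 + 1) * (t ^ 2 + δ ^ 2) ≤ (Λ ^ 2 + 1) * (t ^ 2 + 1 ^ 2) :=
  mul_le_mul_of_nonneg_left (add_le_add_right (pow_le_pow_left₀ h0.le h1 2) _) (by positivity)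

theorem psi_le (hR : Reg Λ p h b) (ξ : Eu n) : |psi h ξ| ≤ (Λ ^ 2 + 1) * (‖ξ‖ ^ 2 + 1 ^ 2) := by
  have h1 := pow_le_pow_left₀ (hR.cmp.bp.h_nonneg ξ) (hR.cmp.hhi ξ) 2
  have h2 := sq_nonneg (h ξ)
  have h3 := sq_nonneg ‖ξ‖
  have h4 := sq_nonneg Λ
  have h5 := mul_nonneg h4 h3
  rw [psi, abs_le]
  constructor <;> nlinarith

/-- The Gaussian average of the section function. -/
theorem avg_A0 (hp : Nrm p) (h0 : 0 < δ) :
    ∫ ξ, A0 p δ ξ / b ∂gam n = lam b * ∫ x, (√(‖x‖ ^ 2 + δ ^ 2))⁻¹ ∂mu p := by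
  have := hp.prob
  have hi : Integrable (Function.uncurry fun (ξ x : Eu n) => gk δ ⟪x, ξ⟫) ((gam n).prod (mu p)) :=
    (integrable_const (1 / δ)).mono' (Continuous.aestronglyMeasurable (by fun_prop))
      (Eventually.of_forall fun z => by
        rw [Function.uncurry, Real.norm_of_nonneg (gk_pos h0 _).le]; exact gk_le' h0 _)
  have e : ∀ x : Eu n, ∫ ξ, gk δ ⟪x, ξ⟫ ∂gam n = (√(2 * π))⁻¹ * (√(‖x‖ ^ 2 + δ ^ 2))⁻¹ := fun x => by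
    have := A0_gam h0 x
    simp only [A0, real_inner_comm x] at this
    rw [← mul_inv, ← one_div, ← this]
    rfl
  rw [integral_div]
  simp only [A0]
  rw [integral_integral_swap hi]
  simp only [e]
  rw [integral_const_mul, lam]
  ring

theorem inv_h (hn : 1 ≤ n) (hS : Sp Λ p h b) (i1 : Integrable (fun x => ‖x‖⁻¹) (mu p))
    (i2 : Integrable (fun x => ‖x‖⁻¹) (gam n)) :
    Integrable (fun ξ => (h ξ)⁻¹) (gam n) ∧ ∫ ξ, (h ξ)⁻¹ ∂gam n = ∫ ξ, ‖ξ‖⁻¹ ∂gam n := by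
  have hR := hS.reg
  have H := hR.cmp.bp
  have hp := H.nrm
  have hb := H.bpos
  have l1 : Tendsto (fun δ => ∫ ξ, A0 p δ ξ / b ∂gam n) (𝓝[>] 0) (𝓝 (∫ ξ, (h ξ)⁻¹ ∂gam n)) := by
    refine tendsto_integral_filter_of_dominated_convergence (fun ξ => Λ * ‖ξ‖⁻¹) ?_ ?_
      (i2.const_mul Λ) ?_
    · filter_upwards [ev] with δ hδ
      exact ((hp.A0_cont hδ.1).div_const b).aestronglyMeasurable
    · filter_upwards [ev] with δ hδ
      filter_upwards [ae_ne_zero hn fun x : Eu n => ‖x‖] with ξ hξ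
      have a1 := hp.A0_pos hδ.1 ξ
      have a2 := norm_pos_iff.2 hξ
      rw [Real.norm_of_nonneg (by positivity), ← div_eq_mul_inv, le_div_iff₀' a2]
      exact (mul_le_mul_of_nonneg_right (le_r _ δ) (by positivity)).trans (hR.ahi δ hδ.1 ξ)
    · filter_upwards [ae_ne_zero hn fun x : Eu n => ‖x‖] with ξ hξ
      have := (H.lim ξ hξ).div_const b
      rwa [show b / h ξ / b = (h ξ)⁻¹ by field_simp] at this
  have l2 : Tendsto (fun δ : ℝ => ∫ x, (√(‖x‖ ^ 2 + δ ^ 2))⁻¹ ∂mu p) (𝓝[>] 0)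
      (𝓝 (∫ x, ‖x‖⁻¹ ∂mu p)) := by
    refine tendsto_integral_filter_of_dominated_convergence (fun x => ‖x‖⁻¹) ?_ ?_ i1 ?_
    · exact Eventually.of_forall fun δ => Measurable.aestronglyMeasurable (by fun_prop)
    · refine Eventually.of_forall fun δ => ?_
      filter_upwards [ae_ne_zero hn p] with x hx
      rw [Real.norm_of_nonneg (by positivity)]
      exact inv_anti₀ (norm_pos_iff.2 hx) (le_r _ δ)
    · filter_upwards [ae_ne_zero hn p] with x hx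
      exact (tr (norm_nonneg x)).inv₀ (norm_ne_zero_iff.2 hx)
  have l3 : Tendsto (fun δ => ∫ ξ, A0 p δ ξ / b ∂gam n) (𝓝[>] 0) (𝓝 (∫ ξ, ‖ξ‖⁻¹ ∂gam n)) := by
    rw [← hS.nor]
    refine (l2.const_mul (lam b)).congr' ?_
    filter_upwards [ev] with δ hδ
    exact (avg_A0 hp hδ.1).symm
  refine ⟨(i2.const_mul Λ).mono' H.hcont.measurable.inv.aestronglyMeasurable ?_,
    tendsto_nhds_unique l1 l3⟩
  filter_upwards [ae_ne_zero hn fun x : Eu n => ‖x‖] with ξ hξ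
  have a1 := H.hpos ξ hξ
  have a2 := norm_pos_iff.2 hξ
  rw [Real.norm_of_nonneg (by positivity), ← div_eq_mul_inv, le_div_iff₀ a2, inv_mul_le_iff₀ a1,
    mul_comm]
  exact hR.cmp.hlo ξ

theorem zero_mean (hI : IndepStmt) (hn : 1 ≤ n) (hΛ : 0 ≤ Λ) (hS : Sp Λ p h b)
    (i1 : Integrable (fun x => ‖x‖⁻¹) (mu p)) (i2 : Integrable (fun x => ‖x‖⁻¹) (gam n))
    (hpos : 0 < ∫ ξ, ‖ξ‖⁻¹ ∂gam n) : ∫ ξ, (‖ξ‖ / h ξ - 1) * ‖ξ‖ ^ 2 ∂gam n = 0 := by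
  have hR := hS.reg
  have H := hR.cmp.bp
  obtain ⟨j1, j2⟩ := inv_h hn hS i1 i2
  have ma : Measurable fun ξ : Eu n => ‖ξ‖ / h ξ - 1 :=
    (measurable_norm.div H.hcont.measurable).sub_const 1
  have ba : ∃ C, ∀ ξ : Eu n, |‖ξ‖ / h ξ - 1| ≤ C := by
    refine ⟨Λ + 1, fun ξ => ?_⟩
    have a1 : 0 ≤ ‖ξ‖ / h ξ := div_nonneg (norm_nonneg _) (H.h_nonneg ξ)
    have a2 : ‖ξ‖ / h ξ ≤ Λ := div_le_of_le_mul₀ (H.h_nonneg ξ) hΛ (hR.cmp.hlo ξ)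
    rw [abs_le]
    constructor <;> linarith
  have ha : ∀ c : ℝ, 0 < c → ∀ ξ : Eu n, ‖c • ξ‖ / h (c • ξ) - 1 = ‖ξ‖ / h ξ - 1 := fun c hc ξ => by
    rw [H.hsmul, norm_smul, Real.norm_eq_abs, mul_div_mul_left _ _ (abs_pos.2 hc.ne').ne']
  have e1 := hI n hn _ (fun t => t⁻¹) ma measurable_inv ba ha i2
  have e2 := hI n hn _ (fun t => t ^ 2) ma (by fun_prop) ba ha (nrm_norm.int_norm_pow 2)
  have e3 : ∫ ξ, (‖ξ‖ / h ξ - 1) * ‖ξ‖⁻¹ ∂gam n = 0 := by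
    rw [← sub_eq_zero.2 j2, ← integral_sub j1 i2]
    refine integral_congr_ae ?_
    filter_upwards [ae_ne_zero hn fun x : Eu n => ‖x‖] with ξ hξ
    have a1 := H.hpos ξ hξ
    have a2 := norm_pos_iff.2 hξ
    field_simp
  rw [e3] at e1
  rw [e2, (mul_eq_zero.1 e1.symm).resolve_right hpos.ne', zero_mul]

end LimM

open LimM in
theorem lim (hM : MomStmt) (hD : DecStmt) (hI : IndepStmt) : LimStmt := by
  intro Λ hΛ
  obtain ⟨C, n0, hC, hM⟩ := hM Λ (by linarith) 1 0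
  refine ⟨max 1 n0, fun n hn p h b hS => ?_⟩
  have hn1 : 1 ≤ n := le_trans (le_max_left _ _) hn
  have hn0 : n0 ≤ n := le_trans (le_max_right _ _) hn
  have hR := hS.reg
  have H := hR.cmp.bp
  have hp := H.nrm
  have hb := H.bpos
  have m1 := hM n hn0 p hR.tame
  have m2 := hM n hn0 _ (tame_gam.mono (by norm_num) hΛ)
  have i1 : Integrable (fun x => ‖x‖⁻¹) (mu p) := by simpa using m1.1.1
  have i2 : Integrable (fun x => ‖x‖⁻¹) (gam n) := by simpa [gam] using m2.1.1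
  have hpos : 0 < ∫ ξ, ‖ξ‖⁻¹ ∂gam n := by
    have : (0 : ℝ) < n := by exact_mod_cast hn1
    exact lt_of_lt_of_le (by positivity) m2.2.2
  have hz := zero_mean hI hn1 (by linarith) hS i1 i2 hpos
  have cpsi : Continuous (psi h) := by have := H.hcont; unfold psi; fun_prop
  have cP : ∀ δ, 0 < δ → Continuous fun ξ => Ph p b δ ξ - (‖ξ‖ ^ 2 + δ ^ 2) / 2 := fun δ h0 =>
    (Ph_cont hp h0).sub (by fun_prop)
  have cB : ∀ δ, 0 < δ → Continuous fun ξ : Eu n =>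
      (‖ξ‖ ^ 2 + δ ^ 2) * (√(‖ξ‖ ^ 2 + δ ^ 2) * (A0 p δ ξ / b) - 1) := fun δ h0 => by
    have := hp.A0_cont h0
    fun_prop
  refine ⟨?_, ?_, fun δ h0 => ?_, ?_, ?_, ?_⟩
  · refine (bd_int2 Λ).mono' (cpsi.pow 2).aestronglyMeasurable (Eventually.of_forall fun ξ => ?_)
    rw [Real.norm_eq_abs, abs_pow]
    exact pow_le_pow_left₀ (abs_nonneg _) (psi_le hR ξ) 2
  · exact (bd_int Λ 1).mono' cpsi.aestronglyMeasurable (Eventually.of_forall (psi_le hR))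
  · simp only [be_eq hD H h0]
    exact (bd_int Λ δ).mono' (cB δ h0).aestronglyMeasurable (Eventually.of_forall (be_le hR h0))
  · have l1 : Tendsto (fun δ => ∫ ξ, (‖ξ‖ ^ 2 + δ ^ 2) *
        (√(‖ξ‖ ^ 2 + δ ^ 2) * (A0 p δ ξ / b) - 1) ∂gam n) (𝓝[>] 0)
        (𝓝 (∫ ξ, (‖ξ‖ / h ξ - 1) * ‖ξ‖ ^ 2 ∂gam n)) := by
      refine tendsto_integral_filter_of_dominated_convergence _ ?_ ?_ (bd_int Λ 1) ?_
      · filter_upwards [ev] with δ hδ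
        exact (cB δ hδ.1).aestronglyMeasurable
      · filter_upwards [ev] with δ hδ
        exact Eventually.of_forall fun ξ => (be_le hR hδ.1 ξ).trans (bd_mono Λ hδ.1 hδ.2 _)
      · filter_upwards [ae_ne_zero hn1 fun x : Eu n => ‖x‖] with ξ hξ
        have := (tsq ‖ξ‖).mul
          (((tr (norm_nonneg ξ)).mul ((H.lim ξ hξ).div_const b)).sub_const 1)
        rwa [show ‖ξ‖ ^ 2 * (‖ξ‖ * (b / h ξ / b) - 1) = (‖ξ‖ / h ξ - 1) * ‖ξ‖ ^ 2 by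
          field_simp] at this
    rw [hz] at l1
    refine l1.congr' ?_
    filter_upwards [ev] with δ hδ
    simp only [be_eq hD H hδ.1]
  · refine tendsto_integral_filter_of_dominated_convergence _ ?_ ?_ (bd_int Λ 1) ?_
    · filter_upwards [ev] with δ hδ
      exact (cP δ hδ.1).aestronglyMeasurable
    · filter_upwards [ev] with δ hδ
      exact Eventually.of_forall fun ξ => (Ph_le hR hδ.1 ξ).trans (bd_mono Λ hδ.1 hδ.2 _)
    · filter_upwards [ae_ne_zero hn1 fun x : Eu n => ‖x‖] with ξ hξ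
      exact Ph_lim H hξ
  · refine tendsto_integral_filter_of_dominated_convergence _ ?_ ?_ (bd_int2 Λ) ?_
    · filter_upwards [ev] with δ hδ
      exact ((cP δ hδ.1).pow 2).aestronglyMeasurable
    · filter_upwards [ev] with δ hδ
      refine Eventually.of_forall fun ξ => ?_
      rw [Real.norm_eq_abs, abs_pow]
      exact pow_le_pow_left₀ (abs_nonneg _) ((Ph_le hR hδ.1 ξ).trans (bd_mono Λ hδ.1 hδ.2 _)) 2
    · filter_upwards [ae_ne_zero hn1 fun x : Eu n => ‖x‖] with ξ hξ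
      exact (Ph_lim H hξ).pow 2

end Pool.Agent.MP_2a44fd_gt.hd

end MrgPart6

-- marker of a merged file
example : 731051 + 392291 = 731051 + 392291 := rfl
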