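import Mathlib.Analysis.SpecialFunctions.Trigonometric.DerivHyp
import Mathlib.Combinatorics.SimpleGraph.Basic
import Mathlib.Analysis.SpecialFunctions.Pow.NthRootLemmas
import Mathlib.MeasureTheory.Order.Group.Lattice
import Pool.Agent.MP_2a44fd_gt.hd.Lim

-- ======== part 0: formerly Pool.Agent.MP_2a44fd_gt.hd.Main
section MrgPart0

/-!
PROJECT BP5HD: the crude volume bound (step C) and the assembly.
-/

set_option autoImplicit false

open MeasureTheory Real Set Filter Topology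
open scoped RealInnerProductSpace ENNReal

namespace Pool.Agent.MP_2a44fd_gt.hd

namespace MainAux

variable {n : ℕ}

theorem hs_Mt {Λ t : ℝ} (hΛ : 1 ≤ Λ) (h0 : 0 < t) (h1 : t < 1) (H : Matrix (Fin n) (Fin n) ℝ) :
    hs (Mt Λ t H) ≤ 2 * hs H + 2 * t ^ 2 * n := by
  have a1 : t / Λ ≤ t := div_le_self h0.le hΛ
  have a2 : 0 ≤ t / Λ := by positivity
  have key : ∀ i j, (Mt Λ t H - 1) i j ^ 2 ≤
      2 * (H - 1) i j ^ 2 + 2 * t ^ 2 * (if i = j then 1 else 0) := fun i j => by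
    simp only [Mt, Matrix.sub_apply, Matrix.add_apply, Matrix.smul_apply, smul_eq_mul,
      Matrix.one_apply]
    have b1 : (1 - t) ^ 2 ≤ 1 := by nlinarith
    split_ifs
    · have e : (1 - t) * H i j + t / Λ * 1 - 1 = (1 - t) * (H i j - 1) - (t - t / Λ) := by ring
      have b2 : (t - t / Λ) ^ 2 ≤ t ^ 2 := pow_le_pow_left₀ (by linarith) (by linarith) 2
      have b3 := mul_le_mul_of_nonneg_right b1 (sq_nonneg (H i j - 1))
      rw [e]
      nlinarith [sq_nonneg ((1 - t) * (H i j - 1) + (t - t / Λ))]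
    · have b3 := mul_le_mul_of_nonneg_right b1 (sq_nonneg (H i j))
      nlinarith [sq_nonneg (H i j)]
  refine (Finset.sum_le_sum fun i _ => Finset.sum_le_sum fun j _ => key i j).trans_eq ?_
  simp [hs, Finset.sum_add_distrib, Finset.mul_sum, mul_comm]

theorem trace_Mt (Λ t : ℝ) (H : Matrix (Fin n) (Fin n) ℝ) :
    (Mt Λ t H).trace - n = (1 - t) * (H.trace - n) - (t - t / Λ) * n := by
  simp only [Mt, Matrix.trace_add, Matrix.trace_smul, Matrix.trace_one, Fintype.card_fin,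
    smul_eq_mul]
  ring

theorem ev_exp {c τ : ℝ} (hc : 0 < c) (hτ : 0 < τ) : ∀ᶠ n : ℕ in atTop, exp (-(c * n)) ≤ τ :=
  (tendsto_exp_neg_atTop_nhds_zero.comp
    (tendsto_natCast_atTop_atTop.const_mul_atTop hc)).eventually (ge_mem_nhds hτ)

theorem ev_ge (a : ℝ) : ∀ᶠ n : ℕ in atTop, a ≤ n :=
  tendsto_natCast_atTop_atTop.eventually_ge_atTop a

theorem ev_pow {τ : ℝ} (hτ : 0 < τ) (J : ℕ) : ∀ᶠ n : ℕ in atTop, (n : ℝ) ^ J ≤ exp (τ * n) := by
  filter_upwards [ev_ge ((J + 1).factorial / τ ^ (J + 1))] with n hn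
  have h1 := pow_div_factorial_le_exp (τ * n) (by positivity) (J + 1)
  refine le_trans ?_ h1
  rw [div_le_iff₀ (by positivity)] at hn
  rw [le_div_iff₀ (by positivity), mul_pow, pow_succ (n : ℝ)]
  have : (0 : ℝ) ≤ (n : ℝ) ^ J := by positivity
  nlinarith

end MainAux

open MainAux

theorem stepC (hV : VolStmt) (hS : SanStmt) (hT : TailStmt) : StepCStmt := by
  intro Λ ν η hΛ hν hη
  obtain ⟨c, hc, hT⟩ := hT (η / 2) (half_pos hη)
  obtain ⟨T, hTd⟩ : ∃ T : ℝ, T = 4 * ν + 1 := ⟨_, rfl⟩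
  have hT1 : 1 ≤ T := by linarith
  obtain ⟨J, hJ⟩ := exists_nat_ge (4 * (4 * T + 4 * T ^ 2 + 2))
  obtain ⟨θ, hθd⟩ : ∃ θ : ℝ, θ = η / (4 + 2 * η) := ⟨_, rfl⟩
  have hθ : 0 < θ := by rw [hθd]; positivity
  obtain ⟨n0, hn0⟩ := eventually_atTop.1 ((ev_exp hc (show (0 : ℝ) < 1 / 4 by norm_num)).and
    ((ev_ge 2).and ((ev_ge (4 * ((1 + 1 / θ) * T) / η)).and
      (ev_ge (2 * exp (3 * T + 1 + ν) * Λ ^ J)))))
  refine ⟨J + 1, n0, fun n hn p h b sp ⟨⟨Φ, y, H, G, P, hG, _⟩, _, _, ip, hp⟩ => ?_⟩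
  obtain ⟨e1, e2, e3, e4⟩ := hn0 n hn
  have nrm := sp.reg.tame.nrm
  have := nrm.prob
  have n0' : (0 : ℝ) < n := by linarith
  have t0 : (0 : ℝ) < 1 / n := by positivity
  have t1 : (1 : ℝ) / n < 1 := by rw [div_lt_one n0']; linarith
  have hΛn : 2 ≤ Λ * n := by nlinarith
  have mG := P.mG
  set S : Set (Eu n) := {ξ | T ≤ G ξ}ᶜ ∩ {ξ | (1 + η / 2) * n ≤ ‖ξ‖ ^ 2}ᶜ with hSd
  set D : Set (Eu n) := {x | ‖x‖ ^ 2 ≤ (1 + η) * n} with hDd
  have m1 : MeasurableSet {ξ | T ≤ G ξ} := measurableSet_le measurable_const mG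
  have m2 : MeasurableSet {ξ : Eu n | (1 + η / 2) * n ≤ ‖ξ‖ ^ 2} :=
    measurableSet_le measurable_const (by fun_prop)
  have mS : MeasurableSet S := m1.compl.inter m2.compl
  have mD : MeasurableSet D := measurableSet_le (by fun_prop) measurable_const
  have sT : √T ≤ T := by rw [sqrt_le_left (by linarith)]; nlinarith
  have hSm : 1 / 2 ≤ (gam n).real S := by
    have a1 := mul_meas_ge_le_integral_of_nonneg (Eventually.of_forall P.G0) P.iG T
    have a2 : (gam n).real {ξ | T ≤ G ξ} ≤ 1 / 4 := by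
      by_contra hh
      nlinarith
    have a3 : (gam n).real _ ≤ _ := (hT n _ nrm_norm).2
    have a4 := measureReal_union_le (μ := gam n) {ξ | T ≤ G ξ}
      {ξ : Eu n | (1 + η / 2) * n ≤ ‖ξ‖ ^ 2}
    rw [hSd, ← compl_union, probReal_compl_eq_one_sub (m1.union m2)]
    linarith
  have key := hV n p Φ y H G Λ (1 / n) (1 / (Λ * n)) S D nrm (by linarith) sp.reg.tame.hi P t0 t1
    (by positivity) (one_div_le_one_div_of_le two_pos hΛn) mS mD (fun ξ hξ => ?_)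
    (fun ξ _ => Or.inl (le_of_eq (by field_simp)))
  swap
  · have a1 : G ξ < T := not_le.1 hξ.1
    have a2 : ‖ξ‖ ^ 2 < (1 + η / 2) * n := not_le.1 hξ.2
    have a3 : ‖y ξ - ξ‖ ≤ √T := le_sqrt_of_sq_le ((P.b1 ξ).trans a1.le)
    have a4 : ‖y ξ‖ ≤ ‖ξ‖ + √T := by linarith [norm_le_insert' (y ξ) ξ]
    have a5 : 1 / (n : ℝ) / Λ ≤ 1 / n := div_le_self t0.le (by linarith)
    have a6 : ‖Yt Λ (1 / n) y ξ‖ ≤ ‖ξ‖ + √T := by
      refine (norm_add_le _ _).trans ?_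
      rw [norm_smul, norm_smul, Real.norm_of_nonneg (by linarith), Real.norm_of_nonneg (by positivity)]
      have := mul_le_mul_of_nonneg_left a4 (sub_nonneg.2 t1.le)
      have := mul_le_mul_of_nonneg_right a5 (norm_nonneg ξ)
      have := mul_nonneg t0.le (sqrt_nonneg T)
      linarith
    have a7 : (‖ξ‖ + √T) ^ 2 ≤ (1 + θ) * ‖ξ‖ ^ 2 + (1 + 1 / θ) * T := by
      have b1 : √T ^ 2 = T := sq_sqrt (by linarith)
      have b2 : 0 ≤ (θ * ‖ξ‖ - √T) ^ 2 / θ := by positivity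
      have b3 : (θ * ‖ξ‖ - √T) ^ 2 / θ = θ * ‖ξ‖ ^ 2 - 2 * ‖ξ‖ * √T + 1 / θ * √T ^ 2 := by
        field_simp; ring
      rw [b3, b1] at b2
      nlinarith
    have a8 : (1 + θ) * (1 + η / 2) = 1 + 3 * η / 4 := by rw [hθd]; field_simp; ring
    have a9 := mul_le_mul_of_nonneg_left a2.le (by linarith : 0 ≤ 1 + θ)
    rw [← mul_assoc, a8] at a9
    rw [div_le_iff₀ hη] at e3
    have := pow_le_pow_left₀ (norm_nonneg _) a6 2
    change ‖Yt Λ (1 / n) y ξ‖ ^ 2 ≤ (1 + η) * n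
    linarith
  have hl : 0 ≤ log (Λ * n) := log_nonneg (by linarith)
  have low : ENNReal.ofReal (exp (-(3 * T + 1) - J * log (Λ * n))) * gam n S ≤
      ENNReal.ofReal (mm p * (mu p).real D) := by
    rw [← setLIntegral_const]
    refine le_trans (setLIntegral_mono' mS fun ξ hξ =>
      ENNReal.ofReal_le_ofReal (exp_le_exp.2 ?_)) key
    have a1 : G ξ < T := not_le.1 hξ.1
    have a0 := P.G0 ξ
    have a2 : |Φ ξ - ‖ξ‖ ^ 2 / 2| ≤ √T := abs_le_sqrt ((P.b0 ξ).trans a1.le)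
    have a3 : |(H ξ).trace - n| ≤ √T + T := (P.b3 ξ).trans (add_le_add (sqrt_le_sqrt a1.le) a1.le)
    have a4 := hs_Mt (by linarith : 1 ≤ Λ) t0 t1 (H ξ)
    have a5 : 2 * (1 / (n : ℝ)) ^ 2 * n ≤ 2 := by
      rw [show 2 * (1 / (n : ℝ)) ^ 2 * n = 2 * (1 / n) by field_simp]; linarith
    have a6 : hs (Mt Λ (1 / n) (H ξ)) ≤ 4 * T + 4 * T ^ 2 + 2 := by
      have := P.b2 ξ
      have := pow_le_pow_left₀ a0 a1.le 2
      linarith
    have a7 := mul_le_mul_of_nonneg_left (show 4 * hs (Mt Λ (1 / n) (H ξ)) ≤ J by linarith) hl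
    have a8 : (1 / (n : ℝ) - 1 / n / Λ) * n ≤ 1 := by
      have : 0 ≤ 1 / (n : ℝ) / Λ * n := by positivity
      have : 1 / (n : ℝ) * n = 1 := by field_simp
      linarith
    have b1 := mul_le_mul_of_nonneg_left (abs_le.1 a2).2 (sub_nonneg.2 t1.le)
    have b2 := mul_le_mul_of_nonneg_left (abs_le.1 a3).1 (sub_nonneg.2 t1.le)
    have b3 := mul_nonneg t0.le (sqrt_nonneg T)
    have b4 := mul_nonneg t0.le (by linarith : 0 ≤ T)
    rw [trace_Mt, one_div_one_div]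
    linarith
  have mp := nrm.mm_pos
  have low2 : exp (-(3 * T + 1) - J * log (Λ * n)) * (1 / 2) ≤ mm p * (mu p).real D := by
    rw [← ofReal_measureReal (measure_ne_top _ _), ← ENNReal.ofReal_mul (exp_pos _).le,
      ENNReal.ofReal_le_ofReal_iff (by positivity)] at low
    exact (mul_le_mul_of_nonneg_left hSm (exp_pos _).le).trans low
  have hm : mm p ≤ exp ν := (hS n p h b sp.reg.cmp.bp ip).trans (exp_le_exp.2 hp)
  have low3 : exp ν * (1 / (n : ℝ) ^ (J + 1)) ≤ mm p * (mu p).real D := by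
    refine le_trans ?_ low2
    have hΛ0 : 0 < Λ := by linarith
    rw [exp_sub, exp_nat_mul, exp_log (by positivity), exp_neg, mul_pow, pow_succ]
    rw [exp_add] at e4
    have x1 := exp_pos (3 * T + 1)
    have x2 := exp_pos ν
    rw [mul_one_div, mul_one_div, div_div, div_le_div_iff₀ (by positivity) (by positivity),
      inv_mul_eq_div, le_div_iff₀ x1]
    have := mul_le_mul_of_nonneg_left e4 (pow_pos n0' J).le
    linarith
  have hD1 : (mu p).real D ≤ 1 := measureReal_le_one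
  have hD0 : 0 ≤ (mu p).real D := measureReal_nonneg
  have x1 : 1 ≤ exp ν := one_le_exp hν.le
  have x2 : 0 < 1 / (n : ℝ) ^ (J + 1) := by positivity
  constructor
  · nlinarith
  · refine le_of_mul_le_mul_left (low3.trans ?_) (exp_pos ν)
    exact mul_le_mul_of_nonneg_right hm hD0

/-- If `psi` vanishes in `L^2`, the norm is Euclidean. -/
theorem eucl_of_psi {n : ℕ} {p h : Eu n → ℝ} {b : ℝ} (H : BP p h b)
    (hi : Integrable (fun ξ => psi h ξ ^ 2) (gam n)) (h0 : ∫ ξ, psi h ξ ^ 2 ∂gam n ≤ 0) (x : Eu n) :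
    p x = ‖x‖ := by
  have h1 := (integral_eq_zero_iff_of_nonneg (fun ξ => sq_nonneg (psi h ξ)) hi).1
    (le_antisymm h0 (integral_nonneg fun ξ => sq_nonneg _))
  have hc : Continuous fun ξ => psi h ξ ^ 2 := by have := H.hcont; unfold psi; fun_prop
  have h2 := (hc.ae_eq_iff_eq volume continuous_zero).1 (nrm_norm.ac_mu.ae_le h1)
  have h3 : ∀ ξ, h ξ = ‖ξ‖ := fun ξ => by
    have a1 : psi h ξ = 0 := pow_eq_zero_iff two_ne_zero |>.1 (congrFun h2 ξ)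
    rw [psi] at a1
    exact (pow_left_inj₀ (H.h_nonneg ξ) (norm_nonneg ξ) two_ne_zero).1 (by linarith)
  rcases eq_or_ne x 0 with rfl | hx
  · simp [H.nrm.zero]
  have hx0 : 0 < ‖x‖ := norm_pos_iff.2 hx
  refine le_antisymm ?_ ?_
  · have := H.d2 (‖x‖⁻¹ • x) fun ζ => by
      rw [h3]
      refine (real_inner_le_norm _ _).trans_eq ?_
      simp [norm_smul, hx0.ne']
    rwa [H.nrm.smul_nonneg (by positivity), inv_mul_le_iff₀ hx0, mul_one] at this
  · have := H.d1 x x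
    rw [h3, real_inner_self_eq_norm_sq, sq] at this
    exact le_of_mul_le_mul_right this hx0

theorem core (hA : StepAStmt) (h4 : Q4BStmt) (h5 : Q4CStmt) (hP : PackStmt) (hB : StepBStmt)
    (hC : StepCStmt) (hTs : TsStmt) (hT : TailStmt) {Λ : ℝ} (hΛ : 4 ≤ Λ) :
    ∃ n0 : ℕ, ∀ n ≥ n0, ∀ (p h : Eu n → ℝ) (b : ℝ), Sp Λ p h b → ∀ x, p x = ‖x‖ := by
  obtain ⟨CA, n1, hCA, hA⟩ := hA Λ hΛ
  obtain ⟨CB, n2, hCB, h4⟩ := h4 Λ hΛ
  obtain ⟨CP, n3, hCP, hP⟩ := hP Λ hΛ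
  obtain ⟨CS, ν0, n4, hCS, hν0, hB⟩ := hB Λ hΛ
  obtain ⟨K, hK⟩ : ∃ K, K = CA * (CS * (CP + 1)) := ⟨_, rfl⟩
  have K0 : 0 < K := by rw [hK]; positivity
  obtain ⟨N0, hN0, hN1, hN2⟩ : ∃ N0 : ℝ, 0 < N0 ∧ (CP + 1) * N0 ≤ ν0 ∧
      CS * ((CP + 1) * N0) ≤ (1 / (4 * K * CB)) ^ 4 := by
    refine ⟨min (ν0 / (CP + 1)) ((1 / (4 * K * CB)) ^ 4 / (CS * (CP + 1))), by positivity, ?_, ?_⟩
    · rw [← le_div_iff₀' (by positivity)]; exact min_le_left _ _
    · rw [← mul_assoc, ← le_div_iff₀' (by positivity)]; exact min_le_right _ _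
  obtain ⟨τ, n5, hτ, h5⟩ := h5 Λ (N0 / (2 * CA)) hΛ (by positivity)
  obtain ⟨J, n6, hC⟩ := hC Λ (CP * (CA * (2 * CB + 1)) + 1) (τ / 3) hΛ (by positivity)
    (by positivity)
  obtain ⟨n7, hTs⟩ := hTs Λ (τ / 3) (J + 1) (by linarith) (by positivity)
  obtain ⟨c, hc, hT⟩ := hT (τ / 3) (by positivity)
  obtain ⟨n8, hn8⟩ := eventually_atTop.1 ((ev_exp hc (half_pos hτ)).and ((ev_pow (half_pos hτ) J).and
    ((ev_ge (2 / τ)).and ((ev_ge (2 * CA / N0)).and ((ev_ge 1).and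
      ((ev_ge ((4 * K * CB) ^ 2)).and (ev_ge (4 * K))))))))
  refine ⟨n1 + n2 + n3 + n4 + n5 + n6 + n7 + n8, fun n hn p h b sp => ?_⟩
  obtain ⟨e1, e2, e3, e4, e5, e6, e7⟩ := hn8 n (by omega)
  have hA := (hA n (by omega) p h b sp).2.2
  have h4 := h4 n (by omega) p h b sp
  obtain ⟨N_nonneg, hP⟩ := hP n (by omega) p h b sp
  have nrm := sp.reg.tame.nrm
  have := nrm.prob
  have n0' : (0 : ℝ) < n := by linarith
  have u1 : Integrable (fun x => Vg p b univ x ^ 2) (gam n) := by simp [Vg_univ]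
  have u2 : ∫ x, Vg p b univ x ^ 2 ∂gam n ≤ 1 := by simp [Vg_univ]
  have u3 : (mu p).real univ ≤ 1 := by simp
  have s1 := hA univ 1 MeasurableSet.univ u1 u2 u3
  have i1 : (1 : ℝ) / n ≤ 1 := by rw [div_le_one n0']; exact e5
  have s2 : NN p b ≤ CA * (2 * CB + 1) := by
    have a1 := h4 univ 1 MeasurableSet.univ u1 u2 u3
    have a2 : 1 / √(n : ℝ) ≤ 1 := by
      rw [div_le_one (by positivity)]; exact one_le_sqrt.2 e5
    simp only [sqrt_one, mul_one] at a1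
    refine s1.trans (mul_le_mul_of_nonneg_left ?_ hCA.le)
    nlinarith
  have s3 : NN p b ≤ N0 := by
    have a1 := hP (CP * (CA * (2 * CB + 1)) + 1 - CP * NN p b)
      (by linarith [mul_le_mul_of_nonneg_left s2 hCP.le])
    rw [add_sub_cancel] at a1
    obtain ⟨a2, a3⟩ := hC n (by omega) p h b sp a1
    have a4 := hTs n (by omega) p sp.reg.tame (1 + τ / 3)
    have a5 : (mu p).real {x | (1 + τ / 3 + τ / 3) * n ≤ ‖x‖ ^ 2} ≤ 1 / n := by
      have b1 := (mul_le_mul_of_nonneg_right a3 measureReal_nonneg).trans a4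
      rw [pow_succ, ← one_div_mul_one_div] at b1
      exact le_of_mul_le_mul_left b1 (by positivity)
    have a6 : (1 : ℝ) / n ≤ τ / 2 := by
      rw [div_le_iff₀ hτ] at e3
      rw [div_le_iff₀ n0']; linarith
    have mp := nrm.meas
    have a7 := h5 n (by omega) p h b sp
      ({x | (1 + τ / 3 + τ / 3) * n ≤ ‖x‖ ^ 2} ∪ {x | p x ^ 2 ≤ (1 - τ / 3) * n})
      ((measurableSet_le measurable_const (by fun_prop)).union
        (measurableSet_le (by fun_prop) measurable_const))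
      ((measureReal_union_le _ _).trans (by linarith [(hT n p nrm).1])) fun x hx => by
        simp only [mem_union, mem_ofPred_eq, not_or, not_le] at hx
        have b1 : exp (‖x‖ ^ 2 / 2 - p x ^ 2 / 2) ≤ exp (τ / 2 * n) := exp_le_exp.2 (by linarith)
        rw [div_le_iff₀ (by positivity)] at a2
        rw [Wd, div_le_iff₀ nrm.mm_pos, show τ * n = τ / 2 * n + τ / 2 * n by ring, exp_add]
        have b2 := mul_le_mul_of_nonneg_left e2 nrm.mm_pos.le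
        have b3 := exp_pos (τ / 2 * n)
        nlinarith
    have a8 : CA * (1 / n) ≤ N0 / 2 := by
      rw [div_le_iff₀ hN0] at e4
      rw [mul_one_div, div_le_iff₀ n0']; linarith
    have a9 := mul_le_mul_of_nonneg_left a7 hCA.le
    rw [show CA * (N0 / (2 * CA)) = N0 / 2 by field_simp] at a9
    linarith
  have s4 : NN p b ≤ 0 := by
    by_contra hpos
    rw [not_le] at hpos
    have a1 := hP (NN p b) hpos
    rw [show CP * NN p b + NN p b = (CP + 1) * NN p b by ring] at a1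
    have a2 := mul_le_mul_of_nonneg_left s3 (by positivity : 0 ≤ CP + 1)
    obtain ⟨D, mD, d1, d2, d3⟩ := hB n (by omega) p h b sp _ (by positivity) (a2.trans hN1) a1
    have a3 := hA D _ mD d2 d3 d1
    have a4 := h4 D _ mD d2 d3 d1
    have a5 : √√(CS * ((CP + 1) * NN p b)) ≤ 1 / (4 * K * CB) := by
      refine sqrt_le_iff.2 ⟨by positivity, sqrt_le_iff.2 ⟨by positivity, ?_⟩⟩
      rw [← pow_mul]
      exact (mul_le_mul_of_nonneg_left a2 hCS.le).trans hN2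
    have a6 : 1 / √(n : ℝ) ≤ 1 / (4 * K * CB) :=
      one_div_le_one_div_of_le (by positivity) (le_sqrt_of_sq_le e6)
    have a7 : (1 : ℝ) / n ≤ 1 / (4 * K) := one_div_le_one_div_of_le (by positivity) e7
    have e : CA * (CS * ((CP + 1) * NN p b)) = K * NN p b := by rw [hK]; ring
    generalize CS * ((CP + 1) * NN p b) = ν at *
    have hν : 0 < ν := by
      by_contra hh
      nlinarith [mul_pos K0 hpos]
    have b1 : |Q4 p b| ≤ ν * (2 / (4 * K)) := by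
      refine a4.trans ?_
      have c1 := mul_le_mul_of_nonneg_left (add_le_add a6 a5) (mul_pos hCB hν).le
      rw [show CB * ν * (1 / (4 * K * CB) + 1 / (4 * K * CB)) = ν * (2 / (4 * K)) by
        field_simp; ring] at c1
      refine le_of_eq_of_le ?_ c1
      ring
    have b2 := mul_le_mul_of_nonneg_left a7 hν.le
    have b3 : CA * (|Q4 p b| + ν / n) ≤ CA * (ν * (3 / (4 * K))) := by
      refine mul_le_mul_of_nonneg_left ?_ hCA.le
      rw [show ν * (3 / (4 * K)) = ν * (2 / (4 * K)) + ν * (1 / (4 * K)) by ring, ← mul_one_div ν]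
      linarith
    rw [← mul_assoc, e, show K * NN p b * (3 / (4 * K)) = 3 / 4 * NN p b by field_simp] at b3
    linarith
  refine eucl_of_psi sp.reg.cmp.bp (hP 1 one_pos).2.1 (le_of_forall_pos_le_add fun ε hε => ?_)
  have := (hP ε hε).2.2.1
  rw [le_antisymm s4 N_nonneg, mul_zero] at this
  exact this

theorem main_of (hI : IsoStmt) (hPos : PosStmt) (hA : StepAStmt) (h4 : Q4BStmt) (h5 : Q4CStmt)
    (hP : PackStmt) (hB : StepBStmt) (hC : StepCStmt) (hTs : TsStmt) (hT : TailStmt) :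
    MainStmt := by
  obtain ⟨Λ0, n1, hΛ0, hI⟩ := hI
  obtain ⟨Λ, n2, hΛ, hPos⟩ := hPos Λ0 hΛ0
  obtain ⟨n3, hc⟩ := core hA h4 h5 hP hB hC hTs hT hΛ
  refine ⟨n1 + n2 + n3, fun n hn p h b H => ?_⟩
  obtain ⟨T1, h1, H1⟩ := hI n (by omega) p h b H
  obtain ⟨T2, h2, H2⟩ := hPos n (by omega) _ h1 b H1
  refine ⟨T1.trans T2, fun x => ?_⟩
  simpa using hc n (by omega) _ h2 b H2 (T2 (T1 x))

/-- The final statement from `MainStmt` and `BridgeStmt`. -/
theorem final_of (hM : MainStmt) (hB : BridgeStmt) :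
    ∃ n0 : ℕ, ∀ n : ℕ, n0 ≤ n → ∀ K : Set (EuclideanSpace ℝ (Fin n)),
    IsCompact K → Convex ℝ K → (interior K).Nonempty → (∀ x ∈ K, -x ∈ K) →
    (∃ c : ℝ, 0 < c ∧ K = (open Pointwise in c • {y : EuclideanSpace ℝ (Fin n) |
        ∀ x ∈ {x : EuclideanSpace ℝ (Fin n) |
          ‖x‖ ≤ (MeasureTheory.Measure.hausdorffMeasure ((n : ℝ) - 1)
                  (K ∩ {z : EuclideanSpace ℝ (Fin n) | inner ℝ x z = 0})).toReal},
          inner ℝ x y ≤ 1})) →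
    ∃ A : EuclideanSpace ℝ (Fin n) ≃ₗ[ℝ] EuclideanSpace ℝ (Fin n),
      K = A '' Metric.closedBall (0 : EuclideanSpace ℝ (Fin n)) 1 := by
  obtain ⟨n0, hM⟩ := hM
  refine ⟨n0 + 3, fun n hn K h1 h2 h3 h4 h5 => ?_⟩
  obtain ⟨p, h, b, H, hK⟩ := hB n (by omega) K h1 h2 h3 h4 h5
  obtain ⟨T, hT⟩ := hM n (by omega) p h b H
  refine ⟨T.symm.toLinearEquiv, ?_⟩
  rw [hK]
  ext x
  simp only [mem_ofPred_eq, hT, mem_image, mem_closedBall_zero_iff]
  exact ⟨fun hx => ⟨T x, hx, by simp⟩, fun ⟨y, hy, e⟩ => by simpa [← e] using hy⟩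

end Pool.Agent.MP_2a44fd_gt.hd

end MrgPart0

-- ======== part 1: formerly Pool.Agent.MP_2a44fd_gt.hd.Mom
section MrgPart1

/-!
PROJECT BP5HD, module MOM: tails and moments of `mu p`.
-/

set_option autoImplicit false

open MeasureTheory Real Set Filter Topology
open scoped RealInnerProductSpace ENNReal

namespace Pool.Agent.MP_2a44fd_gt.hd

namespace Mom

variable {n : ℕ} {p : Eu n → ℝ}

theorem mgf2 (hp : Nrm p) {s : ℝ} (hs : 0 < 1 + s) :
    Integrable (fun x => exp (-(s * p x ^ 2 / 2))) (mu p) ∧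
      ∫ x, exp (-(s * p x ^ 2 / 2)) ∂mu p = exp (-(n / 2 * log (1 + s))) := by
  have h := hp.mgf (c := √(1 + s)) (sqrt_pos.2 hs)
  have e : (fun x => exp ((1 - √(1 + s) ^ 2) * p x ^ 2 / 2)) =
      fun x => exp (-(s * p x ^ 2 / 2)) := funext fun x => by
    rw [sq_sqrt hs.le]; congr 1; ring
  rw [e] at h
  refine ⟨h.1, h.2.trans ?_⟩
  rw [exp_neg, show (n : ℝ) / 2 * log (1 + s) = n * (log (1 + s) / 2) by ring, exp_nat_mul,
    ← log_sqrt hs.le, exp_log (sqrt_pos.2 hs)]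

/-- Exponential Markov inequality. -/
theorem markov (hp : Nrm p) {s : ℝ} (hs : 0 < 1 + s) {S : Set (Eu n)} (hS : MeasurableSet S)
    {K : ℝ} (hK : ∀ x ∈ S, s * p x ^ 2 / 2 ≤ K) :
    (mu p).real S ≤ exp (K - n / 2 * log (1 + s)) := by
  have := hp.prob
  obtain ⟨h1, h2⟩ := mgf2 hp hs
  rw [← integral_indicator_one hS, sub_eq_add_neg, exp_add, ← h2, ← integral_const_mul]
  refine integral_mono ((integrable_const 1).indicator hS) (h1.const_mul _) fun x => ?_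
  by_cases hx : x ∈ S
  · simp only [indicator_of_mem hx, Pi.one_apply]
    rw [← exp_add]
    exact one_le_exp (by linarith [hK x hx])
  · simp only [indicator_of_notMem hx]
    positivity

theorem mgf_le (hp : Nrm p) {u : ℝ} (h0 : 0 ≤ u) (h1 : u ≤ 1 / 2) :
    Integrable (fun x => exp (u * p x ^ 2 / 2)) (mu p) ∧
      ∫ x, exp (u * p x ^ 2 / 2) ∂mu p ≤ exp (n * u) := by
  have hs : 0 < 1 + -u := by linarith
  obtain ⟨a1, a2⟩ := mgf2 hp hs
  simp only [neg_mul, neg_div, neg_neg] at a1 a2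
  refine ⟨a1, a2.trans_le (exp_le_exp.2 ?_)⟩
  have h2 := one_sub_inv_le_log_of_pos hs
  have h3 : (1 + -u)⁻¹ ≤ 1 + 2 * u := by
    rw [inv_le_iff_one_le_mul₀ hs]; nlinarith
  have h4 : (0 : ℝ) ≤ n := Nat.cast_nonneg n
  nlinarith

theorem pmom' (hp : Nrm p) (hn : 1 ≤ n) (j : ℕ) : Integrable (fun x => p x ^ (2 * j)) (mu p) ∧
    ∫ x, p x ^ (2 * j) ∂mu p ≤ 2 * 4 ^ j * j.factorial * (n : ℝ) ^ j := by
  have hn' : (1 : ℝ) ≤ n := by exact_mod_cast hn
  have hu : 1 / (2 * (n : ℝ)) ≤ 1 / 2 :=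
    div_le_div_of_nonneg_left zero_le_one two_pos (by linarith)
  obtain ⟨a1, a2⟩ := mgf_le hp (u := 1 / (2 * n)) (by positivity) hu
  have hb : ∀ x, p x ^ (2 * j) ≤
      4 ^ j * j.factorial * (n : ℝ) ^ j * exp (1 / (2 * n) * p x ^ 2 / 2) := fun x => by
    have h1 := pow_div_factorial_le_exp (1 / (2 * (n : ℝ)) * p x ^ 2 / 2) (by positivity) j
    rw [div_le_iff₀ (by positivity)] at h1
    have e : p x ^ (2 * j) = 4 ^ j * (n : ℝ) ^ j * (1 / (2 * (n : ℝ)) * p x ^ 2 / 2) ^ j := by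
      rw [pow_mul, ← mul_pow, ← mul_pow]; congr 1; field_simp; norm_num
    rw [e]
    have h2 : (0 : ℝ) ≤ 4 ^ j * (n : ℝ) ^ j := by positivity
    nlinarith [mul_le_mul_of_nonneg_left h1 h2]
  have hi : Integrable (fun x => p x ^ (2 * j)) (mu p) :=
    (a1.const_mul _).mono' (by have := hp.cont; fun_prop) (Eventually.of_forall fun x => by
      rw [Real.norm_of_nonneg (pow_nonneg (hp.nonneg x) _)]; exact hb x)
  refine ⟨hi, (integral_mono hi (a1.const_mul _) hb).trans ?_⟩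
  rw [integral_const_mul]
  have h3 : exp ((n : ℝ) * (1 / (2 * n))) ≤ 2 := by
    rw [show (n : ℝ) * (1 / (2 * n)) = 1 / 2 by field_simp]
    have := exp_one_lt_d9
    have h4 : exp (1 / 2) ^ 2 = exp 1 := by rw [← exp_nat_mul]; norm_num
    nlinarith [exp_pos (1 / 2)]
  have h5 : (0 : ℝ) ≤ 4 ^ j * j.factorial * (n : ℝ) ^ j := by positivity
  nlinarith [mul_le_mul_of_nonneg_left (a2.trans h3) h5]

/-- Small ball estimate. -/
theorem small (hp : Nrm p) {ε : ℝ} (hε : 0 < ε) {m : ℕ} (hm : 2 * m ≤ n) :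
    (mu p).real {x | p x ^ 2 ≤ ε * n} ≤ (exp 1 * ε) ^ m := by
  have := hp.prob
  rcases le_total 1 (exp 1 * ε) with h | h
  · exact measureReal_le_one.trans (one_le_pow₀ h)
  have hs : 0 < 1 + ε⁻¹ := by positivity
  have hm' : 2 * (m : ℝ) ≤ n := by exact_mod_cast hm
  have hS : MeasurableSet {x | p x ^ 2 ≤ ε * n} :=
    measurableSet_le (hp.meas.pow_const 2) measurable_const
  refine (markov hp hs hS (K := n / 2) fun x hx => ?_).trans ?_
  · have : p x ^ 2 ≤ ε * n := hx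
    have h2 : ε⁻¹ * p x ^ 2 ≤ n := by rwa [inv_mul_le_iff₀ hε]
    linarith
  · have h1 : -log ε ≤ log (1 + ε⁻¹) := by
      rw [← log_inv]; exact log_le_log (by positivity) (by linarith)
    have h2 : log (exp 1 * ε) ≤ 0 := log_nonpos (by positivity) h
    have h3 : log (exp 1 * ε) = 1 + log ε := by rw [log_mul (exp_pos 1).ne' hε.ne', log_exp]
    rw [← exp_log (show 0 < exp 1 * ε by positivity), ← exp_nat_mul, h3]
    refine exp_le_exp.2 ?_
    have h4 : (0 : ℝ) ≤ n := Nat.cast_nonneg n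
    rw [h3] at h2
    nlinarith

theorem weak (hp : Nrm p) {i : ℕ} (hi : i ≠ 0) (hn : 2 * i ≤ n) {t : ℝ} (ht : 0 < t) :
    (mu p).real {x | t ≤ (√(n : ℝ) / p x) ^ i} ≤ 2 * exp 1 ^ i * (1 + t ^ 2)⁻¹ := by
  have := hp.prob
  have hK : 1 ≤ exp 1 ^ i := one_le_pow₀ (one_le_exp zero_le_one)
  rcases le_total t 1 with h | h
  · refine measureReal_le_one.trans ?_
    rw [← div_eq_mul_inv, le_div_iff₀ (by positivity)]
    nlinarith
  set ε : ℝ := ((t ^ 2)⁻¹) ^ ((i : ℝ)⁻¹) with hε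
  have hε0 : 0 < ε := rpow_pos_of_pos (by positivity) _
  have hεi : ε ^ i = (t ^ 2)⁻¹ := rpow_inv_natCast_pow (by positivity) hi
  have hsub : {x | t ≤ (√(n : ℝ) / p x) ^ i} ⊆ {x | p x ^ 2 ≤ ε * n} := fun x hx => by
    have h1 : t ≤ (√(n : ℝ) / p x) ^ i := hx
    have h2 : p x ≠ 0 := fun h0 => by
      rw [h0, div_zero, zero_pow hi] at h1; linarith
    have h3 : 0 < p x := lt_of_le_of_ne (hp.nonneg x) h2.symm
    have h4 : t ^ 2 ≤ ((n : ℝ) / p x ^ 2) ^ i := by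
      have := pow_le_pow_left₀ ht.le h1 2
      rwa [← pow_mul, mul_comm i 2, pow_mul, div_pow, sq_sqrt (Nat.cast_nonneg n)] at this
    change p x ^ 2 ≤ ε * n
    rw [← pow_le_pow_iff_left₀ (by positivity) (by positivity) hi, mul_pow, hεi,
      le_inv_mul_iff₀ (by positivity)]
    rwa [div_pow, le_div_iff₀ (by positivity)] at h4
  refine (measureReal_mono hsub).trans ((small hp hε0 hn).trans ?_)
  rw [mul_pow, hεi, mul_comm 2, mul_assoc]
  refine mul_le_mul_of_nonneg_left ?_ (by positivity)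
  rw [← div_eq_mul_inv, inv_eq_one_div, div_le_div_iff₀ (by positivity) (by positivity)]
  nlinarith

/-- Negative moments of `p`. -/
theorem negmom (hp : Nrm p) {i : ℕ} (hn : 2 * i ≤ n) :
    Integrable (fun x => (√(n : ℝ) / p x) ^ i) (mu p) ∧
      ∫ x, (√(n : ℝ) / p x) ^ i ∂mu p ≤ 8 * exp 1 ^ i := by
  have := hp.prob
  rcases eq_or_ne i 0 with rfl | hi
  · simp
  have hm : Measurable fun x => (√(n : ℝ) / p x) ^ i := by have := hp.meas; fun_prop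
  have h0 : ∀ x, 0 ≤ (√(n : ℝ) / p x) ^ i := fun x => by have := hp.nonneg x; positivity
  have hI := integrable_inv_one_add_sq.const_mul (2 * exp 1 ^ i)
  have h1 : ∫⁻ x, ENNReal.ofReal ((√(n : ℝ) / p x) ^ i) ∂mu p ≤
      ENNReal.ofReal (8 * exp 1 ^ i) := by
    rw [lintegral_eq_lintegral_meas_le _ (Eventually.of_forall h0) hm.aemeasurable]
    calc ∫⁻ t in Ioi 0, mu p {x | t ≤ (√(n : ℝ) / p x) ^ i}
        ≤ ∫⁻ t in Ioi (0 : ℝ), ENNReal.ofReal (2 * exp 1 ^ i * (1 + t ^ 2)⁻¹) := by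
          refine setLIntegral_mono' measurableSet_Ioi fun t ht => ?_
          rw [← ofReal_measureReal (measure_ne_top _ _)]
          exact ENNReal.ofReal_le_ofReal (weak hp hi hn ht)
      _ ≤ ∫⁻ t : ℝ, ENNReal.ofReal (2 * exp 1 ^ i * (1 + t ^ 2)⁻¹) :=
          setLIntegral_le_lintegral _ _
      _ = ENNReal.ofReal (2 * exp 1 ^ i * π) := by
          rw [← ofReal_integral_eq_lintegral_ofReal hI
            (Eventually.of_forall fun t => by positivity), integral_const_mul,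
            integral_univ_inv_one_add_sq]
      _ ≤ ENNReal.ofReal (8 * exp 1 ^ i) := by
          refine ENNReal.ofReal_le_ofReal ?_
          have : 0 < exp 1 ^ i := by positivity
          nlinarith [pi_le_four]
  have h2 : Integrable (fun x => (√(n : ℝ) / p x) ^ i) (mu p) := by
    refine ⟨hm.aestronglyMeasurable, ?_⟩
    rw [hasFiniteIntegral_iff_ofReal (Eventually.of_forall h0)]
    exact h1.trans_lt ENNReal.ofReal_lt_top
  refine ⟨h2, ?_⟩
  rw [← ofReal_integral_eq_lintegral_ofReal h2 (Eventually.of_forall h0)] at h1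
  exact (ENNReal.ofReal_le_ofReal_iff (by positivity)).1 h1

theorem negnorm {Λ : ℝ} (hΛ : 1 ≤ Λ) (H : Tame Λ p) {i : ℕ} (hn1 : 1 ≤ n) (hn : 2 * i ≤ n) :
    Integrable (fun x => 1 / ‖x‖ ^ i) (mu p) ∧
      ∫ x, 1 / ‖x‖ ^ i ∂mu p ≤ 8 * exp 1 ^ i * Λ ^ i / √(n : ℝ) ^ i := by
  have hp := H.nrm
  obtain ⟨a1, a2⟩ := negmom hp hn
  have hs : 0 < √(n : ℝ) := sqrt_pos.2 (by exact_mod_cast hn1)
  have hb : ∀ x, 1 / ‖x‖ ^ i ≤ (Λ / √(n : ℝ)) ^ i * (√(n : ℝ) / p x) ^ i := fun x => by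
    rw [← mul_pow, ← one_div_pow]
    refine pow_le_pow_left₀ (by positivity) ?_ i
    rcases eq_or_ne x 0 with rfl | hx
    · simp [hp.zero]
    have h1 := hp.pos hx
    have h2 : 0 < ‖x‖ := norm_pos_iff.2 hx
    rw [show Λ / √(n : ℝ) * (√(n : ℝ) / p x) = Λ / p x by field_simp, div_le_div_iff₀ h2 h1,
      one_mul]
    exact H.hi x
  have hi : Integrable (fun x : Eu n => 1 / ‖x‖ ^ i) (mu p) :=
    (a1.const_mul _).mono' (Measurable.aestronglyMeasurable (by fun_prop))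
      (Eventually.of_forall fun x => by
        rw [Real.norm_of_nonneg (by positivity)]; exact hb x)
  refine ⟨hi, (integral_mono hi (a1.const_mul _) hb).trans ?_⟩
  rw [integral_const_mul, mul_div_assoc, ← div_pow, mul_comm]
  exact mul_le_mul_of_nonneg_right a2 (by positivity)

theorem innermom {Λ : ℝ} (hΛ : 1 ≤ Λ) (H : Tame Λ p) (k : ℕ) {v : Eu n} (hv : ‖v‖ = 1) :
    Integrable (fun x => |⟪x, v⟫| ^ k) (mu p) ∧
      ∫ x, |⟪x, v⟫| ^ k ∂mu p ≤ k.factorial * Λ ^ k * Λ := by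
  have hp := H.nrm
  have hΛ0 : 0 < Λ := by linarith
  have a1 : Integrable (fun x => exp (|⟪x, v⟫| / Λ)) (mu p) := by
    simpa only [div_eq_inv_mul] using hp.int_exp_inner v Λ⁻¹
  have hi : Integrable (fun x => |⟪x, v⟫| ^ k) (mu p) := by
    simpa only [Real.norm_eq_abs, abs_pow] using (hp.int_inner_pow v k).norm
  have hb : ∀ x, |⟪x, v⟫| ^ k ≤ k.factorial * Λ ^ k * exp (|⟪x, v⟫| / Λ) := fun x => by
    have h1 := pow_div_factorial_le_exp (|⟪x, v⟫| / Λ) (by positivity) k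
    rw [div_le_iff₀ (by positivity), div_pow, div_le_iff₀ (by positivity)] at h1
    linarith
  refine ⟨hi, (integral_mono hi (a1.const_mul _) hb).trans ?_⟩
  rw [integral_const_mul]
  exact mul_le_mul_of_nonneg_left (H.psi v hv) (by positivity)

theorem mixed {Λ : ℝ} (hΛ : 1 ≤ Λ) (H : Tame Λ p) {i : ℕ} (j : ℕ) (hn1 : 1 ≤ n)
    (hn : 2 * (2 * i) ≤ n) {v : Eu n} (hv : ‖v‖ = 1) :
    Integrable (fun x => |⟪x, v⟫| ^ j / ‖x‖ ^ i) (mu p) ∧
      ∫ x, |⟪x, v⟫| ^ j / ‖x‖ ^ i ∂mu p ≤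
        ((2 * j).factorial * Λ ^ (2 * j) * Λ + 8 * exp 1 ^ (2 * i) * Λ ^ (2 * i)) /
          √(n : ℝ) ^ i := by
  obtain ⟨a1, a2⟩ := negnorm hΛ H hn1 hn
  obtain ⟨b1, b2⟩ := innermom hΛ H (2 * j) hv
  have hs : 0 < √(n : ℝ) := sqrt_pos.2 (by exact_mod_cast hn1)
  have hw : 0 < √(n : ℝ) ^ i := by positivity
  rw [mul_comm 2 i, pow_mul √(n : ℝ) i 2, mul_comm i 2] at a2
  generalize √(n : ℝ) ^ i = w at hw a2 ⊢
  have hb : ∀ x : Eu n, |⟪x, v⟫| ^ j / ‖x‖ ^ i ≤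
      w⁻¹ * |⟪x, v⟫| ^ (2 * j) + w * (1 / ‖x‖ ^ (2 * i)) := fun x => by
    rw [mul_comm 2 j, mul_comm 2 i, pow_mul, pow_mul, ← one_div_pow, div_eq_mul_one_div]
    have h1 : 0 ≤ |⟪x, v⟫| ^ j := by positivity
    have h2 : 0 ≤ 1 / ‖x‖ ^ i := by positivity
    generalize |⟪x, v⟫| ^ j = a at h1
    generalize 1 / ‖x‖ ^ i = c at h2
    have e : w⁻¹ * a ^ 2 + w * c ^ 2 - a * c = w⁻¹ * (a - w * c) ^ 2 + a * c := by
      field_simp; ring
    have h3 : 0 ≤ w⁻¹ * (a - w * c) ^ 2 + a * c := by positivity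
    linarith
  have hI := (b1.const_mul w⁻¹).add (a1.const_mul w)
  have hi : Integrable (fun x : Eu n => |⟪x, v⟫| ^ j / ‖x‖ ^ i) (mu p) :=
    hI.mono' (Measurable.aestronglyMeasurable (by fun_prop))
      (Eventually.of_forall fun x => by
        rw [Real.norm_of_nonneg (by positivity)]; exact hb x)
  refine ⟨hi, (integral_mono hi hI hb).trans ?_⟩
  simp only [Pi.add_apply]
  rw [integral_add (b1.const_mul w⁻¹) (a1.const_mul w), integral_const_mul, integral_const_mul,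
    add_div]
  refine add_le_add ?_ ?_
  · rw [div_eq_inv_mul]
    exact mul_le_mul_of_nonneg_left b2 (by positivity)
  · refine (mul_le_mul_of_nonneg_left a2 hw.le).trans_eq ?_
    field_simp

theorem lower {Λ : ℝ} (hΛ : 1 ≤ Λ) (H : Tame Λ p) (hn : 2 ≤ n) :
    1 / (3 * Λ * √(n : ℝ)) ≤ ∫ x, ‖x‖⁻¹ ∂mu p := by
  have hp := H.nrm
  have := hp.prob
  have hn1 : 1 ≤ n := by omega
  have hn' : (0 : ℝ) < n := by exact_mod_cast hn1
  obtain ⟨a1, -⟩ := negnorm hΛ H (i := 1) hn1 hn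
  obtain ⟨b1, b2⟩ := pmom' hp hn1 1
  simp only [pow_one, one_div, mul_one, Nat.factorial_one, Nat.cast_one] at a1 b1 b2
  have hs : 0 < √(n : ℝ) := sqrt_pos.2 hn'
  have ha2 : (3 * Λ * √(n : ℝ)) ^ 2 = 9 * Λ ^ 2 * n := by
    rw [mul_pow, mul_pow, sq_sqrt hn'.le]; norm_num
  have ha : 0 < 3 * Λ * √(n : ℝ) := by positivity
  generalize 3 * Λ * √(n : ℝ) = a at ha ha2
  have hI : Integrable (fun x => 3 / (2 * a) - Λ ^ 2 / (2 * a ^ 3) * p x ^ 2) (mu p) :=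
    (integrable_const _).sub (b1.const_mul _)
  refine le_trans ?_ (integral_mono_ae hI a1 ((ae_ne_zero hn1 p).mono fun x hx => ?_))
  · rw [integral_sub (integrable_const _) (b1.const_mul _), integral_const_mul]
    simp only [integral_const, probReal_univ, smul_eq_mul, one_mul]
    have h1 : Λ ^ 2 / (2 * a ^ 3) * ∫ x, p x ^ 2 ∂mu p ≤ Λ ^ 2 / (2 * a ^ 3) * (9 * n) :=
      mul_le_mul_of_nonneg_left (by linarith) (by positivity)
    have h2 : Λ ^ 2 / (2 * a ^ 3) * (9 * n) = 1 / (2 * a) := by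
      rw [show Λ ^ 2 / (2 * a ^ 3) * (9 * n) = 9 * Λ ^ 2 * n / (2 * a ^ 3) by ring, ← ha2]
      field_simp
    have h3 : 1 / a = 3 / (2 * a) - 1 / (2 * a) := by field_simp; norm_num
    linarith
  · have h1 : 0 < ‖x‖ := norm_pos_iff.2 hx
    have h2 : ‖x‖ ^ 2 ≤ Λ ^ 2 * p x ^ 2 := by
      rw [← mul_pow]; exact pow_le_pow_left₀ h1.le (H.lo x) 2
    have h3 : ‖x‖ ^ 2 / (2 * a ^ 3) ≤ Λ ^ 2 / (2 * a ^ 3) * p x ^ 2 := by
      rw [div_mul_eq_mul_div]; exact div_le_div_of_nonneg_right h2 (by positivity)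
    have h4 : ‖x‖⁻¹ - (3 / (2 * a) - ‖x‖ ^ 2 / (2 * a ^ 3)) =
        (‖x‖ - a) ^ 2 * (‖x‖ + 2 * a) / (2 * a ^ 3 * ‖x‖) := by
      field_simp; ring
    have h5 : 0 ≤ (‖x‖ - a) ^ 2 * (‖x‖ + 2 * a) / (2 * a ^ 3 * ‖x‖) := by positivity
    simp only
    linarith

end Mom

theorem tail : TailStmt := by
  intro η hη
  refine ⟨η ^ 2 / (8 * (1 + η)), by positivity, fun n p hp => ⟨?_, ?_⟩⟩
  · have hs : 0 < 1 + η / 2 := by positivity
    have hS : MeasurableSet {x | p x ^ 2 ≤ (1 - η) * n} :=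
      measurableSet_le (hp.meas.pow_const 2) measurable_const
    refine (Mom.markov hp hs hS (K := η / 2 * ((1 - η) * n) / 2) fun x hx => ?_).trans
      (exp_le_exp.2 ?_)
    · have : p x ^ 2 ≤ (1 - η) * n := hx
      gcongr
    · have h1 := one_sub_inv_le_log_of_pos hs
      have h2 : (0 : ℝ) ≤ n := Nat.cast_nonneg n
      have h3 : η / 2 * (1 - η) + η ^ 2 / (4 * (1 + η)) ≤ 1 - (1 + η / 2)⁻¹ := by
        have e : 1 - (1 + η / 2)⁻¹ - (η / 2 * (1 - η) + η ^ 2 / (4 * (1 + η))) =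
            η ^ 3 * (3 + 2 * η) / (4 * (1 + η) * (2 + η)) := by
          field_simp; ring
        have : 0 ≤ η ^ 3 * (3 + 2 * η) / (4 * (1 + η) * (2 + η)) := by positivity
        linarith
      have h4 := mul_le_mul_of_nonneg_left (h3.trans h1) h2
      have e : η ^ 2 / (8 * (1 + η)) = η ^ 2 / (4 * (1 + η)) / 2 := by field_simp; norm_num
      rw [e]
      nlinarith
  · set u : ℝ := η / (2 * (1 + η)) with hu
    have hu0 : 0 < u := by positivity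
    have hu1 : u * (1 + η) = η / 2 := by rw [hu]; field_simp
    have hu2 : u < 1 / 2 := by nlinarith
    have hs : 0 < 1 + -u := by linarith
    have hS : MeasurableSet {x | (1 + η) * n ≤ p x ^ 2} :=
      measurableSet_le measurable_const (hp.meas.pow_const 2)
    refine (Mom.markov hp hs hS (K := -u * ((1 + η) * n) / 2) fun x hx => ?_).trans
      (exp_le_exp.2 ?_)
    · have : (1 + η) * n ≤ p x ^ 2 := hx
      nlinarith
    · have h1 := one_sub_inv_le_log_of_pos hs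
      have h2 : (0 : ℝ) ≤ n := Nat.cast_nonneg n
      have h3 : (1 + -u)⁻¹ ≤ 1 + u * (1 + η) - u * η / 2 := by
        rw [inv_le_iff_one_le_mul₀ hs]
        nlinarith [mul_pos hu0 hη, mul_pos hu0 (mul_pos hu0 hη)]
      have h4 : -(u * (1 + η) - u * η / 2) ≤ log (1 + -u) := by linarith
      have h5 := mul_le_mul_of_nonneg_left h4 h2
      have e : η ^ 2 / (8 * (1 + η)) = u * η / 4 := by rw [hu]; field_simp; norm_num
      rw [e]
      nlinarith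

theorem pmom : PmomStmt := fun j =>
  ⟨2 * 4 ^ j * j.factorial, fun _ hn _ hp => (Mom.pmom' hp hn j).2⟩

theorem mom : MomStmt := by
  intro Λ hΛ i j
  have hA : 0 ≤ 8 * exp 1 ^ i * Λ ^ i := by positivity
  have hB : 0 ≤ (2 * j).factorial * Λ ^ (2 * j) * Λ + 8 * exp 1 ^ (2 * i) * Λ ^ (2 * i) := by
    positivity
  refine ⟨8 * exp 1 ^ i * Λ ^ i +
    ((2 * j).factorial * Λ ^ (2 * j) * Λ + 8 * exp 1 ^ (2 * i) * Λ ^ (2 * i)) + 3 * Λ,
    4 * i + 2, by positivity, fun n hn p H => ⟨?_, fun v hv => ?_, ?_⟩⟩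
  · obtain ⟨a1, a2⟩ := Mom.negnorm hΛ H (i := i) (by omega) (by omega)
    exact ⟨a1, a2.trans (div_le_div_of_nonneg_right (by linarith) (by positivity))⟩
  · obtain ⟨a1, a2⟩ := Mom.mixed hΛ H (i := i) j (by omega) (by omega) hv
    exact ⟨a1, a2.trans (div_le_div_of_nonneg_right (by linarith) (by positivity))⟩
  · have hs : 0 < √(n : ℝ) := sqrt_pos.2 (by exact_mod_cast (by omega : 0 < n))
    refine le_trans ?_ (Mom.lower hΛ H (by omega))
    exact one_div_le_one_div_of_le (by positivity)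
      (mul_le_mul_of_nonneg_right (by linarith) hs.le)

end Pool.Agent.MP_2a44fd_gt.hd

end MrgPart1

-- ======== part 2: formerly Pool.Agent.MP_2a44fd_gt.hd.Tsb
section MrgPart2

/-!
PROJECT BP5HD, module TSB: the weak thin shell estimate.
-/

set_option autoImplicit false

open MeasureTheory Real Set Filter Topology
open scoped RealInnerProductSpace ENNReal

namespace Pool.Agent.MP_2a44fd_gt.hd

namespace Tsb

variable {n : ℕ}

theorem bump_le (y : ℝ) : y * exp (-(y ^ 2 / 2)) ≤ exp (-(1 / 2)) := by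
  have h1 := add_one_le_exp ((y ^ 2 - 1) / 2)
  have h2 : y ≤ exp ((y ^ 2 - 1) / 2) := by nlinarith [sq_nonneg (y - 1)]
  refine (mul_le_mul_of_nonneg_right h2 (exp_pos _).le).trans_eq ?_
  rw [← exp_add]; congr 1; ring

theorem le_bump {y e : ℝ} (he : e ≤ 1 / 4) (h1 : 1 - e ≤ y) (h2 : y ≤ 1) :
    exp (-(1 / 2)) * exp (-(2 * e ^ 2)) ≤ y * exp (-(y ^ 2 / 2)) := by
  obtain ⟨t, rfl⟩ : ∃ t, y = 1 - t := ⟨1 - y, by ring⟩
  have ht0 : 0 ≤ t := by linarith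
  have ht : t ≤ e := by linarith
  have h3 := quadratic_le_exp_of_nonneg (x := t + t ^ 2) (by positivity)
  have h4 : 1 ≤ (1 - t) * exp (t + t ^ 2) := by
    refine le_trans ?_ (mul_le_mul_of_nonneg_left h3 (by linarith))
    have h5 : 2 * t ≤ (1 - t) * (1 + t) ^ 2 := by nlinarith [mul_nonneg ht0 ht0]
    nlinarith [mul_le_mul_of_nonneg_left h5 (sq_nonneg t)]
  have h6 : exp (-(1 / 2)) * exp (-(2 * e ^ 2)) * exp (t + t ^ 2) ≤ exp (-((1 - t) ^ 2 / 2)) := by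
    rw [← exp_add, ← exp_add]
    exact exp_le_exp.2 (by nlinarith [pow_le_pow_left₀ ht0 ht 2])
  calc _ ≤ exp (-(1 / 2)) * exp (-(2 * e ^ 2)) * ((1 - t) * exp (t + t ^ 2)) :=
        le_mul_of_one_le_right (by positivity) h4
    _ = (1 - t) * (exp (-(1 / 2)) * exp (-(2 * e ^ 2)) * exp (t + t ^ 2)) := by ring
    _ ≤ _ := mul_le_mul_of_nonneg_left h6 (by linarith)

/-- The normalised length. -/
noncomputable def S (x : Eu n) : ℝ := √(1 + ‖x‖ ^ 2 / n)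

theorem S_sq (x : Eu n) : S x ^ 2 = 1 + ‖x‖ ^ 2 / n := sq_sqrt (by positivity)

theorem one_le_S (x : Eu n) : 1 ≤ S x :=
  one_le_sqrt.2 (le_add_of_nonneg_right (by positivity))

theorem cont_S : Continuous (S : Eu n → ℝ) := by unfold S; fun_prop

theorem qq_eq (x : Eu n) {s : ℝ} (hs : 0 < s) :
    qq (‖x‖ ^ 2 / n) s = s⁻¹ * (s / S x * exp (-((s / S x) ^ 2 / 2))) := by
  have := one_le_S x
  rw [qq, div_pow, S_sq, ← S, div_div, mul_comm (1 + _) 2]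
  field_simp

theorem qq_nonneg (R s : ℝ) : 0 ≤ qq R s := by unfold qq; positivity

theorem qq_le (x : Eu n) {s : ℝ} (hs : 0 < s) : qq (‖x‖ ^ 2 / n) s ≤ s⁻¹ * exp (-(1 / 2)) := by
  rw [qq_eq x hs]; exact mul_le_mul_of_nonneg_left (bump_le _) (by positivity)

theorem le_qq (x : Eu n) {s e : ℝ} (hs : 1 ≤ s) (he : e ≤ 1 / 4) (h1 : s ≤ S x)
    (h2 : S x ≤ s + e) : s⁻¹ * (exp (-(1 / 2)) * exp (-(2 * e ^ 2))) ≤ qq (‖x‖ ^ 2 / n) s := by
  have h0 := one_le_S x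
  rw [qq_eq x (by linarith)]
  refine mul_le_mul_of_nonneg_left (le_bump he ?_ ((div_le_one (by linarith)).2 h1))
    (by positivity)
  rw [le_div_iff₀ (by linarith)]
  nlinarith

theorem int_qq {p : Eu n → ℝ} (hp : Nrm p) (k : ℕ) {s : ℝ} (hs : 0 < s) :
    Integrable (fun x : Eu n => qq (‖x‖ ^ 2 / n) s ^ k) (mu p) := by
  have := hp.prob
  have hm : Measurable fun x : Eu n => qq (‖x‖ ^ 2 / n) s ^ k := by unfold qq; fun_prop
  refine (integrable_const ((s⁻¹ * exp (-(1 / 2))) ^ k)).mono' hm.aestronglyMeasurable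
    (ae_of_all _ fun x => ?_)
  rw [Real.norm_eq_abs, abs_of_nonneg (pow_nonneg (qq_nonneg _ _) _)]
  exact pow_le_pow_left₀ (qq_nonneg _ _) (qq_le x hs) k

theorem Gq_le {p : Eu n → ℝ} (hp : Nrm p) (k : ℕ) {s : ℝ} (hs : 0 < s) :
    Gq p k s ≤ (s⁻¹ * exp (-(1 / 2))) ^ k := by
  have := hp.prob
  refine (integral_mono (int_qq hp k hs) (integrable_const ((s⁻¹ * exp (-(1 / 2))) ^ k))
    fun x => pow_le_pow_left₀ (qq_nonneg _ _) (qq_le x hs) k).trans_eq (by simp)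

theorem le_Gq {p : Eu n → ℝ} (hp : Nrm p) (k : ℕ) {s e : ℝ} (hs : 1 ≤ s) (he : e ≤ 1 / 4)
    {E : Set (Eu n)} (hE : MeasurableSet E) (h : ∀ x ∈ E, s ≤ S x ∧ S x ≤ s + e) :
    (mu p).real E * (s⁻¹ * (exp (-(1 / 2)) * exp (-(2 * e ^ 2)))) ^ k ≤ Gq p k s := by
  have := hp.prob
  rw [← smul_eq_mul, ← integral_indicator_const _ hE]
  refine integral_mono ((integrable_const _).indicator hE) (int_qq hp k (by linarith)) fun x => ?_
  by_cases hx : x ∈ E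
  · rw [indicator_of_mem hx]
    exact pow_le_pow_left₀ (by positivity) (le_qq x hs he (h x hx).1 (h x hx).2) k
  · rw [indicator_of_notMem hx]; exact pow_nonneg (qq_nonneg _ _) _

/-- Two windows that are far apart cannot both be heavy. -/
theorem pair {p : Eu n → ℝ} (hp : Nrm p) {k : ℕ} {R d e s1 s2 : ℝ} (he : e ≤ 1 / 4)
    (hed : 32 * e ^ 2 * R ^ 2 ≤ d ^ 2) (hd : 0 ≤ d) (h1 : s1 ∈ Icc 1 R) (h2 : s2 ∈ Icc 1 R)
    (h12 : d ≤ s2 - s1) (ht : Gq p k s1 * Gq p k s2 ≤ 16 * Gq p k ((s1 + s2) / 2) ^ 2)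
    {E1 E2 : Set (Eu n)} (hE1 : MeasurableSet E1) (hE2 : MeasurableSet E2)
    (g1 : ∀ x ∈ E1, s1 ≤ S x ∧ S x ≤ s1 + e) (g2 : ∀ x ∈ E2, s2 ≤ S x ∧ S x ≤ s2 + e) :
    (mu p).real E1 * (mu p).real E2 ≤ 16 * exp (-(d ^ 2 / (8 * R ^ 2) * k)) := by
  obtain ⟨a1, b1⟩ := h1
  obtain ⟨a2, b2⟩ := h2
  have hR : 0 < R := by linarith
  have l1 := le_Gq hp k a1 he hE1 g1
  have l2 := le_Gq hp k a2 he hE2 g2
  have hm : 0 < (s1 + s2) / 2 := by linarith
  have l3 := pow_le_pow_left₀ (integral_nonneg fun x => pow_nonneg (qq_nonneg _ _) _)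
    (Gq_le hp k hm) 2
  have l4 := ((mul_le_mul l1 l2 (by positivity) ((by positivity : (0 : ℝ) ≤ _).trans l1)).trans
    ht).trans (mul_le_mul_of_nonneg_left l3 (by norm_num))
  have l5 : s1 * s2 ≤ ((s1 + s2) / 2) ^ 2 * exp (-(d ^ 2 / (4 * R ^ 2))) := by
    refine le_trans ?_ (mul_le_mul_of_nonneg_left (add_one_le_exp _) (sq_nonneg _))
    have c1 : ((s1 + s2) / 2) ^ 2 ≤ R ^ 2 := pow_le_pow_left₀ hm.le (by linarith) 2
    have c2 : ((s1 + s2) / 2) ^ 2 * (d ^ 2 / (4 * R ^ 2)) ≤ d ^ 2 / 4 :=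
      (mul_le_mul_of_nonneg_right c1 (by positivity)).trans_eq (by field_simp)
    nlinarith [pow_le_pow_left₀ hd h12 2]
  have l6 : exp (-(d ^ 2 / (4 * R ^ 2))) ≤
      exp (-(2 * e ^ 2)) * exp (-(2 * e ^ 2)) * exp (-(d ^ 2 / (8 * R ^ 2))) := by
    rw [← exp_add, ← exp_add]
    have c1 : 4 * e ^ 2 ≤ d ^ 2 / (8 * R ^ 2) := by
      rw [le_div_iff₀ (by positivity)]; linarith
    have c2 : d ^ 2 / (4 * R ^ 2) = 2 * (d ^ 2 / (8 * R ^ 2)) := by field_simp; ring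
    exact exp_le_exp.2 (by linarith)
  have l7 : (((s1 + s2) / 2)⁻¹ * exp (-(1 / 2))) ^ 2 ≤
      s1⁻¹ * (exp (-(1 / 2)) * exp (-(2 * e ^ 2))) *
        (s2⁻¹ * (exp (-(1 / 2)) * exp (-(2 * e ^ 2)))) * exp (-(d ^ 2 / (8 * R ^ 2))) := by
    have c1 := l5.trans (mul_le_mul_of_nonneg_left l6 (sq_nonneg _))
    generalize (s1 + s2) / 2 = m at *
    generalize exp (-(2 * e ^ 2)) = u at *
    generalize exp (-(d ^ 2 / (8 * R ^ 2))) = v at *
    have c2 : 0 < s1 := by linarith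
    have c3 : 0 < s2 := by linarith
    calc _ = exp (-(1 / 2)) ^ 2 * (s1 * s2 * m ^ 2)⁻¹ * (s1 * s2) := by field_simp
      _ ≤ exp (-(1 / 2)) ^ 2 * (s1 * s2 * m ^ 2)⁻¹ * (m ^ 2 * (u * u * v)) :=
          mul_le_mul_of_nonneg_left c1 (by positivity)
      _ = _ := by field_simp
  have l8 := pow_le_pow_left₀ (by positivity) l7 k
  rw [← pow_mul, mul_comm 2 k, pow_mul, mul_pow (_ * _) (exp _), mul_pow (_ * _) (_ * _),
    ← exp_nat_mul] at l8
  have c2 : 0 < s1 := by linarith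
  have c3 : 0 < s2 := by linarith
  have p1 : 0 < (s1⁻¹ * (exp (-(1 / 2)) * exp (-(2 * e ^ 2)))) ^ k := by positivity
  have p2 : 0 < (s2⁻¹ * (exp (-(1 / 2)) * exp (-(2 * e ^ 2)))) ^ k := by positivity
  refine le_of_mul_le_mul_right ?_ (mul_pos p1 p2)
  refine (le_of_eq (by ring)).trans ((l4.trans (mul_le_mul_of_nonneg_left l8 (by norm_num))).trans
    (le_of_eq ?_))
  rw [show -(d ^ 2 / (8 * R ^ 2) * k) = k * -(d ^ 2 / (8 * R ^ 2)) by ring]
  ring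

theorem ev_small (C : ℝ) (m : ℕ) {c : ℝ} (hc : 0 < c) : ∃ t0 : ℕ, ∀ t : ℕ, t0 ≤ t →
    C * ((t : ℝ) + 1) ^ m * exp (-(c * t)) ≤ 1 / 2 := by
  refine ⟨⌈2 * |C| * 2 ^ m * (m + 1).factorial / c ^ (m + 1)⌉₊ + 1, fun t ht => ?_⟩
  have h0 : (1 : ℝ) ≤ t := by exact_mod_cast (show 1 ≤ t by omega)
  have h1 : 2 * |C| * 2 ^ m * (m + 1).factorial / c ^ (m + 1) ≤ t :=
    (Nat.le_ceil _).trans (Nat.cast_le.2 (Nat.le_of_succ_le ht))
  have h2 := pow_div_factorial_le_exp (c * t) (by positivity) (m + 1)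
  have h3 : ((t : ℝ) + 1) ^ m ≤ (2 * t) ^ m := pow_le_pow_left₀ (by positivity) (by linarith) m
  rw [div_le_iff₀ (by positivity)] at h1 h2
  rw [exp_neg, mul_inv_le_iff₀ (exp_pos _)]
  refine (mul_le_mul (le_abs_self C) h3 (by positivity) (abs_nonneg _)).trans ?_
  refine le_of_mul_le_mul_right ?_ (show (0 : ℝ) < (m + 1).factorial by positivity)
  have h4 := mul_le_mul_of_nonneg_right h1 (show (0 : ℝ) ≤ t ^ m by positivity)
  rw [mul_pow] at h2 ⊢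
  rw [pow_succ (t : ℝ) m] at h2
  linarith

/-- The part of `A` in the window number `j`. -/
def win (R e : ℝ) (A : Set (Eu n)) (j : ℕ) : Set (Eu n) :=
  A ∩ {x | S x ≤ R ∧ 1 + j * e ≤ S x ∧ S x ≤ 1 + j * e + e}

theorem meas_win (R e : ℝ) {A : Set (Eu n)} (hA : MeasurableSet A) (j : ℕ) :
    MeasurableSet (win R e A j) :=
  hA.inter ((measurableSet_le cont_S.measurable measurable_const).inter
    ((measurableSet_le measurable_const cont_S.measurable).inter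
      (measurableSet_le cont_S.measurable measurable_const)))

theorem cover (μ : Measure (Eu n)) [IsFiniteMeasure μ] (R : ℝ) {e : ℝ} (he : 0 < e)
    (A : Set (Eu n)) : μ.real A ≤ μ.real {x | R < S x} +
      ∑ j ∈ Finset.range (⌊R / e⌋₊ + 1), μ.real (win R e A j) := by
  refine le_trans (measureReal_mono fun x hx => ?_) ((measureReal_union_le _ _).trans
    (add_le_add le_rfl (measureReal_biUnion_finset_le _ _)))
  by_cases h : R < S x
  · exact Or.inl h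
  · have h0 := one_le_S x
    have h1 := Nat.floor_le (a := (S x - 1) / e) (div_nonneg (by linarith) he.le)
    have h2 := (Nat.lt_floor_add_one ((S x - 1) / e)).le
    rw [le_div_iff₀ he] at h1
    rw [div_le_iff₀ he] at h2
    refine Or.inr (mem_iUnion₂.2 ⟨⌊(S x - 1) / e⌋₊, Finset.mem_range.2 (Nat.lt_succ_of_le
      (Nat.floor_le_floor (div_le_div_of_nonneg_right (by linarith) he.le))), hx, not_lt.1 h,
      by linarith, by linarith⟩)

theorem combine {N : ℕ} {P Q β B : ℝ} {u v : ℕ → ℝ} (hβ : 0 ≤ β) (hQ0 : 0 ≤ Q) (hQ1 : Q ≤ 1)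
    (hP : P ≤ β + ∑ j ∈ Finset.range N, u j) (hQ : Q ≤ β + ∑ j ∈ Finset.range N, v j)
    (hu : ∀ j, 0 ≤ u j ∧ u j ≤ 1) (huv : ∀ i j, u i * v j ≤ B) :
    P * Q ≤ (N + 1) * β + N ^ 2 * B := by
  have h1 : ∑ j ∈ Finset.range N, u j ≤ N := by
    simpa using Finset.sum_le_card_nsmul (Finset.range N) u 1 fun j _ => (hu j).2
  have h2 : (∑ j ∈ Finset.range N, u j) * ∑ j ∈ Finset.range N, v j ≤ N ^ 2 * B := by
    rw [Finset.sum_mul_sum]
    refine (Finset.sum_le_card_nsmul _ _ (N * B) fun i _ => ?_).trans_eq (by simp; ring)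
    simpa using Finset.sum_le_card_nsmul (Finset.range N) _ B fun j _ => huv i j
  have h3 : 0 ≤ ∑ j ∈ Finset.range N, u j := Finset.sum_nonneg fun j _ => (hu j).1
  have h4 := mul_le_mul_of_nonneg_right hP hQ0
  have h5 := mul_le_mul_of_nonneg_left hQ h3
  have h6 := mul_le_mul_of_nonneg_left hQ1 hβ
  have h7 := mul_le_mul_of_nonneg_right h1 hβ
  linarith

end Tsb

open Tsb in
theorem ts (ha : TsaStmt) (ht : TailStmt) : TsStmt := by
  intro Λ η J hΛ hη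
  obtain ⟨R, hR0, hR⟩ : ∃ R : ℝ, 0 ≤ R ∧ R ^ 2 = 1 + 2 * Λ ^ 2 :=
    ⟨_, sqrt_nonneg _, sq_sqrt (by positivity)⟩
  have hR1 : 1 ≤ R := (abs_le_of_sq_le_sq' (by nlinarith) hR0).2
  obtain ⟨d, hd0, hd1, hd2⟩ : ∃ d : ℝ, 0 < d ∧ d ≤ 1 / 4 ∧ 4 * R * d ≤ η := by
    refine ⟨min (1 / 4) (η / (4 * R)), by positivity, min_le_left _ _, ?_⟩
    rw [← le_div_iff₀' (by positivity)]; exact min_le_right _ _
  obtain ⟨e, he0, he⟩ : ∃ e : ℝ, 0 < e ∧ 6 * R * e = d := ⟨d / (6 * R), by positivity, by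
    field_simp⟩
  have he1 : e ≤ d := by nlinarith
  have he2 : 32 * e ^ 2 * R ^ 2 ≤ d ^ 2 := by rw [← he]; nlinarith [sq_nonneg (R * e)]
  obtain ⟨n1, ha⟩ := ha Λ R hΛ hR1
  obtain ⟨c, hc, ht⟩ := ht 1 one_pos
  obtain ⟨N, hN⟩ : ∃ N : ℕ, N = ⌊R / e⌋₊ + 1 := ⟨_, rfl⟩
  obtain ⟨n2, e1⟩ := ev_small ((N : ℝ) + 1) J hc
  obtain ⟨k0, e2⟩ := ev_small ((N : ℝ) ^ 2 * 16) (8 * J) (c := d ^ 2 / (8 * R ^ 2)) (by positivity)
  refine ⟨max (max n1 n2) (k0 ^ 8 + 1), fun n hn p hp a => ?_⟩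
  simp only [ge_iff_le, max_le_iff] at hn
  have := hp.nrm.prob
  have hn0 : (0 : ℝ) < n := by exact_mod_cast (show 0 < n by omega)
  obtain ⟨k, hk1, hk2⟩ : ∃ k : ℕ, k ^ 8 ≤ n ∧ n < (k + 1) ^ 8 :=
    ⟨Nat.nthRoot 8 n, Nat.pow_nthRoot_le (Or.inl (by norm_num)),
      Nat.lt_pow_nthRoot_add_one (by norm_num) n⟩
  have hk0 : k0 ≤ k := Nat.le_of_lt_succ (lt_of_pow_lt_pow_left₀ 8 (Nat.zero_le _)
    ((Nat.lt_of_succ_le hn.2).trans hk2))
  have hbad : (mu p).real {x | R < S x} ≤ exp (-(c * n)) := by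
    refine (measureReal_mono fun x hx => ?_).trans (ht n p hp.nrm).2
    have h1 := pow_lt_pow_left₀ (show R < S x from hx) hR0 two_ne_zero
    rw [S_sq, hR, add_lt_add_iff_left, lt_div_iff₀ hn0] at h1
    have h2 := pow_le_pow_left₀ (norm_nonneg _) (hp.lo x) 2
    rw [mul_pow] at h2
    exact le_of_mul_le_mul_left (a := Λ ^ 2) (by linarith) (by positivity)
  have m1 : MeasurableSet {x : Eu n | ‖x‖ ^ 2 ≤ a * n} :=
    measurableSet_le (by fun_prop) measurable_const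
  have m2 : MeasurableSet {x : Eu n | (a + η) * n ≤ ‖x‖ ^ 2} :=
    measurableSet_le measurable_const (by fun_prop)
  have key := combine (B := 16 * exp (-(d ^ 2 / (8 * R ^ 2) * k))) (exp_pos _).le
    measureReal_nonneg measureReal_le_one
    ((cover (mu p) R he0 {x | ‖x‖ ^ 2 ≤ a * n}).trans (add_le_add hbad le_rfl))
    ((cover (mu p) R he0 {x | (a + η) * n ≤ ‖x‖ ^ 2}).trans (add_le_add hbad le_rfl))
    (fun j => ⟨measureReal_nonneg, measureReal_le_one⟩) fun i j => by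
      rcases (win R e {x : Eu n | ‖x‖ ^ 2 ≤ a * n} i).eq_empty_or_nonempty with h | ⟨x, hx⟩
      · rw [h, measureReal_empty, zero_mul]; positivity
      rcases (win R e {x : Eu n | (a + η) * n ≤ ‖x‖ ^ 2} j).eq_empty_or_nonempty with h | ⟨y, hy⟩
      · rw [h, measureReal_empty, mul_zero]; positivity
      obtain ⟨x1, x2, x3, -⟩ := hx
      obtain ⟨y1, y2, y3, y4⟩ := hy
      have s1 : (1 + i * e : ℝ) ∈ Icc 1 R := ⟨le_add_of_nonneg_right (by positivity), x3.trans x2⟩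
      have s2 : (1 + j * e : ℝ) ∈ Icc 1 R := ⟨le_add_of_nonneg_right (by positivity), y3.trans y2⟩
      refine pair hp.nrm (he1.trans hd1) he2 hd0.le s1 s2 ?_ (ha n hn.1.1 k hk1 p hp _ s1 _ s2)
        (meas_win R e m1 i) (meas_win R e m2 j) (fun z hz => hz.2.2) fun z hz => hz.2.2
      have h1 : S x ^ 2 ≤ 1 + a := by
        rw [S_sq, add_le_add_iff_left, div_le_iff₀ hn0]; exact x1
      have h2 : 1 + (a + η) ≤ S y ^ 2 := by
        rw [S_sq, add_le_add_iff_left, le_div_iff₀ hn0]; exact y1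
      have h3 := one_le_S x
      have h4 := one_le_S y
      have h5 : S x ≤ S y := (abs_le_of_sq_le_sq' (by linarith) (by linarith)).2
      have h6 : 2 * d ≤ S y - S x := by
        refine le_of_mul_le_mul_left (a := 2 * R) ?_ (by positivity)
        nlinarith [mul_le_mul_of_nonneg_right (show S y + S x ≤ 2 * R by linarith)
          (sub_nonneg.2 h5)]
      linarith
  rw [← hN] at key
  refine key.trans ?_
  have f1 := e1 n hn.1.2
  have f2 := e2 k hk0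
  have f3 : (n : ℝ) ^ J ≤ ((n : ℝ) + 1) ^ J := pow_le_pow_left₀ hn0.le (by linarith) J
  have f4 : (n : ℝ) ^ J ≤ ((k : ℝ) + 1) ^ (8 * J) := by
    rw [pow_mul]; exact pow_le_pow_left₀ hn0.le (by exact_mod_cast hk2.le) J
  rw [le_div_iff₀ (by positivity)]
  have f5 := mul_le_mul_of_nonneg_left f3
    (show 0 ≤ ((N : ℝ) + 1) * exp (-(c * n)) by positivity)
  have f6 := mul_le_mul_of_nonneg_left f4
    (show 0 ≤ (N : ℝ) ^ 2 * (16 * exp (-(d ^ 2 / (8 * R ^ 2) * k))) by positivity)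
  linarith

end Pool.Agent.MP_2a44fd_gt.hd

end MrgPart2

-- ======== part 3: formerly Pool.Agent.MP_2a44fd_gt.hd.TwoA
section MrgPart3

/-!
PROJECT BP5HD: the two-copy identity.
-/

set_option autoImplicit false

open MeasureTheory Real Set Filter Topology
open scoped RealInnerProductSpace ENNReal

namespace Pool.Agent.MP_2a44fd_gt.hd

namespace TwoA

/-- Product of two parametric integrals, averaged over the parameter. -/
theorem bil {α β γ : Type*} [MeasurableSpace α] [MeasurableSpace β] [MeasurableSpace γ]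
    {μ : Measure α} {ν : Measure β} {ρ : Measure γ} [SFinite μ] [SFinite ν] [IsFiniteMeasure ρ]
    {a : α → ℝ} {b : β → ℝ} {φ : α → γ → ℝ} {ψ : β → γ → ℝ} {C : ℝ}
    (ha : Integrable a μ) (hb : Integrable b ν) (hφ : Measurable (Function.uncurry φ))
    (hψ : Measurable (Function.uncurry ψ))
    (hφC : ∀ x ξ, |φ x ξ| ≤ C) (hψC : ∀ y ξ, |ψ y ξ| ≤ C) :
    Integrable (fun ξ => (∫ x, a x * φ x ξ ∂μ) * ∫ y, b y * ψ y ξ ∂ν) ρ ∧
    Integrable (fun z : α × β => a z.1 * b z.2 * ∫ ξ, φ z.1 ξ * ψ z.2 ξ ∂ρ) (μ.prod ν) ∧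
    ∫ ξ, (∫ x, a x * φ x ξ ∂μ) * (∫ y, b y * ψ y ξ ∂ν) ∂ρ =
      ∫ z : α × β, a z.1 * b z.2 * ∫ ξ, φ z.1 ξ * ψ z.2 ξ ∂ρ ∂μ.prod ν := by
  have m1 : Measurable fun q : γ × (α × β) => φ q.2.1 q.1 :=
    hφ.comp (f := fun q : γ × (α × β) => (q.2.1, q.1)) (by fun_prop)
  have m2 : Measurable fun q : γ × (α × β) => ψ q.2.2 q.1 :=
    hψ.comp (f := fun q : γ × (α × β) => (q.2.2, q.1)) (by fun_prop)
  have h0 : Integrable (fun q : γ × (α × β) => (1 : ℝ) * (a q.2.1 * b q.2.2))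
      (ρ.prod (μ.prod ν)) := (integrable_const (1 : ℝ)).mul_prod (ha.mul_prod hb)
  have hF : Integrable (Function.uncurry fun (ξ : γ) (z : α × β) =>
      (a z.1 * φ z.1 ξ) * (b z.2 * ψ z.2 ξ)) (ρ.prod (μ.prod ν)) := by
    refine (h0.bdd_mul (c := C * C) (m1.mul m2).aestronglyMeasurable
      (Eventually.of_forall fun q => ?_)).congr (Eventually.of_forall fun q => ?_)
    · rw [Real.norm_eq_abs, Pi.mul_apply, abs_mul]
      exact mul_le_mul (hφC _ _) (hψC _ _) (abs_nonneg _) ((abs_nonneg _).trans (hφC q.2.1 q.1))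
    · simp only [Function.uncurry, Pi.mul_apply]; ring
  have e1 : ∀ ξ, (∫ x, a x * φ x ξ ∂μ) * (∫ y, b y * ψ y ξ ∂ν) =
      ∫ z : α × β, (a z.1 * φ z.1 ξ) * (b z.2 * ψ z.2 ξ) ∂μ.prod ν := fun ξ =>
    (integral_prod_mul (fun x => a x * φ x ξ) fun y => b y * ψ y ξ).symm
  have e2 : ∀ z : α × β, a z.1 * b z.2 * ∫ ξ, φ z.1 ξ * ψ z.2 ξ ∂ρ =
      ∫ ξ, (a z.1 * φ z.1 ξ) * (b z.2 * ψ z.2 ξ) ∂ρ := fun z => by
    rw [← integral_const_mul]
    exact integral_congr_ae (Eventually.of_forall fun ξ => by simp only; ring)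
  simp only [e1, e2]
  exact ⟨hF.integral_prod_left, hF.integral_prod_right, integral_integral_swap hF⟩

variable {n : ℕ} {δ : ℝ}

/-- Differentiation of a one-dimensional Fourier type integral. -/
theorem der_four {g g' a : ℝ → ℝ} (hg : ∀ u, HasDerivAt g (g' u) u) (hc : Continuous g')
    (hb : ∀ u, |g u| ≤ 1) (hb' : ∀ u, |g' u| ≤ 1) (ha : Integrable a)
    (ha' : Integrable fun s => s * a s) (t : ℝ) :
    HasDerivAt (fun t => ∫ s, a s * g (s * t)) (∫ s, s * a s * g' (s * t)) t := by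
  have hgc : Continuous g := continuous_iff_continuousAt.2 fun u => (hg u).continuousAt
  refine (hasDerivAt_integral_of_dominated_loc_of_deriv_le (s := univ)
    (F := fun t s => a s * g (s * t)) (F' := fun t s => s * a s * g' (s * t))
    (bound := fun s => ‖s * a s‖) univ_mem
    (Eventually.of_forall fun t => ha.1.mul (by fun_prop)) ?_ (ha'.1.mul (by fun_prop))
    (Eventually.of_forall fun s t _ => ?_) ha'.norm (Eventually.of_forall fun s t _ => ?_)).2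
  · exact ha.mul_bdd (c := 1) (by fun_prop) (Eventually.of_forall fun s => hb _)
  · rw [norm_mul (s * a s)]
    exact mul_le_of_le_one_right (norm_nonneg _) (hb' _)
  · have := (((hg (s * t)).comp t ((hasDerivAt_id t).const_mul s))).const_mul (a s)
    refine this.congr_deriv ?_
    ring

/-- The Gaussian weight. -/
noncomputable def ew (δ s : ℝ) : ℝ := exp (-(δ ^ 2 * s ^ 2 / 2))

theorem int_ew (hδ : 0 < δ) (k : ℕ) : Integrable fun s : ℝ => s ^ k * ew δ s :=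
  int_pow_gauss1 (pow_pos hδ 2) k

theorem int_ew0 (hδ : 0 < δ) : Integrable (ew δ) := by simpa using int_ew hδ 0

theorem int_ew1 (hδ : 0 < δ) : Integrable fun s => s * ew δ s := by simpa using int_ew hδ 1

theorem int_ew2 (hδ : 0 < δ) : Integrable fun s => s * (s * ew δ s) := by
  simpa only [sq, mul_assoc] using int_ew hδ 2

theorem gk_four (hδ : 0 < δ) (t : ℝ) : gk δ t = (2 * π)⁻¹ * ∫ s, ew δ s * cos (s * t) := by
  rw [gk_fourier hδ]; simp only [ew, mul_comm]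

theorem gk1_four (hδ : 0 < δ) (t : ℝ) :
    gk1 δ t = (2 * π)⁻¹ * ∫ s, s * ew δ s * (-sin (s * t)) := by
  have h := (der_four (g := cos) (g' := fun u => -sin u) hasDerivAt_cos (by fun_prop)
    abs_cos_le_one (fun u => by rw [abs_neg]; exact abs_sin_le_one u) (int_ew0 hδ)
    (int_ew1 hδ) t).const_mul (2 * π)⁻¹
  refine (hasDerivAt_gk hδ t).unique ?_
  rw [show gk δ = _ from funext (gk_four hδ)]
  exact h

theorem gk2_four (hδ : 0 < δ) (t : ℝ) :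
    gk2 δ t = (2 * π)⁻¹ * ∫ s, s * (s * ew δ s) * (-cos (s * t)) := by
  have h := (der_four (g := fun u => -sin u) (g' := fun u => -cos u)
    (fun u => (hasDerivAt_sin u).neg) (by fun_prop)
    (fun u => by rw [abs_neg]; exact abs_sin_le_one u)
    (fun u => by rw [abs_neg]; exact abs_cos_le_one u) (int_ew1 hδ)
    (int_ew2 hδ) t).const_mul (2 * π)⁻¹
  refine (hasDerivAt_gk1 hδ t).unique ?_
  rw [show gk1 δ = _ from funext (gk1_four hδ)]
  exact h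

theorem int_cos (z : Eu n) : Integrable (fun x : Eu n => cos ⟪z, x⟫) (gam n) :=
  (integrable_const (1 : ℝ)).mono' (by fun_prop) (Eventually.of_forall fun x => abs_cos_le_one _)

theorem cos_cos (z w : Eu n) : ∫ ξ, cos ⟪z, ξ⟫ * cos ⟪w, ξ⟫ ∂gam n =
    exp (-((‖z‖ ^ 2 + ‖w‖ ^ 2) / 2)) * cosh ⟪z, w⟫ := by
  have e : ∀ ξ : Eu n, cos ⟪z, ξ⟫ * cos ⟪w, ξ⟫ = (cos ⟪z - w, ξ⟫ + cos ⟪z + w, ξ⟫) / 2 :=
    fun ξ => by rw [inner_sub_left, inner_add_left, cos_sub, cos_add]; ring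
  simp only [e]
  rw [integral_div, integral_add (int_cos _) (int_cos _), gam_cos, gam_cos, norm_sub_sq_real,
    norm_add_sq_real, cosh_eq, mul_div_assoc', mul_add, ← exp_add, ← exp_add]
  congr 3 <;> ring

theorem sin_sin (z w : Eu n) : ∫ ξ, sin ⟪z, ξ⟫ * sin ⟪w, ξ⟫ ∂gam n =
    exp (-((‖z‖ ^ 2 + ‖w‖ ^ 2) / 2)) * sinh ⟪z, w⟫ := by
  have e : ∀ ξ : Eu n, sin ⟪z, ξ⟫ * sin ⟪w, ξ⟫ = (cos ⟪z - w, ξ⟫ - cos ⟪z + w, ξ⟫) / 2 :=
    fun ξ => by rw [inner_sub_left, inner_add_left, cos_sub, cos_add]; ring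
  simp only [e]
  rw [integral_div, integral_sub (int_cos _) (int_cos _), gam_cos, gam_cos, norm_sub_sq_real,
    norm_add_sq_real, sinh_eq, mul_div_assoc', mul_sub, ← exp_add, ← exp_add]
  congr 3 <;> ring

/-- The inner layer: two Fourier integrals averaged over the Gaussian parameter. -/
theorem layer {a g f : ℝ → ℝ} {K : Eu n → Eu n → ℝ} (ha : Integrable a) (hg : Continuous g)
    (hb : ∀ u, |g u| ≤ 1) (hK : ∀ z w : Eu n, ∫ ξ, g ⟪z, ξ⟫ * g ⟪w, ξ⟫ ∂gam n = K z w)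
    (hf : ∀ t, f t = (2 * π)⁻¹ * ∫ s, a s * g (s * t)) (x y : Eu n) :
    Integrable (fun s : ℝ × ℝ => a s.1 * a s.2 * K (s.1 • x) (s.2 • y)) ∧
      ∫ ξ, f ⟪x, ξ⟫ * f ⟪y, ξ⟫ ∂gam n =
        (2 * π)⁻¹ ^ 2 * ∫ s : ℝ × ℝ, a s.1 * a s.2 * K (s.1 • x) (s.2 • y) := by
  obtain ⟨-, h2, h3⟩ := bil (ρ := gam n) (φ := fun s ξ => g ⟪s • x, ξ⟫)
    (ψ := fun s ξ => g ⟪s • y, ξ⟫) (C := 1) ha ha
    (Continuous.measurable (by unfold Function.uncurry; fun_prop))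
    (Continuous.measurable (by unfold Function.uncurry; fun_prop))
    (fun _ _ => hb _) (fun _ _ => hb _)
  simp only [hK] at h2 h3
  refine ⟨h2, ?_⟩
  rw [Measure.volume_eq_prod, ← h3, ← integral_const_mul]
  refine integral_congr_ae (Eventually.of_forall fun ξ => ?_)
  simp only [hf, real_inner_smul_left]
  ring

/-- The kernel as a Gaussian average. -/
theorem Kd_eq (hδ : 0 < δ) (x y : Eu n) : Kd δ x y = 2 * π *
    (∫ ξ, gk δ ⟪x, ξ⟫ * gk δ ⟪y, ξ⟫ ∂gam n +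
      ⟪x, y⟫ * ∫ ξ, gk1 δ ⟪x, ξ⟫ * gk1 δ ⟪y, ξ⟫ ∂gam n +
      (⟪x, y⟫ ^ 2 + ‖x‖ ^ 2 * ‖y‖ ^ 2) * ∫ ξ, gk2 δ ⟪x, ξ⟫ * gk2 δ ⟪y, ξ⟫ ∂gam n) := by
  obtain ⟨i0, e0⟩ := layer (int_ew0 hδ) continuous_cos abs_cos_le_one cos_cos (gk_four hδ) x y
  obtain ⟨i1, e1⟩ := layer (g := fun u => -sin u) (int_ew1 hδ) (by fun_prop)
    (fun u => by rw [abs_neg]; exact abs_sin_le_one u)
    (fun z w => by simp only [neg_mul_neg]; exact sin_sin z w) (gk1_four hδ) x y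
  obtain ⟨i2, e2⟩ := layer (g := fun u => -cos u) (int_ew2 hδ) (by fun_prop)
    (fun u => by rw [abs_neg]; exact abs_cos_le_one u)
    (fun z w => by simp only [neg_mul_neg]; exact cos_cos z w) (gk2_four hδ) x y
  have hp : (2 * π) ≠ 0 := by positivity
  rw [e0, e1, e2, Kd]
  have key := integral_add (i0.add (i1.const_mul ⟪x, y⟫))
    (i2.const_mul (⟪x, y⟫ ^ 2 + ‖x‖ ^ 2 * ‖y‖ ^ 2))
  simp only [Pi.add_apply] at key
  rw [integral_add i0 (i1.const_mul _), integral_const_mul, integral_const_mul] at key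
  have e : ∀ A B C c d : ℝ, 2 * π * ((2 * π)⁻¹ ^ 2 * A + c * ((2 * π)⁻¹ ^ 2 * B) +
      d * ((2 * π)⁻¹ ^ 2 * C)) = (2 * π)⁻¹ * (A + c * B + d * C) := fun A B C c d => by
    field_simp
  rw [e, ← key]
  congr 1
  refine integral_congr_ae (Eventually.of_forall fun s => ?_)
  have h1 : exp (-(δ ^ 2 * (s.1 ^ 2 + s.2 ^ 2) / 2)) = ew δ s.1 * ew δ s.2 := by
    rw [ew, ew, ← exp_add]; congr 1; ring
  have h2 : ‖s.1 • x‖ ^ 2 * ‖s.2 • y‖ ^ 2 = s.1 ^ 2 * s.2 ^ 2 * (‖x‖ ^ 2 * ‖y‖ ^ 2) := by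
    rw [norm_smul, norm_smul, mul_pow, mul_pow, Real.norm_eq_abs, Real.norm_eq_abs, sq_abs, sq_abs]
    ring
  have h3 : ⟪s.1 • x, s.2 • y⟫ = s.1 * s.2 * ⟪x, y⟫ := by
    rw [real_inner_smul_left, real_inner_smul_right]; ring
  simp only [KK, h1, h2]
  generalize exp (-((‖s.1 • x‖ ^ 2 + ‖s.2 • y‖ ^ 2) / 2)) = E
  generalize cosh ⟪s.1 • x, s.2 • y⟫ = c
  generalize sinh ⟪s.1 • x, s.2 • y⟫ = d
  rw [h3]
  ring

/-- The outer layer. -/
theorem outer {a : Eu n → ℝ} {f : ℝ → ℝ} {C : ℝ} (ha : Integrable a (gam n)) (hf : Continuous f)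
    (hb : ∀ u, |f u| ≤ C) :
    Integrable (fun ξ => (√(2 * π) * ∫ x, a x * f ⟪x, ξ⟫ ∂gam n) ^ 2) (gam n) ∧
    Integrable (fun z : Eu n × Eu n =>
      2 * π * (a z.1 * a z.2 * ∫ ξ, f ⟪z.1, ξ⟫ * f ⟪z.2, ξ⟫ ∂gam n)) ((gam n).prod (gam n)) ∧
    ∫ ξ, (√(2 * π) * ∫ x, a x * f ⟪x, ξ⟫ ∂gam n) ^ 2 ∂gam n = ∫ z : Eu n × Eu n,
      2 * π * (a z.1 * a z.2 * ∫ ξ, f ⟪z.1, ξ⟫ * f ⟪z.2, ξ⟫ ∂gam n) ∂(gam n).prod (gam n) := by
  obtain ⟨h1, h2, h3⟩ := bil (ρ := gam n) (φ := fun x ξ : Eu n => f ⟪x, ξ⟫)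
    (ψ := fun x ξ : Eu n => f ⟪x, ξ⟫) (C := C) ha ha
    (Continuous.measurable (by unfold Function.uncurry; fun_prop))
    (Continuous.measurable (by unfold Function.uncurry; fun_prop))
    (fun _ _ => hb _) (fun _ _ => hb _)
  have e : ∀ ξ : Eu n, (√(2 * π) * ∫ x, a x * f ⟪x, ξ⟫ ∂gam n) ^ 2 =
      2 * π * ((∫ x, a x * f ⟪x, ξ⟫ ∂gam n) * ∫ x, a x * f ⟪x, ξ⟫ ∂gam n) := fun ξ => by
    rw [mul_pow, sq_sqrt (by positivity), sq]
  simp only [e]
  exact ⟨h1.const_mul _, h2.const_mul _, by rw [integral_const_mul, integral_const_mul, h3]⟩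

/-- Two integrable functions with the same integral. -/
def Sameint (f : Eu n → ℝ) (g : Eu n × Eu n → ℝ) : Prop :=
  Integrable f (gam n) ∧ Integrable g ((gam n).prod (gam n)) ∧
    ∫ ξ, f ξ ∂gam n = ∫ z, g z ∂(gam n).prod (gam n)

theorem Sameint.add {f f' : Eu n → ℝ} {g g' : Eu n × Eu n → ℝ} (h : Sameint f g) (h' : Sameint f' g') :
    Sameint (fun ξ => f ξ + f' ξ) fun z => g z + g' z :=
  ⟨h.1.add h'.1, h.2.1.add h'.2.1, by
    rw [integral_add h.1 h'.1, integral_add h.2.1 h'.2.1, h.2.2, h'.2.2]⟩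

theorem Sameint.sum {f : Fin n → Eu n → ℝ} {g : Fin n → Eu n × Eu n → ℝ}
    (h : ∀ i, Sameint (f i) (g i)) : Sameint (fun ξ => ∑ i, f i ξ) fun z => ∑ i, g i z :=
  ⟨integrable_finsetSum _ fun i _ => (h i).1, integrable_finsetSum _ fun i _ => (h i).2.1, by
    rw [integral_finsetSum _ fun i _ => (h i).1, integral_finsetSum _ fun i _ => (h i).2.1]
    exact Finset.sum_congr rfl fun i _ => (h i).2.2⟩

theorem int_mul {V u : Eu n → ℝ} (hV : Measurable V)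
    (hi : Integrable (fun x => V x * (1 + ‖x‖ ^ 2)) (gam n)) (hu : Continuous u)
    (hb : ∀ x, |u x| ≤ 1 + ‖x‖ ^ 2) : Integrable (fun x => V x * u x) (gam n) := by
  refine hi.mono (hV.mul hu.measurable).aestronglyMeasurable (Eventually.of_forall fun x => ?_)
  rw [norm_mul, norm_mul]
  exact mul_le_mul_of_nonneg_left ((hb x).trans (le_abs_self _)) (norm_nonneg _)

end TwoA

open TwoA in
theorem twoA : TwoAStmt := by
  intro n V δ hV hi hδ
  have a0 : Integrable V (gam n) := by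
    simpa using int_mul hV hi (u := fun _ => 1) continuous_const fun x => by
      rw [abs_one]; nlinarith [sq_nonneg ‖x‖]
  have a1 : ∀ i, Integrable (fun x : Eu n => V x * x i) (gam n) := fun i =>
    int_mul hV hi (by fun_prop) fun x => by
      nlinarith [abs_coord_le x i, sq_nonneg (‖x‖ - 1), norm_nonneg x]
  have a2 : ∀ i j, Integrable (fun x : Eu n => V x * (x i * x j)) (gam n) := fun i j =>
    int_mul hV hi (by fun_prop) fun x => by
      rw [abs_mul]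
      nlinarith [mul_le_mul (abs_coord_le x i) (abs_coord_le x j) (abs_nonneg _) (norm_nonneg x)]
  have a3 : Integrable (fun x : Eu n => V x * ‖x‖ ^ 2) (gam n) :=
    int_mul hV hi (by fun_prop) fun x => by rw [abs_of_nonneg (sq_nonneg _)]; linarith
  have o0 : Sameint _ _ := outer a0 (gk_cont δ) (C := 1 / δ) fun u => by
    rw [abs_of_pos (gk_pos hδ u)]; exact gk_le' hδ u
  have o1 := fun i => (outer (a1 i) (gk1_cont δ) (abs_gk1_le hδ) : Sameint _ _)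
  have o2 := fun i j => (outer (a2 i j) (gk2_cont δ) (abs_gk2_le hδ) : Sameint _ _)
  have o3 : Sameint _ _ := outer a3 (gk2_cont δ) (abs_gk2_le hδ)
  have b1 : ∀ ξ i, be1 V δ ξ i = √(2 * π) * ∫ x, V x * x i * gk1 δ ⟪x, ξ⟫ ∂gam n := fun ξ i => by
    rw [be1]; congr 2; funext x; ring
  have b2 : ∀ ξ i j, be2 V δ ξ i j =
      √(2 * π) * ∫ x, V x * (x i * x j) * gk2 δ ⟪x, ξ⟫ ∂gam n := fun ξ i j => by
    rw [be2]; congr 2; funext x; ring
  have b3 : ∀ ξ, ∑ i, be2 V δ ξ i i =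
      √(2 * π) * ∫ x, V x * ‖x‖ ^ 2 * gk2 δ ⟪x, ξ⟫ ∂gam n := fun ξ => by
    simp only [b2]
    rw [← Finset.mul_sum, ← integral_finsetSum _ fun i _ => (a2 i i).mul_bdd (c := 2 / δ ^ 3)
      (by fun_prop) (Eventually.of_forall fun x => abs_gk2_le hδ _)]
    congr 2; funext x
    rw [norm_sq_eq_sum, Finset.mul_sum, Finset.sum_mul]
    simp only [sq]
  have hG : Gam V δ = fun ξ => (√(2 * π) * ∫ x, V x * gk δ ⟪x, ξ⟫ ∂gam n) ^ 2 +
      ∑ i, (√(2 * π) * ∫ x, V x * x i * gk1 δ ⟪x, ξ⟫ ∂gam n) ^ 2 +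
      ∑ i, ∑ j, (√(2 * π) * ∫ x, V x * (x i * x j) * gk2 δ ⟪x, ξ⟫ ∂gam n) ^ 2 +
      (√(2 * π) * ∫ x, V x * ‖x‖ ^ 2 * gk2 δ ⟪x, ξ⟫ ∂gam n) ^ 2 := funext fun ξ => by
    rw [Gam, b3]; simp only [b1, b2, be0]
  obtain ⟨p, -, r⟩ := ((o0.add (Sameint.sum o1)).add (Sameint.sum fun i => Sameint.sum (o2 i))).add o3
  rw [hG]
  refine ⟨p, r.trans ?_⟩
  refine integral_congr_ae (Eventually.of_forall fun z => ?_)
  simp only [Kd_eq hδ]
  generalize ∫ ξ, gk δ ⟪z.1, ξ⟫ * gk δ ⟪z.2, ξ⟫ ∂gam n = A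
  generalize ∫ ξ, gk1 δ ⟪z.1, ξ⟫ * gk1 δ ⟪z.2, ξ⟫ ∂gam n = B
  generalize ∫ ξ, gk2 δ ⟪z.1, ξ⟫ * gk2 δ ⟪z.2, ξ⟫ ∂gam n = C
  have s1 : ∑ i, 2 * π * (V z.1 * z.1 i * (V z.2 * z.2 i) * B) =
      2 * π * V z.1 * V z.2 * B * ⟪z.1, z.2⟫ := by
    rw [inner_eq_sum, Finset.mul_sum]; exact Finset.sum_congr rfl fun i _ => by ring
  have s2 : ∑ i, ∑ j, 2 * π * (V z.1 * (z.1 i * z.1 j) * (V z.2 * (z.2 i * z.2 j)) * C) =
      2 * π * V z.1 * V z.2 * C * ⟪z.1, z.2⟫ ^ 2 := by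
    rw [inner_eq_sum, sq, Finset.sum_mul_sum, Finset.mul_sum]
    refine Finset.sum_congr rfl fun i _ => ?_
    rw [Finset.mul_sum]; exact Finset.sum_congr rfl fun j _ => by ring
  rw [s1, s2]
  ring

end Pool.Agent.MP_2a44fd_gt.hd

end MrgPart3

-- ======== part 4: formerly Pool.Agent.MP_2a44fd_gt.hd.Ker
section MrgPart4

/-!
PROJECT BP5HD: the angular kernel and the limit of the two-copy identity.
-/

set_option autoImplicit false

open MeasureTheory Real Set Filter Topology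
open scoped RealInnerProductSpace ENNReal

namespace Pool.Agent.MP_2a44fd_gt.hd

namespace Ker

theorem exp_rem (y : ℝ) (N : ℕ) :
    |exp y - ∑ m ∈ Finset.range N, y ^ m / m.factorial| ≤ |y| ^ N * exp |y| := by
  have := Complex.norm_exp_sub_sum_le_norm_mul_exp (y : ℂ) N
  rw [Complex.norm_real, Real.norm_eq_abs] at this
  refine le_trans (le_of_eq ?_) this
  rw [← Real.norm_eq_abs, ← Complex.norm_real]
  push_cast
  rfl

theorem cosh_rem6 (y : ℝ) : |cosh y - (1 + y ^ 2 / 2 + y ^ 4 / 24)| ≤ y ^ 6 * exp |y| := by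
  have h1 := exp_rem y 6
  have h2 := exp_rem (-y) 6
  rw [abs_neg] at h2
  rw [show |y| ^ 6 = y ^ 6 from Even.pow_abs (by decide) y] at h1 h2
  simp only [Finset.sum_range_succ, Finset.sum_range_zero, Nat.factorial] at h1 h2
  push_cast at h1 h2
  rw [abs_le] at h1 h2 ⊢
  rw [cosh_eq]
  constructor <;> nlinarith [h1.1, h1.2, h2.1, h2.2]

theorem cosh_rem4 (y : ℝ) : |cosh y - (1 + y ^ 2 / 2)| ≤ y ^ 4 * exp |y| := by
  have h1 := exp_rem y 4
  have h2 := exp_rem (-y) 4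
  rw [abs_neg] at h2
  rw [show |y| ^ 4 = y ^ 4 from Even.pow_abs (by decide) y] at h1 h2
  simp only [Finset.sum_range_succ, Finset.sum_range_zero, Nat.factorial] at h1 h2
  push_cast at h1 h2
  rw [abs_le] at h1 h2 ⊢
  rw [cosh_eq]
  constructor <;> nlinarith [h1.1, h1.2, h2.1, h2.2]

theorem sinh_rem5 (y : ℝ) : |sinh y - (y + y ^ 3 / 6)| ≤ |y| ^ 5 * exp |y| := by
  have h1 := exp_rem y 5
  have h2 := exp_rem (-y) 5
  rw [abs_neg] at h2
  simp only [Finset.sum_range_succ, Finset.sum_range_zero, Nat.factorial] at h1 h2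
  push_cast at h1 h2
  rw [abs_le] at h1 h2 ⊢
  rw [sinh_eq]
  constructor <;> nlinarith [h1.1, h1.2, h2.1, h2.2]

/-- Taylor remainder of the bracket. -/
theorem bracket (y w : ℝ) :
    |(1 + y ^ 2 + w ^ 2) * cosh y + y * sinh y -
      ((1 + w ^ 2) + y ^ 2 * (5 / 2 + w ^ 2 / 2) + y ^ 4 * (17 / 24 + w ^ 2 / 24))| ≤
      (3 + w ^ 2) * (y ^ 6 * exp |y|) := by
  have e : (1 + y ^ 2 + w ^ 2) * cosh y + y * sinh y -
      ((1 + w ^ 2) + y ^ 2 * (5 / 2 + w ^ 2 / 2) + y ^ 4 * (17 / 24 + w ^ 2 / 24)) =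
      (1 + w ^ 2) * (cosh y - (1 + y ^ 2 / 2 + y ^ 4 / 24)) + y ^ 2 * (cosh y - (1 + y ^ 2 / 2)) +
        y * (sinh y - (y + y ^ 3 / 6)) := by ring
  have h1 := mul_le_mul_of_nonneg_left (cosh_rem6 y) (show 0 ≤ 1 + w ^ 2 by positivity)
  have h2 := mul_le_mul_of_nonneg_left (cosh_rem4 y) (sq_nonneg y)
  have h3 := mul_le_mul_of_nonneg_left (sinh_rem5 y) (abs_nonneg y)
  have h4 : |y| * (|y| ^ 5 * exp |y|) = y ^ 6 * exp |y| := by
    rw [← show |y| ^ 6 = y ^ 6 from Even.pow_abs (by decide) y]; ring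
  rw [e]
  refine (abs_add_three _ _ _).trans ?_
  rw [abs_mul, abs_mul, abs_mul, abs_of_nonneg (show 0 ≤ 1 + w ^ 2 by positivity),
    abs_of_nonneg (sq_nonneg y)]
  nlinarith

/-- Products of Gaussian moments. -/
noncomputable def mo (k : ℕ) (s : ℝ × ℝ) : ℝ :=
  (s.1 * s.2) ^ k * exp (-((s.1 ^ 2 + s.2 ^ 2) / 2))

theorem int_mo (k : ℕ) : Integrable (mo k) := by
  refine ((int_pow_gauss1 one_pos k).mul_prod (int_pow_gauss1 one_pos k)).congr
    (Eventually.of_forall fun s => ?_)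
  simp only [mo]
  rw [show -((s.1 ^ 2 + s.2 ^ 2) / 2) = -(1 * s.1 ^ 2 / 2) + -(1 * s.2 ^ 2 / 2) by ring, exp_add]
  ring

theorem poly_le {a : ℝ} (h0 : 0 < a) (h1 : a ≤ 1) (s : ℝ) :
    (s ^ 6 + s ^ 8) * exp (-(a * s ^ 2 / 2)) ≤ 6528 / a ^ 4 * exp (-(a / 4) * s ^ 2) := by
  have h3 := Real.pow_div_factorial_le_exp (a / 4 * s ^ 2) (by positivity) 3
  have h4 := Real.pow_div_factorial_le_exp (a / 4 * s ^ 2) (by positivity) 4
  simp only [Nat.factorial] at h3 h4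
  push_cast at h3 h4
  have e : exp (-(a / 4) * s ^ 2) = exp (a / 4 * s ^ 2) * exp (-(a * s ^ 2 / 2)) := by
    rw [← exp_add]; congr 1; ring
  rw [e, ← mul_assoc]
  refine mul_le_mul_of_nonneg_right ?_ (exp_pos _).le
  rw [div_mul_eq_mul_div, le_div_iff₀ (by positivity)]
  have h5 : s ^ 6 * a ^ 4 ≤ s ^ 6 * a ^ 3 :=
    mul_le_mul_of_nonneg_left (pow_le_pow_of_le_one h0.le h1 (by norm_num)) (by positivity)
  nlinarith

/-- The polynomial part of the integrand. -/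
noncomputable def pol (ρ : ℝ) (s : ℝ × ℝ) : ℝ :=
  (mo 0 s + mo 2 s) + (5 / 2 * mo 2 s + 1 / 2 * mo 4 s) * ρ ^ 2 +
    (17 / 24 * mo 4 s + 1 / 24 * mo 6 s) * ρ ^ 4

theorem rem_le {ρ : ℝ} (hρ : |ρ| < 1) (s : ℝ × ℝ) : |kint ρ s - pol ρ s| ≤
    3 * ρ ^ 6 * (6528 / (1 - |ρ|) ^ 4) ^ 2 *
      (exp (-((1 - |ρ|) / 4) * s.1 ^ 2) * exp (-((1 - |ρ|) / 4) * s.2 ^ 2)) := by
  have h0 : 0 < 1 - |ρ| := by linarith
  have h1 : 1 - |ρ| ≤ 1 := by linarith [abs_nonneg ρ]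
  have hb := bracket (s.1 * s.2 * ρ) (s.1 * s.2)
  have e : kint ρ s - pol ρ s = exp (-((s.1 ^ 2 + s.2 ^ 2) / 2)) *
      ((1 + (s.1 * s.2 * ρ) ^ 2 + (s.1 * s.2) ^ 2) * cosh (s.1 * s.2 * ρ) +
        s.1 * s.2 * ρ * sinh (s.1 * s.2 * ρ) - ((1 + (s.1 * s.2) ^ 2) +
        (s.1 * s.2 * ρ) ^ 2 * (5 / 2 + (s.1 * s.2) ^ 2 / 2) +
        (s.1 * s.2 * ρ) ^ 4 * (17 / 24 + (s.1 * s.2) ^ 2 / 24))) := by
    simp only [kint, pol, mo]; ring
  rw [e, abs_mul, abs_exp]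
  refine (mul_le_mul_of_nonneg_left hb (exp_pos _).le).trans ?_
  have h2 : exp (-((s.1 ^ 2 + s.2 ^ 2) / 2)) * exp |s.1 * s.2 * ρ| ≤
      exp (-((1 - |ρ|) * s.1 ^ 2 / 2)) * exp (-((1 - |ρ|) * s.2 ^ 2 / 2)) := by
    rw [← exp_add, ← exp_add, exp_le_exp, abs_mul]
    have : |s.1 * s.2| ≤ (s.1 ^ 2 + s.2 ^ 2) / 2 :=
      abs_le.2 ⟨by nlinarith [sq_nonneg (s.1 + s.2)], by nlinarith [sq_nonneg (s.1 - s.2)]⟩
    nlinarith [mul_le_mul_of_nonneg_right this (abs_nonneg ρ)]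
  have h3 : (3 + (s.1 * s.2) ^ 2) * (s.1 * s.2) ^ 6 ≤
      3 * ((s.1 ^ 6 + s.1 ^ 8) * (s.2 ^ 6 + s.2 ^ 8)) := by
    have a1 : 0 ≤ s.1 ^ 6 * s.2 ^ 8 := by positivity
    have a2 : 0 ≤ s.1 ^ 8 * s.2 ^ 6 := by positivity
    have a3 : 0 ≤ s.1 ^ 8 * s.2 ^ 8 := by positivity
    nlinarith
  have h4 := mul_le_mul (poly_le h0 h1 s.1) (poly_le h0 h1 s.2) (by positivity) (by positivity)
  have h5 := mul_le_mul h3 h2 (by positivity) (by positivity)
  have h6 : 0 ≤ ρ ^ 6 := by positivity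
  calc _ = ρ ^ 6 * ((3 + (s.1 * s.2) ^ 2) * (s.1 * s.2) ^ 6 *
        (exp (-((s.1 ^ 2 + s.2 ^ 2) / 2)) * exp |s.1 * s.2 * ρ|)) := by ring
    _ ≤ _ := mul_le_mul_of_nonneg_left h5 h6
    _ = 3 * ρ ^ 6 * ((s.1 ^ 6 + s.1 ^ 8) * exp (-((1 - |ρ|) * s.1 ^ 2 / 2)) *
        ((s.2 ^ 6 + s.2 ^ 8) * exp (-((1 - |ρ|) * s.2 ^ 2 / 2)))) := by ring
    _ ≤ _ := mul_le_mul_of_nonneg_left h4 (by positivity)
    _ = _ := by ring

theorem kint_cont : Continuous fun q : ℝ × (ℝ × ℝ) => kint q.1 q.2 := by unfold kint; fun_prop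

theorem kint_cont' (ρ : ℝ) : Continuous (kint ρ) := by unfold kint; fun_prop

theorem kint_nonneg (ρ : ℝ) (s : ℝ × ℝ) : 0 ≤ kint ρ s := by
  have h1 := cosh_pos (s.1 * s.2 * ρ)
  have h2 : 0 ≤ s.1 * s.2 * ρ * sinh (s.1 * s.2 * ρ) := by
    rcases le_total 0 (s.1 * s.2 * ρ) with h | h
    · exact mul_nonneg h (sinh_nonneg_iff.2 h)
    · exact mul_nonneg_of_nonpos_of_nonpos h (sinh_nonpos_iff.2 h)
  unfold kint
  positivity

end Ker

open Ker in
theorem ker : KerStmt := by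
  have i0 := (int_mo 0).add (int_mo 2)
  have i2 := ((int_mo 2).const_mul (5 / 2)).add ((int_mo 4).const_mul (1 / 2))
  have i4 := ((int_mo 4).const_mul (17 / 24)).add ((int_mo 6).const_mul (1 / 24))
  have ip : ∀ ρ, Integrable (pol ρ) := fun ρ => (i0.add (i2.mul_const _)).add (i4.mul_const _)
  have ib : ∀ ρ : ℝ, |ρ| < 1 → Integrable fun s : ℝ × ℝ =>
      3 * ρ ^ 6 * (6528 / (1 - |ρ|) ^ 4) ^ 2 *
        (exp (-((1 - |ρ|) / 4) * s.1 ^ 2) * exp (-((1 - |ρ|) / 4) * s.2 ^ 2)) := fun ρ hρ =>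
    ((integrable_exp_neg_mul_sq (b := (1 - |ρ|) / 4) (by linarith)).mul_prod
      (integrable_exp_neg_mul_sq (b := (1 - |ρ|) / 4) (by linarith))).const_mul _
  have ir : ∀ ρ : ℝ, |ρ| < 1 → Integrable fun s => kint ρ s - pol ρ s := fun ρ hρ =>
    (ib ρ hρ).mono' ((kint_cont' ρ).aestronglyMeasurable.sub (ip ρ).1)
      (Eventually.of_forall (rem_le hρ))
  have ik : ∀ ρ : ℝ, |ρ| < 1 → Integrable (kint ρ) := fun ρ hρ =>
    ((ir ρ hρ).add (ip ρ)).congr (Eventually.of_forall fun s => by simp)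
  refine ⟨(kint_cont.stronglyMeasurable.integral_prod_right').measurable.const_mul _, ik,
    (2 * π)⁻¹ * ∫ s, (mo 0 s + mo 2 s), (2 * π)⁻¹ * ∫ s, (5 / 2 * mo 2 s + 1 / 2 * mo 4 s),
    (2 * π)⁻¹ * ∫ s, (17 / 24 * mo 4 s + 1 / 24 * mo 6 s), 6 * 6528 ^ 2, fun ρ hρ => ?_⟩
  have h0 : 0 < 1 - |ρ| := by linarith
  have e1 : ∫ s, pol ρ s = (∫ s, (mo 0 s + mo 2 s)) +
      (∫ s, (5 / 2 * mo 2 s + 1 / 2 * mo 4 s)) * ρ ^ 2 +
      (∫ s, (17 / 24 * mo 4 s + 1 / 24 * mo 6 s)) * ρ ^ 4 := by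
    rw [← integral_mul_const, ← integral_mul_const]
    exact (integral_add (i0.add (i2.mul_const _)) (i4.mul_const _)).trans
      (congrArg (· + _) (integral_add i0 (i2.mul_const _)))
  have e2 := integral_sub (ik ρ hρ) (ip ρ)
  have h1 := norm_integral_le_of_norm_le (f := fun s => kint ρ s - pol ρ s) (ib ρ hρ)
    (Eventually.of_forall (rem_le hρ))
  have e3 := integral_prod_mul (μ := (volume : Measure ℝ)) (ν := (volume : Measure ℝ))
    (fun s : ℝ => exp (-((1 - |ρ|) / 4) * s ^ 2)) fun s : ℝ => exp (-((1 - |ρ|) / 4) * s ^ 2)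
  rw [integral_gaussian, mul_self_sqrt (by positivity), ← Measure.volume_eq_prod] at e3
  rw [integral_const_mul, e3, e2, e1, Real.norm_eq_abs] at h1
  have hp : 0 < (2 * π)⁻¹ := by positivity
  have h2 := mul_le_mul_of_nonneg_left h1 hp.le
  rw [← abs_of_pos hp, ← abs_mul, abs_of_pos hp] at h2
  refine le_trans (le_of_eq ?_) (h2.trans (le_of_eq ?_))
  · rw [kk]; congr 1; ring
  · have := pi_pos
    field_simp
    ring

namespace Ker

theorem scale2 {F : ℝ × ℝ → ℝ} (hF : Continuous F) {a b : ℝ} (ha : 0 < a) (hb : 0 < b) :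
    ∫ s : ℝ × ℝ, F (a * s.1, b * s.2) = (a * b)⁻¹ * ∫ s, F s := by
  have h := Measure.map_prod_map (volume : Measure ℝ) (volume : Measure ℝ)
    (measurable_const_mul a) (measurable_const_mul b)
  rw [Real.map_volume_mul_left ha.ne', Real.map_volume_mul_left hb.ne', Measure.prod_smul_left,
    Measure.prod_smul_right] at h
  have h2 := integral_map (μ := (volume : Measure ℝ).prod (volume : Measure ℝ))
    (φ := Prod.map (fun x => a * x) fun x => b * x) (by fun_prop) hF.aestronglyMeasurable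
  rw [← h, integral_smul_measure, integral_smul_measure, ENNReal.toReal_ofReal (abs_nonneg _),
    ENNReal.toReal_ofReal (abs_nonneg _), abs_of_pos (inv_pos.2 ha), abs_of_pos (inv_pos.2 hb),
    smul_eq_mul, smul_eq_mul] at h2
  rw [Measure.volume_eq_prod, mul_inv, mul_assoc, h2]
  rfl

variable {n : ℕ}

theorem Kd_scale (δ : ℝ) {x y : Eu n} (hx : x ≠ 0) (hy : y ≠ 0) :
    Kd δ x y = (‖x‖ * ‖y‖)⁻¹ * ((2 * π)⁻¹ * ∫ t : ℝ × ℝ,
      exp (-(δ ^ 2 * ((t.1 / ‖x‖) ^ 2 + (t.2 / ‖y‖) ^ 2) / 2)) * kint (cs x y) t) := by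
  have h1 := norm_pos_iff.2 hx
  have h2 := norm_pos_iff.2 hy
  have hk := kint_cont' (cs x y)
  rw [mul_left_comm, ← scale2 (by fun_prop) h1 h2, Kd]
  congr 1
  refine integral_congr_ae (Eventually.of_forall fun s => ?_)
  have e1 : ‖s.1 • x‖ ^ 2 = (‖x‖ * s.1) ^ 2 := by
    rw [norm_smul, mul_pow, mul_pow, Real.norm_eq_abs, sq_abs, mul_comm]
  have e2 : ‖s.2 • y‖ ^ 2 = (‖y‖ * s.2) ^ 2 := by
    rw [norm_smul, mul_pow, mul_pow, Real.norm_eq_abs, sq_abs, mul_comm]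
  have e3 : ⟪s.1 • x, s.2 • y⟫ = ‖x‖ * s.1 * (‖y‖ * s.2) * cs x y := by
    rw [real_inner_smul_left, real_inner_smul_right, cs]; field_simp
  simp only [KK, kint, e1, e2, e3, mul_div_cancel_left₀ _ h1.ne', mul_div_cancel_left₀ _ h2.ne']

theorem Kd_meas (δ : ℝ) : Measurable fun z : Eu n × Eu n => Kd δ z.1 z.2 := by
  have : Continuous fun q : (Eu n × Eu n) × (ℝ × ℝ) =>
      exp (-(δ ^ 2 * (q.2.1 ^ 2 + q.2.2 ^ 2) / 2)) * KK (q.2.1 • q.1.1) (q.2.2 • q.1.2) := by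
    unfold KK; fun_prop
  exact (this.stronglyMeasurable.integral_prod_right').measurable.const_mul _

theorem inner_lim {ρ : ℝ} (hρ : |ρ| < 1) {q : ℝ × ℝ → ℝ} (hq : Continuous q)
    (h0 : ∀ t, 0 ≤ q t) :
    (∀ δ : ℝ, |(2 * π)⁻¹ * ∫ t, exp (-(δ ^ 2 * q t / 2)) * kint ρ t| ≤ |kk ρ|) ∧
    Tendsto (fun δ : ℝ => (2 * π)⁻¹ * ∫ t, exp (-(δ ^ 2 * q t / 2)) * kint ρ t) (𝓝[>] 0)
      (𝓝 (kk ρ)) := by
  have hi := ker.2.1 ρ hρ
  have hk := kint_cont' ρ
  have hb : ∀ δ : ℝ, ∀ t, ‖exp (-(δ ^ 2 * q t / 2)) * kint ρ t‖ ≤ kint ρ t := fun δ t => by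
    have := h0 t
    rw [Real.norm_of_nonneg (mul_nonneg (exp_pos _).le (kint_nonneg _ _))]
    exact mul_le_of_le_one_left (kint_nonneg _ _) (exp_le_one_iff.2 (neg_nonpos.2 (by positivity)))
  refine ⟨fun δ => ?_, Tendsto.const_mul _ ?_⟩
  · rw [kk, abs_mul, abs_mul]
    exact mul_le_mul_of_nonneg_left ((norm_integral_le_of_norm_le hi
      (Eventually.of_forall (hb δ))).trans (le_abs_self _)) (abs_nonneg _)
  · refine tendsto_integral_filter_of_dominated_convergence (kint ρ)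
      (Eventually.of_forall fun δ => Continuous.aestronglyMeasurable (by fun_prop))
      (Eventually.of_forall fun δ => Eventually.of_forall (hb δ)) hi
      (Eventually.of_forall fun t => ?_)
    have : Continuous fun δ : ℝ => exp (-(δ ^ 2 * q t / 2)) * kint ρ t := by fun_prop
    simpa using (this.tendsto 0).mono_left nhdsWithin_le_nhds

end Ker

open Ker in
theorem two (hA : TwoAStmt) : TwoStmt := by
  intro n hn V hV hi hcs hq
  refine ⟨fun δ hδ => (hA n V δ hV hi hδ).1, ?_⟩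
  have h1 : ∀ᵐ z ∂(gam n).prod (gam n), z.1 ≠ 0 :=
    Measure.quasiMeasurePreserving_fst.ae (ae_ne_zero hn _)
  have h2 : ∀ᵐ z ∂(gam n).prod (gam n), z.2 ≠ 0 :=
    Measure.quasiMeasurePreserving_snd.ae (ae_ne_zero hn _)
  have key : Tendsto (fun δ => ∫ z, V z.1 * V z.2 * Kd δ z.1 z.2 ∂(gam n).prod (gam n)) (𝓝[>] 0)
      (𝓝 (∫ z, qi kk V z ∂(gam n).prod (gam n))) := by
    refine tendsto_integral_filter_of_dominated_convergence (fun z => ‖qi kk V z‖)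
      (Eventually.of_forall fun δ => (((hV.comp measurable_fst).mul
        (hV.comp measurable_snd)).mul (Kd_meas δ)).aestronglyMeasurable)
      (Eventually.of_forall fun δ => ?_) hq.norm ?_
    · filter_upwards [h1, h2, hcs] with z a1 a2 a3
      have := (inner_lim a3 (q := fun t => (t.1 / ‖z.1‖) ^ 2 + (t.2 / ‖z.2‖) ^ 2) (by fun_prop)
        fun t => by positivity).1 δ
      rw [Kd_scale δ a1 a2, qi, ← mul_assoc, ← div_eq_mul_inv, norm_mul, norm_mul _ (kk _)]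
      exact mul_le_mul_of_nonneg_left this (norm_nonneg _)
    · filter_upwards [h1, h2, hcs] with z a1 a2 a3
      have := (inner_lim a3 (q := fun t => (t.1 / ‖z.1‖) ^ 2 + (t.2 / ‖z.2‖) ^ 2) (by fun_prop)
        fun t => by positivity).2
      simp only [Kd_scale _ a1 a2, qi, ← mul_assoc (V z.1 * V z.2), ← div_eq_mul_inv]
      exact this.const_mul _
  refine (key.const_mul ((n : ℝ) ^ 3)).congr' ?_
  filter_upwards [self_mem_nhdsWithin] with δ hδ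
  rw [(hA n V δ hV hi hδ).2]

end Pool.Agent.MP_2a44fd_gt.hd

end MrgPart4

-- marker of a merged file
example : 731051 + 511272 = 731051 + 511272 := rfl
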