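import Pool.Agent.MP_2a44fd_gt.hd.Lim

/-!
PROJECT BP5HD: module PACK.
-/

set_option autoImplicit false

open MeasureTheory Real Set Filter Topology
open scoped RealInnerProductSpace ENNReal

namespace Pool.Agent.MP_2a44fd_gt.hd

namespace PackM

variable {n : ℕ}

theorem gam_nonneg (V : Eu n → ℝ) (δ : ℝ) (ξ : Eu n) : 0 ≤ Gam V δ ξ := by
  unfold Gam; positivity

theorem meas_int {k : Eu n × Eu n → ℝ} (hk : Measurable k) :
    Measurable fun ξ => ∫ x, k (ξ, x) ∂gam n :=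
  (hk.stronglyMeasurable.integral_prod_right' (ν := gam n)).measurable

theorem meas_be0 {V : Eu n → ℝ} (hV : Measurable V) (δ : ℝ) : Measurable (be0 V δ) :=
  (meas_int (k := fun z => V z.2 * gk δ ⟪z.2, z.1⟫)
    ((hV.comp measurable_snd).mul (Continuous.measurable (by fun_prop)))).const_mul _

theorem meas_be1 {V : Eu n → ℝ} (hV : Measurable V) (δ : ℝ) (i : Fin n) :
    Measurable fun ξ => be1 V δ ξ i :=
  (meas_int (k := fun z => V z.2 * (gk1 δ ⟪z.2, z.1⟫ * z.2 i))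
    ((hV.comp measurable_snd).mul (Continuous.measurable (by fun_prop)))).const_mul _

theorem meas_be2 {V : Eu n → ℝ} (hV : Measurable V) (δ : ℝ) (i j : Fin n) :
    Measurable fun ξ => be2 V δ ξ i j :=
  (meas_int (k := fun z => V z.2 * (gk2 δ ⟪z.2, z.1⟫ * (z.2 i * z.2 j)))
    ((hV.comp measurable_snd).mul (Continuous.measurable (by fun_prop)))).const_mul _

theorem meas_Gam {V : Eu n → ℝ} (hV : Measurable V) (δ : ℝ) : Measurable (Gam V δ) := by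
  have h0 := meas_be0 hV δ
  have h1 := meas_be1 hV δ
  have h2 := meas_be2 hV δ
  unfold Gam
  refine (((h0.pow_const 2).add ?_).add ?_).add (Measurable.pow_const ?_ 2)
  · exact Finset.measurable_fun_sum _ fun i _ => (h1 i).pow_const 2
  · exact Finset.measurable_fun_sum _ fun i _ =>
      Finset.measurable_fun_sum _ fun j _ => (h2 i j).pow_const 2
  · exact Finset.measurable_fun_sum _ fun i _ => h2 i i

theorem be0_smul (V : Eu n → ℝ) {s : ℝ} (hs : 0 < s) (δ : ℝ) (ξ : Eu n) :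
    be0 V δ (s • ξ) = s⁻¹ * be0 V (δ / s) ξ := by
  simp only [be0, real_inner_smul_right, gk_scale hs]
  rw [mul_left_comm, ← integral_const_mul s⁻¹]
  congr 2; funext x; ring

theorem be1_smul (V : Eu n → ℝ) {s : ℝ} (hs : 0 < s) (δ : ℝ) (ξ : Eu n) (i : Fin n) :
    be1 V δ (s • ξ) i = s⁻¹ ^ 2 * be1 V (δ / s) ξ i := by
  simp only [be1, real_inner_smul_right, gk1_scale hs]
  rw [mul_left_comm, ← integral_const_mul (s⁻¹ ^ 2)]
  congr 2; funext x; ring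

theorem be2_smul (V : Eu n → ℝ) {s : ℝ} (hs : 0 < s) (δ : ℝ) (ξ : Eu n) (i j : Fin n) :
    be2 V δ (s • ξ) i j = s⁻¹ ^ 3 * be2 V (δ / s) ξ i j := by
  simp only [be2, real_inner_smul_right, gk2_scale hs]
  rw [mul_left_comm, ← integral_const_mul (s⁻¹ ^ 3)]
  congr 2; funext x; ring

theorem sq_mul_le {a : ℝ} (h0 : 0 ≤ a) (h1 : a ≤ 1) (x : ℝ) : (a * x) ^ 2 ≤ x ^ 2 := by
  rw [mul_pow]
  exact mul_le_of_le_one_left (sq_nonneg x) (pow_le_one₀ h0 h1)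

theorem Gam_smul (V : Eu n → ℝ) {s : ℝ} (hs : 1 ≤ s) (δ : ℝ) (ξ : Eu n) :
    Gam V δ (s • ξ) ≤ Gam V (δ / s) ξ := by
  have h0 : 0 < s := by linarith
  have h1 : 0 ≤ s⁻¹ := by positivity
  have h2 : s⁻¹ ≤ 1 := inv_le_one_of_one_le₀ hs
  simp only [Gam, be0_smul V h0, be1_smul V h0, be2_smul V h0, ← Finset.mul_sum]
  refine add_le_add (add_le_add (add_le_add (sq_mul_le h1 h2 _) ?_) ?_)
    (sq_mul_le (by positivity) (pow_le_one₀ h1 h2) _)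
  · exact Finset.sum_le_sum fun i _ => sq_mul_le (by positivity) (pow_le_one₀ h1 h2) _
  · exact Finset.sum_le_sum fun i _ => Finset.sum_le_sum fun j _ =>
      sq_mul_le (by positivity) (pow_le_one₀ h1 h2) _

theorem poly_le (hn : 1 ≤ n) {δ : ℝ} (h0 : 0 < δ) (h1 : δ ≤ 1) {t : ℝ} (ht : 0 ≤ t) :
    (t + δ ^ 2 + n) ^ 3 ≤ 1728 * (n : ℝ) ^ 3 * exp (1 / ((n : ℝ) + 1) * t / 2) := by
  have hn' : (1 : ℝ) ≤ n := by exact_mod_cast hn
  have hd : δ ^ 2 ≤ 1 := pow_le_one₀ h0.le h1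
  obtain ⟨u, hu⟩ : ∃ u, u = 1 / ((n : ℝ) + 1) * t := ⟨_, rfl⟩
  have hu0 : 0 ≤ u := by rw [hu]; positivity
  have htu : t = (n + 1) * u := by rw [hu]; field_simp
  have h2 := add_one_le_exp (u / 6)
  have h3 : t + δ ^ 2 + n ≤ 12 * n * exp (u / 6) := by
    have h4 : t + δ ^ 2 + n ≤ (n + 1) * (u + 1) := by rw [htu]; nlinarith
    have h5 : u + 1 ≤ 6 * exp (u / 6) := by linarith
    have h6 : ((n : ℝ) + 1) * (u + 1) ≤ (2 * n) * (6 * exp (u / 6)) :=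
      mul_le_mul (by linarith) h5 (by positivity) (by positivity)
    linarith
  refine (pow_le_pow_left₀ (by positivity) h3 3).trans (le_of_eq ?_)
  rw [← hu, mul_pow, mul_pow, ← exp_nat_mul]
  norm_num
  left
  ring_nf

/-- The weighted integral of `Gam` is controlled by the unweighted one. -/
theorem weight (hn : 1 ≤ n) : ∃ s : ℝ, 1 ≤ s ∧ ∀ (V : Eu n → ℝ) (δ : ℝ), Measurable V → 0 < δ →
    δ ≤ 1 → Integrable (Gam V (δ / s)) (gam n) →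
    Integrable (fun ξ => (‖ξ‖ ^ 2 + δ ^ 2 + n) ^ 3 * Gam V δ ξ) (gam n) ∧
      ∫ ξ, (‖ξ‖ ^ 2 + δ ^ 2 + n) ^ 3 * Gam V δ ξ ∂gam n ≤
        3456 * ((n : ℝ) ^ 3 * ∫ ξ, Gam V (δ / s) ξ ∂gam n) := by
  have hn' : (1 : ℝ) ≤ n := by exact_mod_cast hn
  obtain ⟨s, hs⟩ : ∃ s : ℝ, s = √(1 + 1 / n) := ⟨_, rfl⟩
  have hs1 : 1 ≤ s := by rw [hs]; exact one_le_sqrt.2 (le_add_of_nonneg_right (by positivity))
  have hs0 : 0 < s := by linarith
  have hs2 : s ^ 2 = 1 + 1 / n := by rw [hs]; exact sq_sqrt (by positivity)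
  have hc : 0 < s⁻¹ := by positivity
  have hc2 : 1 - s⁻¹ ^ 2 = 1 / ((n : ℝ) + 1) := by
    rw [inv_pow, hs2]; field_simp; ring
  have hsn : s ^ n ≤ 2 := by
    have h1 : (s ^ n) ^ 2 ≤ exp 1 := by
      rw [← pow_mul, mul_comm, pow_mul, hs2]
      have h2 := pow_le_pow_left₀ (by positivity) (add_one_le_exp (1 / (n : ℝ))) n
      rw [← exp_nat_mul, mul_one_div_cancel (by positivity), add_comm] at h2
      exact h2
    have h3 := exp_one_lt_d9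
    nlinarith [pow_pos hs0 n]
  refine ⟨s, hs1, fun V δ hV h0 h1 hi => ?_⟩
  have hm := meas_Gam hV δ
  have i1 : Integrable (fun ξ => Gam V δ (s⁻¹⁻¹ • ξ)) (gam n) := by
    rw [inv_inv]
    refine hi.mono' (hm.comp (measurable_const_smul s)).aestronglyMeasurable
      (Eventually.of_forall fun ξ => ?_)
    rw [Real.norm_of_nonneg (gam_nonneg _ _ _)]
    exact Gam_smul V hs1 δ ξ
  have i2 := (nrm_norm.integrable_scale hc (Gam V δ)).2 i1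
  have e2 := nrm_norm.integral_scale hc (Gam V δ)
  rw [hc2] at i2 e2
  have hb : ∀ ξ : Eu n, (‖ξ‖ ^ 2 + δ ^ 2 + n) ^ 3 * Gam V δ ξ ≤
      1728 * (n : ℝ) ^ 3 * (exp (1 / ((n : ℝ) + 1) * ‖ξ‖ ^ 2 / 2) * Gam V δ ξ) := fun ξ => by
    rw [← mul_assoc]
    exact mul_le_mul_of_nonneg_right (poly_le hn h0 h1 (sq_nonneg _)) (gam_nonneg _ _ _)
  have i3 : Integrable (fun ξ => (‖ξ‖ ^ 2 + δ ^ 2 + n) ^ 3 * Gam V δ ξ) (gam n) := by
    refine (i2.const_mul (1728 * (n : ℝ) ^ 3)).mono'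
      ((Continuous.measurable (by fun_prop)).mul hm).aestronglyMeasurable
      (Eventually.of_forall fun ξ => ?_)
    rw [Real.norm_of_nonneg (mul_nonneg (by positivity) (gam_nonneg _ _ _))]
    exact hb ξ
  refine ⟨i3, (integral_mono i3 (i2.const_mul (1728 * (n : ℝ) ^ 3)) hb).trans ?_⟩
  have e3 : ∫ ξ, exp (1 / ((n : ℝ) + 1) * ‖ξ‖ ^ 2 / 2) * Gam V δ ξ ∂gam n =
      s ^ n * ∫ ξ, Gam V δ (s • ξ) ∂gam n := by
    rw [inv_inv, inv_pow, inv_inv] at e2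
    exact e2
  have h4 : ∫ ξ, Gam V δ (s • ξ) ∂gam n ≤ ∫ ξ, Gam V (δ / s) ξ ∂gam n := by
    rw [inv_inv] at i1
    exact integral_mono i1 hi fun ξ => Gam_smul V hs1 δ ξ
  have h5 : 0 ≤ ∫ ξ, Gam V δ (s • ξ) ∂gam n := integral_nonneg fun ξ => gam_nonneg _ _ _
  have h6 : s ^ n * ∫ ξ, Gam V δ (s • ξ) ∂gam n ≤ 2 * ∫ ξ, Gam V (δ / s) ξ ∂gam n :=
    mul_le_mul hsn h4 h5 (by norm_num)
  rw [integral_const_mul, e3]
  have h7 := mul_le_mul_of_nonneg_left h6 (show 0 ≤ 1728 * (n : ℝ) ^ 3 by positivity)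
  linarith

theorem abs_le_of_sq {a G : ℝ} (hG : 0 ≤ G) (h : a ^ 2 ≤ G) : |a| ≤ 1 + G := by
  refine abs_le_of_sq_le_sq' ?_ (by positivity) |> fun h => abs_le.2 h
  nlinarith

theorem diag_le (M : Matrix (Fin n) (Fin n) ℝ) (i : Fin n) : (M i i - 1) ^ 2 ≤ hs M := by
  have h1 : (M - 1) i i ^ 2 ≤ ∑ j, (M - 1) i j ^ 2 :=
    Finset.single_le_sum (f := fun j => (M - 1) i j ^ 2) (fun j _ => sq_nonneg _)
      (Finset.mem_univ i)
  have h2 : ∑ j, (M - 1) i j ^ 2 ≤ hs M :=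
    Finset.single_le_sum (f := fun i => ∑ j, (M - 1) i j ^ 2)
      (fun i _ => Finset.sum_nonneg fun j _ => sq_nonneg _) (Finset.mem_univ i)
  simpa using h1.trans h2

/-- Stein's identity for a vector field. -/
theorem stein_tr (hS : SteinStmt) {y : Eu n → Eu n} {H : Eu n → Matrix (Fin n) (Fin n) ℝ}
    {G : Eu n → ℝ} (cH : ∀ i j, Continuous fun ξ => H ξ i j)
    (der : ∀ ξ, HasFDerivAt y (mc (H ξ)) ξ) (iG : Integrable G (gam n)) (G0 : ∀ ξ, 0 ≤ G ξ)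
    (b1 : ∀ ξ, ‖y ξ - ξ‖ ^ 2 ≤ G ξ) (b2 : ∀ ξ, hs (H ξ) ≤ 2 * G ξ + 2 * G ξ ^ 2) :
    Integrable (fun ξ => (H ξ).trace) (gam n) ∧ Integrable (fun ξ => ⟪ξ, y ξ⟫) (gam n) ∧
      ∫ ξ, (H ξ).trace ∂gam n = ∫ ξ, ⟪ξ, y ξ⟫ ∂gam n := by
  have cy : Continuous y := continuous_iff_continuousAt.2 fun ξ => (der ξ).continuousAt
  have n2 : Integrable (fun ξ : Eu n => ‖ξ‖ ^ 2) (gam n) := nrm_norm.int_norm_pow 2
  have hy : ∀ ξ, ‖y ξ‖ ≤ ‖ξ‖ + ‖y ξ - ξ‖ := fun ξ => by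
    simpa using norm_add_le ξ (y ξ - ξ)
  have i1 : ∀ i, Integrable (fun ξ => y ξ i) (gam n) := fun i => by
    refine ((n2.add iG).add (integrable_const 1)).mono' (by fun_prop)
      (Eventually.of_forall fun ξ => ?_)
    have h1 := abs_coord_le (y ξ) i
    have h2 := hy ξ
    have h3 := b1 ξ
    simp only [Real.norm_eq_abs, Pi.add_apply]
    nlinarith [sq_nonneg (‖ξ‖ - 1 / 2), sq_nonneg (‖y ξ - ξ‖ - 1 / 2)]
  have i2 : ∀ i, Integrable (fun ξ : Eu n => ξ i * y ξ i) (gam n) := fun i => by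
    refine ((n2.const_mul 2).add iG).mono' (by fun_prop) (Eventually.of_forall fun ξ => ?_)
    have h1 := (abs_coord_le (y ξ) i).trans (hy ξ)
    have h2 := mul_le_mul (abs_coord_le ξ i) h1 (abs_nonneg _) (norm_nonneg _)
    have h3 := b1 ξ
    simp only [Real.norm_eq_abs, Pi.add_apply, abs_mul]
    nlinarith [sq_nonneg (‖ξ‖ - ‖y ξ - ξ‖), sq_nonneg ‖ξ‖, sq_nonneg ‖y ξ - ξ‖]
  have i3 : ∀ i, Integrable (fun ξ => H ξ i i) (gam n) := fun i => by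
    refine ((iG.const_mul 2).add (integrable_const 2)).mono' (cH i i).aestronglyMeasurable
      (Eventually.of_forall fun ξ => ?_)
    have h1 := (diag_le (H ξ) i).trans (b2 ξ)
    have h2 := G0 ξ
    have h3 : |H ξ i i - 1| ≤ 1 + 2 * G ξ :=
      abs_le.2 (abs_le_of_sq_le_sq' (by nlinarith) (by positivity))
    simp only [Real.norm_eq_abs, Pi.add_apply]
    rw [abs_le] at h3 ⊢
    constructor <;> linarith [h3.1, h3.2]
  have e1 : ∀ i, ∫ ξ, H ξ i i ∂gam n = ∫ ξ, ξ i * y ξ i ∂gam n := fun i => by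
    have a1 : ∀ ξ : Eu n, ⟪ξ, EuclideanSpace.single i (1 : ℝ)⟫ = ξ i := fun ξ => by
      simp [EuclideanSpace.inner_single_right]
    have a2 : ∀ ξ : Eu n, ((EuclideanSpace.proj i : Eu n →L[ℝ] ℝ).comp (mc (H ξ)))
        (EuclideanSpace.single i (1 : ℝ)) = H ξ i i := fun ξ => by
      change mc (H ξ) (EuclideanSpace.single i (1 : ℝ)) i = _
      rw [mc_apply]
      simp
    have := hS n (fun ξ => y ξ i)
      (fun ξ => (EuclideanSpace.proj i : Eu n →L[ℝ] ℝ).comp (mc (H ξ)))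
      (EuclideanSpace.single i (1 : ℝ))
      (fun ξ => (EuclideanSpace.proj i : Eu n →L[ℝ] ℝ).hasFDerivAt.comp ξ (der ξ)) (i1 i)
      (by simpa only [a1] using i2 i) (by simpa only [a2] using i3 i)
    simpa only [a1, a2] using this
  simp only [Matrix.trace, Matrix.diag, inner_eq_sum]
  refine ⟨integrable_finsetSum _ fun i _ => i3 i, integrable_finsetSum _ fun i _ => i2 i, ?_⟩
  rw [integral_finsetSum _ fun i _ => i3 i, integral_finsetSum _ fun i _ => i2 i]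
  exact Finset.sum_congr rfl fun i _ => e1 i

theorem int_norm_sq (hS : SteinStmt) : ∫ ξ : Eu n, ‖ξ‖ ^ 2 ∂gam n = n := by
  have hm : mc (1 : Matrix (Fin n) (Fin n) ℝ) = ContinuousLinearMap.id ℝ (Eu n) := by
    ext v i
    rw [mc_apply]
    simp [Matrix.one_apply]
  have := (stein_tr hS (y := fun ξ => ξ) (H := fun _ => 1) (G := fun _ => 0)
    (fun i j => continuous_const) (fun ξ => by rw [hm]; exact hasFDerivAt_id ξ)
    (integrable_const _) (fun _ => le_rfl) (fun ξ => by simp) (fun ξ => by simp [hs])).2.2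
  simp only [real_inner_self_eq_norm_sq] at this
  rw [← this]
  simp

theorem Hm_symm (p : Eu n → ℝ) (b δ : ℝ) (ξ : Eu n) (i j : Fin n) :
    Hm p b δ ξ i j = Hm p b δ ξ j i := by
  simp only [Hm, A2, Matrix.of_apply]
  rw [mul_comm (A1 p δ ξ i)]
  congr 3
  funext x
  ring

/-- The construction for one value of `δ`. -/
theorem core (hG : GeoStmt) (hS : SteinStmt) {Λ b δ : ℝ} {p h : Eu n → ℝ} (hΛ : 1 ≤ Λ)
    (hR : Reg Λ p h b) (h0 : 0 < δ) (h1 : δ ≤ 1) {G B : Eu n → ℝ} (mG : Measurable G)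
    (iG : Integrable G (gam n)) (G0 : ∀ ξ, 0 ≤ G ξ) (iB : Integrable B (gam n))
    (c0 : ∀ ξ, (Ph p b δ ξ - (‖ξ‖ ^ 2 + δ ^ 2) / 2) ^ 2 ≤ G ξ)
    (c1 : ∀ ξ, ‖Yv p b δ ξ - ξ‖ ^ 2 ≤ G ξ)
    (c2 : ∀ ξ, hs (Hm p b δ ξ) ≤ 2 * G ξ + 2 * G ξ ^ 2)
    (c3 : ∀ ξ, |(Hm p b δ ξ).trace - n| ≤ √(G ξ) + G ξ)
    (c4 : ∀ ξ, -B ξ ≤ Ph p b δ ξ - (‖ξ‖ ^ 2 + δ ^ 2) / 2)
    (c5 : ∀ ξ, Ph p b δ ξ - (‖ξ‖ ^ 2 + δ ^ 2) / 2 ≤ -B ξ + G ξ) :
    Pack p (Ph p b δ) (Yv p b δ) (Hm p b δ) (fun ξ => 2 * G ξ + δ ^ 4) ∧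
    ∫ ξ, (2 * G ξ + δ ^ 4) ∂gam n = 2 * ∫ ξ, G ξ ∂gam n + δ ^ 4 ∧
    -(∫ ξ, B ξ ∂gam n) - 3 * Λ ^ 2 * (n + 2) * δ ≤
      ∫ ξ, ((Hm p b δ ξ).trace - n - (Ph p b δ ξ - ‖ξ‖ ^ 2 / 2)) ∂gam n ∧
    ∫ ξ, (Ph p b δ ξ - (‖ξ‖ ^ 2 + δ ^ 2) / 2) ^ 2 ∂gam n ≤ ∫ ξ, G ξ ∂gam n ∧
    ∫ ξ, (Ph p b δ ξ - (‖ξ‖ ^ 2 + δ ^ 2) / 2) ∂gam n ≤
      -(∫ ξ, B ξ ∂gam n) + ∫ ξ, G ξ ∂gam n := by
  obtain ⟨g1, g2, g3, g4, g5, g6⟩ := hG n p h b δ hR.cmp.bp h0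
  have hb := hR.cmp.bp.bpos
  have hp := hR.cmp.bp.nrm
  have d4 : 0 ≤ δ ^ 4 := by positivity
  have n2 : Integrable (fun ξ : Eu n => ‖ξ‖ ^ 2) (gam n) := nrm_norm.int_norm_pow 2
  have iP : Integrable (fun ξ => Ph p b δ ξ - (‖ξ‖ ^ 2 + δ ^ 2) / 2) (gam n) :=
    ((integrable_const 1).add iG).mono' (by fun_prop)
      (Eventually.of_forall fun ξ => abs_le_of_sq (G0 ξ) (c0 ξ))
  have iP2 : Integrable (fun ξ => (Ph p b δ ξ - (‖ξ‖ ^ 2 + δ ^ 2) / 2) ^ 2) (gam n) :=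
    iG.mono' (by fun_prop) (Eventually.of_forall fun ξ => by
      rw [Real.norm_of_nonneg (sq_nonneg _)]; exact c0 ξ)
  obtain ⟨s1, s2, s3⟩ := stein_tr hS g2 g3 iG G0 c1 c2
  refine ⟨⟨g1, g2, g3, Hm_symm p b δ, g4, g5, (mG.const_mul 2).add_const _,
    (iG.const_mul 2).add (integrable_const _), fun ξ => ?_, fun ξ => ?_, fun ξ => ?_, fun ξ => ?_,
    fun ξ => ?_⟩, ?_, ?_, integral_mono iP2 iG c0, ?_⟩
  · have := G0 ξ; positivity
  · have := c0 ξ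
    nlinarith [sq_nonneg (Ph p b δ ξ - (‖ξ‖ ^ 2 + δ ^ 2) / 2 - δ ^ 2 / 2)]
  · have := c1 ξ; have := G0 ξ; linarith
  · have h2 := c2 ξ
    have h3 := G0 ξ
    have h4 : G ξ ^ 2 ≤ (2 * G ξ + δ ^ 4) ^ 2 := pow_le_pow_left₀ h3 (by linarith) 2
    linarith
  · have h2 := c3 ξ
    have h3 := G0 ξ
    have h4 : √(G ξ) ≤ √(2 * G ξ + δ ^ 4) := sqrt_le_sqrt (by linarith)
    linarith
  · rw [integral_add (iG.const_mul 2) (integrable_const _), integral_const_mul]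
    simp
  · have iL : Integrable (fun ξ : Eu n => 3 * Λ ^ 2 * δ * (‖ξ‖ ^ 2 + 2)) (gam n) :=
      (n2.add (integrable_const 2)).const_mul _
    have iT : Integrable (fun ξ => (Hm p b δ ξ).trace - ⟪ξ, Yv p b δ ξ⟫) (gam n) := s1.sub s2
    have iN : Integrable (fun ξ : Eu n => ‖ξ‖ ^ 2 - (n : ℝ)) (gam n) := n2.sub (integrable_const _)
    have iR : Integrable
        (fun ξ => (Hm p b δ ξ).trace - n - (Ph p b δ ξ - ‖ξ‖ ^ 2 / 2)) (gam n) := by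
      refine (((s1.sub (integrable_const (n : ℝ))).sub iP).sub
        (integrable_const (δ ^ 2 / 2))).congr (Eventually.of_forall fun ξ => ?_)
      simp only [Pi.sub_apply]; ring
    have hle : ∀ ξ : Eu n, ((Hm p b δ ξ).trace - ⟪ξ, Yv p b δ ξ⟫) + (‖ξ‖ ^ 2 - n) - B ξ -
        3 * Λ ^ 2 * δ * (‖ξ‖ ^ 2 + 2) ≤
        (Hm p b δ ξ).trace - n - (Ph p b δ ξ - ‖ξ‖ ^ 2 / 2) := fun ξ => by
      have a1 := g6 ξ
      have a2 := c4 ξ
      have a3 := hR.alo δ h0 ξ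
      have a4 := hp.A0_pos h0 ξ
      have a5 : √(‖ξ‖ ^ 2 + δ ^ 2) ≤ ‖ξ‖ ^ 2 + 2 := by
        have hd : δ ^ 2 ≤ 1 := pow_le_one₀ h0.le h1
        refine sqrt_le_iff.2 ⟨by positivity, ?_⟩
        nlinarith [sq_nonneg ‖ξ‖, sq_nonneg (‖ξ‖ ^ 2)]
      have a6 : b / A0 p δ ξ ≤ Λ * (‖ξ‖ ^ 2 + 2) := by
        refine le_trans ?_ (mul_le_mul_of_nonneg_left a5 (by linarith))
        rw [div_le_iff₀ a4]
        rw [← mul_div_assoc, ← mul_div_assoc, le_div_iff₀ hb, one_mul] at a3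
        linarith [mul_assoc Λ (√(‖ξ‖ ^ 2 + δ ^ 2)) (A0 p δ ξ)]
      have a7 : √(2 * π) ≤ 3 := sqrt_le_iff.2 ⟨by norm_num, by linarith [pi_le_four]⟩
      have a8 : b * √(2 * π) * δ ≤ Λ * 3 * δ :=
        mul_le_mul_of_nonneg_right
          (mul_le_mul hR.cmp.bhi a7 (by positivity) (by linarith)) h0.le
      have a9 := mul_le_mul a6 a8 (by positivity) (by positivity)
      have a10 : Λ * (‖ξ‖ ^ 2 + 2) * (Λ * 3 * δ) = 3 * Λ ^ 2 * δ * (‖ξ‖ ^ 2 + 2) := by ring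
      have a11 := sq_nonneg δ
      linarith
    have hm := integral_mono (((iT.add iN).sub iB).sub iL) iR hle
    refine le_trans (le_of_eq ?_) hm
    have e1 : ∫ ξ, ((Hm p b δ ξ).trace - ⟪ξ, Yv p b δ ξ⟫) ∂gam n = 0 := by
      rw [integral_sub s1 s2, s3, sub_self]
    have e2 : ∫ ξ : Eu n, (‖ξ‖ ^ 2 - (n : ℝ)) ∂gam n = 0 := by
      rw [integral_sub n2 (integrable_const _), int_norm_sq hS]; simp
    have e3 : ∫ ξ : Eu n, 3 * Λ ^ 2 * δ * (‖ξ‖ ^ 2 + 2) ∂gam n = 3 * Λ ^ 2 * (n + 2) * δ := by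
      rw [integral_const_mul, integral_add n2 (integrable_const _), int_norm_sq hS]
      simp only [integral_const, probReal_univ, smul_eq_mul, one_mul]
      ring
    rw [integral_sub' ((iT.add iN).sub iB) iL, integral_sub' (iT.add iN) iB, integral_add' iT iN,
      e1, e2, e3]
    ring
  · have hm := integral_mono iP (iB.neg.add iG) c5
    rw [integral_add' iB.neg iG, integral_neg'] at hm
    exact hm

end PackM

open PackM in
theorem pack (hA : StepAStmt) (hT : TwoStmt) (hG : GeoStmt) (hC : ChainStmt) (hL : LimStmt)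
    (hS : SteinStmt) : PackStmt := by
  intro Λ hΛ
  have hΛ1 : 1 ≤ Λ := by linarith
  obtain ⟨_, nA, -, hA⟩ := hA Λ hΛ
  obtain ⟨C, hC0, hC⟩ := hC Λ hΛ1
  obtain ⟨nL, hL⟩ := hL Λ hΛ
  refine ⟨2 * (C * 3456), max 1 (max nA nL), by positivity, fun n hn p h b hSp => ?_⟩
  have hn1 : 1 ≤ n := le_trans (le_max_left _ _) hn
  have hnA : nA ≤ n := le_trans (le_trans (le_max_left _ _) (le_max_right _ _)) hn
  have hnL : nL ≤ n := le_trans (le_trans (le_max_right _ _) (le_max_right _ _)) hn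
  have hR := hSp.reg
  have hp := hR.cmp.bp.nrm
  have hV : Measurable (Vf p b) := (hp.Vf_cont b).measurable
  obtain ⟨A1', A2', -⟩ := hA n hnA p h b hSp
  obtain ⟨T1, T2⟩ := hT n hn1 (Vf p b) hV (hp.int_Vf_sq b) A1' A2'
  obtain ⟨L1, L2, L3, L4, L5, L6⟩ := hL n hnL p h b hSp
  have hN : 0 ≤ NN p b := ge_of_tendsto T2 (Eventually.of_forall fun δ =>
    mul_nonneg (by positivity) (integral_nonneg fun ξ => gam_nonneg _ _ _))
  refine ⟨hN, fun ε hε => ?_⟩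
  obtain ⟨s, hs1, hW⟩ := weight hn1
  have hs0 : 0 < s := by linarith
  have hCN : 0 ≤ C * 3456 * NN p b := by positivity
  have t0 : Tendsto (fun δ : ℝ => δ) (𝓝[>] 0) (𝓝 0) := tendsto_nhdsWithin_of_tendsto_nhds tendsto_id
  have t1 : Tendsto (fun δ : ℝ => δ / s) (𝓝[>] 0) (𝓝[>] 0) := by
    refine tendsto_nhdsWithin_iff.2 ⟨by simpa using t0.div_const s, ?_⟩
    filter_upwards [self_mem_nhdsWithin] with δ hδ
    exact div_pos hδ hs0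
  have t2 : Tendsto (fun δ : ℝ => C * 3456 * ((n : ℝ) ^ 3 * ∫ ξ, Gam (Vf p b) (δ / s) ξ ∂gam n))
      (𝓝[>] 0) (𝓝 (C * 3456 * NN p b)) := (T2.comp t1).const_mul _
  have t3 : Tendsto (fun δ : ℝ => 3 * Λ ^ 2 * (n + 2) * δ) (𝓝[>] 0) (𝓝 0) := by
    simpa using t0.const_mul (3 * Λ ^ 2 * (n + 2))
  have t4 : Tendsto (fun δ : ℝ => δ ^ 4) (𝓝[>] 0) (𝓝 0) := by simpa using t0.pow 4
  have key : ∀ᶠ δ in 𝓝[>] (0 : ℝ),
      (∃ Φ y H G, Pack p Φ y H G ∧ ∫ ξ, G ξ ∂gam n ≤ 2 * (C * 3456) * NN p b + ε ∧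
        -(2 * (C * 3456) * NN p b + ε) ≤
          ∫ ξ, ((H ξ).trace - n - (Φ ξ - ‖ξ‖ ^ 2 / 2)) ∂gam n) ∧
      ∫ ξ, (Ph p b δ ξ - (‖ξ‖ ^ 2 + δ ^ 2) / 2) ^ 2 ∂gam n ≤ 2 * (C * 3456) * NN p b + ε ∧
      ∫ ξ, (Ph p b δ ξ - (‖ξ‖ ^ 2 + δ ^ 2) / 2) ∂gam n ≤ 2 * (C * 3456) * NN p b + ε := by
    have h4 : 0 < ε / 4 := by positivity
    filter_upwards [self_mem_nhdsWithin, t0.eventually (ge_mem_nhds one_pos),
      t2.eventually (ge_mem_nhds (lt_add_of_pos_right _ h4)), t3.eventually (ge_mem_nhds h4),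
      t4.eventually (ge_mem_nhds h4), L4.eventually (ge_mem_nhds h4),
      L4.eventually (le_mem_nhds (neg_lt_zero.2 h4))] with δ h0 h1 h2 h3 h5 h6 h7
    have h0 : 0 < δ := h0
    obtain ⟨w1, w2⟩ := hW (Vf p b) δ hV h0 h1 (T1 _ (div_pos h0 hs0))
    have hr : ∀ ξ : Eu n, √(‖ξ‖ ^ 2 + δ ^ 2) ^ 2 = ‖ξ‖ ^ 2 + δ ^ 2 := fun ξ =>
      sq_sqrt (by positivity)
    have hc := fun ξ => hC n hn1 p h b δ ξ _
      (C * ((‖ξ‖ ^ 2 + δ ^ 2 + n) ^ 3 * Gam (Vf p b) δ ξ)) hR h0 rfl (by rw [hr, mul_assoc])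
    simp only [hr] at hc
    obtain ⟨k1, k2, k3, k4, k5⟩ := core hG hS hΛ1 hR h0 h1
      (G := fun ξ => C * ((‖ξ‖ ^ 2 + δ ^ 2 + n) ^ 3 * Gam (Vf p b) δ ξ))
      (((Continuous.measurable (by fun_prop)).mul (meas_Gam hV δ)).const_mul C) (w1.const_mul C)
      (fun ξ => mul_nonneg hC0.le (mul_nonneg (by positivity) (gam_nonneg _ _ _))) (L3 δ h0)
      (fun ξ => (hc ξ).1) (fun ξ => (hc ξ).2.1) (fun ξ => (hc ξ).2.2.1)
      (fun ξ => (hc ξ).2.2.2.1) (fun ξ => (hc ξ).2.2.2.2.1) (fun ξ => (hc ξ).2.2.2.2.2)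
    have w3 : ∫ ξ, C * ((‖ξ‖ ^ 2 + δ ^ 2 + n) ^ 3 * Gam (Vf p b) δ ξ) ∂gam n ≤
        C * 3456 * NN p b + ε / 4 := by
      rw [integral_const_mul]
      refine le_trans ?_ h2
      rw [mul_assoc]
      exact mul_le_mul_of_nonneg_left w2 hC0.le
    exact ⟨⟨_, _, _, _, k1, by rw [k2]; linarith, by linarith⟩, by linarith, by linarith⟩
  exact ⟨key.exists.choose_spec.1, L1, le_of_tendsto L6 (key.mono fun δ hδ => hδ.2.1), L2,
    le_of_tendsto L5 (key.mono fun δ hδ => hδ.2.2)⟩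

end Pool.Agent.MP_2a44fd_gt.hd
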