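import Mathlib.MeasureTheory.Order.Group.Lattice
import Pool.Agent.MP_2a44fd_gt.hd.Lim

-- ======== part 0: formerly Pool.Agent.MP_2a44fd_gt.hd.Lc
section MrgPart0

/-!
PROJECT BP5HD, module LC: Hensley bounds and exponential tails of one-dimensional marginals.
-/

set_option autoImplicit false

open MeasureTheory Real Set Filter Topology
open scoped RealInnerProductSpace ENNReal

namespace Pool.Agent.MP_2a44fd_gt.hd

namespace Lc

/-- An even, positive, log-concave probability density on the line. -/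
structure Dens (g : ℝ → ℝ) : Prop where
  cont : Continuous g
  pos : ∀ z, 0 < g z
  even : ∀ z, g (-z) = g z
  int : Integrable g
  one : ∫ z, g z = 1
  conc : ∀ s t l : ℝ, 0 < l → l < 1 →
    (1 - l) * log (g s) + l * log (g t) ≤ log (g ((1 - l) * s + l * t))

variable {g : ℝ → ℝ}

theorem Dens.le_zero (H : Dens g) (z : ℝ) : g z ≤ g 0 := by
  have h := H.conc z (-z) (1 / 2) (by norm_num) (by norm_num)
  rw [H.even, show (1 - 1 / 2) * z + 1 / 2 * -z = 0 by ring] at h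
  exact (log_le_log_iff (H.pos z) (H.pos 0)).1 (by linarith)

theorem Dens.mono (H : Dens g) {s t : ℝ} (h1 : -t < s) (h2 : s < t) : g t ≤ g s := by
  have ht : 0 < t := by linarith
  have h := H.conc (-t) t ((s + t) / (2 * t)) (div_pos (by linarith) (by linarith))
    ((div_lt_one (by linarith)).2 (by linarith))
  rw [H.even, show (1 - (s + t) / (2 * t)) * -t + (s + t) / (2 * t) * t = s by
    field_simp; ring] at h
  exact (log_le_log_iff (H.pos t) (H.pos s)).1 (by linarith)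

theorem int_ind (r c : ℝ) (hr : 0 ≤ r) :
    Integrable ((Ioo (-r) r).indicator fun _ : ℝ => c) ∧
      ∫ z, (Ioo (-r) r).indicator (fun _ : ℝ => c) z = 2 * r * c := by
  refine ⟨(integrable_indicator_iff measurableSet_Ioo).2 (integrableOn_const (by simp)), ?_⟩
  rw [integral_indicator measurableSet_Ioo, setIntegral_const, Real.volume_real_Ioo,
    smul_eq_mul, max_eq_left (by linarith)]
  ring

theorem Dens.half (H : Dens g) : g (1 / g 0) ≤ g 0 / 2 := by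
  have ha := H.pos 0
  have ht : 0 < 1 / g 0 := by positivity
  obtain ⟨i1, i2⟩ := int_ind (1 / g 0) (g (1 / g 0)) ht.le
  have h := integral_mono i1 H.int fun z => by
    by_cases hz : z ∈ Ioo (-(1 / g 0)) (1 / g 0)
    · rw [indicator_of_mem hz]; exact H.mono hz.1 hz.2
    · rw [indicator_of_notMem hz]; exact (H.pos z).le
  rw [i2, H.one] at h
  have e : 2 * (1 / g 0) * g (1 / g 0) = 2 * g (1 / g 0) / g 0 := by ring
  rw [e, div_le_one ha] at h
  linarith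

theorem Dens.decay (H : Dens g) (z : ℝ) : g z ≤ 2 * g 0 * exp (-(log 2 * g 0 * |z|)) := by
  have ha := H.pos 0
  have h2 : 0 < log 2 := log_pos one_lt_two
  have key : ∀ t, 0 ≤ t → log (g t) ≤ log 2 + log (g 0) - log 2 * g 0 * t := by
    intro t ht
    rcases le_or_gt (g 0 * t) 1 with h | h
    · have := log_le_log (H.pos t) (H.le_zero t)
      nlinarith
    · have ht0 : 0 < t := by
        rcases ht.eq_or_lt with rfl | h0
        · norm_num at h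
        · exact h0
      have hat : 0 < g 0 * t := by positivity
      have h3 := H.conc 0 t (1 / (g 0 * t)) (by positivity) ((div_lt_one hat).2 h)
      rw [show (1 - 1 / (g 0 * t)) * 0 + 1 / (g 0 * t) * t = 1 / g 0 by field_simp; ring] at h3
      have h4 := log_le_log (H.pos _) H.half
      rw [log_div ha.ne' two_ne_zero] at h4
      have h5 : 1 / (g 0 * t) * (log (g t) - log (g 0)) ≤ -log 2 := by linarith
      rw [one_div, inv_mul_le_iff₀ hat] at h5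
      nlinarith
  have h3 := key |z| (abs_nonneg z)
  have h4 : g |z| = g z := by
    rcases abs_cases z with h | h <;> rw [h.1]
    exact H.even z
  rw [h4] at h3
  have h5 := exp_le_exp.2 h3
  rw [exp_log (H.pos z), sub_eq_add_neg, exp_add, exp_add, exp_log two_pos, exp_log ha] at h5
  exact h5

theorem int_exp_abs {c : ℝ} (hc : 0 < c) :
    Integrable (fun z : ℝ => exp (-c * |z|)) ∧ ∫ z : ℝ, exp (-c * |z|) = 2 / c := by
  have h : ∫ z : ℝ, exp (-c * |z|) = 2 / c := by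
    rw [integral_comp_abs (f := fun x => exp (-c * x)), integral_exp_mul_Ioi (by linarith)]
    simp only [mul_zero, exp_zero]
    field_simp
  exact ⟨Integrable.of_integral_ne_zero (by rw [h]; positivity), h⟩

theorem Dens.exp_mom (H : Dens g) :
    Integrable (fun z => exp (g 0 * |z| / 2) * g z) ∧ ∫ z, exp (g 0 * |z| / 2) * g z ≤ 21 := by
  have ha := H.pos 0
  have h2 := log_two_gt_d9
  have hc : 0 < (log 2 - 1 / 2) * g 0 := mul_pos (by linarith) ha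
  obtain ⟨i1, i2⟩ := int_exp_abs hc
  have hb : ∀ z, exp (g 0 * |z| / 2) * g z ≤
      2 * g 0 * exp (-((log 2 - 1 / 2) * g 0) * |z|) := fun z => by
    refine (mul_le_mul_of_nonneg_left (H.decay z) (exp_pos _).le).trans (le_of_eq ?_)
    rw [show -((log 2 - 1 / 2) * g 0) * |z| = g 0 * |z| / 2 + -(log 2 * g 0 * |z|) by ring, exp_add]
    ring
  have hg := H.cont
  have i3 : Integrable (fun z => exp (g 0 * |z| / 2) * g z) :=
    (i1.const_mul _).mono' (by fun_prop) (Eventually.of_forall fun z => by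
      rw [Real.norm_of_nonneg (mul_pos (exp_pos _) (H.pos z)).le]; exact hb z)
  refine ⟨i3, (integral_mono i3 (i1.const_mul _) hb).trans ?_⟩
  rw [integral_const_mul, i2, show 2 * g 0 * (2 / ((log 2 - 1 / 2) * g 0)) = 4 / (log 2 - 1 / 2) by
    have : log 2 - 1 / 2 ≠ 0 := by linarith
    field_simp; ring, div_le_iff₀ (by linarith)]
  linarith

theorem sq_le_exp {u : ℝ} (hu : 0 ≤ u) : u ^ 2 ≤ 8 * exp (u / 2) := by
  have := quadratic_le_exp_of_nonneg (show 0 ≤ u / 2 by linarith)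
  nlinarith

theorem Dens.sq_mom (H : Dens g) (hi : Integrable fun z => z ^ 2 * g z) :
    1 / 32 ≤ g 0 ^ 2 * ∫ z, z ^ 2 * g z ∧ g 0 ^ 2 * ∫ z, z ^ 2 * g z ≤ 168 := by
  have ha := H.pos 0
  constructor
  · have hr : 0 < 1 / (4 * g 0) := by positivity
    set r := 1 / (4 * g 0) with hrd
    obtain ⟨i1, i2⟩ := int_ind r (g 0) hr.le
    have h := integral_mono ((H.int.sub i1).const_mul (r ^ 2)) hi fun z => by
      have := H.pos z
      simp only [Pi.sub_apply]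
      by_cases hz : z ∈ Ioo (-r) r
      · rw [indicator_of_mem hz]
        have h1 := H.le_zero z
        have h2 : 0 ≤ z ^ 2 * g z := by positivity
        nlinarith [sq_nonneg r]
      · rw [indicator_of_notMem hz, sub_zero]
        have h1 : r ^ 2 ≤ z ^ 2 := by
          rw [mem_Ioo, not_and_or, not_lt, not_lt] at hz
          rcases hz with h | h <;> nlinarith
        exact mul_le_mul_of_nonneg_right h1 this.le
    rw [integral_const_mul] at h
    simp only [Pi.sub_apply] at h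
    rw [integral_sub H.int i1, i2, H.one] at h
    refine le_trans (le_of_eq ?_) (mul_le_mul_of_nonneg_left h (sq_nonneg _))
    rw [hrd]; field_simp; norm_num
  · obtain ⟨i1, i2⟩ := H.exp_mom
    rw [← integral_const_mul]
    refine (integral_mono (hi.const_mul _) (i1.const_mul 8) fun z => ?_).trans ?_
    · have h1 := sq_le_exp (show 0 ≤ g 0 * |z| by positivity)
      rw [mul_pow, sq_abs] at h1
      have := mul_le_mul_of_nonneg_right h1 (H.pos z).le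
      simp only
      linarith
    · rw [integral_const_mul]; linarith

variable {n : ℕ} {p h : Eu n → ℝ} {b δ : ℝ}

theorem int_pow_gk (hδ : 0 < δ) (k : ℕ) : Integrable fun t => t ^ k * gk δ t := by
  refine ((int_pow_gauss1 (a := 1 / δ ^ 2) (by positivity) k).div_const (√(2 * π) * δ)).congr
    (Eventually.of_forall fun x => ?_)
  simp only [gk]; ring_nf

theorem mom1_gk (hδ : 0 < δ) : ∫ t, t * gk δ t = 0 := by
  have i1 : Integrable fun t => t * gk δ t := by simpa using int_pow_gk hδ 1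
  have e : gk1 δ = fun t => -(1 / δ ^ 2) * (t * gk δ t) := funext fun t => by rw [gk1]; ring
  have := integral_eq_zero_of_hasDerivAt_of_integrable (hasDerivAt_gk hδ)
    (by rw [e]; exact i1.const_mul _) (gk_int hδ)
  rw [e, integral_const_mul] at this
  exact (mul_eq_zero.1 this).resolve_left (neg_ne_zero.2 (by positivity))

theorem mom2_gk (hδ : 0 < δ) : ∫ t, t ^ 2 * gk δ t = δ ^ 2 := by
  have i1 : Integrable fun t => t * gk δ t := by simpa using int_pow_gk hδ 1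
  have i2 := (int_pow_gk hδ 2).const_mul (1 / δ ^ 4)
  have i0 := (gk_int hδ).const_mul (1 / δ ^ 2)
  have e1 : gk1 δ = fun t => -(1 / δ ^ 2) * (t * gk δ t) := funext fun t => by rw [gk1]; ring
  have e : gk2 δ = fun t => 1 / δ ^ 4 * (t ^ 2 * gk δ t) - 1 / δ ^ 2 * gk δ t :=
    funext fun t => by rw [gk2]; ring
  have := integral_eq_zero_of_hasDerivAt_of_integrable (hasDerivAt_gk1 hδ)
    (by rw [e]; exact i2.sub i0) (by rw [e1]; exact i1.const_mul _)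
  rw [e, integral_sub i2 i0, integral_const_mul, integral_const_mul, integral_gk hδ] at this
  field_simp at this
  linarith

theorem sq_gk (hδ : 0 < δ) (y : ℝ) : Integrable (fun z => z ^ 2 * gk δ (y - z)) ∧
    ∫ z, z ^ 2 * gk δ (y - z) = y ^ 2 + δ ^ 2 := by
  have i1 : Integrable fun t => t * gk δ t := by simpa using int_pow_gk hδ 1
  have i2 := int_pow_gk hδ 2
  have i0 := (gk_int hδ).const_mul (y ^ 2)
  have e : (fun u => (y - u) ^ 2 * gk δ u) =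
      fun u => (y ^ 2 * gk δ u - 2 * y * (u * gk δ u)) + u ^ 2 * gk δ u :=
    funext fun u => by ring
  have i3 : Integrable fun u => (y - u) ^ 2 * gk δ u := by
    rw [e]; exact (i0.sub (i1.const_mul _)).add i2
  have i4 := i3.comp_sub_left y
  have h4 := integral_sub_left_eq_self (fun u => (y - u) ^ 2 * gk δ u) volume y
  simp only [sub_sub_cancel] at i4 h4
  refine ⟨i4, ?_⟩
  have i5 : Integrable fun u => y ^ 2 * gk δ u - 2 * y * (u * gk δ u) := i0.sub (i1.const_mul _)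
  rw [h4, e, integral_add i5 i2, integral_sub i0 (i1.const_mul _),
    integral_const_mul, integral_const_mul, integral_gk hδ, mom1_gk hδ, mom2_gk hδ]
  ring

theorem one_gk (hδ : 0 < δ) (y : ℝ) : Integrable (fun z => 1 * gk δ (y - z)) ∧
    ∫ z, 1 * gk δ (y - z) = 1 := by
  simp only [one_mul]
  exact ⟨(gk_int hδ).comp_sub_left y, by
    rw [integral_sub_left_eq_self (gk δ) volume y, integral_gk hδ]⟩

/-- Midpoint convexity passes through the symmetric kernel. -/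
theorem jen (hδ : 0 < δ) {F : ℝ → ℝ} {y : ℝ} (hF : ∀ z, 2 * F y ≤ F z + F (2 * y - z))
    (hi : Integrable fun z => F z * gk δ (y - z)) : F y ≤ ∫ z, F z * gk δ (y - z) := by
  have e : ∀ z, gk δ (y - (2 * y - z)) = gk δ (y - z) := fun z => by
    rw [← gk_neg]; congr 1; ring
  have i2 := hi.comp_sub_left (2 * y)
  have h2 := integral_sub_left_eq_self (fun z => F z * gk δ (y - z)) volume (2 * y)
  simp only [e] at i2 h2
  obtain ⟨i0, h0⟩ := one_gk hδ y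
  have h3 := integral_mono (i0.const_mul (2 * F y)) (hi.add i2) fun z => by
    have := mul_le_mul_of_nonneg_right (hF z) (gk_pos hδ (y - z)).le
    simp only [Pi.add_apply]
    linarith
  rw [integral_const_mul, h0] at h3
  simp only [Pi.add_apply] at h3
  rw [integral_add hi i2, h2] at h3
  linarith

/-- Density of `⟪X, ξ⟫` plus an independent Gaussian of variance `δ^2`. -/
noncomputable def gg (p : Eu n → ℝ) (δ : ℝ) (ξ : Eu n) (z : ℝ) : ℝ :=
  ∫ x, gk δ (⟪x, ξ⟫ - z) ∂mu p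

theorem gg_zero (ξ : Eu n) : gg p δ ξ 0 = A0 p δ ξ := by simp only [gg, A0, sub_zero]

theorem int_gk' (hp : Nrm p) (hδ : 0 < δ) (ξ : Eu n) (z : ℝ) :
    Integrable (fun x => gk δ (⟪x, ξ⟫ - z)) (mu p) := by
  have := hp.prob
  exact (integrable_const (1 / δ)).mono' (by fun_prop) (Eventually.of_forall fun x => by
    rw [Real.norm_of_nonneg (gk_pos hδ _).le]; exact gk_le' hδ _)

theorem gg_pos (hp : Nrm p) (hδ : 0 < δ) (ξ : Eu n) (z : ℝ) : 0 < gg p δ ξ z := by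
  have := hp.prob
  rw [gg, integral_pos_iff_support_of_nonneg (fun x => (gk_pos hδ _).le) (int_gk' hp hδ ξ z),
    show (Function.support fun x : Eu n => gk δ (⟪x, ξ⟫ - z)) = univ from
      eq_univ_of_forall fun x => (gk_pos hδ _).ne']
  simp

theorem gg_cont (hp : Nrm p) (hδ : 0 < δ) (ξ : Eu n) : Continuous (gg p δ ξ) := by
  have := hp.prob
  refine continuous_of_dominated (bound := fun _ => 1 / δ) (fun z => by fun_prop)
    (fun z => Eventually.of_forall fun x => ?_) (integrable_const _)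
    (Eventually.of_forall fun x => by fun_prop)
  rw [Real.norm_of_nonneg (gk_pos hδ _).le]; exact gk_le' hδ _

theorem gg_even (hp : Nrm p) (ξ : Eu n) (z : ℝ) : gg p δ ξ (-z) = gg p δ ξ z := by
  rw [gg, gg, ← hp.integral_neg]
  refine integral_congr_ae (Eventually.of_forall fun x => ?_)
  simp only [inner_neg_left]
  rw [← gk_neg]; congr 1; ring

theorem fubA (hp : Nrm p) (hδ : 0 < δ) (ξ : Eu n) {F : ℝ → ℝ} (hF : Continuous F)
    (h0 : ∀ z, 0 ≤ F z) (h1 : ∀ y, Integrable fun z => F z * gk δ (y - z))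
    (h2 : Integrable (fun x => ∫ z, F z * gk δ (⟪x, ξ⟫ - z)) (mu p)) :
    Integrable (fun q : Eu n × ℝ => F q.2 * gk δ (⟪q.1, ξ⟫ - q.2)) ((mu p).prod volume) := by
  have := hp.prob
  have hc : Continuous fun q : Eu n × ℝ => F q.2 * gk δ (⟪q.1, ξ⟫ - q.2) := by fun_prop
  rw [integrable_prod_iff hc.aestronglyMeasurable]
  refine ⟨Eventually.of_forall fun x => h1 ⟪x, ξ⟫, ?_⟩
  refine h2.congr (Eventually.of_forall fun x => ?_)
  refine integral_congr_ae (Eventually.of_forall fun z => ?_)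
  exact (Real.norm_of_nonneg (mul_nonneg (h0 z) (gk_pos hδ _).le)).symm

theorem fubB (hp : Nrm p) (hδ : 0 < δ) (ξ : Eu n) {F : ℝ → ℝ} (hF : Continuous F)
    (h0 : ∀ z, 0 ≤ F z) (h2 : Integrable fun z => F z * gg p δ ξ z) :
    Integrable (fun q : Eu n × ℝ => F q.2 * gk δ (⟪q.1, ξ⟫ - q.2)) ((mu p).prod volume) := by
  have := hp.prob
  have hc : Continuous fun q : Eu n × ℝ => F q.2 * gk δ (⟪q.1, ξ⟫ - q.2) := by fun_prop
  rw [integrable_prod_iff' hc.aestronglyMeasurable]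
  refine ⟨Eventually.of_forall fun z => (int_gk' hp hδ ξ z).const_mul (F z), ?_⟩
  refine h2.congr (Eventually.of_forall fun z => ?_)
  simp only [gg]
  rw [← integral_const_mul]
  refine integral_congr_ae (Eventually.of_forall fun x => ?_)
  exact (Real.norm_of_nonneg (mul_nonneg (h0 z) (gk_pos hδ _).le)).symm

theorem fub (hp : Nrm p) (ξ : Eu n) {F : ℝ → ℝ}
    (hi : Integrable (fun q : Eu n × ℝ => F q.2 * gk δ (⟪q.1, ξ⟫ - q.2)) ((mu p).prod volume)) :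
    Integrable (fun z => F z * gg p δ ξ z) ∧
      ∫ z, F z * gg p δ ξ z = ∫ x, (∫ z, F z * gk δ (⟪x, ξ⟫ - z)) ∂mu p := by
  have := hp.prob
  have h1 := hi.integral_prod_right
  have h2 := (integral_prod _ hi).symm.trans (integral_prod_symm _ hi)
  simp only [integral_const_mul] at h1 h2
  exact ⟨h1, h2.symm⟩

theorem w_gk (hp : Nrm p) (hδ : 0 < δ) (x : Eu n) (u : ℝ) :
    exp (-(p x ^ 2 / 2)) / Zc p * gk δ u =
      exp (-(p x ^ 2 / 2) - u ^ 2 / (2 * δ ^ 2) - log (Zc p * (√(2 * π) * δ))) := by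
  have hZ := hp.Zc_pos
  have := sqrt_two_pi_pos
  rw [exp_sub, exp_log (by positivity), sub_eq_add_neg, exp_add, gk]
  field_simp

theorem gg_lint (hp : Nrm p) (hδ : 0 < δ) (ξ : Eu n) (z : ℝ) :
    ∫⁻ x, ENNReal.ofReal (exp (-(p x ^ 2 / 2) - (⟪x, ξ⟫ - z) ^ 2 / (2 * δ ^ 2) -
      log (Zc p * (√(2 * π) * δ)))) = ENNReal.ofReal (gg p δ ξ z) := by
  have i1 := (hp.integrable_mu _).1 (int_gk' hp hδ ξ z)
  rw [gg, hp.integral_mu]
  simp only [w_gk hp hδ] at i1 ⊢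
  exact (ofReal_integral_eq_lintegral_ofReal i1
    (Eventually.of_forall fun x => (exp_pos _).le)).symm

theorem ofReal_geo (A B l : ℝ) : ENNReal.ofReal (exp A) ^ (1 - l) * ENNReal.ofReal (exp B) ^ l =
    ENNReal.ofReal (exp ((1 - l) * A + l * B)) := by
  rw [ENNReal.ofReal_rpow_of_pos (exp_pos _), ENNReal.ofReal_rpow_of_pos (exp_pos _),
    ← ENNReal.ofReal_mul (by positivity), ← exp_mul, ← exp_mul, ← exp_add]
  congr 2; ring

theorem gg_conc (hPL : PLStmt) (hp : Nrm p) (hδ : 0 < δ) (ξ : Eu n) (s t l : ℝ) (l0 : 0 < l)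
    (l1 : l < 1) : (1 - l) * log (gg p δ ξ s) + l * log (gg p δ ξ t) ≤
      log (gg p δ ξ ((1 - l) * s + l * t)) := by
  have hm := hp.meas
  have key := hPL n
    (fun x => ENNReal.ofReal (exp (-(p x ^ 2 / 2) - (⟪x, ξ⟫ - s) ^ 2 / (2 * δ ^ 2) -
      log (Zc p * (√(2 * π) * δ)))))
    (fun x => ENNReal.ofReal (exp (-(p x ^ 2 / 2) - (⟪x, ξ⟫ - t) ^ 2 / (2 * δ ^ 2) -
      log (Zc p * (√(2 * π) * δ)))))
    (fun x => ENNReal.ofReal (exp (-(p x ^ 2 / 2) -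
      (⟪x, ξ⟫ - ((1 - l) * s + l * t)) ^ 2 / (2 * δ ^ 2) - log (Zc p * (√(2 * π) * δ)))))
    l l0 l1 (by fun_prop) (by fun_prop) (by fun_prop) fun x y => by
      rw [ofReal_geo]
      refine ENNReal.ofReal_le_ofReal (exp_le_exp.2 ?_)
      have h1 := hp.sq_comb (s := 1 - l) (t := l) (by linarith) l0.le (by ring) x y
      have h2 : (⟪(1 - l) • x + l • y, ξ⟫ - ((1 - l) * s + l * t)) ^ 2 ≤
          (1 - l) * (⟪x, ξ⟫ - s) ^ 2 + l * (⟪y, ξ⟫ - t) ^ 2 := by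
        rw [inner_add_left, real_inner_smul_left, real_inner_smul_left]
        have := mul_nonneg (mul_nonneg l0.le (sub_nonneg.2 l1.le))
          (sq_nonneg ((⟪x, ξ⟫ - s) - (⟪y, ξ⟫ - t)))
        nlinarith
      have h3 := div_le_div_of_nonneg_right h2 (show 0 ≤ 2 * δ ^ 2 by positivity)
      rw [add_div, mul_div_assoc, mul_div_assoc] at h3
      linarith
  rw [gg_lint hp hδ, gg_lint hp hδ, gg_lint hp hδ, ← exp_log (gg_pos hp hδ ξ s),
    ← exp_log (gg_pos hp hδ ξ t), ofReal_geo,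
    ENNReal.ofReal_le_ofReal_iff (gg_pos hp hδ ξ _).le] at key
  exact (le_log_iff_exp_le (gg_pos hp hδ ξ _)).2 key

theorem gg_dens (hPL : PLStmt) (hp : Nrm p) (hδ : 0 < δ) (ξ : Eu n) : Dens (gg p δ ξ) := by
  have := hp.prob
  have h := fub hp ξ (F := fun _ => 1) (fubA hp hδ ξ (F := fun _ => 1) continuous_const
    (fun _ => zero_le_one)
    (fun y => (one_gk hδ y).1) (by simp only [(one_gk hδ _).2]; exact integrable_const _))
  simp only [(one_gk hδ _).2] at h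
  simp only [one_mul] at h
  exact ⟨gg_cont hp hδ ξ, gg_pos hp hδ ξ, gg_even hp ξ, h.1, by simpa using h.2,
    gg_conc hPL hp hδ ξ⟩

theorem exp_mid {c : ℝ} (hc : 0 ≤ c) (y z : ℝ) :
    2 * exp (c * |y| / 2) ≤ exp (c * |z| / 2) + exp (c * |2 * y - z| / 2) := by
  have h1 : 2 * |y| ≤ |z| + |2 * y - z| := by
    have := abs_add_le z (2 * y - z)
    rwa [show z + (2 * y - z) = 2 * y by ring, abs_mul, abs_two] at this
  have h2 : c * |y| / 2 ≤ c * |z| / 4 + c * |2 * y - z| / 4 := by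
    have := mul_le_mul_of_nonneg_left h1 hc
    linarith
  have h3 := exp_le_exp.2 h2
  rw [exp_add] at h3
  rw [show c * |z| / 2 = c * |z| / 4 + c * |z| / 4 by ring,
    show c * |2 * y - z| / 2 = c * |2 * y - z| / 4 + c * |2 * y - z| / 4 by ring, exp_add, exp_add]
  nlinarith [sq_nonneg (exp (c * |z| / 4) - exp (c * |2 * y - z| / 4))]

end Lc

open Lc

theorem lc (hPL : PLStmt) : LCStmt := by
  intro n p δ ξ hp hδ
  have := hp.prob
  have H := gg_dens hPL hp hδ ξ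
  have i2 := hp.int_inner_pow ξ 2
  have h2 := fub hp ξ (F := fun z => z ^ 2) (fubA hp hδ ξ (F := fun z => z ^ 2) (by fun_prop)
    (fun z => sq_nonneg z)
    (fun y => (sq_gk hδ y).1) (by simp only [(sq_gk hδ _).2]; exact i2.add (integrable_const _)))
  simp only [(sq_gk hδ _).2] at h2
  rw [integral_add i2 (integrable_const _), integral_const, probReal_univ, one_smul] at h2
  have h3 := H.sq_mom h2.1
  rw [h2.2, gg_zero] at h3
  refine ⟨h3.1, h3.2, ?_⟩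
  obtain ⟨j1, j2⟩ := H.exp_mom
  rw [gg_zero] at j1 j2
  have ha := hp.A0_pos hδ ξ
  have j3 := fubB hp hδ ξ (F := fun z => exp (A0 p δ ξ * |z| / 2)) (by fun_prop)
    (fun z => (exp_pos _).le) j1
  rw [(fub hp ξ (F := fun z => exp (A0 p δ ξ * |z| / 2)) j3).2] at j2
  refine le_trans (integral_mono_of_nonneg (Eventually.of_forall fun x => (exp_pos _).le)
    j3.integral_prod_left ?_) (j2.trans (by norm_num))
  filter_upwards [j3.prod_right_ae] with x hx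
  exact jen hδ (F := fun z => exp (A0 p δ ξ * |z| / 2)) (exp_mid ha.le _) hx

theorem Lc.cov_bounds (hLC : LCStmt) {n : ℕ} {p h : Eu n → ℝ} {b Λ : ℝ}
    (H : Cmp Λ p h b) (ξ : Eu n) : ‖ξ‖ ^ 2 ≤ 32 * Λ ^ 4 * ∫ x, ⟪x, ξ⟫ ^ 2 ∂mu p ∧
      ∫ x, ⟪x, ξ⟫ ^ 2 ∂mu p ≤ 168 * Λ ^ 4 * ‖ξ‖ ^ 2 := by
  rcases eq_or_ne ξ 0 with rfl | hξ
  · simp
  have hp := H.bp.nrm
  have hb := H.bp.bpos
  have hh := H.bp.hpos ξ hξ
  set S := ∫ x, ⟪x, ξ⟫ ^ 2 ∂mu p with hS
  have hS0 : 0 ≤ S := integral_nonneg fun x => sq_nonneg _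
  have t1 : Tendsto (fun δ : ℝ => S + δ ^ 2) (𝓝[>] 0) (𝓝 (S + 0 ^ 2)) :=
    tendsto_nhdsWithin_of_tendsto_nhds
      ((show Continuous fun δ : ℝ => S + δ ^ 2 by fun_prop).tendsto 0)
  have t2 := ((H.bp.lim ξ hξ).pow 2).mul t1
  have l1 : 1 / 32 ≤ (b / h ξ) ^ 2 * (S + 0 ^ 2) := ge_of_tendsto t2
    (eventually_nhdsWithin_of_forall fun δ hδ => (hLC n p δ ξ hp hδ).1)
  have l2 : (b / h ξ) ^ 2 * (S + 0 ^ 2) ≤ 168 := le_of_tendsto t2
    (eventually_nhdsWithin_of_forall fun δ hδ => (hLC n p δ ξ hp hδ).2.1)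
  rw [show (b / h ξ) ^ 2 * (S + 0 ^ 2) = b ^ 2 * S / h ξ ^ 2 by field_simp; ring] at l1 l2
  rw [le_div_iff₀ (by positivity)] at l1
  rw [div_le_iff₀ (by positivity)] at l2
  have a1 := pow_le_pow_left₀ (norm_nonneg ξ) (H.hlo ξ) 2
  have a2 := pow_le_pow_left₀ hh.le (H.hhi ξ) 2
  have a3 := pow_le_pow_left₀ zero_le_one H.blo 2
  have a4 := pow_le_pow_left₀ hb.le H.bhi 2
  rw [mul_pow] at a1 a2 a3
  have hL : 0 ≤ Λ ^ 2 := sq_nonneg Λ
  constructor
  · have b1 := mul_le_mul_of_nonneg_right a4 hS0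
    have b2 : h ξ ^ 2 ≤ 32 * (Λ ^ 2 * S) := by linarith
    have b3 := mul_le_mul_of_nonneg_left b2 hL
    nlinarith
  · have b1 := mul_le_mul_of_nonneg_right a3 hS0
    have b2 : b ^ 2 * S ≤ 168 * (Λ ^ 2 * ‖ξ‖ ^ 2) := by linarith
    have b3 := mul_le_mul_of_nonneg_left b2 hL
    nlinarith

theorem Lc.num {Λ A S N D r b : ℝ} (hΛ : 1 ≤ Λ) (hA : 0 < A) (hD : 0 ≤ D) (hr : 0 ≤ r)
    (hb : 0 < b) (e : r ^ 2 = N + D) (b1 : 1 ≤ Λ * b) (b2 : b ≤ Λ) (s1 : N ≤ 32 * Λ ^ 4 * S)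
    (s2 : S ≤ 168 * Λ ^ 4 * N) (l1 : 1 / 32 ≤ A ^ 2 * (S + D)) (l2 : A ^ 2 * (S + D) ≤ 168) :
    1 ≤ 100 * Λ ^ 4 * (r * (A / b)) ∧ r * (A / b) ≤ 100 * Λ ^ 4 := by
  have h0 : 0 < Λ := by linarith
  have h4 : 1 ≤ Λ ^ 4 := one_le_pow₀ hΛ
  have h34 : Λ ^ 3 ≤ Λ ^ 4 := pow_le_pow_right₀ hΛ (by norm_num)
  have hA2 : 0 ≤ A ^ 2 := sq_nonneg A
  have hu : 0 ≤ r * A := by positivity
  have c1 : S + D ≤ 168 * Λ ^ 4 * r ^ 2 := by rw [e]; nlinarith
  have c2 : r ^ 2 ≤ 32 * Λ ^ 4 * (S + D) := by rw [e]; nlinarith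
  have d1 : 1 ≤ 100 * Λ ^ 2 * (r * A) := by
    refine (pow_le_pow_iff_left₀ zero_le_one (by positivity) two_ne_zero).1 ?_
    have := mul_le_mul_of_nonneg_left c1 hA2
    have h5 : 0 ≤ Λ ^ 4 * (r ^ 2 * A ^ 2) := by positivity
    nlinarith
  have d2 : r * A ≤ 100 * Λ ^ 2 := by
    refine (pow_le_pow_iff_left₀ hu (by positivity) two_ne_zero).1 ?_
    have := mul_le_mul_of_nonneg_left c2 hA2
    have h5 := mul_le_mul_of_nonneg_left l2 (show 0 ≤ 32 * Λ ^ 4 by positivity)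
    nlinarith
  rw [← mul_div_assoc, ← mul_div_assoc, le_div_iff₀ hb, div_le_iff₀ hb]
  constructor
  · have e1 := mul_le_mul_of_nonneg_left d1 h0.le
    have e2 := mul_le_mul_of_nonneg_right h34 hu
    nlinarith
  · have e1 := mul_le_mul_of_nonneg_left b1 (show 0 ≤ 100 * Λ ^ 2 by positivity)
    have e2 := mul_le_mul_of_nonneg_right h34 hb.le
    nlinarith

theorem reg (hLC : LCStmt) : RegStmt := by
  intro Λ hΛ
  have h0 : 0 < Λ := by linarith
  have h4 : 1 ≤ Λ ^ 4 := one_le_pow₀ hΛ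
  have h14 : Λ ≤ Λ ^ 4 := le_self_pow₀ hΛ (by norm_num)
  have h24 : Λ ^ 2 ≤ Λ ^ 4 := pow_le_pow_right₀ hΛ (by norm_num)
  have hL : Λ ≤ 100 * Λ ^ 4 := by linarith
  refine ⟨100 * Λ ^ 4, by linarith, fun n p h b H => ?_⟩
  have hp := H.bp.nrm
  have hb := H.bp.bpos
  have key : ∀ δ, 0 < δ → ∀ ξ : Eu n,
      1 ≤ 100 * Λ ^ 4 * (√(‖ξ‖ ^ 2 + δ ^ 2) * (A0 p δ ξ / b)) ∧
        √(‖ξ‖ ^ 2 + δ ^ 2) * (A0 p δ ξ / b) ≤ 100 * Λ ^ 4 := fun δ hδ ξ =>
    num hΛ (hp.A0_pos hδ ξ) (sq_nonneg δ) (sqrt_nonneg _) hb (sq_sqrt (by positivity)) H.blo H.bhi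
      (cov_bounds hLC H ξ).1 (cov_bounds hLC H ξ).2 (hLC n p δ ξ hp hδ).1
      (hLC n p δ ξ hp hδ).2.1
  refine ⟨H.mono hL, ⟨hp, fun x => ?_, fun x => ?_, fun v hv => ?_⟩,
    fun δ hδ ξ => (key δ hδ ξ).1, fun δ hδ ξ => (key δ hδ ξ).2, fun v hv => ?_⟩
  · refine le_trans ?_ (mul_le_mul_of_nonneg_right hL (hp.nonneg x))
    rcases eq_or_ne x 0 with rfl | hx
    · simp [hp.zero]
    have hx0 := norm_pos_iff.2 hx
    have h1 := H.bp.d1 x x
    rw [real_inner_self_eq_norm_sq] at h1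
    have h2 := mul_le_mul_of_nonneg_left (H.hhi x) (hp.nonneg x)
    refine le_of_mul_le_mul_right ?_ hx0
    nlinarith
  · refine le_trans ?_ (mul_le_mul_of_nonneg_right hL (norm_nonneg x))
    rcases eq_or_ne x 0 with rfl | hx
    · simp [hp.zero]
    have hx0 := norm_pos_iff.2 hx
    have hc : 0 < Λ * ‖x‖ := by positivity
    have h1 := H.bp.d2 ((Λ * ‖x‖)⁻¹ • x) fun ζ => by
      rw [real_inner_smul_left, inv_mul_le_iff₀ hc]
      have := mul_le_mul_of_nonneg_left (H.hlo ζ) hx0.le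
      have h2 := real_inner_le_norm x ζ
      linarith
    rwa [hp.smul_nonneg (by positivity), inv_mul_le_iff₀ hc, mul_one] at h1
  · have hv0 : v ≠ 0 := by rintro rfl; simp at hv
    have hh := H.bp.hpos v hv0
    have h1 : 1 / (2 * Λ ^ 2) < b / h v := by
      have a1 := H.hhi v
      rw [hv, mul_one] at a1
      rw [div_lt_div_iff₀ (by positivity) hh]
      have := mul_le_mul_of_nonneg_left H.blo h0.le
      nlinarith
    obtain ⟨δ, hδ, h2⟩ := (eventually_mem_nhdsWithin.and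
      ((H.bp.lim v hv0).eventually (lt_mem_nhds h1))).exists
    have h3 := (hLC n p δ v hp hδ).2.2
    refine le_trans (integral_mono_of_nonneg (Eventually.of_forall fun x => (exp_pos _).le)
      ?_ (Eventually.of_forall fun x => exp_le_exp.2 ?_)) (h3.trans (by linarith))
    · refine (hp.int_exp_inner v (A0 p δ v / 2)).congr (Eventually.of_forall fun x => ?_)
      simp only; congr 1; ring
    · have a1 : 1 / (100 * Λ ^ 4) ≤ A0 p δ v / 2 := by
        have : 1 / (100 * Λ ^ 4) ≤ 1 / (2 * Λ ^ 2) / 2 := by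
          rw [div_div]
          exact one_div_le_one_div_of_le (by positivity) (by linarith)
        linarith
      have := mul_le_mul_of_nonneg_right a1 (abs_nonneg ⟪x, v⟫)
      calc |⟪x, v⟫| / (100 * Λ ^ 4) = 1 / (100 * Λ ^ 4) * |⟪x, v⟫| := by ring
        _ ≤ _ := by linarith
  · have := (cov_bounds hLC H v).1
    have hS0 : 0 ≤ ∫ x, ⟪x, v⟫ ^ 2 ∂mu p := integral_nonneg fun x => sq_nonneg _
    rw [hv] at this
    nlinarith

end Pool.Agent.MP_2a44fd_gt.hd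

end MrgPart0

-- ======== part 1: formerly Pool.Agent.MP_2a44fd_gt.hd.Tsa
section MrgPart1

/-!
PROJECT BP5HD: second moment method for random marginals of small dimension.
-/

set_option autoImplicit false

open MeasureTheory Real Set Filter Topology
open scoped RealInnerProductSpace ENNReal

namespace Pool.Agent.MP_2a44fd_gt.hd

namespace Tsa

variable {n : ℕ}

theorem int_bdd {Ω : Type*} [MeasurableSpace Ω] {P : Measure Ω} [IsFiniteMeasure P] {f : Ω → ℝ}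
    (hf : AEStronglyMeasurable f P) (h : ∀ x, |f x| ≤ 1) : Integrable f P :=
  (integrable_const (1 : ℝ)).mono' hf (Eventually.of_forall h)

/-- Prekopa-Leindler at the midpoint, for real integrals. -/
theorem pl_real (hPL : PLStmt) {F1 F2 F3 : Eu n → ℝ} (c1 : Continuous F1) (c2 : Continuous F2)
    (c3 : Continuous F3) (i1 : Integrable fun x => exp (-F1 x))
    (i2 : Integrable fun x => exp (-F2 x)) (i3 : Integrable fun x => exp (-F3 x))
    (h : ∀ x y, F3 ((1 / 2 : ℝ) • x + (1 / 2 : ℝ) • y) ≤ (F1 x + F2 y) / 2) :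
    (∫ x, exp (-F1 x)) * (∫ x, exp (-F2 x)) ≤ (∫ x, exp (-F3 x)) ^ 2 := by
  have key := hPL n (fun x => ENNReal.ofReal (exp (-F1 x))) (fun x => ENNReal.ofReal (exp (-F2 x)))
    (fun x => ENNReal.ofReal (exp (-F3 x))) (1 / 2) (by norm_num) (by norm_num) (by fun_prop)
    (by fun_prop) (by fun_prop) fun x y => by
      rw [ENNReal.ofReal_rpow_of_pos (exp_pos _), ENNReal.ofReal_rpow_of_pos (exp_pos _),
        ← ENNReal.ofReal_mul (by positivity), ← exp_mul, ← exp_mul, ← exp_add,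
        show (1 - 1 / 2 : ℝ) = 1 / 2 by norm_num]
      refine ENNReal.ofReal_le_ofReal (exp_le_exp.2 ?_)
      linarith [h x y]
  have p1 : 0 ≤ ∫ x, exp (-F1 x) := integral_nonneg fun x => (exp_pos _).le
  have p2 : 0 ≤ ∫ x, exp (-F2 x) := integral_nonneg fun x => (exp_pos _).le
  have p3 : 0 ≤ ∫ x, exp (-F3 x) := integral_nonneg fun x => (exp_pos _).le
  rw [← ofReal_integral_eq_lintegral_ofReal i1 (Eventually.of_forall fun x => (exp_pos _).le),
    ← ofReal_integral_eq_lintegral_ofReal i2 (Eventually.of_forall fun x => (exp_pos _).le),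
    ← ofReal_integral_eq_lintegral_ofReal i3 (Eventually.of_forall fun x => (exp_pos _).le),
    show (1 - 1 / 2 : ℝ) = 1 / 2 by norm_num, ENNReal.ofReal_rpow_of_nonneg p1 (by norm_num),
    ENNReal.ofReal_rpow_of_nonneg p2 (by norm_num), ← ENNReal.ofReal_mul (by positivity),
    ENNReal.ofReal_le_ofReal_iff p3, ← mul_rpow p1 p2, ← sqrt_eq_rpow] at key
  exact (sqrt_le_left p3).1 key

/-- The second moment argument. -/
theorem second {Ω : Type*} [MeasurableSpace Ω] (P : Measure Ω) [IsProbabilityMeasure P]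
    {f1 f2 m : Ω → ℝ} {A B : ℝ} (hA : 0 < A) (hB : 0 < B) (i1 : Integrable f1 P)
    (i2 : Integrable f2 P) (j1 : Integrable (fun ω => f1 ω ^ 2) P)
    (j2 : Integrable (fun ω => f2 ω ^ 2) P) (im : Integrable m P) (e1 : ∫ ω, f1 ω ∂P = A)
    (e2 : ∫ ω, f2 ω ∂P = B) (v1 : ∫ ω, f1 ω ^ 2 ∂P ≤ 3 / 2 * A ^ 2)
    (v2 : ∫ ω, f2 ω ^ 2 ∂P ≤ 3 / 2 * B ^ 2) (p1 : ∀ ω, 0 ≤ f1 ω) (p2 : ∀ ω, 0 ≤ f2 ω)
    (pm : ∀ ω, 0 ≤ m ω) (h : ∀ ω, f1 ω * f2 ω ≤ m ω ^ 2) : A * B ≤ 16 * (∫ ω, m ω ∂P) ^ 2 := by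
  have hs : 0 < √(A * B) := sqrt_pos.2 (mul_pos hA hB)
  have hs2 : √(A * B) ^ 2 = A * B := sq_sqrt (mul_pos hA hB).le
  have key : ∀ ω, 7 / 6 / A * f1 ω + 7 / 6 / B * f2 ω - 1 / 3 / A ^ 2 * f1 ω ^ 2 -
      1 / 3 / B ^ 2 * f2 ω ^ 2 - 25 / 24 ≤ m ω / √(A * B) := by
    intro ω
    have hu : 0 ≤ f1 ω / A := div_nonneg (p1 ω) hA.le
    have hv : 0 ≤ f2 ω / B := div_nonneg (p2 ω) hB.le
    have hm : 0 ≤ m ω / √(A * B) := div_nonneg (pm ω) hs.le
    have h1 : f1 ω / A * (f2 ω / B) ≤ (m ω / √(A * B)) ^ 2 := by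
      rw [div_pow, hs2, div_mul_div_comm]
      exact div_le_div_of_nonneg_right (h ω) (mul_pos hA hB).le
    have e : 7 / 6 / A * f1 ω + 7 / 6 / B * f2 ω - 1 / 3 / A ^ 2 * f1 ω ^ 2 -
        1 / 3 / B ^ 2 * f2 ω ^ 2 - 25 / 24 = 7 / 6 * (f1 ω / A) + 7 / 6 * (f2 ω / B) -
        1 / 3 * (f1 ω / A) ^ 2 - 1 / 3 * (f2 ω / B) ^ 2 - 25 / 24 := by
      field_simp
    rw [e]
    generalize f1 ω / A = u at *
    generalize f2 ω / B = v at *
    generalize m ω / √(A * B) = w at *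
    rcases le_total u v with huv | huv
    · have h2 : u ≤ w := by
        by_contra h3
        nlinarith
      nlinarith [sq_nonneg (u - 1 / 4), sq_nonneg (v - 7 / 4)]
    · have h2 : v ≤ w := by
        by_contra h3
        nlinarith
      nlinarith [sq_nonneg (v - 1 / 4), sq_nonneg (u - 7 / 4)]
  have a1 : Integrable (fun ω => 7 / 6 / A * f1 ω + 7 / 6 / B * f2 ω) P :=
    (i1.const_mul _).add (i2.const_mul _)
  have a2 : Integrable (fun ω => 7 / 6 / A * f1 ω + 7 / 6 / B * f2 ω -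
      1 / 3 / A ^ 2 * f1 ω ^ 2) P := a1.sub (j1.const_mul _)
  have a3 : Integrable (fun ω => 7 / 6 / A * f1 ω + 7 / 6 / B * f2 ω -
      1 / 3 / A ^ 2 * f1 ω ^ 2 - 1 / 3 / B ^ 2 * f2 ω ^ 2) P := a2.sub (j2.const_mul _)
  have h2 := integral_mono (a3.sub (integrable_const (25 / 24 : ℝ))) (im.div_const _) key
  simp only [Pi.sub_apply] at h2
  rw [integral_sub a3 (integrable_const _), integral_sub a2 (j2.const_mul _),
    integral_sub a1 (j1.const_mul _), integral_add (i1.const_mul _) (i2.const_mul _),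
    integral_const_mul, integral_const_mul, integral_const_mul, integral_const_mul, e1, e2,
    integral_const, probReal_univ, one_smul, integral_div] at h2
  have b1 : 1 / 3 / A ^ 2 * ∫ ω, f1 ω ^ 2 ∂P ≤ 1 / 2 :=
    (mul_le_mul_of_nonneg_left v1 (by positivity)).trans (le_of_eq (by field_simp))
  have b2 : 1 / 3 / B ^ 2 * ∫ ω, f2 ω ^ 2 ∂P ≤ 1 / 2 :=
    (mul_le_mul_of_nonneg_left v2 (by positivity)).trans (le_of_eq (by field_simp))
  rw [div_mul_cancel₀ _ hA.ne', div_mul_cancel₀ _ hB.ne'] at h2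
  have h3 : 1 / 4 ≤ (∫ ω, m ω ∂P) / √(A * B) := by linarith
  rw [le_div_iff₀ hs] at h3
  nlinarith

/-- The Gaussian bump along the direction `a`. -/
noncomputable def ee (a w : Eu n) (s : ℝ) : ℝ := exp (-((⟪w, a⟫ - s) ^ 2 / 2))

theorem ee_pos (a w : Eu n) (s : ℝ) : 0 < ee a w s := exp_pos _

theorem ee_le (a w : Eu n) (s : ℝ) : ee a w s ≤ 1 :=
  exp_le_one_iff.2 (neg_nonpos.2 (by positivity))

theorem int_ee (a : Eu n) (s : ℝ) : ∫ w, ee a w s ∂gam n = qq (‖a‖ ^ 2) s := by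
  have h := gam_gk (n := n) one_pos a s
  have h0 := sqrt_two_pi_pos
  have e : ∀ w : Eu n, ee a w s = √(2 * π) * gk 1 (⟪w, a⟫ - s) := fun w => by
    rw [ee, gk]; field_simp
  have hr : 0 < ‖a‖ ^ 2 + 1 ^ 2 := by positivity
  simp only [e]
  rw [integral_const_mul, h, gk, qq, sq_sqrt hr.le, one_pow, add_comm]
  field_simp

theorem gam_cos_add (u : Eu n) (θ : ℝ) :
    ∫ w, cos (⟪u, w⟫ + θ) ∂gam n = exp (-(‖u‖ ^ 2 / 2)) * cos θ := by
  have i1 : Integrable (fun x : Eu n => cos ⟪u, x⟫) (gam n) :=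
    int_bdd (by fun_prop) fun x => abs_cos_le_one _
  have i2 : Integrable (fun x : Eu n => sin ⟪u, x⟫) (gam n) :=
    int_bdd (by fun_prop) fun x => abs_sin_le_one _
  simp only [cos_add]
  rw [integral_sub (i1.mul_const _) (i2.mul_const _), integral_mul_const, integral_mul_const,
    gam_cos, gam_sin]
  ring

theorem four {Ω : Type} [MeasurableSpace Ω] (P : Measure Ω) [IsProbabilityMeasure P]
    {A B : Ω → ℝ} (hA : Measurable A) (hB : Measurable B) :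
    ∫ ω, exp (-(A ω ^ 2 / 2)) * exp (-(B ω ^ 2 / 2)) ∂P =
      ∫ z : Eu 2, ∫ ω, cos (A ω * z 0 + B ω * z 1) ∂P ∂gam 2 := by
  have e : ∀ ω, exp (-(A ω ^ 2 / 2)) * exp (-(B ω ^ 2 / 2)) =
      ∫ z : Eu 2, cos (A ω * z 0 + B ω * z 1) ∂gam 2 := fun ω => by
    have := gam_cos (WithLp.toLp 2 ![A ω, B ω] : Eu 2)
    simp only [inner_eq_sum, norm_sq_eq_sum, Fin.sum_univ_two, Matrix.cons_val_zero,
      Matrix.cons_val_one] at this
    rw [this, ← exp_add]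
    congr 1; ring
  simp only [e]
  refine integral_integral_swap (int_bdd ?_ fun z => abs_cos_le_one _)
  refine Measurable.aestronglyMeasurable ?_
  unfold Function.uncurry
  fun_prop

theorem abs_exp_neg_sub {a b : ℝ} (ha : 0 ≤ a) (hb : 0 ≤ b) : |exp (-a) - exp (-b)| ≤ |a - b| := by
  have key : ∀ a b : ℝ, 0 ≤ a → a ≤ b → |exp (-a) - exp (-b)| ≤ |a - b| := by
    intro a b ha hab
    have h1 : exp (-b) = exp (-a) * exp (-(b - a)) := by rw [← exp_add]; congr 1; ring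
    have h2 := add_one_le_exp (-(b - a))
    have h3 : exp (-a) ≤ 1 := exp_le_one_iff.2 (by linarith)
    have h4 : exp (-(b - a)) ≤ 1 := exp_le_one_iff.2 (by linarith)
    have h5 := exp_pos (-a)
    rw [abs_sub_comm a b, abs_of_nonneg (sub_nonneg.2 hab), h1, abs_of_nonneg (by nlinarith)]
    nlinarith
  rcases le_total a b with h | h
  · exact key a b ha h
  · rw [abs_sub_comm, abs_sub_comm a b]; exact key b a hb h

/-- An absolute constant. -/
noncomputable def C0 : ℝ := ∫ z, ‖z‖ ^ 2 ∂gam 2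

theorem C0_nonneg : 0 ≤ C0 := integral_nonneg fun z => by positivity

theorem q2_le (a a' : Eu n) (s : ℝ) : ∫ w, ee a w s * ee a' w s ∂gam n ≤
    qq (‖a‖ ^ 2) s * qq (‖a'‖ ^ 2) s + C0 * |⟪a, a'⟫| := by
  have h1 := four (gam n) (A := fun w => ⟪w, a⟫ - s) (B := fun w => ⟪w, a'⟫ - s) (by fun_prop)
    (by fun_prop)
  have h2 := four ((gam n).prod (gam n)) (A := fun w => ⟪w.1, a⟫ - s)
    (B := fun w => ⟪w.2, a'⟫ - s) (by fun_prop) (by fun_prop)
  have e1 : ∀ z : Eu 2, ∫ w, cos ((⟪w, a⟫ - s) * z 0 + (⟪w, a'⟫ - s) * z 1) ∂gam n =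
      exp (-(‖z 0 • a + z 1 • a'‖ ^ 2 / 2)) * cos (-(s * (z 0 + z 1))) := fun z => by
    rw [← gam_cos_add]
    refine integral_congr_ae (Eventually.of_forall fun w => ?_)
    simp only [inner_add_right, real_inner_smul_right, real_inner_comm w]
    congr 1; ring
  have e2 : ∀ z : Eu 2, ∫ w, cos ((⟪w.1, a⟫ - s) * z 0 + (⟪w.2, a'⟫ - s) * z 1)
      ∂(gam n).prod (gam n) =
      exp (-((‖z 0 • a‖ ^ 2 + ‖z 1 • a'‖ ^ 2) / 2)) * cos (-(s * (z 0 + z 1))) := fun z => by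
    rw [integral_prod _ (int_bdd (by fun_prop) fun x => abs_cos_le_one _)]
    have e3 : ∀ w : Eu n, ∫ w', cos ((⟪w, a⟫ - s) * z 0 + (⟪w', a'⟫ - s) * z 1) ∂gam n =
        exp (-(‖z 1 • a'‖ ^ 2 / 2)) * cos (⟪z 0 • a, w⟫ + -(s * (z 0 + z 1))) := fun w => by
      rw [← gam_cos_add]
      refine integral_congr_ae (Eventually.of_forall fun w' => ?_)
      simp only [real_inner_smul_right, real_inner_comm w, real_inner_comm w']
      congr 1; ring
    simp only [e3]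
    rw [integral_const_mul, gam_cos_add, ← mul_assoc, ← exp_add]
    congr 2; ring
  simp only [e1] at h1
  simp only [e2] at h2
  have h3 := integral_prod_mul (μ := gam n) (ν := gam n) (fun w => ee a w s) fun w => ee a' w s
  rw [int_ee, int_ee] at h3
  have b1 : ∀ u θ : ℝ, 0 ≤ u → |exp (-u) * cos θ| ≤ 1 := fun u θ hu => by
    rw [abs_mul, abs_exp]
    exact mul_le_one₀ (exp_le_one_iff.2 (by linarith)) (abs_nonneg _) (abs_cos_le_one _)
  have i2 : Integrable (fun z : Eu 2 => exp (-((‖z 0 • a‖ ^ 2 + ‖z 1 • a'‖ ^ 2) / 2)) *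
      cos (-(s * (z 0 + z 1)))) (gam 2) := int_bdd (by fun_prop) fun z => b1 _ _ (by positivity)
  have i3 := (nrm_norm (n := 2)).int_norm_pow 2
  simp only [ee] at h3 ⊢
  rw [h1, ← h3, h2, C0, ← integral_mul_const, ← integral_add i2 (i3.mul_const _)]
  refine integral_mono (int_bdd (by fun_prop) fun z => b1 _ _ (by positivity))
    (i2.add (i3.mul_const _)) fun z => ?_
  have h4 := abs_exp_neg_sub (a := ‖z 0 • a + z 1 • a'‖ ^ 2 / 2)
    (b := (‖z 0 • a‖ ^ 2 + ‖z 1 • a'‖ ^ 2) / 2) (by positivity) (by positivity)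
  have h5 : ‖z 0 • a + z 1 • a'‖ ^ 2 / 2 - (‖z 0 • a‖ ^ 2 + ‖z 1 • a'‖ ^ 2) / 2 =
      z 0 * z 1 * ⟪a, a'⟫ := by
    rw [norm_add_sq_real, real_inner_smul_left, real_inner_smul_right]; ring
  have h6 : |z 0 * z 1| ≤ ‖z‖ ^ 2 := by
    rw [norm_sq_eq_sum, Fin.sum_univ_two, abs_le]
    constructor <;> nlinarith [sq_nonneg (z 0 + z 1), sq_nonneg (z 0 - z 1)]
  rw [h5, abs_mul] at h4
  have h7 := h4.trans (mul_le_mul_of_nonneg_right h6 (abs_nonneg _))
  have h8 := abs_cos_le_one (-(s * (z 0 + z 1)))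
  simp only
  rw [← sub_le_iff_le_add', ← sub_mul]
  refine (le_abs_self _).trans ?_
  rw [abs_mul]
  exact (mul_le_of_le_one_right (abs_nonneg _) h8).trans h7

theorem qq_pos {t : ℝ} (ht : 0 ≤ t) (s : ℝ) : 0 < qq t s := by unfold qq; positivity

theorem qq_le {t : ℝ} (ht : 0 ≤ t) (s : ℝ) : qq t s ≤ 1 := by
  have h1 : 1 ≤ √(1 + t) := one_le_sqrt.2 (by linarith)
  rw [qq, div_le_one (by positivity)]
  exact (exp_le_one_iff.2 (neg_nonpos.2 (by positivity))).trans h1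

theorem qq_ge {t L s R : ℝ} (ht : 0 ≤ t) (hL : t ≤ L) (h1 : 1 ≤ s) (h2 : s ≤ R) :
    qq L R * exp (-(R ^ 2 / 2)) ≤ qq t s := by
  have h3 : √(1 + t) ≤ √(1 + L) := sqrt_le_sqrt (by linarith)
  have h4 : s ^ 2 / (2 * (1 + t)) ≤ R ^ 2 / 2 :=
    div_le_div₀ (by positivity) (pow_le_pow_left₀ (by linarith) h2 2) two_pos (by linarith)
  have h5 : exp (-(R ^ 2 / (2 * (1 + L)))) ≤ 1 :=
    exp_le_one_iff.2 (neg_nonpos.2 (div_nonneg (sq_nonneg _) (by linarith)))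
  rw [qq, qq, div_mul_eq_mul_div]
  refine div_le_div₀ (exp_pos _).le ?_ (by positivity) h3
  exact (mul_le_of_le_one_left (exp_pos _).le h5).trans (exp_le_exp.2 (by linarith))

/-- The numerical inequality for large `n`. -/
theorem asym {Λ c κ : ℝ} (hΛ : 1 ≤ Λ) (hc : 0 < c) (hc1 : c ≤ 1) (hκ : 0 < κ) :
    ∃ n0 : ℕ, ∀ n ≥ n0, ∀ k : ℕ, k ^ 8 ≤ n → 1 ≤ n ∧ exp (-(n / 2 : ℝ)) ≤ 1 / 2 ∧
      2 * exp (-(n / 2 : ℝ)) + Λ * exp (-(κ / (k + 1) * √n)) ≤ (c ^ k / 2) ^ 2 / 4 := by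
  obtain ⟨L, hL, rfl⟩ : ∃ L, 0 ≤ L ∧ c = exp (-L) :=
    ⟨-log c, neg_nonneg.2 (log_nonpos hc.le hc1), by rw [neg_neg, exp_log hc]⟩
  obtain ⟨M, hM, hM2⟩ : ∃ M, 0 ≤ M ∧ exp M = 64 * Λ :=
    ⟨log (64 * Λ), log_nonneg (by linarith), exp_log (by linarith)⟩
  set κ' := min κ 1 / 2 with hκ'
  have k0 : 0 < κ' := by positivity
  have k1 : κ' ≤ κ / 2 := by rw [hκ']; linarith [min_le_left κ 1]
  have k2 : κ' ≤ 1 / 2 := by rw [hκ']; linarith [min_le_right κ 1]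
  set r0 := 1 + (2 * L + M) / κ' with hr0
  have r1 : 1 ≤ r0 := by rw [hr0]; linarith [div_nonneg (by linarith : 0 ≤ 2 * L + M) k0.le]
  refine ⟨⌈r0 ^ 8⌉₊, fun n hn k hk => ?_⟩
  have hn' : r0 ^ 8 ≤ n := (Nat.le_ceil _).trans (by exact_mod_cast hn)
  have hk' : (k : ℝ) ^ 8 ≤ n := by exact_mod_cast hk
  set r := √√√(n : ℝ) with hr
  have r2 : r ^ 2 = √√(n : ℝ) := sq_sqrt (sqrt_nonneg _)
  have r4 : r ^ 4 = √(n : ℝ) := by
    rw [show r ^ 4 = (r ^ 2) ^ 2 by ring, r2, sq_sqrt (sqrt_nonneg _)]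
  have r8 : r ^ 8 = n := by rw [show r ^ 8 = (r ^ 4) ^ 2 by ring, r4, sq_sqrt (Nat.cast_nonneg _)]
  have rp : 0 ≤ r := sqrt_nonneg _
  have a1 : r0 ≤ r := le_of_pow_le_pow_left₀ (by norm_num) rp (r8 ▸ hn')
  have a2 : (k : ℝ) ≤ r := le_of_pow_le_pow_left₀ (by norm_num) rp (r8 ▸ hk')
  have a3 : 1 ≤ r := r1.trans a1
  have a4 : 2 * L + M ≤ κ' * r := by
    have : (2 * L + M) / κ' ≤ r := by linarith
    rwa [div_le_iff₀' k0] at this
  have a5 : 2 * L * k + M ≤ κ' * r ^ 2 := by nlinarith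
  have a6 : r ^ 2 ≤ r ^ 8 := pow_le_pow_right₀ a3 (by norm_num)
  have a7 : κ' * r ^ 2 ≤ n / 2 := by nlinarith
  have a8 : κ' * r ^ 2 ≤ κ / (k + 1) * √n := by
    rw [← r4, div_mul_eq_mul_div κ, le_div_iff₀ (by positivity)]
    have h1 : (k : ℝ) + 1 ≤ 2 * r ^ 2 := by nlinarith
    calc κ' * r ^ 2 * (k + 1) ≤ κ / 2 * r ^ 2 * (2 * r ^ 2) := by gcongr
      _ = κ * r ^ 4 := by ring
  have b0 : exp (-(κ' * r ^ 2)) ≤ (exp (-L) ^ k) ^ 2 / (64 * Λ) := by
    rw [← hM2, ← exp_nat_mul, ← exp_nat_mul, ← exp_sub]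
    exact exp_le_exp.2 (by push_cast; linarith)
  have b1 : exp (-(n / 2 : ℝ)) ≤ (exp (-L) ^ k) ^ 2 / (64 * Λ) :=
    (exp_le_exp.2 (by linarith)).trans b0
  have b2 : exp (-(κ / (k + 1) * √n)) ≤ (exp (-L) ^ k) ^ 2 / (64 * Λ) :=
    (exp_le_exp.2 (by linarith)).trans b0
  have b3 : (exp (-L) ^ k) ^ 2 ≤ 1 := pow_le_one₀ (by positivity) (pow_le_one₀ hc.le hc1)
  have b4 : 0 ≤ (exp (-L) ^ k) ^ 2 := by positivity
  generalize exp (-L) ^ k = y at *
  have b5 : y ^ 2 / (64 * Λ) ≤ y ^ 2 / 64 :=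
    div_le_div_of_nonneg_left b4 (by norm_num) (by linarith)
  have b6 : Λ * exp (-(κ / (k + 1) * √n)) ≤ y ^ 2 / 64 :=
    (mul_le_mul_of_nonneg_left b2 (by linarith)).trans (le_of_eq (by field_simp))
  refine ⟨?_, by linarith, by rw [div_pow]; linarith⟩
  have : (1 : ℝ) ≤ n := r8 ▸ one_le_pow₀ a3
  exact_mod_cast this

/-- The product of the bumps. -/
noncomputable def EE {k : ℕ} (s : ℝ) (ω : Fin k → Eu n) (x : Eu n) : ℝ :=
  ∏ i, ee ((√(n : ℝ))⁻¹ • x) (ω i) s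

/-- The smoothed density of the random marginal along the diagonal. -/
noncomputable def GG (p : Eu n → ℝ) (k : ℕ) (s : ℝ) (ω : Fin k → Eu n) : ℝ :=
  ∫ x, EE s ω x ∂mu p

variable {k : ℕ} {p : Eu n → ℝ}

theorem EE_pos (s : ℝ) (ω : Fin k → Eu n) (x : Eu n) : 0 < EE s ω x :=
  Finset.prod_pos fun _ _ => ee_pos _ _ _

theorem EE_le (s : ℝ) (ω : Fin k → Eu n) (x : Eu n) : EE s ω x ≤ 1 :=
  Finset.prod_le_one (fun _ _ => (ee_pos _ _ _).le) fun _ _ => ee_le _ _ _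

theorem EE_cont (s : ℝ) : Continuous fun z : (Fin k → Eu n) × Eu n => EE s z.1 z.2 := by
  unfold EE ee; fun_prop

theorem GG_nonneg (s : ℝ) (ω : Fin k → Eu n) : 0 ≤ GG p k s ω :=
  integral_nonneg fun x => (EE_pos s ω x).le

theorem GG_lc (hPL : PLStmt) (hp : Nrm p) (s1 s2 : ℝ) (ω : Fin k → Eu n) :
    GG p k s1 ω * GG p k s2 ω ≤ GG p k ((s1 + s2) / 2) ω ^ 2 := by
  have hc := hp.cont
  have hZ := hp.Zc_pos
  let F : ℝ → Eu n → ℝ := fun s x =>
    p x ^ 2 / 2 + ∑ i, (⟪ω i, (√(n : ℝ))⁻¹ • x⟫ - s) ^ 2 / 2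
  have cF : ∀ s, Continuous (F s) := fun s => by simp only [F]; fun_prop
  have e : ∀ s x, exp (-F s x) = exp (-(p x ^ 2 / 2)) * EE s ω x := fun s x => by
    simp only [F, EE, ee]
    rw [← exp_sum, ← exp_add, Finset.sum_neg_distrib, neg_add]
  have iF : ∀ s, Integrable fun x => exp (-F s x) := fun s =>
    hp.int_w.mono' (by have := cF s; fun_prop) (Eventually.of_forall fun x => by
      rw [Real.norm_of_nonneg (exp_pos _).le, e]
      exact mul_le_of_le_one_right (exp_pos _).le (EE_le s ω x))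
  have e2 : ∀ s, GG p k s ω = (∫ x, exp (-F s x)) / Zc p := fun s => by
    rw [GG, hp.integral_mu, ← integral_div]
    refine integral_congr_ae (Eventually.of_forall fun x => ?_)
    simp only [e]; ring
  have key := pl_real hPL (cF s1) (cF s2) (cF ((s1 + s2) / 2)) (iF _) (iF _) (iF _) fun x y => by
    have h1 := hp.sq_comb (s := 1 / 2) (t := 1 / 2) (by norm_num) (by norm_num) (by norm_num) x y
    have h2 : ∑ i, (⟪ω i, (√(n : ℝ))⁻¹ • ((1 / 2 : ℝ) • x + (1 / 2 : ℝ) • y)⟫ -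
        (s1 + s2) / 2) ^ 2 / 2 ≤ (∑ i, (⟪ω i, (√(n : ℝ))⁻¹ • x⟫ - s1) ^ 2 / 2 +
        ∑ i, (⟪ω i, (√(n : ℝ))⁻¹ • y⟫ - s2) ^ 2 / 2) / 2 := by
      rw [← Finset.sum_add_distrib, Finset.sum_div]
      refine Finset.sum_le_sum fun i _ => ?_
      simp only [inner_add_right, real_inner_smul_right]
      nlinarith [sq_nonneg ((√(n : ℝ))⁻¹ * ⟪ω i, x⟫ - s1 - ((√(n : ℝ))⁻¹ * ⟪ω i, y⟫ - s2))]
    simp only [F]
    linarith
  rw [e2, e2, e2, div_pow, div_mul_div_comm, ← sq]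
  exact div_le_div_of_nonneg_right key (by positivity)

theorem norm_sc (x : Eu n) : ‖(√(n : ℝ))⁻¹ • x‖ ^ 2 = ‖x‖ ^ 2 / n := by
  rw [norm_smul, mul_pow, Real.norm_eq_abs, sq_abs, inv_pow, sq_sqrt (Nat.cast_nonneg n)]
  ring

theorem GG_int (hp : Nrm p) (s : ℝ) :
    Integrable (GG p k s) (Measure.pi fun _ => gam n) ∧
      ∫ ω, GG p k s ω ∂(Measure.pi fun _ => gam n) = Gq p k s := by
  have := hp.prob
  have i1 : Integrable (fun z : (Fin k → Eu n) × Eu n => EE s z.1 z.2)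
      ((Measure.pi fun _ => gam n).prod (mu p)) :=
    int_bdd (EE_cont s).aestronglyMeasurable fun z => by
      rw [abs_of_pos (EE_pos _ _ _)]; exact EE_le _ _ _
  refine ⟨i1.integral_prod_left, ?_⟩
  simp only [GG]
  rw [integral_integral_swap i1, Gq]
  refine integral_congr_ae (Eventually.of_forall fun x => ?_)
  simp only [EE]
  rw [integral_fintype_prod_eq_pow (fun w => ee ((√(n : ℝ))⁻¹ • x) w s), int_ee, norm_sc,
    Fintype.card_fin]

theorem GG_sq (hp : Nrm p) (s : ℝ) :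
    Integrable (fun ω => GG p k s ω ^ 2) (Measure.pi fun _ => gam n) ∧
      ∫ ω, GG p k s ω ^ 2 ∂(Measure.pi fun _ => gam n) =
        ∫ z, (∫ w, ee ((√(n : ℝ))⁻¹ • z.1) w s * ee ((√(n : ℝ))⁻¹ • z.2) w s ∂gam n) ^ k
          ∂(mu p).prod (mu p) := by
  have := hp.prob
  have i1 : Integrable (fun z : (Fin k → Eu n) × (Eu n × Eu n) => EE s z.1 z.2.1 * EE s z.1 z.2.2)
      ((Measure.pi fun _ => gam n).prod ((mu p).prod (mu p))) := by
    refine int_bdd (Continuous.aestronglyMeasurable ?_) fun z => ?_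
    · unfold EE ee; fun_prop
    · rw [abs_of_pos (mul_pos (EE_pos _ _ _) (EE_pos _ _ _))]
      exact mul_le_one₀ (EE_le _ _ _) (EE_pos _ _ _).le (EE_le _ _ _)
  have e : ∀ ω, GG p k s ω ^ 2 = ∫ z, EE s ω z.1 * EE s ω z.2 ∂(mu p).prod (mu p) := fun ω => by
    rw [integral_prod_mul (EE s ω) (EE s ω), sq, GG]
  simp only [e]
  refine ⟨i1.integral_prod_left, ?_⟩
  rw [integral_integral_swap i1]
  refine integral_congr_ae (Eventually.of_forall fun z => ?_)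
  simp only [EE, ← Finset.prod_mul_distrib]
  rw [integral_fintype_prod_eq_pow
    (fun w => ee ((√(n : ℝ))⁻¹ • z.1) w s * ee ((√(n : ℝ))⁻¹ • z.2) w s), Fintype.card_fin]

/-- Majorant of the indicator of the set where `p` is large. -/
noncomputable def f1 (p : Eu n → ℝ) (x : Eu n) : ℝ :=
  exp ((1 - (1 / 2 : ℝ) ^ 2) * p x ^ 2 / 2) * exp (-(3 * n / 2 : ℝ))

theorem f1_pos (x : Eu n) : 0 < f1 p x := by unfold f1; positivity

theorem f1_ge {x : Eu n} (h : 4 * n ≤ p x ^ 2) : 1 ≤ f1 p x := by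
  rw [f1, ← exp_add]; exact one_le_exp (by linarith)

theorem f1_int (hp : Nrm p) :
    Integrable (f1 p) (mu p) ∧ ∫ x, f1 p x ∂mu p ≤ exp (-(n / 2 : ℝ)) := by
  obtain ⟨h1, h2⟩ := hp.mgf (c := 1 / 2) (by norm_num)
  refine ⟨h1.mul_const _, ?_⟩
  simp only [f1]
  have h3 : (2 : ℝ) ^ n ≤ exp n := by
    rw [← mul_one (n : ℝ), exp_nat_mul]
    exact pow_le_pow_left₀ (by norm_num) (by linarith [add_one_le_exp 1]) n
  rw [integral_mul_const, h2, one_div, inv_pow, inv_inv,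
    show -(n / 2 : ℝ) = n + -(3 * n / 2) by ring, exp_add]
  exact mul_le_mul_of_nonneg_right h3 (exp_pos _).le

/-- Majorant of the indicator of the set where the inner product is large. -/
noncomputable def f2 (Λ t : ℝ) (z : Eu n × Eu n) : ℝ :=
  exp (|⟪z.1, ‖z.2‖⁻¹ • z.2⟫| / Λ) * exp (-t)

theorem f2_pos (Λ t : ℝ) (z : Eu n × Eu n) : 0 < f2 Λ t z := by unfold f2; positivity

theorem f2_int {Λ : ℝ} (hΛ : 1 ≤ Λ) (hp : Tame Λ p) (t : ℝ) :
    Integrable (f2 Λ t) ((mu p).prod (mu p)) ∧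
      ∫ z, f2 Λ t z ∂(mu p).prod (mu p) ≤ Λ * exp (-t) := by
  have := hp.nrm.prob
  have hu : ∀ y : Eu n, ‖‖y‖⁻¹ • y‖ ≤ 1 := fun y => by
    rw [norm_smul, norm_inv, norm_norm]; exact inv_mul_le_one
  have i0 : Integrable (fun z : Eu n × Eu n => exp (|⟪z.1, ‖z.2‖⁻¹ • z.2⟫| / Λ))
      ((mu p).prod (mu p)) := by
    refine ((hp.nrm.int_exp_norm 1).comp_fst (mu p)).mono'
      (Measurable.aestronglyMeasurable (by fun_prop)) (Eventually.of_forall fun z => ?_)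
    rw [Real.norm_of_nonneg (exp_pos _).le, one_mul]
    refine exp_le_exp.2 ((div_le_self (abs_nonneg _) hΛ).trans
      ((abs_real_inner_le_norm _ _).trans ?_))
    exact mul_le_of_le_one_right (norm_nonneg _) (hu _)
  refine ⟨i0.mul_const _, ?_⟩
  simp only [f2]
  rw [integral_mul_const, integral_prod_symm _ i0]
  refine mul_le_mul_of_nonneg_right ?_ (exp_pos _).le
  refine (integral_mono i0.integral_prod_right (integrable_const Λ) fun y => ?_).trans (by simp)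
  rcases eq_or_ne y 0 with rfl | hy
  · simpa using hΛ
  · have h1 : ‖‖y‖⁻¹ • y‖ = 1 := by
      rw [norm_smul, norm_inv, norm_norm, inv_mul_cancel₀ (norm_ne_zero_iff.2 hy)]
    exact hp.psi (‖y‖⁻¹ • y) h1

theorem small {Λ : ℝ} (hp : Tame Λ p) (hn : 1 ≤ n) {x : Eu n}
    (h : p x ^ 2 ≤ 4 * n) : ‖x‖ ^ 2 / n ≤ 4 * Λ ^ 2 := by
  have h0 : (0 : ℝ) < n := by exact_mod_cast hn
  have h1 := pow_le_pow_left₀ (norm_nonneg _) (hp.lo x) 2
  rw [div_le_iff₀ h0]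
  nlinarith [mul_le_mul_of_nonneg_left h (sq_nonneg Λ)]

theorem Gq_ge {Λ R s : ℝ} (hΛ : 1 ≤ Λ) (hp : Tame Λ p) (hn : 1 ≤ n)
    (hn2 : exp (-(n / 2 : ℝ)) ≤ 1 / 2) (h1 : 1 ≤ s) (h2 : s ≤ R) :
    (qq (4 * Λ ^ 2) R * exp (-(R ^ 2 / 2))) ^ k / 2 ≤ Gq p k s := by
  have := hp.nrm.prob
  obtain ⟨i1, b1⟩ := f1_int hp.nrm
  have hc : 0 < qq (4 * Λ ^ 2) R * exp (-(R ^ 2 / 2)) :=
    mul_pos (qq_pos (by positivity) R) (exp_pos _)
  have key : ∀ x, (qq (4 * Λ ^ 2) R * exp (-(R ^ 2 / 2))) ^ k * (1 - f1 p x) ≤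
      qq (‖x‖ ^ 2 / n) s ^ k := fun x => by
    rcases le_total (p x ^ 2) (4 * n) with h | h
    · exact (mul_le_of_le_one_right (by positivity) (by linarith [f1_pos (p := p) x])).trans
        (pow_le_pow_left₀ hc.le (qq_ge (by positivity) (small hp hn h) h1 h2) k)
    · exact (mul_nonpos_of_nonneg_of_nonpos (by positivity) (by linarith [f1_ge h])).trans
        (pow_nonneg (qq_pos (by positivity) s).le k)
  have i2 : Integrable (fun x : Eu n => qq (‖x‖ ^ 2 / n) s ^ k) (mu p) :=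
    int_bdd (Measurable.aestronglyMeasurable (by unfold qq; fun_prop)) fun x => by
      rw [abs_of_pos (pow_pos (qq_pos (by positivity) s) k)]
      exact pow_le_one₀ (qq_pos (by positivity) s).le (qq_le (by positivity) s)
  have h3 := integral_mono (((integrable_const (1 : ℝ)).sub i1).const_mul _) i2 key
  simp only [Pi.sub_apply] at h3
  rw [integral_const_mul, integral_sub (integrable_const _) i1, integral_const, probReal_univ,
    one_smul] at h3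
  refine le_trans ?_ h3
  rw [div_eq_mul_one_div]
  exact mul_le_mul_of_nonneg_left (by linarith) (by positivity)

theorem point {Λ R s c : ℝ} (hΛ : 1 ≤ Λ) (hp : Tame Λ p) (hn : 1 ≤ n) (h1 : 1 ≤ s) (h2 : s ≤ R)
    (hc : c = qq (4 * Λ ^ 2) R * exp (-(R ^ 2 / 2))) (z : Eu n × Eu n) :
    (∫ w, ee ((√(n : ℝ))⁻¹ • z.1) w s * ee ((√(n : ℝ))⁻¹ • z.2) w s ∂gam n) ^ k ≤
      5 / 4 * (qq (‖z.1‖ ^ 2 / n) s ^ k * qq (‖z.2‖ ^ 2 / n) s ^ k) + f1 p z.1 + f1 p z.2 +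
        f2 Λ (c ^ 2 / (10 * Λ ^ 2 * (C0 + 1)) / (k + 1) * √n) z := by
  obtain ⟨x, y⟩ := z
  have h0 : (0 : ℝ) < n := by exact_mod_cast hn
  have hs : 0 < √(n : ℝ) := sqrt_pos.2 h0
  have hC := C0_nonneg
  have q1 := qq_pos (t := ‖x‖ ^ 2 / n) (by positivity) s
  have q2 := qq_pos (t := ‖y‖ ^ 2 / n) (by positivity) s
  have a1 := f1_pos (p := p) x
  have a2 := f1_pos (p := p) y
  have a3 := f2_pos Λ (c ^ 2 / (10 * Λ ^ 2 * (C0 + 1)) / (k + 1) * √n) (x, y)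
  have a4 : 0 ≤ qq (‖x‖ ^ 2 / n) s ^ k * qq (‖y‖ ^ 2 / n) s ^ k := by positivity
  have b0 : 0 ≤ ∫ w, ee ((√(n : ℝ))⁻¹ • x) w s * ee ((√(n : ℝ))⁻¹ • y) w s ∂gam n :=
    integral_nonneg fun w => (mul_pos (ee_pos _ _ _) (ee_pos _ _ _)).le
  have b1 : (∫ w, ee ((√(n : ℝ))⁻¹ • x) w s * ee ((√(n : ℝ))⁻¹ • y) w s ∂gam n) ^ k ≤ 1 := by
    refine pow_le_one₀ b0 ((integral_mono_of_nonneg (Eventually.of_forall fun w =>
      (mul_pos (ee_pos _ _ _) (ee_pos _ _ _)).le) (integrable_const (1 : ℝ))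
      (Eventually.of_forall fun w => ?_)).trans (by simp))
    exact mul_le_one₀ (ee_le _ _ _) (ee_pos _ _ _).le (ee_le _ _ _)
  simp only at b1 ⊢
  rcases le_total (4 * n : ℝ) (p x ^ 2) with hx | hx
  · linarith [f1_ge hx]
  rcases le_total (4 * n : ℝ) (p y ^ 2) with hy | hy
  · linarith [f1_ge hy]
  rcases le_total (c ^ 2 / (10 * Λ ^ 2 * (C0 + 1)) / (k + 1) * √n) (|⟪x, ‖y‖⁻¹ • y⟫| / Λ)
    with hz | hz
  · have : 1 ≤ f2 Λ (c ^ 2 / (10 * Λ ^ 2 * (C0 + 1)) / (k + 1) * √n) (x, y) := by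
      rw [f2, ← exp_add]; exact one_le_exp (by linarith)
    linarith
  have c0 : 0 < c := hc ▸ mul_pos (qq_pos (by positivity) R) (exp_pos _)
  have c1 : c ≤ qq (‖x‖ ^ 2 / n) s := hc ▸ qq_ge (by positivity) (small hp hn hx) h1 h2
  have c2 : c ≤ qq (‖y‖ ^ 2 / n) s := hc ▸ qq_ge (by positivity) (small hp hn hy) h1 h2
  have d1 : ‖y‖ ≤ 2 * Λ * √n := by
    refine le_of_pow_le_pow_left₀ two_ne_zero (by positivity) ?_
    have := small hp hn hy
    rw [div_le_iff₀ h0] at this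
    rw [mul_pow, mul_pow, sq_sqrt h0.le]; linarith
  have d2 : |⟪x, y⟫| = ‖y‖ * |⟪x, ‖y‖⁻¹ • y⟫| := by
    rcases eq_or_ne y 0 with rfl | hy0
    · simp
    · rw [real_inner_smul_right, abs_mul, abs_inv, abs_norm,
        mul_inv_cancel_left₀ (norm_ne_zero_iff.2 hy0)]
  have d3 : |⟪(√(n : ℝ))⁻¹ • x, (√(n : ℝ))⁻¹ • y⟫| ≤ c ^ 2 / (5 * (C0 + 1) * (k + 1)) := by
    rw [div_le_iff₀ (by positivity)] at hz
    rw [real_inner_smul_left, real_inner_smul_right, abs_mul, abs_mul, abs_of_pos (inv_pos.2 hs),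
      d2]
    refine (mul_le_mul_of_nonneg_left (mul_le_mul_of_nonneg_left
      (mul_le_mul d1 hz (abs_nonneg _) (by positivity)) (by positivity))
      (by positivity)).trans (le_of_eq ?_)
    field_simp
    norm_num
  have d4 : C0 * |⟪(√(n : ℝ))⁻¹ • x, (√(n : ℝ))⁻¹ • y⟫| ≤
      qq (‖x‖ ^ 2 / n) s * qq (‖y‖ ^ 2 / n) s * (1 / (5 * (k + 1))) := by
    refine (mul_le_mul (le_add_of_nonneg_right zero_le_one) d3 (abs_nonneg _)
      (by positivity)).trans ?_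
    rw [show (C0 + 1) * (c ^ 2 / (5 * (C0 + 1) * (k + 1))) = c * c * (1 / (5 * (k + 1))) by
      field_simp]
    exact mul_le_mul_of_nonneg_right (mul_le_mul c1 c2 c0.le q1.le) (by positivity)
  have d5 := q2_le ((√(n : ℝ))⁻¹ • x) ((√(n : ℝ))⁻¹ • y) s
  rw [norm_sc, norm_sc] at d5
  have d6 : (1 + 1 / (5 * (k + 1)) : ℝ) ^ k ≤ 5 / 4 := by
    have e1 : (1 + 1 / (5 * (k + 1)) : ℝ) ^ k ≤ exp (1 / (5 * (k + 1))) ^ k :=
      pow_le_pow_left₀ (by positivity) (by linarith [add_one_le_exp (1 / (5 * (k + 1)) : ℝ)]) k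
    have e2 : (k : ℝ) * (1 / (5 * (k + 1))) ≤ 1 / 5 := by
      rw [mul_one_div, div_le_div_iff₀ (by positivity) (by norm_num)]; linarith
    have e3 := exp_bound_div_one_sub_of_interval (x := 1 / 5) (by norm_num) (by norm_num)
    rw [← exp_nat_mul] at e1
    exact e1.trans ((exp_le_exp.2 e2).trans (e3.trans (by norm_num)))
  have d7 := pow_le_pow_left₀ b0 (d5.trans (show _ ≤ qq (‖x‖ ^ 2 / n) s * qq (‖y‖ ^ 2 / n) s *
    (1 + 1 / (5 * (k + 1))) by linarith)) k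
  rw [mul_pow, mul_pow] at d7
  nlinarith [mul_le_mul_of_nonneg_left d6 a4]

theorem var {Λ R s c : ℝ} (hΛ : 1 ≤ Λ) (hp : Tame Λ p) (hn : 1 ≤ n) (h1 : 1 ≤ s) (h2 : s ≤ R)
    (hc : c = qq (4 * Λ ^ 2) R * exp (-(R ^ 2 / 2))) (hn2 : exp (-(n / 2 : ℝ)) ≤ 1 / 2)
    (hn3 : 2 * exp (-(n / 2 : ℝ)) + Λ * exp (-(c ^ 2 / (10 * Λ ^ 2 * (C0 + 1)) / (k + 1) * √n)) ≤
      (c ^ k / 2) ^ 2 / 4) :
    ∫ ω, GG p k s ω ^ 2 ∂(Measure.pi fun _ => gam n) ≤ 3 / 2 * Gq p k s ^ 2 := by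
  have := hp.nrm.prob
  obtain ⟨i1, b1⟩ := f1_int hp.nrm
  obtain ⟨i2, b2⟩ := f2_int hΛ hp (c ^ 2 / (10 * Λ ^ 2 * (C0 + 1)) / (k + 1) * √n)
  have i3 : Integrable (fun x : Eu n => qq (‖x‖ ^ 2 / n) s ^ k) (mu p) :=
    int_bdd (Measurable.aestronglyMeasurable (by unfold qq; fun_prop)) fun x => by
      rw [abs_of_pos (pow_pos (qq_pos (by positivity) s) k)]
      exact pow_le_one₀ (qq_pos (by positivity) s).le (qq_le (by positivity) s)
  have j0 : Integrable (fun z : Eu n × Eu n =>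
      5 / 4 * (qq (‖z.1‖ ^ 2 / n) s ^ k * qq (‖z.2‖ ^ 2 / n) s ^ k)) ((mu p).prod (mu p)) :=
    (i3.mul_prod i3).const_mul _
  have j1 : Integrable (fun z : Eu n × Eu n =>
      5 / 4 * (qq (‖z.1‖ ^ 2 / n) s ^ k * qq (‖z.2‖ ^ 2 / n) s ^ k) + f1 p z.1)
      ((mu p).prod (mu p)) := j0.add (i1.comp_fst _)
  have j2 : Integrable (fun z : Eu n × Eu n =>
      5 / 4 * (qq (‖z.1‖ ^ 2 / n) s ^ k * qq (‖z.2‖ ^ 2 / n) s ^ k) + f1 p z.1 + f1 p z.2)
      ((mu p).prod (mu p)) := j1.add (i1.comp_snd _)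
  have h3 := integral_mono_of_nonneg (Eventually.of_forall fun z => pow_nonneg
    (integral_nonneg fun w => (mul_pos (ee_pos _ _ _) (ee_pos _ _ _)).le) k) (j2.add i2)
    (Eventually.of_forall (point (k := k) hΛ hp hn h1 h2 hc))
  simp only [Pi.add_apply] at h3
  rw [integral_add j2 i2, integral_add j1 (i1.comp_snd _), integral_add j0 (i1.comp_fst _),
    integral_const_mul, integral_prod_mul (fun x : Eu n => qq (‖x‖ ^ 2 / n) s ^ k)
      (fun x : Eu n => qq (‖x‖ ^ 2 / n) s ^ k), integral_fun_fst, integral_fun_snd,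
    probReal_univ, one_smul] at h3
  have h4 := Gq_ge (k := k) hΛ hp hn hn2 h1 h2
  rw [← hc] at h4
  have c0 : 0 < c := hc ▸ mul_pos (qq_pos (by positivity) R) (exp_pos _)
  have h5 := pow_le_pow_left₀ (by positivity) h4 2
  rw [(GG_sq hp.nrm s).2]
  refine h3.trans ?_
  change 5 / 4 * (Gq p k s * Gq p k s) + _ + _ + _ ≤ _
  nlinarith

end Tsa

open Tsa in
theorem tsa (hPL : PLStmt) (_hT : TailStmt) : TsaStmt := by
  intro Λ R hΛ hR
  obtain ⟨c, hc⟩ : ∃ c, c = qq (4 * Λ ^ 2) R * exp (-(R ^ 2 / 2)) := ⟨_, rfl⟩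
  have c0 : 0 < c := hc ▸ mul_pos (qq_pos (by positivity) R) (exp_pos _)
  have c1 : c ≤ 1 := hc ▸ mul_le_one₀ (qq_le (by positivity) R) (exp_pos _).le
    (exp_le_one_iff.2 (neg_nonpos.2 (by positivity)))
  have hC := C0_nonneg
  obtain ⟨n0, h0⟩ := asym hΛ c0 c1 (κ := c ^ 2 / (10 * Λ ^ 2 * (C0 + 1))) (by positivity)
  refine ⟨n0, fun n hn k hk p hp s1 hs1 s2 hs2 => ?_⟩
  obtain ⟨hn1, hn2, hn3⟩ := h0 n hn k hk
  have g : ∀ s ∈ Icc 1 R, 0 < Gq p k s := fun s hs =>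
    lt_of_lt_of_le (by rw [← hc]; positivity) (Gq_ge hΛ hp hn1 hn2 hs.1 hs.2)
  rw [← (GG_int hp.nrm ((s1 + s2) / 2)).2]
  exact second _ (g s1 hs1) (g s2 hs2) (GG_int hp.nrm s1).1 (GG_int hp.nrm s2).1
    (GG_sq hp.nrm s1).1 (GG_sq hp.nrm s2).1 (GG_int hp.nrm _).1 (GG_int hp.nrm s1).2
    (GG_int hp.nrm s2).2 (var hΛ hp hn1 hs1.1 hs1.2 hc hn2 hn3)
    (var hΛ hp hn1 hs2.1 hs2.2 hc hn2 hn3) (GG_nonneg s1) (GG_nonneg s2) (GG_nonneg _)
    (GG_lc hPL hp.nrm s1 s2)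

end Pool.Agent.MP_2a44fd_gt.hd

end MrgPart1

-- ======== part 2: formerly Pool.Agent.MP_2a44fd_gt.hd.Q4b
section MrgPart2

/-!
PROJECT BP5HD, module Q4B: the fourth order term is small against the good and the bad part.
-/

set_option autoImplicit false

open MeasureTheory Real Set Filter Topology
open scoped RealInnerProductSpace ENNReal

namespace Pool.Agent.MP_2a44fd_gt.hd

namespace Q4b

section General

variable {X : Type} [MeasurableSpace X] {μ : Measure X} {f g : X → ℝ} {A B : ℝ}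

/-- The function `f` has `L2` norm at most `A`. -/
structure L2 (μ : Measure X) (f : X → ℝ) (A : ℝ) : Prop where
  meas : AEStronglyMeasurable f μ
  int : Integrable (fun x => f x ^ 2) μ
  le : ∫ x, f x ^ 2 ∂μ ≤ A ^ 2
  pos : 0 ≤ A

theorem L2.cs (hf : L2 μ f A) (hg : L2 μ g B) :
    Integrable (fun x => f x * g x) μ ∧ ∫ x, |f x * g x| ∂μ ≤ A * B := by
  have h1 : Integrable (fun x => f x * g x) μ := by
    refine (hf.int.add hg.int).mono' (hf.meas.mul hg.meas) (ae_of_all _ fun x => ?_)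
    rw [norm_mul, Real.norm_eq_abs, Real.norm_eq_abs, Pi.add_apply, ← sq_abs (f x), ← sq_abs (g x)]
    nlinarith [sq_nonneg (|f x| - |g x|), mul_nonneg (abs_nonneg (f x)) (abs_nonneg (g x))]
  refine ⟨h1, ?_⟩
  have h2 : ∀ t : ℝ, 0 ≤ (∫ x, f x ^ 2 ∂μ) * (t * t) + (-2 * ∫ x, |f x * g x| ∂μ) * t +
      ∫ x, g x ^ 2 ∂μ := by
    intro t
    have h3 : Integrable (fun x => f x ^ 2 * (t * t) + -2 * |f x * g x| * t) μ :=
      (hf.int.mul_const _).add ((h1.abs.const_mul _).mul_const _)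
    rw [← integral_mul_const, ← integral_const_mul, ← integral_mul_const,
      ← integral_add (hf.int.mul_const _) ((h1.abs.const_mul _).mul_const _),
      ← integral_add h3 hg.int]
    refine integral_nonneg fun x => ?_
    rw [Pi.zero_apply, abs_mul, ← sq_abs (f x), ← sq_abs (g x)]
    nlinarith [sq_nonneg (|f x| * t - |g x|)]
  have h4 := discrim_le_zero h2
  rw [discrim] at h4
  have h5 : (∫ x, f x ^ 2 ∂μ) * ∫ x, g x ^ 2 ∂μ ≤ A ^ 2 * B ^ 2 :=
    mul_le_mul hf.le hg.le (integral_nonneg fun _ => sq_nonneg _) (sq_nonneg _)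
  exact (le_abs_self _).trans (abs_le_of_sq_le_sq' (by nlinarith) (mul_nonneg hf.pos hg.pos)
    |> abs_le.2)

theorem L2.abs_le (hf : L2 μ f A) (hg : L2 μ g B) : |∫ x, f x * g x ∂μ| ≤ A * B :=
  abs_integral_le_integral_abs.trans (hf.cs hg).2

theorem L2.ind [IsFiniteMeasure μ] {E : Set X} (hE : MeasurableSet E) (hA : 0 ≤ A)
    (h : μ.real E ≤ A ^ 2) : L2 μ (E.indicator 1) A := by
  have h1 : (fun x => E.indicator (1 : X → ℝ) x ^ 2) = E.indicator 1 := by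
    ext x; by_cases hx : x ∈ E <;> simp [hx]
  refine ⟨(measurable_one.indicator hE).aestronglyMeasurable, ?_, ?_, hA⟩
  · rw [h1]; exact (integrable_const 1).indicator hE
  · rw [h1, integral_indicator_one hE]; exact h

theorem L2.one [IsProbabilityMeasure μ] : L2 μ (fun _ => 1) 1 :=
  ⟨aestronglyMeasurable_const, integrable_const _, by simp, zero_le_one⟩

/-- Restriction to a small set of a function with a fourth moment. -/
theorem L2.ind_mul [IsFiniteMeasure μ] {E : Set X} (hE : MeasurableSet E) (hA : 0 ≤ A)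
    (h : μ.real E ≤ A ^ 4) (hm : AEStronglyMeasurable f μ) (hB : 0 ≤ B)
    (hf : L2 μ (fun x => f x ^ 2) (B ^ 2)) : L2 μ (fun x => E.indicator 1 x * f x) (A * B) := by
  have h0 := L2.ind (μ := μ) hE (sq_nonneg A) (by rwa [← pow_mul])
  have h1 : (fun x => (E.indicator (1 : X → ℝ) x * f x) ^ 2) =
      fun x => E.indicator 1 x * f x ^ 2 := by
    ext x; by_cases hx : x ∈ E <;> simp [hx]
  refine ⟨h0.meas.mul hm, ?_, ?_, mul_nonneg hA hB⟩
  · rw [h1]; exact (h0.cs hf).1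
  · rw [h1, mul_pow]; exact (le_abs_self _).trans (h0.abs_le hf)

theorem abs_int_le (hg : Integrable g μ) (h : ∀ x, |f x| ≤ g x) :
    |∫ x, f x ∂μ| ≤ ∫ x, g x ∂μ := by
  rw [← Real.norm_eq_abs]
  exact norm_integral_le_of_norm_le hg (ae_of_all _ h)

theorem abs_mul_le (hf : Integrable f μ) (h : ∀ x, |g x| ≤ B) (hA : ∫ x, |f x| ∂μ ≤ A)
    (hB : 0 ≤ B) : |∫ x, f x * g x ∂μ| ≤ A * B := by
  refine (abs_int_le (hf.abs.mul_const B) fun x => ?_).trans ?_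
  · rw [abs_mul]; exact mul_le_mul_of_nonneg_left (h x) (abs_nonneg _)
  · rw [integral_mul_const]; exact mul_le_mul_of_nonneg_right hA hB

end General

variable {n : ℕ}

/-- The moment bounds used below. -/
structure Mo (μ : Measure (Eu n)) (K s : ℝ) : Prop where
  m0 : L2 μ (fun x => ‖x‖⁻¹ ^ 2) ((K / s) ^ 2)
  m1 : ∀ y, L2 μ (fun x => ‖x‖⁻¹ * cs x y ^ 1) (K / s ^ 2)
  m4 : ∀ y, L2 μ (fun x => ‖x‖⁻¹ * cs x y ^ 4) (K / s ^ 5)

theorem meas_cs1 (y : Eu n) : Measurable fun x => cs x y :=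
  meas_cs.comp (measurable_id.prodMk measurable_const)

theorem meas_inv : Measurable fun x : Eu n => ‖x‖⁻¹ := measurable_norm.inv

theorem cs_eq (x y : Eu n) : cs x y = ‖x‖⁻¹ * ⟪x, ‖y‖⁻¹ • y⟫ := by
  rw [cs, inner_smul_right, div_eq_mul_inv, mul_inv]; ring

theorem cs_eq2 (x y : Eu n) : cs x y = ⟪‖x‖⁻¹ • x, ‖y‖⁻¹ • y⟫ := by
  rw [cs_eq, real_inner_smul_left]

theorem l2_cs {μ : Measure (Eu n)} {m : ℕ} (hm : 1 ≤ m) {C A : ℝ} (hA : 0 ≤ A) (hC : C ≤ A ^ 2)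
    (h : ∀ v : Eu n, ‖v‖ = 1 → Integrable (fun x => |⟪x, v⟫| ^ (2 * m) / ‖x‖ ^ (2 * m + 2)) μ ∧
      ∫ x, |⟪x, v⟫| ^ (2 * m) / ‖x‖ ^ (2 * m + 2) ∂μ ≤ C) (y : Eu n) :
    L2 μ (fun x => ‖x‖⁻¹ * cs x y ^ m) A := by
  have h0 : AEStronglyMeasurable (fun x : Eu n => ‖x‖⁻¹ * cs x y ^ m) μ :=
    (meas_inv.mul ((meas_cs1 y).pow_const m)).aestronglyMeasurable
  by_cases hy : y = 0
  · have h1 : (fun x : Eu n => (‖x‖⁻¹ * cs x y ^ m) ^ 2) = fun _ => 0 := by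
      ext x; simp [cs, hy, show m ≠ 0 by omega]
    exact ⟨h0, h1 ▸ integrable_zero _ _ _, by rw [h1, integral_zero]; positivity, hA⟩
  · obtain ⟨h2, h3⟩ := h (‖y‖⁻¹ • y) (norm_smul_inv_norm hy)
    have h1 : (fun x : Eu n => (‖x‖⁻¹ * cs x y ^ m) ^ 2) =
        fun x => |⟪x, ‖y‖⁻¹ • y⟫| ^ (2 * m) / ‖x‖ ^ (2 * m + 2) := by
      ext x
      rw [cs_eq, pow_mul |_|, sq_abs, div_eq_mul_inv, ← inv_pow]; ring
    exact ⟨h0, h1 ▸ h2, h1 ▸ h3.trans hC, hA⟩

theorem exists_mo (hm : MomStmt) {Λ : ℝ} (hΛ : 1 ≤ Λ) : ∃ (K : ℝ) (n0 : ℕ), 1 ≤ K ∧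
    ∀ n ≥ n0, ∀ p : Eu n → ℝ, Tame Λ p → Mo (mu p) K √(n : ℝ) := by
  obtain ⟨C1, n1, h1, H1⟩ := hm Λ hΛ (2 * 1 + 2) (2 * 1)
  obtain ⟨C2, n2, h2, H2⟩ := hm Λ hΛ (2 * 4 + 2) (2 * 4)
  obtain ⟨K, hK, a1, a2⟩ : ∃ K : ℝ, 1 ≤ K ∧ C1 ≤ K ∧ C2 ≤ K :=
    ⟨1 + C1 + C2, by linarith, by linarith, by linarith⟩
  have a3 : K ≤ K ^ 2 := le_self_pow₀ hK two_ne_zero
  have a4 : K ≤ K ^ 4 := le_self_pow₀ hK (by norm_num)
  refine ⟨K, max n1 n2, hK, fun n hn p hp => ?_⟩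
  obtain ⟨⟨b1, b2⟩, b3, -⟩ := H1 n (le_of_max_le_left hn) p hp
  obtain ⟨-, b4, -⟩ := H2 n (le_of_max_le_right hn) p hp
  have hs : 0 ≤ √(n : ℝ) := sqrt_nonneg _
  generalize √(n : ℝ) = s at *
  have h3 : (fun x : Eu n => (‖x‖⁻¹ ^ 2) ^ 2) = fun x => 1 / ‖x‖ ^ (2 * 1 + 2) := by
    ext x; rw [one_div, ← inv_pow]; ring
  refine ⟨⟨(meas_inv.pow_const 2).aestronglyMeasurable, h3 ▸ b1, h3 ▸ b2.trans ?_, by positivity⟩,
    l2_cs le_rfl (by positivity) ?_ b3, l2_cs (by norm_num) (by positivity) ?_ b4⟩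
  · rw [← pow_mul, div_pow]; exact div_le_div_of_nonneg_right (a1.trans a4) (by positivity)
  · rw [div_pow, ← pow_mul]; exact div_le_div_of_nonneg_right (by linarith) (by positivity)
  · rw [div_pow, ← pow_mul]; exact div_le_div_of_nonneg_right (by linarith) (by positivity)

theorem Mo.ind {μ : Measure (Eu n)} [IsFiniteMeasure μ] {K s w : ℝ} (H : Mo μ K s)
    (hK : 0 ≤ K / s) {E : Set (Eu n)} (hE : MeasurableSet E) (hw : 0 ≤ w) (h : μ.real E ≤ w ^ 4) :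
    L2 μ (fun x => E.indicator 1 x * ‖x‖⁻¹) (w * (K / s)) :=
  L2.ind_mul hE hw h meas_inv.aestronglyMeasurable hK H.m0

theorem Mo.inv {μ : Measure (Eu n)} [IsProbabilityMeasure μ] {K s : ℝ} (H : Mo μ K s)
    (hK : 0 ≤ K / s) : L2 μ (fun x => ‖x‖⁻¹) (K / s) := by
  simpa using H.ind hK MeasurableSet.univ zero_le_one (by simp)

/-- The angular operator. -/
noncomputable def T (m : ℕ) (f : Eu n → ℝ) (y : Eu n) : ℝ := ∫ x, f x * cs x y ^ m ∂gam n

theorem dbl (m : ℕ) {f g : Eu n → ℝ} (hf : Integrable f (gam n)) (hg : Integrable g (gam n)) :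
    Integrable (fun z : Eu n × Eu n => f z.1 * g z.2 * cs z.1 z.2 ^ m) ((gam n).prod (gam n)) ∧
    ∫ z, f z.1 * g z.2 * cs z.1 z.2 ^ m ∂(gam n).prod (gam n) = ∫ y, g y * T m f y ∂gam n ∧
    ∫ z, f z.1 * g z.2 * cs z.1 z.2 ^ m ∂(gam n).prod (gam n) = ∫ x, f x * T m g x ∂gam n := by
  have h1 : Integrable (fun z : Eu n × Eu n => f z.1 * g z.2 * cs z.1 z.2 ^ m)
      ((gam n).prod (gam n)) :=
    (hf.mul_prod hg).mul_bdd (c := 1) (meas_cs.pow_const m).aestronglyMeasurable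
      (ae_of_all _ fun z => by
        rw [norm_pow, Real.norm_eq_abs]; exact pow_le_one₀ (abs_nonneg _) (abs_cs_le _ _))
  refine ⟨h1, ?_, ?_⟩
  · rw [integral_prod_symm _ h1]
    refine integral_congr_ae (ae_of_all _ fun y => ?_)
    simp only [T, ← integral_const_mul]
    exact integral_congr_ae (ae_of_all _ fun x => by ring)
  · rw [integral_prod _ h1]
    refine integral_congr_ae (ae_of_all _ fun x => ?_)
    simp only [T, ← integral_const_mul]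
    exact integral_congr_ae (ae_of_all _ fun y => by simp only [cs_comm x y]; ring)

/-- The centred fourth power in the direction of `x`. -/
noncomputable def ph (x y : Eu n) : ℝ := ⟪y, ‖x‖⁻¹ • x⟫ ^ 4 - 3

theorem meas_ph : Measurable fun z : Eu n × Eu n => ph z.1 z.2 := by
  unfold ph; fun_prop

theorem abs_ph_le (x y : Eu n) : |ph x y| ≤ ‖y‖ ^ 4 + 3 := by
  have h1 : ‖‖x‖⁻¹ • x‖ ≤ 1 := by
    by_cases hx : x = 0
    · simp [hx]
    · exact (norm_smul_inv_norm hx).le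
  have h2 : |⟪y, ‖x‖⁻¹ • x⟫| ≤ ‖y‖ :=
    (abs_real_inner_le_norm _ _).trans (mul_le_of_le_one_right (norm_nonneg _) h1)
  have h3 := pow_le_pow_left₀ (abs_nonneg _) h2 4
  rw [← abs_pow] at h3
  exact (abs_sub _ _).trans (add_le_add h3 (by norm_num))

theorem cov_ph (hc : Cov4Stmt) {x x' : Eu n} (hx : x ≠ 0) (hx' : x' ≠ 0) :
    ∫ y, ph x y * ph x' y ∂gam n = 72 * cs x x' ^ 2 + 24 * cs x x' ^ 4 := by
  have ha := norm_smul_inv_norm (𝕜 := ℝ) hx
  have hb := norm_smul_inv_norm (𝕜 := ℝ) hx'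
  simp only [RCLike.ofReal_real_eq_id, id] at ha hb
  rw [cs_eq2]
  simp only [ph]
  generalize ‖x‖⁻¹ • x = a at *
  generalize ‖x'‖⁻¹ • x' = b at *
  have i1 : Integrable (fun y => ⟪y, a⟫ ^ 4) (gam n) := nrm_norm.int_inner_pow a 4
  have i2 : Integrable (fun y => ⟪y, b⟫ ^ 4) (gam n) := nrm_norm.int_inner_pow b 4
  have i3 : Integrable (fun y => ⟪y, a⟫ ^ 4 * ⟪y, b⟫ ^ 4) (gam n) := by
    refine ((nrm_norm.int_inner_pow a 8).add (nrm_norm.int_inner_pow b 8)).mono'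
      (i1.1.mul i2.1) (ae_of_all _ fun y => ?_)
    rw [Real.norm_eq_abs, abs_of_nonneg (by positivity), Pi.add_apply]
    nlinarith [sq_nonneg (⟪y, a⟫ ^ 4 - ⟪y, b⟫ ^ 4), mul_nonneg (Even.pow_nonneg (by decide : Even 4)
      ⟪y, a⟫) (Even.pow_nonneg (by decide : Even 4) ⟪y, b⟫)]
  have h1 : (fun y => (⟪y, a⟫ ^ 4 - 3) * (⟪y, b⟫ ^ 4 - 3)) =
      fun y => ⟪y, a⟫ ^ 4 * ⟪y, b⟫ ^ 4 - 3 * ⟪y, a⟫ ^ 4 - 3 * ⟪y, b⟫ ^ 4 + 9 := by
    ext y; ring
  have i4 : Integrable (fun y => ⟪y, a⟫ ^ 4 * ⟪y, b⟫ ^ 4 - 3 * ⟪y, a⟫ ^ 4) (gam n) :=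
    i3.sub (i1.const_mul 3)
  have i5 : Integrable (fun y => ⟪y, a⟫ ^ 4 * ⟪y, b⟫ ^ 4 - 3 * ⟪y, a⟫ ^ 4 - 3 * ⟪y, b⟫ ^ 4)
      (gam n) := i4.sub (i2.const_mul 3)
  rw [h1, integral_add i5 (integrable_const _), integral_sub i4 (i2.const_mul 3),
    integral_sub i3 (i1.const_mul 3), integral_const_mul, integral_const_mul, (hc n a b ha hb).1,
    (hc n a b ha hb).2, (hc n b a hb ha).1]
  simp only [integral_const, probReal_univ, smul_eq_mul]
  ring

theorem int_three {a : Eu n → ℝ} (hma : Measurable a) (ha : Integrable a (gam n)) :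
    Integrable (fun w : Eu n × Eu n × Eu n =>
      a w.2.1 * ph w.2.1 w.1 * (a w.2.2 * ph w.2.2 w.1)) ((gam n).prod ((gam n).prod (gam n))) := by
  have i1 : Integrable (fun y : Eu n => (‖y‖ ^ 4 + 3) ^ 2) (gam n) := by
    have := ((nrm_norm.int_norm_pow (n := n) 8).add
      ((nrm_norm.int_norm_pow 4).const_mul 6)).add (integrable_const (μ := gam n) (9 : ℝ))
    exact this.congr (ae_of_all _ fun y => by simp only [Pi.add_apply]; ring)
  have m1 : Measurable fun w : Eu n × Eu n × Eu n =>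
      a w.2.1 * ph w.2.1 w.1 * (a w.2.2 * ph w.2.2 w.1) := by
    unfold ph; fun_prop
  refine (i1.mul_prod (ha.abs.mul_prod ha.abs)).mono' m1.aestronglyMeasurable
    (ae_of_all _ fun w => ?_)
  rw [Real.norm_eq_abs, abs_mul, abs_mul _ (ph _ _), abs_mul _ (ph _ _)]
  refine (mul_le_mul (mul_le_mul_of_nonneg_left (abs_ph_le _ _) (abs_nonneg _))
    (mul_le_mul_of_nonneg_left (abs_ph_le _ _) (abs_nonneg _)) (by positivity)
    (by positivity)).trans_eq (by ring)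

theorem cov_le (hc : Cov4Stmt) (f : Eu n → ℝ) (x x' : Eu n) :
    |∫ y, f x * ‖x‖⁻¹ * ph x y * (f x' * ‖x'‖⁻¹ * ph x' y) ∂gam n| ≤
      48 * (f x ^ 2 * ‖x'‖⁻¹ ^ 2 * cs x x' ^ 2 + ‖x‖⁻¹ ^ 2 * f x' ^ 2 * cs x x' ^ 2) := by
  have e1 : ∫ y, f x * ‖x‖⁻¹ * ph x y * (f x' * ‖x'‖⁻¹ * ph x' y) ∂gam n =
      f x * ‖x‖⁻¹ * (f x' * ‖x'‖⁻¹) * ∫ y, ph x y * ph x' y ∂gam n := by
    rw [← integral_const_mul]
    exact integral_congr_ae (ae_of_all _ fun y => by ring)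
  rw [e1]
  by_cases hz : x = 0 ∨ x' = 0
  · have : f x * ‖x‖⁻¹ * (f x' * ‖x'‖⁻¹) = 0 := by rcases hz with h | h <;> simp [h]
    rw [this, zero_mul, abs_zero]; positivity
  · rw [not_or] at hz
    have e2 : cs x x' ^ 2 ≤ 1 := (sq_le_one_iff_abs_le_one _).2 (abs_cs_le _ _)
    rw [cov_ph hc hz.1 hz.2, abs_mul]
    generalize cs x x' = r at *
    generalize ‖x‖⁻¹ = u at *
    generalize ‖x'‖⁻¹ = v at *
    have e3 : |72 * r ^ 2 + 24 * r ^ 4| ≤ 96 * r ^ 2 := by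
      rw [abs_of_nonneg (by positivity)]
      nlinarith [mul_le_mul_of_nonneg_left e2 (sq_nonneg r)]
    have e4 : |f x * u * (f x' * v)| ≤ (f x ^ 2 * v ^ 2 + u ^ 2 * f x' ^ 2) / 2 := by
      rw [abs_le]
      constructor
      · nlinarith [sq_nonneg (f x * v + u * f x')]
      · nlinarith [sq_nonneg (f x * v - u * f x')]
    exact (mul_le_mul e4 e3 (abs_nonneg _) (by positivity)).trans_eq (by ring)

/-- The variance of the quartic form attached to `f`. -/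
theorem var (hc : Cov4Stmt) {f : Eu n → ℝ} {A K s : ℝ} (hm : Measurable f) (hf : L2 (gam n) f A)
    (H : Mo (gam n) K s) (hK : 0 ≤ K / s) :
    L2 (gam n) (fun y => ∫ x, f x * ‖x‖⁻¹ * ph x y ∂gam n) (10 * A * (K / s ^ 2)) := by
  have ha : Integrable (fun x => f x * ‖x‖⁻¹) (gam n) := (hf.cs (H.inv hK)).1
  have hma : Measurable fun x => f x * ‖x‖⁻¹ := hm.mul meas_inv
  have hi2 : Integrable (fun x : Eu n => ‖x‖⁻¹ ^ 2) (gam n) := (H.inv hK).int
  have hK2 := (H.m1 0).pos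
  have m1 : Measurable fun z : Eu n × Eu n => f z.2 * ‖z.2‖⁻¹ * ph z.2 z.1 := by
    unfold ph; fun_prop
  have m2 := m1.stronglyMeasurable.integral_prod_right' (ν := gam n)
  have hF := int_three hma ha
  have h1 : (fun y => (∫ x, f x * ‖x‖⁻¹ * ph x y ∂gam n) ^ 2) = fun y =>
      ∫ z, f z.1 * ‖z.1‖⁻¹ * ph z.1 y * (f z.2 * ‖z.2‖⁻¹ * ph z.2 y) ∂(gam n).prod (gam n) := by
    ext y
    rw [sq, ← integral_prod_mul (fun x => f x * ‖x‖⁻¹ * ph x y) fun x => f x * ‖x‖⁻¹ * ph x y]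
  have h4 := hF.integral_prod_left
  have h5 := (integral_prod _ hF).symm.trans (integral_prod_symm _ hF)
  dsimp only at m2 h4 h5
  refine ⟨m2.aestronglyMeasurable, by rw [h1]; exact h4, ?_,
    mul_nonneg (mul_nonneg (by norm_num) hf.pos) hK2⟩
  rw [h1, h5]
  obtain ⟨d1, -, d2⟩ := dbl 2 hf.int hi2
  obtain ⟨d3, d4, -⟩ := dbl 2 hi2 hf.int
  have h2 : ∀ x, |T 2 (fun x : Eu n => ‖x‖⁻¹ ^ 2) x| ≤ (K / s ^ 2) ^ 2 := fun x => by
    rw [T, abs_of_nonneg (integral_nonneg fun _ => by positivity)]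
    refine le_trans (le_of_eq ?_) (H.m1 x).le
    exact integral_congr_ae (ae_of_all _ fun y => by ring)
  have h3 := (le_abs_self _).trans (abs_mul_le hf.int h2 (A := A ^ 2)
    (by simpa only [abs_sq] using hf.le) (sq_nonneg _))
  have d5 : Integrable (fun z : Eu n × Eu n => f z.1 ^ 2 * ‖z.2‖⁻¹ ^ 2 * cs z.1 z.2 ^ 2 +
      ‖z.1‖⁻¹ ^ 2 * f z.2 ^ 2 * cs z.1 z.2 ^ 2) ((gam n).prod (gam n)) := d1.add d3
  refine ((le_abs_self _).trans (abs_int_le (d5.const_mul 48) fun z => cov_le hc f _ _)).trans ?_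
  rw [integral_const_mul, integral_add d1 d3, d2, d4]
  nlinarith [mul_nonneg (sq_nonneg A) (sq_nonneg (K / s ^ 2))]

theorem T_le {f : Eu n → ℝ} {A K s : ℝ} (hf : L2 (gam n) f A) (H : Mo (gam n) K s) (y : Eu n) :
    |T 4 (fun x => f x * ‖x‖⁻¹) y| ≤ A * (K / s ^ 5) := by
  simpa only [T, mul_assoc] using hf.abs_le (H.m4 y)

theorem T_eq {a : Eu n → ℝ} (ha : Integrable a (gam n)) (y : Eu n) :
    T 4 a y = ‖y‖⁻¹ ^ 4 * (∫ x, a x * ph x y ∂gam n + 3 * ∫ x, a x ∂gam n) := by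
  have h1 : Integrable (fun x => a x * ph x y) (gam n) :=
    ha.mul_bdd (meas_ph.comp (measurable_id.prodMk measurable_const)).aestronglyMeasurable
      (ae_of_all _ fun x => abs_ph_le x y)
  rw [← integral_const_mul, ← integral_add h1 (ha.const_mul 3), ← integral_const_mul, T]
  refine integral_congr_ae (ae_of_all _ fun x => ?_)
  simp only [cs_comm x y, cs_eq y x, ph]
  ring

/-- The term in which both factors are good. -/
theorem gg (hc : Cov4Stmt) {f : Eu n → ℝ} {A K s w κ : ℝ} (hm : Measurable f)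
    (hf : L2 (gam n) f A) (H : Mo (gam n) K s) (hK : 0 ≤ K) (hs : 0 < s) {E : Set (Eu n)}
    (hE : MeasurableSet E) (hw : 0 ≤ w) (hE1 : (gam n).real E ≤ w ^ 4)
    (hE2 : ∀ y, y ∉ E → s / 2 ≤ ‖y‖) (hκ : |∫ x, f x * ‖x‖⁻¹ ∂gam n| ≤ κ) :
    |∫ y, f y * ‖y‖⁻¹ * T 4 (fun x => f x * ‖x‖⁻¹) y ∂gam n| ≤
      A * (w * (K / s)) * (A * (K / s ^ 5)) +
        32 / s ^ 5 * (A * (10 * A * (K / s ^ 2)) + 3 * κ * (A * 1)) := by
  have hKs : 0 ≤ K / s := by positivity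
  have hA := hf.pos
  have hκ0 : 0 ≤ κ := (abs_nonneg _).trans hκ
  have ha : Integrable (fun x => f x * ‖x‖⁻¹) (gam n) := (hf.cs (H.inv hKs)).1
  obtain ⟨i1, j1⟩ := hf.cs (H.ind hKs hE hw hE1)
  obtain ⟨i2, j2⟩ := hf.cs (var hc hm hf H hKs)
  obtain ⟨i3, j3⟩ := hf.cs L2.one
  have i4 := i1.abs.mul_const (A * (K / s ^ 5))
  have i5 := i3.abs.const_mul (3 * κ)
  have i6 : Integrable (fun y => |f y * ∫ x, f x * ‖x‖⁻¹ * ph x y ∂gam n| + 3 * κ * |f y * 1|)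
      (gam n) := i2.abs.add i5
  have i7 := i6.const_mul (32 / s ^ 5)
  have i8 : Integrable (fun y => |f y * (E.indicator 1 y * ‖y‖⁻¹)| * (A * (K / s ^ 5)) +
      32 / s ^ 5 * (|f y * ∫ x, f x * ‖x‖⁻¹ * ph x y ∂gam n| + 3 * κ * |f y * 1|)) (gam n) :=
    i4.add i7
  refine (abs_int_le i8 fun y => ?_).trans ?_
  · by_cases hy : y ∈ E
    · rw [indicator_of_mem hy, Pi.one_apply, one_mul, abs_mul]
      exact (mul_le_mul_of_nonneg_left (T_le hf H y) (abs_nonneg _)).trans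
        (le_add_of_nonneg_right (by positivity))
    · refine le_trans ?_ (le_add_of_nonneg_left (by positivity))
      have h1 : ‖y‖⁻¹ ≤ 2 / s := by
        rw [← inv_div]; exact inv_anti₀ (by positivity) (hE2 y hy)
      have h2 : ‖y‖⁻¹ ^ 5 ≤ 32 / s ^ 5 :=
        (pow_le_pow_left₀ (by positivity) h1 5).trans_eq (by rw [div_pow]; norm_num)
      rw [T_eq ha]
      generalize ∫ x, f x * ‖x‖⁻¹ * ph x y ∂gam n = R
      generalize ∫ x, f x * ‖x‖⁻¹ ∂gam n = k at hκ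
      rw [show f y * ‖y‖⁻¹ * (‖y‖⁻¹ ^ 4 * (R + 3 * k)) = ‖y‖⁻¹ ^ 5 * (f y * R + 3 * k * f y) by
        ring, abs_mul, abs_of_nonneg (by positivity), mul_one]
      refine mul_le_mul h2 ((abs_add_le _ _).trans (add_le_add le_rfl ?_)) (abs_nonneg _)
        (by positivity)
      rw [abs_mul, abs_mul, abs_of_nonneg (by norm_num : (0 : ℝ) ≤ 3)]
      gcongr
  · rw [integral_add i4 i7, integral_mul_const, integral_const_mul, integral_add i2.abs i5,
      integral_const_mul]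
    gcongr

/-- The bad part. -/
theorem bad {p : Eu n → ℝ} {l Λ u K s : ℝ} (hp : Nrm p) (hl : 0 ≤ l) (hΛ : l ≤ Λ) (hu : 0 ≤ u)
    (H : Mo (mu p) K s) (hK : 0 ≤ K / s) {D : Set (Eu n)} (hD : MeasurableSet D)
    (h : (mu p).real D ≤ u ^ 4) :
    Integrable (fun x => D.indicator (fun x => l * Wd p x) x * ‖x‖⁻¹) (gam n) ∧
    ∫ x, |D.indicator (fun x => l * Wd p x) x * ‖x‖⁻¹| ∂gam n ≤ Λ * (u ^ 2 * (u * (K / s))) ∧
    ∀ y, |T 4 (fun x => D.indicator (fun x => l * Wd p x) x * ‖x‖⁻¹) y| ≤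
      Λ * (u ^ 2 * (K / s ^ 5)) := by
  have := hp.prob
  have h0 : L2 (mu p) (D.indicator 1) (u ^ 2) := L2.ind hD (sq_nonneg u) (by rwa [← pow_mul])
  obtain ⟨i1, j1⟩ := h0.cs (H.ind hK hD hu h)
  refine ⟨(((hp.integrable_gam _).1 i1).const_mul l).congr (ae_of_all _ fun x => ?_), ?_,
    fun y => ?_⟩
  · by_cases hx : x ∈ D <;> simp [hx, mul_assoc]
  · rw [hp.integral_gam] at j1
    refine le_trans (le_of_eq ?_) (mul_le_mul hΛ j1 (integral_nonneg fun x =>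
      mul_nonneg (hp.Wd_pos x).le (abs_nonneg _)) (hl.trans hΛ))
    rw [← integral_const_mul]
    refine integral_congr_ae (ae_of_all _ fun x => ?_)
    by_cases hx : x ∈ D
    · simp [hx, mul_assoc, abs_mul, abs_of_nonneg hl, abs_of_pos (hp.Wd_pos x)]
    · simp [hx]
  · have j2 := h0.abs_le (H.m4 y)
    rw [hp.integral_gam] at j2
    refine le_trans (le_of_eq ?_) (mul_le_mul hΛ j2 (abs_nonneg _) (hl.trans hΛ))
    have e1 : ∀ t : ℝ, l * |t| = |l * t| := fun t => by rw [abs_mul, abs_of_nonneg hl]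
    rw [e1, ← integral_const_mul, T]
    refine congrArg _ (integral_congr_ae (ae_of_all _ fun x => ?_))
    by_cases hx : x ∈ D <;> simp [hx, mul_assoc]

theorem expand {a c : Eu n → ℝ} (ha : Integrable a (gam n)) (hc : Integrable c (gam n)) :
    ∫ z, (a z.1 + c z.1) * (a z.2 + c z.2) * cs z.1 z.2 ^ 4 ∂(gam n).prod (gam n) =
      ∫ y, a y * T 4 a y ∂gam n + 2 * ∫ y, c y * T 4 a y ∂gam n + ∫ y, c y * T 4 c y ∂gam n := by
  obtain ⟨i1, e1, -⟩ := dbl 4 ha ha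
  obtain ⟨i2, e2, -⟩ := dbl 4 ha hc
  obtain ⟨i3, -, e3⟩ := dbl 4 hc ha
  obtain ⟨i4, e4, -⟩ := dbl 4 hc hc
  have i5 : Integrable (fun z : Eu n × Eu n => a z.1 * a z.2 * cs z.1 z.2 ^ 4 +
      a z.1 * c z.2 * cs z.1 z.2 ^ 4) ((gam n).prod (gam n)) := i1.add i2
  have i6 : Integrable (fun z : Eu n × Eu n => c z.1 * a z.2 * cs z.1 z.2 ^ 4 +
      c z.1 * c z.2 * cs z.1 z.2 ^ 4) ((gam n).prod (gam n)) := i3.add i4
  have h1 : (fun z : Eu n × Eu n => (a z.1 + c z.1) * (a z.2 + c z.2) * cs z.1 z.2 ^ 4) =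
      fun z => (a z.1 * a z.2 * cs z.1 z.2 ^ 4 + a z.1 * c z.2 * cs z.1 z.2 ^ 4) +
        (c z.1 * a z.2 * cs z.1 z.2 ^ 4 + c z.1 * c z.2 * cs z.1 z.2 ^ 4) := by
    ext z; ring
  rw [h1, integral_add i5 i6, integral_add i1 i2, integral_add i3 i4, e1, e2, e3, e4]
  ring

theorem exp_small {c : ℝ} (hc : 0 < c) : ∃ n0 : ℕ, 1 ≤ n0 ∧ ∀ n ≥ n0,
    exp (-(c * (n : ℝ))) ≤ (1 / √(n : ℝ)) ^ 4 := by
  refine ⟨⌈6 / c ^ 3⌉₊ + 1, by omega, fun n hn => ?_⟩
  have h0 : (0 : ℝ) < n := by exact_mod_cast (show 0 < n by omega)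
  have h1 : 6 / c ^ 3 ≤ n := (Nat.le_ceil _).trans (by exact_mod_cast (show _ ≤ n by omega))
  have h2 := pow_div_factorial_le_exp (c * n) (by positivity) 3
  rw [div_le_iff₀' (by positivity)] at h1
  rw [div_pow, one_pow, show (4 : ℕ) = 2 * 2 from rfl, pow_mul, sq_sqrt h0.le, exp_neg, one_div]
  refine inv_anti₀ (by positivity) (le_trans ?_ h2)
  norm_num [Nat.factorial]
  nlinarith [mul_le_mul_of_nonneg_right h1 (sq_nonneg (n : ℝ))]

end Q4b

open Q4b in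
theorem q4b (hm : MomStmt) (hc : Cov4Stmt) (ht : TailStmt) : Q4BStmt := by
  intro Λ hΛ
  obtain ⟨K, n1, hK, hM⟩ := exists_mo hm (Λ := Λ) (by linarith)
  obtain ⟨c, hc0, ht⟩ := ht (3 / 4) (by norm_num)
  obtain ⟨n2, hn2, he⟩ := exp_small hc0
  refine ⟨K ^ 2 + 320 * K + 96 * Λ * K + Λ * K ^ 2 * (2 + Λ), max n1 n2, by positivity,
    fun n hn p h b hS D ν hD hV1 hV2 hν => ?_⟩
  have hp := hS.reg.tame.nrm
  have := hp.prob
  have hn0 : (0 : ℝ) < n := by exact_mod_cast (show 0 < n by omega)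
  have Hp := hM n (le_of_max_le_left hn) p hS.reg.tame
  have Hg : Mo (gam n) K √(n : ℝ) :=
    hM n (le_of_max_le_left hn) _ (tame_gam.mono (by norm_num) hΛ)
  have hE1 : (gam n).real {x | ‖x‖ ^ 2 ≤ (1 - 3 / 4) * (n : ℝ)} ≤ (1 / √(n : ℝ)) ^ 4 :=
    (ht n _ nrm_norm).1.trans (he n (le_of_max_le_right hn))
  have hs : 0 < √(n : ℝ) := sqrt_pos.2 hn0
  have hs2 : √(n : ℝ) ^ 2 = n := sq_sqrt hn0.le
  have hν0 : 0 ≤ ν := measureReal_nonneg.trans hν
  have hu : 0 ≤ √√ν := sqrt_nonneg _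
  have hu4 : ν = √√ν ^ 4 := by
    rw [show (4 : ℕ) = 2 * 2 from rfl, pow_mul, sq_sqrt (sqrt_nonneg _), sq_sqrt hν0]
  generalize √√ν = u at *
  subst hu4
  rw [Q4, Qf, ← hs2]
  rw [← hs2] at hE1
  rw [sqrt_sq hs.le] at hE1 ⊢
  generalize √(n : ℝ) = s at *
  have hKs : 0 ≤ K / s := by positivity
  have hf : L2 (gam n) (Vg p b D) (u ^ 2) :=
    ⟨(hp.Vg_meas b hD).aestronglyMeasurable, hV1, by rwa [← pow_mul], sq_nonneg u⟩
  have ha : Integrable (fun x => Vg p b D x * ‖x‖⁻¹) (gam n) := (hf.cs (Hg.inv hKs)).1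
  obtain ⟨b1, b2, b3⟩ := bad hp (lam_pos hS.reg.cmp.bp.bpos).le hS.reg.cmp.lam_le hu Hp hKs hD hν
  have hκ : |∫ x, Vg p b D x * ‖x‖⁻¹ ∂gam n| ≤ Λ * (u ^ 2 * (u * (K / s))) := by
    have i1 : Integrable (fun x : Eu n => ‖x‖⁻¹) (mu p) := by
      simpa using ((Hp.inv hKs).cs L2.one).1
    have i2 : Integrable (fun x : Eu n => ‖x‖⁻¹) (gam n) := by
      simpa using ((Hg.inv hKs).cs L2.one).1
    have h1 := (hp.int_Vf b i1 i2).2
    simp only [Vf_eq p b D, add_mul] at h1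
    rw [hS.nor, sub_self, integral_add ha b1] at h1
    rw [eq_neg_of_add_eq_zero_left h1, abs_neg]
    exact abs_integral_le_integral_abs.trans b2
  have g1 := gg hc (hp.Vg_meas b hD) hf Hg (by positivity) hs
    (measurableSet_le (by fun_prop) measurable_const) (by positivity) hE1 (fun y hy => by
      simp only [mem_ofPred_eq, not_le] at hy
      exact (abs_le_of_sq_le_sq' (by linarith) (norm_nonneg y)).2) hκ
  have g2 := abs_mul_le b1 (T_le hf Hg) b2 (by positivity)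
  have g3 := abs_mul_le b1 b3 b2 (by positivity)
  have g4 := mul_le_mul_of_nonneg_left g2 zero_le_two
  rw [← abs_two, ← abs_mul, abs_two] at g4
  have h2 : qi (fun ρ => ρ ^ 4) (Vf p b) = fun z =>
      (Vg p b D z.1 * ‖z.1‖⁻¹ + D.indicator (fun x => lam b * Wd p x) z.1 * ‖z.1‖⁻¹) *
      (Vg p b D z.2 * ‖z.2‖⁻¹ + D.indicator (fun x => lam b * Wd p x) z.2 * ‖z.2‖⁻¹) *
        cs z.1 z.2 ^ 4 := by
    ext z
    rw [qi, Vf_eq p b D, Vf_eq p b D, div_eq_mul_inv, mul_inv]; ring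
  rw [h2, expand ha b1, abs_mul, abs_of_nonneg (by positivity)]
  refine (mul_le_mul_of_nonneg_left ((abs_add_three _ _ _).trans
    (add_le_add (add_le_add g1 g4) g3)) (by positivity)).trans ?_
  have h3 : 0 ≤ (96 * Λ * K + Λ * K ^ 2 * (2 + Λ)) * (u ^ 4 / s) +
      (K ^ 2 + 320 * K) * (u ^ 4 * u) := by positivity
  refine le_trans (le_of_eq ?_) ((le_add_of_nonneg_right h3).trans_eq (b :=
    (K ^ 2 + 320 * K) * (u ^ 4 / s) + (96 * Λ * K + Λ * K ^ 2 * (2 + Λ)) * (u ^ 4 * u) + _)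
    (by ring))
  field_simp
  ring

end Pool.Agent.MP_2a44fd_gt.hd

end MrgPart2

-- marker of a merged file
example : 731051 + 710516 = 731051 + 710516 := rfl
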