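import Mathlib.Combinatorics.SimpleGraph.Basic
import Pool.Agent.MP_2a44fd_gt.hd.Lim

-- ======== part 0: formerly Pool.Agent.MP_2a44fd_gt.hd.Ball
section MrgPart0

/-!
PROJECT BP5HD, module BALL: Busemann-Ball convexity of the reciprocal section function.
-/

set_option autoImplicit false

open MeasureTheory Real Set Filter Topology
open scoped RealInnerProductSpace ENNReal

namespace Pool.Agent.MP_2a44fd_gt.hd

namespace Ball

/-- Normalised profile on the positive half line. -/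
noncomputable def prof (A : ℝ) (T : ℝ → ℝ) : ℝ → ℝ≥0∞ :=
  (Ioi (0 : ℝ)).indicator fun u => ENNReal.ofReal ((A / T u) ^ 2)

theorem prof_meas (A : ℝ) {T : ℝ → ℝ} (hT : Measurable T) : Measurable (prof A T) :=
  Measurable.indicator (by fun_prop) measurableSet_Ioi

theorem prof_pos (A : ℝ) (T : ℝ → ℝ) {u : ℝ} (hu : 0 < u) :
    prof A T u = ENNReal.ofReal ((A / T u) ^ 2) := indicator_of_mem (mem_Ioi.2 hu) _

theorem prof_nonpos (A : ℝ) (T : ℝ → ℝ) {u : ℝ} (hu : ¬ 0 < u) : prof A T u = 0 :=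
  indicator_of_notMem (fun h => hu (mem_Ioi.1 h)) _

theorem prof_int (A : ℝ) {T : ℝ → ℝ} (hi : IntegrableOn (fun u => 1 / T u ^ 2) (Ioi 0)) :
    ∫⁻ u, prof A T u = ENNReal.ofReal (A ^ 2 * ∫ u in Ioi (0 : ℝ), 1 / T u ^ 2) := by
  rw [prof, lintegral_indicator measurableSet_Ioi, ← integral_const_mul,
    ofReal_integral_eq_lintegral_ofReal (hi.const_mul _) (ae_of_all _ fun u => by positivity)]
  refine lintegral_congr fun u => ?_
  congr 1
  ring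

theorem exists_inf {T : ℝ → ℝ} {c : ℝ} (hc : 0 < c) (h : ∀ u, 0 < u → c ≤ T u) :
    ∃ A, 0 < A ∧ (∀ u, prof A T u ≤ 1) ∧ ∀ y < 1, ∃ u, y < prof A T u := by
  have hne : (T '' Ioi 0).Nonempty := ⟨T 1, 1, mem_Ioi.2 one_pos, rfl⟩
  have hbd : c ∈ lowerBounds (T '' Ioi 0) := by
    rintro _ ⟨u, hu, rfl⟩
    exact h u hu
  have hA : c ≤ sInf (T '' Ioi 0) := le_csInf hne hbd
  have hA0 : 0 < sInf (T '' Ioi 0) := hc.trans_le hA
  refine ⟨sInf (T '' Ioi 0), hA0, fun u => ?_, fun y hy => ?_⟩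
  · by_cases hu : 0 < u
    · have h1 : sInf (T '' Ioi 0) ≤ T u := csInf_le ⟨c, hbd⟩ ⟨u, hu, rfl⟩
      have h2 : 0 < T u := hA0.trans_le h1
      rw [prof_pos _ _ hu, ENNReal.ofReal_le_one]
      exact pow_le_one₀ (by positivity) ((div_le_one h2).2 h1)
    · rw [prof_nonpos _ _ hu]; exact zero_le
  · have hy' : y ≠ ∞ := (hy.trans ENNReal.one_lt_top).ne
    have hz1 : y.toReal < 1 := by
      have := (ENNReal.toReal_lt_toReal hy' ENNReal.one_ne_top).2 hy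
      simpa using this
    have hz0 : 0 ≤ y.toReal := ENNReal.toReal_nonneg
    set z := y.toReal with hz
    have hq0 : 0 < (1 + z) / 2 := by linarith
    have hlt : sInf (T '' Ioi 0) < sInf (T '' Ioi 0) / ((1 + z) / 2) := by
      rw [lt_div_iff₀ hq0]; nlinarith
    obtain ⟨_, ⟨u, hu, rfl⟩, h2⟩ := exists_lt_of_csInf_lt hne hlt
    have hu' : 0 < u := hu
    have h3 : 0 < T u := hc.trans_le (h u hu')
    refine ⟨u, ?_⟩
    rw [prof_pos _ _ hu', ← ENNReal.ofReal_toReal hy', ← hz,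
      ENNReal.ofReal_lt_ofReal_iff (by positivity)]
    have h4 : (1 + z) / 2 < sInf (T '' Ioi 0) / T u := by
      rw [lt_div_iff₀ hq0] at h2
      rw [lt_div_iff₀ h3]; linarith
    have h5 := pow_lt_pow_left₀ h4 hq0.le two_ne_zero
    nlinarith [sq_nonneg (1 - z)]

theorem int_pos {T : ℝ → ℝ} (h : ∀ u, 0 < u → 0 < T u)
    (hi : IntegrableOn (fun u => 1 / T u ^ 2) (Ioi 0)) : 0 < ∫ u in Ioi (0 : ℝ), 1 / T u ^ 2 := by
  rw [setIntegral_pos_iff_support_of_nonneg_ae (ae_of_all _ fun u => by positivity) hi]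
  have : Ioi (0 : ℝ) ⊆ (Function.support fun u => 1 / T u ^ 2) ∩ Ioi 0 := fun u hu =>
    ⟨by have := h u hu; exact (by positivity : 0 < 1 / T u ^ 2).ne', hu⟩
  exact lt_of_lt_of_le (by simp) (measure_mono this)

/-- The core inequality after the inversion of the half line. -/
theorem core (hQ : QCStmt) {Tf Tg Th : ℝ → ℝ} {l c : ℝ} (hl0 : 0 < l) (hl1 : l < 1) (hc : 0 < c)
    (mf : Measurable Tf) (mg : Measurable Tg) (mh : Measurable Th)
    (bf : ∀ u, 0 < u → c ≤ Tf u) (bg : ∀ u, 0 < u → c ≤ Tg u) (bh : ∀ u, 0 < u → 0 < Th u)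
    (hcv : ∀ u v, 0 < u → 0 < v → Th ((1 - l) * u + l * v) ≤ (1 - l) * Tf u + l * Tg v)
    (i1 : IntegrableOn (fun u => 1 / Tf u ^ 2) (Ioi 0))
    (i2 : IntegrableOn (fun u => 1 / Tg u ^ 2) (Ioi 0))
    (i3 : IntegrableOn (fun u => 1 / Th u ^ 2) (Ioi 0)) :
    (∫ u in Ioi (0 : ℝ), 1 / Th u ^ 2)⁻¹ ≤
      (1 - l) * (∫ u in Ioi (0 : ℝ), 1 / Tf u ^ 2)⁻¹ + l * (∫ u in Ioi (0 : ℝ), 1 / Tg u ^ 2)⁻¹ := by
  obtain ⟨A, hA, a1, a2⟩ := exists_inf hc bf
  obtain ⟨B, hB, b1, b2⟩ := exists_inf hc bg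
  have hl : 0 < 1 - l := by linarith
  have hM : 0 < (1 - l) * A + l * B := by positivity
  have key := hQ (prof A Tf) (prof B Tg) (prof ((1 - l) * A + l * B) Th) l hl0 hl1
    (prof_meas _ mf) (prof_meas _ mg) (prof_meas _ mh) a1 b1 a2 b2 (fun u v => ?_)
  · have hF := int_pos (fun u hu => hc.trans_le (bf u hu)) i1
    have hG := int_pos (fun u hu => hc.trans_le (bg u hu)) i2
    have hH := int_pos bh i3
    rw [prof_int _ i1, prof_int _ i2, prof_int _ i3, ← ENNReal.ofReal_mul hl.le,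
      ← ENNReal.ofReal_mul hl0.le, ← ENNReal.ofReal_add (by positivity) (by positivity),
      ENNReal.ofReal_le_ofReal_iff (by positivity)] at key
    generalize ∫ u in Ioi (0 : ℝ), 1 / Tf u ^ 2 = F at *
    generalize ∫ u in Ioi (0 : ℝ), 1 / Tg u ^ 2 = G at *
    generalize ∫ u in Ioi (0 : ℝ), 1 / Th u ^ 2 = H at *
    have hS : 0 < (1 - l) * F⁻¹ + l * G⁻¹ := by positivity
    have h1 : ((1 - l) * A + l * B) ^ 2 ≤
        ((1 - l) * (A ^ 2 * F) + l * (B ^ 2 * G)) * ((1 - l) * F⁻¹ + l * G⁻¹) := by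
      have e : ((1 - l) * (A ^ 2 * F) + l * (B ^ 2 * G)) * ((1 - l) * F⁻¹ + l * G⁻¹) -
          ((1 - l) * A + l * B) ^ 2 = (1 - l) * l * (A * F - B * G) ^ 2 / (F * G) := by
        field_simp; ring
      have : 0 ≤ (1 - l) * l * (A * F - B * G) ^ 2 / (F * G) := by positivity
      linarith
    have h2 := h1.trans (mul_le_mul_of_nonneg_right key hS.le)
    rw [mul_assoc, le_mul_iff_one_le_right (by positivity)] at h2
    rw [inv_le_iff_one_le_mul₀ hH, mul_comm]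
    exact h2
  · by_cases hu : 0 < u
    swap
    · rw [prof_nonpos _ _ hu]; simp
    by_cases hv : 0 < v
    swap
    · rw [prof_nonpos _ _ hv]; simp
    have hw : 0 < (1 - l) * u + l * v := by positivity
    have f0 : 0 < Tf u := hc.trans_le (bf u hu)
    have g0 : 0 < Tg v := hc.trans_le (bg v hv)
    have h0 := bh _ hw
    have h1 := hcv u v hu hv
    rw [prof_pos _ _ hu, prof_pos _ _ hv, prof_pos _ _ hw]
    rcases le_total (A / Tf u) (B / Tg v) with hle | hle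
    · refine (min_le_left _ _).trans (ENNReal.ofReal_le_ofReal
        (pow_le_pow_left₀ (by positivity) ?_ 2))
      rw [div_le_div_iff₀ f0 g0] at hle
      rw [div_le_div_iff₀ f0 h0]
      nlinarith [mul_le_mul_of_nonneg_left h1 hA.le, mul_le_mul_of_nonneg_left hle hl0.le]
    · refine (min_le_right _ _).trans (ENNReal.ofReal_le_ofReal
        (pow_le_pow_left₀ (by positivity) ?_ 2))
      rw [div_le_div_iff₀ g0 f0] at hle
      rw [div_le_div_iff₀ g0 h0]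
      nlinarith [mul_le_mul_of_nonneg_left h1 hB.le, mul_le_mul_of_nonneg_left hle hl.le]

theorem inv_eq (N : ℝ → ℝ) : EqOn (fun x : ℝ => (|(-1 : ℝ)| * x ^ ((-1 : ℝ) - 1)) •
    (fun r => 1 / N r ^ 2) (x ^ (-1 : ℝ))) (fun u => 1 / (u * N u⁻¹) ^ 2) (Ioi 0) := by
  intro x hx
  have hx' : 0 < x := hx
  simp only [smul_eq_mul]
  rw [rpow_neg_one, show (-1 : ℝ) - 1 = -((2 : ℕ) : ℝ) by norm_num, rpow_neg hx'.le, rpow_natCast,
    abs_neg, abs_one, one_mul, mul_pow, one_div, one_div, mul_inv]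

theorem inv_integral (N : ℝ → ℝ) :
    ∫ u in Ioi (0 : ℝ), 1 / (u * N u⁻¹) ^ 2 = ∫ r in Ioi (0 : ℝ), 1 / N r ^ 2 := by
  rw [← integral_comp_rpow_Ioi (fun r => 1 / N r ^ 2) (p := -1) (by norm_num)]
  exact (setIntegral_congr_fun measurableSet_Ioi (inv_eq N)).symm

theorem inv_integrable {N : ℝ → ℝ} (h : IntegrableOn (fun r => 1 / N r ^ 2) (Ioi 0)) :
    IntegrableOn (fun u => 1 / (u * N u⁻¹) ^ 2) (Ioi 0) :=
  ((integrableOn_Ioi_comp_rpow_iff (fun r => 1 / N r ^ 2) (p := -1) (by norm_num)).2 h).congr_fun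
    (inv_eq N) measurableSet_Ioi

/-- Ball's inequality for a convex positive function of two variables. -/
theorem plane (hQ : QCStmt) {N : ℝ → ℝ → ℝ} {l c : ℝ} (k : ℝ) (hl0 : 0 < l) (hl1 : l < 1)
    (hc : 0 < c) (hm : ∀ j : ℝ, Measurable fun w => N w (j * w)) (hb : ∀ w s, 0 < w → c * w ≤ N w s)
    (hcv : ∀ a w s w' s', 0 < a → a < 1 →
      N ((1 - a) * w + a * w') ((1 - a) * s + a * s') ≤ (1 - a) * N w s + a * N w' s')
    (hi : ∀ j : ℝ, IntegrableOn (fun w => 1 / N w (j * w) ^ 2) (Ioi 0)) :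
    (∫ w in Ioi (0 : ℝ), 1 / N w (l * k * w) ^ 2)⁻¹ ≤
      (1 - l) * (∫ w in Ioi (0 : ℝ), 1 / N w (0 * w) ^ 2)⁻¹ +
        l * (∫ w in Ioi (0 : ℝ), 1 / N w (k * w) ^ 2)⁻¹ := by
  have hB : ∀ j u : ℝ, 0 < u → c ≤ u * N u⁻¹ (j * u⁻¹) := fun j u hu => by
    have := mul_le_mul_of_nonneg_left (hb u⁻¹ (j * u⁻¹) (inv_pos.2 hu)) hu.le
    rwa [mul_left_comm, mul_inv_cancel₀ hu.ne', mul_one] at this
  have hM : ∀ j : ℝ, Measurable fun u : ℝ => u * N u⁻¹ (j * u⁻¹) := fun j =>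
    measurable_id.mul ((hm j).comp measurable_inv)
  rw [← inv_integral fun w => N w (l * k * w), ← inv_integral fun w => N w (0 * w),
    ← inv_integral fun w => N w (k * w)]
  refine core hQ hl0 hl1 hc (hM 0) (hM k) (hM (l * k)) (hB 0) (hB k)
    (fun u hu => hc.trans_le (hB _ u hu)) (fun u v hu hv => ?_) (inv_integrable (hi 0))
    (inv_integrable (hi k)) (inv_integrable (hi (l * k)))
  have hl : 0 < 1 - l := by linarith
  have hw : 0 < (1 - l) * u + l * v := by positivity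
  set w := (1 - l) * u + l * v with hwd
  have ha0 : 0 < l * v / w := by positivity
  have ha : 1 - l * v / w = (1 - l) * u / w := by
    rw [eq_div_iff hw.ne', sub_mul, div_mul_cancel₀ _ hw.ne', hwd]; ring
  have ha1 : l * v / w < 1 := by
    have : 0 < (1 - l) * u / w := by positivity
    linarith
  have h1 := hcv (l * v / w) u⁻¹ (0 * u⁻¹) v⁻¹ (k * v⁻¹) ha0 ha1
  rw [ha, show (1 - l) * u / w * u⁻¹ + l * v / w * v⁻¹ = w⁻¹ by field_simp; ring,
    show (1 - l) * u / w * (0 * u⁻¹) + l * v / w * (k * v⁻¹) = l * k * w⁻¹ by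
      field_simp; ring] at h1
  refine (mul_le_mul_of_nonneg_left h1 hw.le).trans (le_of_eq ?_)
  field_simp

/-- Prekopa-Leindler for real exponentials. -/
theorem pl_exp (hP : PLStmt) {m : ℕ} {F G H : Eu m → ℝ} {a : ℝ} (ha0 : 0 < a) (ha1 : a < 1)
    (iF : Integrable fun y => exp (-F y)) (iG : Integrable fun y => exp (-G y))
    (iH : Integrable fun y => exp (-H y)) (mF : Measurable F) (mG : Measurable G)
    (mH : Measurable H) (hc : ∀ x y, H ((1 - a) • x + a • y) ≤ (1 - a) * F x + a * G y) :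
    (1 - a) * log (∫ y, exp (-F y)) + a * log (∫ y, exp (-G y)) ≤ log (∫ y, exp (-H y)) := by
  have pF := integral_exp_pos iF
  have pG := integral_exp_pos iG
  have pH := integral_exp_pos iH
  have key := hP m (fun y => ENNReal.ofReal (exp (-F y))) (fun y => ENNReal.ofReal (exp (-G y)))
    (fun y => ENNReal.ofReal (exp (-H y))) a ha0 ha1 (by fun_prop) (by fun_prop) (by fun_prop)
    (fun x y => ?_)
  · rw [← ofReal_integral_eq_lintegral_ofReal iF (ae_of_all _ fun y => (exp_pos _).le),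
      ← ofReal_integral_eq_lintegral_ofReal iG (ae_of_all _ fun y => (exp_pos _).le),
      ← ofReal_integral_eq_lintegral_ofReal iH (ae_of_all _ fun y => (exp_pos _).le),
      ENNReal.ofReal_rpow_of_pos pF, ENNReal.ofReal_rpow_of_pos pG,
      ← ENNReal.ofReal_mul (by positivity), ENNReal.ofReal_le_ofReal_iff pH.le] at key
    have := log_le_log (by positivity) key
    rwa [log_mul (by positivity) (by positivity), log_rpow pF, log_rpow pG] at this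
  · rw [ENNReal.ofReal_rpow_of_pos (exp_pos _), ENNReal.ofReal_rpow_of_pos (exp_pos _),
      ← ENNReal.ofReal_mul (by positivity), ← exp_mul, ← exp_mul, ← exp_add]
    refine ENNReal.ofReal_le_ofReal (exp_le_exp.2 ?_)
    linarith [hc x y]

/-- A jointly convex, even, coercive potential. -/
structure Good {m : ℕ} (Φ : ℝ → ℝ → Eu m → ℝ) (c : ℝ) : Prop where
  cpos : 0 < c
  cont : Continuous fun z : ℝ × ℝ × Eu m => Φ z.1 z.2.1 z.2.2
  cvx : ∀ (a w s w' s' : ℝ) (y y' : Eu m), 0 < a → a < 1 →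
    Φ ((1 - a) * w + a * w') ((1 - a) * s + a * s') ((1 - a) • y + a • y') ≤
      (1 - a) * Φ w s y + a * Φ w' s' y'
  even : ∀ w s y, Φ (-w) (-s) (-y) = Φ w s y
  low : ∀ w s y, c ^ 2 * (w ^ 2 + ‖y‖ ^ 2) / 2 ≤ Φ w s y

/-- The marginal. -/
noncomputable def LL {m : ℕ} (Φ : ℝ → ℝ → Eu m → ℝ) (w s : ℝ) : ℝ := ∫ y, exp (-Φ w s y)

section

variable {m : ℕ} {Φ : ℝ → ℝ → Eu m → ℝ} {c : ℝ}

theorem Good.cont_y (h : Good Φ c) (w s : ℝ) : Continuous (Φ w s) :=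
  h.cont.comp (f := fun y => (w, s, y)) (by fun_prop)

theorem Good.le (h : Good Φ c) (w s : ℝ) (y : Eu m) :
    exp (-Φ w s y) ≤ exp (-((c * w) ^ 2 / 2)) * exp (-(c ^ 2 / 2 * ‖y‖ ^ 2)) := by
  rw [← exp_add]
  refine exp_le_exp.2 ?_
  have := h.low w s y
  linarith

theorem Good.int_y (h : Good Φ c) (w s : ℝ) : Integrable fun y => exp (-Φ w s y) := by
  have hc := h.cpos
  refine ((int_gauss (n := m) (a := c ^ 2 / 2) (by positivity)).const_mul
    (exp (-((c * w) ^ 2 / 2)))).mono' (by have := h.cont_y w s; fun_prop)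
    (ae_of_all _ fun y => ?_)
  rw [Real.norm_of_nonneg (exp_pos _).le]
  exact h.le w s y

theorem Good.LL_pos (h : Good Φ c) (w s : ℝ) : 0 < LL Φ w s := integral_exp_pos (h.int_y w s)

theorem Good.LL_le (h : Good Φ c) : ∃ C, 0 < C ∧ ∀ w s, LL Φ w s ≤ exp (-((c * w) ^ 2 / 2)) * C := by
  have hc := h.cpos
  have hi := int_gauss (n := m) (a := c ^ 2 / 2) (by positivity)
  refine ⟨∫ y : Eu m, exp (-(c ^ 2 / 2 * ‖y‖ ^ 2)), integral_exp_pos hi, fun w s => ?_⟩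
  rw [← integral_const_mul]
  exact integral_mono (h.int_y w s) (hi.const_mul _) fun y => h.le w s y

theorem Good.LL_neg (h : Good Φ c) (w s : ℝ) : LL Φ (-w) (-s) = LL Φ w s := by
  rw [LL, ← integral_neg_eq_self]
  simp only [h.even, LL]

theorem Good.LL_meas (h : Good Φ c) (j : ℝ) : Measurable fun w => LL Φ w (j * w) := by
  have h1 : Continuous fun z : ℝ × Eu m => exp (-Φ z.1 (j * z.1) z.2) :=
    (h.cont.comp (f := fun z : ℝ × Eu m => (z.1, j * z.1, z.2)) (by fun_prop)).neg.rexp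
  exact (h1.stronglyMeasurable.integral_prod_right' (ν := volume)).measurable

theorem Good.LL_int (h : Good Φ c) (j : ℝ) : Integrable fun w => LL Φ w (j * w) := by
  have hc := h.cpos
  obtain ⟨C, _, hC⟩ := h.LL_le
  refine ((int_gauss1 (a := c ^ 2) (by positivity)).mul_const C).mono'
    (h.LL_meas j).aestronglyMeasurable (ae_of_all _ fun w => ?_)
  rw [Real.norm_of_nonneg (h.LL_pos _ _).le, ← mul_pow]
  exact hC _ _

theorem Good.half (h : Good Φ c) (j : ℝ) :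
    ∫ w, LL Φ w (j * w) = 2 * ∫ w in Ioi (0 : ℝ), LL Φ w (j * w) := by
  rw [← integral_comp_abs (f := fun w => LL Φ w (j * w))]
  refine integral_congr_ae (ae_of_all _ fun w => ?_)
  simp only
  rcases abs_cases w with hw | hw <;> rw [hw.1]
  rw [mul_neg, h.LL_neg]

theorem Good.ball (h : Good Φ c) (hQ : QCStmt) (hP : PLStmt) {l : ℝ} (k : ℝ) (hl0 : 0 < l)
    (hl1 : l < 1) : (∫ w, LL Φ w (l * k * w))⁻¹ ≤
      (1 - l) * (∫ w, LL Φ w (0 * w))⁻¹ + l * (∫ w, LL Φ w (k * w))⁻¹ := by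
  have hc := h.cpos
  obtain ⟨C, hC0, hC⟩ := h.LL_le
  have e : ∀ w s, 1 / exp (-log (LL Φ w s) / 2) ^ 2 = LL Φ w s := fun w s => by
    rw [← exp_nat_mul, one_div, ← exp_neg]
    convert exp_log (h.LL_pos w s) using 2
    push_cast; ring
  have key := plane hQ (N := fun w s => exp (-log (LL Φ w s) / 2)) (c := c / √(2 * C)) k hl0 hl1
    (by positivity) (fun j => by have := h.LL_meas j; fun_prop) (fun w s hw => ?_)
    (fun a w s w' s' ha0 ha1 => ?_) (fun j => by simpa only [e] using (h.LL_int j).integrableOn)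
  · simp only [e] at key
    rw [h.half, h.half, h.half, mul_inv, mul_inv, mul_inv]
    linarith
  · have h1 := e w s
    have h2 := exp_pos (-log (LL Φ w s) / 2)
    have h3 := hC w s
    have h4 := sq_mul_exp_le (c * w)
    generalize exp (-log (LL Φ w s) / 2) = N at *
    rw [← h1, div_le_iff₀ (by positivity)] at h3
    have h5 : (c * w) ^ 2 ≤ 2 * C * N ^ 2 := by
      have h6 := mul_le_mul_of_nonneg_left h3 (sq_nonneg (c * w))
      have h7 := mul_le_mul_of_nonneg_right h4 (by positivity : 0 ≤ C * N ^ 2)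
      nlinarith
    refine abs_le_of_sq_le_sq' ?_ h2.le |>.2
    rw [div_mul_eq_mul_div, div_pow, sq_sqrt (by positivity), div_le_iff₀ (by positivity)]
    linarith
  · have h1 := pl_exp hP ha0 ha1 (h.int_y w s) (h.int_y w' s')
      (h.int_y ((1 - a) * w + a * w') ((1 - a) * s + a * s')) (h.cont_y _ _).measurable
      (h.cont_y _ _).measurable (h.cont_y _ _).measurable fun x y => h.cvx a w s w' s' x y ha0 ha1
    have h2 := convexOn_exp.2 (mem_univ (-log (LL Φ w s) / 2)) (mem_univ (-log (LL Φ w' s') / 2))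
      (by linarith : 0 ≤ 1 - a) ha0.le (by ring)
    simp only [smul_eq_mul] at h2
    refine le_trans (exp_le_exp.2 ?_) h2
    change (1 - a) * log (LL Φ w s) + a * log (LL Φ w' s') ≤ log (LL Φ _ _) at h1
    linarith

end

/-- The potential attached to a norm, a base point and a splitting. -/
noncomputable def pot {m : ℕ} (p : Eu (m + 1) → ℝ) (δ : ℝ) (ξ u : Eu (m + 1))
    (ι : Eu m →ₗᵢ[ℝ] Eu (m + 1)) (w s : ℝ) (y : Eu m) : ℝ :=
  p (w • u + ι y) ^ 2 / 2 + (⟪w • u + ι y, ξ⟫ + s) ^ 2 / (2 * δ ^ 2)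

section

variable {m : ℕ} {p : Eu (m + 1) → ℝ} {δ : ℝ} {u : Eu (m + 1)} {ι : Eu m →ₗᵢ[ℝ] Eu (m + 1)}

theorem good_pot (hp : Nrm p) (hδ : 0 < δ) (ξ : Eu (m + 1)) (hu : ‖u‖ = 1)
    (hι : ∀ y, ⟪u, ι y⟫ = 0) : ∃ c, Good (pot p δ ξ u ι) c := by
  obtain ⟨c, hc, hlow⟩ := hp.low
  refine ⟨c, hc, ?_, fun a w s w' s' y y' ha0 ha1 => ?_, fun w s y => ?_, fun w s y => ?_⟩
  · have := hp.cont
    have := ι.continuous
    unfold pot
    fun_prop
  · have e : ((1 - a) * w + a * w') • u + ι ((1 - a) • y + a • y') =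
        (1 - a) • (w • u + ι y) + a • (w' • u + ι y') := by
      rw [map_add, map_smul, map_smul]; module
    unfold pot
    rw [e]
    generalize w • u + ι y = x
    generalize w' • u + ι y' = x'
    have h1 := hp.sq_comb (by linarith : 0 ≤ 1 - a) ha0.le (by ring) x x'
    rw [inner_add_left, real_inner_smul_left, real_inner_smul_left]
    have h2 : ((1 - a) * ⟪x, ξ⟫ + a * ⟪x', ξ⟫ + ((1 - a) * s + a * s')) ^ 2 ≤
        (1 - a) * (⟪x, ξ⟫ + s) ^ 2 + a * (⟪x', ξ⟫ + s') ^ 2 := by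
      have : 0 ≤ (1 - a) * a * ((⟪x, ξ⟫ + s) - (⟪x', ξ⟫ + s')) ^ 2 :=
        mul_nonneg (mul_nonneg (by linarith) ha0.le) (sq_nonneg _)
      nlinarith
    have h3 := div_le_div_of_nonneg_right h2 (by positivity : 0 ≤ 2 * δ ^ 2)
    rw [add_div, mul_div_assoc, mul_div_assoc] at h3
    linarith
  · have e : (-w) • u + ι (-y) = -(w • u + ι y) := by rw [map_neg]; module
    unfold pot
    rw [e, hp.neg, inner_neg_left]
    ring
  · have h1 : ‖w • u + ι y‖ ^ 2 = w ^ 2 + ‖y‖ ^ 2 := by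
      rw [norm_add_sq_real, real_inner_smul_left, hι, norm_smul, hu, ι.norm_map, Real.norm_eq_abs]
      simp
    have h2 := pow_le_pow_left₀ (by positivity) (hlow (w • u + ι y)) 2
    rw [mul_pow, h1] at h2
    have h3 : 0 ≤ (⟪w • u + ι y, ξ⟫ + s) ^ 2 / (2 * δ ^ 2) := by positivity
    unfold pot
    linarith

theorem A0_eq (hp : Nrm p) (hδ : 0 < δ) (ξ : Eu (m + 1)) (hu : ‖u‖ = 1)
    (hι : ∀ y, ⟪u, ι y⟫ = 0)
    (hm : MeasurePreserving (fun q : ℝ × Eu m => q.1 • u + ι q.2) (volume.prod volume) volume)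
    (j : ℝ) : A0 p δ (ξ + j • u) =
      (Zc p * (√(2 * π) * δ))⁻¹ * ∫ w, LL (pot p δ ξ u ι) w (j * w) := by
  have hZ := hp.Zc_pos
  have hi := (hp.integrable_mu _).1 (hp.int_gk hδ (ξ + j • u))
  have hi2 : Integrable (fun q : ℝ × Eu m => exp (-(p (q.1 • u + ι q.2) ^ 2 / 2)) / Zc p *
      gk δ ⟪q.1 • u + ι q.2, ξ + j • u⟫) (volume.prod volume) := hm.integrable_comp_of_integrable hi
  rw [A0, hp.integral_mu, ← hm.map_eq, integral_map hm.aemeasurable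
    (by rw [hm.map_eq]; exact hi.aestronglyMeasurable), integral_prod _ hi2, ← integral_const_mul]
  refine integral_congr_ae (ae_of_all _ fun w => ?_)
  simp only [LL]
  rw [← integral_const_mul]
  refine integral_congr_ae (ae_of_all _ fun y => ?_)
  have e : ⟪w • u + ι y, ξ + j • u⟫ = ⟪w • u + ι y, ξ⟫ + j * w := by
    rw [inner_add_right, real_inner_smul_right, inner_add_left (x := w • u) (z := u),
      real_inner_smul_left, real_inner_self_eq_norm_sq, hu, real_inner_comm u (ι y), hι]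
    ring
  simp only [gk, pot, e]
  rw [neg_add, exp_add]
  have := sqrt_two_pi_pos
  field_simp

end

end Ball

theorem ball (hQ : QCStmt) (hP : PLStmt) : BallStmt := by
  intro n p δ hp hδ
  refine convexOn_iff_pairwise_pos.2 ⟨convex_univ, fun ξ _ ζ _ hne a l ha hl hal => ?_⟩
  cases n with
  | zero => exact absurd (Subsingleton.elim _ _) hne
  | succ m =>
    have he : 0 < ‖ζ - ξ‖ := norm_pos_iff.2 (sub_ne_zero.2 hne.symm)
    have hu : ‖‖ζ - ξ‖⁻¹ • (ζ - ξ)‖ = 1 := by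
      rw [norm_smul, norm_inv, norm_norm, inv_mul_cancel₀ he.ne']
    have hk : ‖ζ - ξ‖ • ‖ζ - ξ‖⁻¹ • (ζ - ξ) = ζ - ξ := smul_inv_smul₀ he.ne' _
    generalize ‖ζ - ξ‖⁻¹ • (ζ - ξ) = u at hu hk
    generalize ‖ζ - ξ‖ = k at hk he
    obtain ⟨ι, h1, -, h2⟩ := split u hu
    obtain ⟨c, hG⟩ := Ball.good_pot hp hδ ξ hu h1
    have ha' : a = 1 - l := by linarith
    subst ha'
    have key := hG.ball hQ hP k hl (by linarith)
    have e0 : ξ = ξ + (0 : ℝ) • u := by simp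
    have e1 : ζ = ξ + k • u := by rw [hk]; abel
    have e2 : (1 - l) • ξ + l • ζ = ξ + (l * k) • u := by rw [e1]; module
    have f0 := Ball.A0_eq hp hδ ξ hu h1 h2 0
    have f1 := Ball.A0_eq hp hδ ξ hu h1 h2 k
    have f2 := Ball.A0_eq hp hδ ξ hu h1 h2 (l * k)
    rw [← e0] at f0
    rw [← e1] at f1
    rw [← e2] at f2
    have hZ : 0 < Zc p * (√(2 * π) * δ) := by have := hp.Zc_pos; positivity
    simp only [smul_eq_mul]
    rw [f0, f1, f2]
    generalize Zc p * (√(2 * π) * δ) = Z at hZ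
    rw [mul_inv, mul_inv, mul_inv, inv_inv]
    have := mul_le_mul_of_nonneg_left key hZ.le
    linarith

end Pool.Agent.MP_2a44fd_gt.hd

end MrgPart0

-- ======== part 1: formerly Pool.Agent.MP_2a44fd_gt.hd.Q4c
section MrgPart1

/-!
PROJECT BP5HD, module Q4C: the quartic form is small by Gaussian concentration.
-/

set_option autoImplicit false

open MeasureTheory Real Set Filter Topology
open scoped RealInnerProductSpace ENNReal

namespace Pool.Agent.MP_2a44fd_gt.hd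

namespace Q4c

variable {n : ℕ}

/-- The quartic form of a measure. -/
noncomputable def FF (ν : Measure (Eu n)) (y : Eu n) : ℝ := ∫ x, ⟪x, y⟫ ^ 4 / ‖x‖ ^ 5 ∂ν

theorem FF_nonneg (ν : Measure (Eu n)) (y : Eu n) : 0 ≤ FF ν y :=
  integral_nonneg fun x => by positivity

theorem FF_neg (ν : Measure (Eu n)) (y : Eu n) : FF ν (-y) = FF ν y := by
  unfold FF
  simp only [inner_neg_right, Even.neg_pow (by decide : Even 4)]

theorem FF_bound {ν : Measure (Eu n)} {K : ℝ}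
    (h : ∀ v : Eu n, ‖v‖ = 1 → Integrable (fun x => |⟪x, v⟫| ^ 4 / ‖x‖ ^ 5) ν ∧
      ∫ x, |⟪x, v⟫| ^ 4 / ‖x‖ ^ 5 ∂ν ≤ K) (y : Eu n) :
    Integrable (fun x => ⟪x, y⟫ ^ 4 / ‖x‖ ^ 5) ν ∧ FF ν y ≤ K * ‖y‖ ^ 4 := by
  by_cases hy : y = 0
  · subst hy
    simp [FF]
  · have h0 : 0 < ‖y‖ := norm_pos_iff.2 hy
    obtain ⟨h1, h2⟩ := h (‖y‖⁻¹ • y) (by rw [norm_smul, norm_inv, norm_norm, inv_mul_cancel₀ h0.ne'])
    have e : (fun x : Eu n => ⟪x, y⟫ ^ 4 / ‖x‖ ^ 5) =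
        fun x => ‖y‖ ^ 4 * (|⟪x, ‖y‖⁻¹ • y⟫| ^ 4 / ‖x‖ ^ 5) := by
      funext x
      rw [Even.pow_abs (by decide : Even 4), inner_smul_right, mul_pow, ← mul_div_assoc,
        ← mul_assoc, ← mul_pow, mul_inv_cancel₀ h0.ne', one_pow, one_mul]
    refine ⟨e ▸ h1.const_mul _, ?_⟩
    rw [FF, e, integral_const_mul, mul_comm]
    gcongr

theorem pow_four_add {A B : ℝ} (hA : 0 < A) (hB : 0 < B) (a b : ℝ) :
    (a + b) ^ 4 ≤ (A + B) ^ 3 / A ^ 3 * a ^ 4 + (A + B) ^ 3 / B ^ 3 * b ^ 4 := by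
  obtain ⟨u, rfl⟩ : ∃ u, a = A * u := ⟨a / A, by field_simp⟩
  obtain ⟨v, rfl⟩ : ∃ v, b = B * v := ⟨b / B, by field_simp⟩
  have h1 : ∀ s t : ℝ, (A * s + B * t) ^ 2 ≤ (A + B) * (A * s ^ 2 + B * t ^ 2) := fun s t => by
    have := mul_nonneg (mul_pos hA hB).le (sq_nonneg (s - t))
    nlinarith
  have e : (A + B) ^ 3 / A ^ 3 * (A * u) ^ 4 + (A + B) ^ 3 / B ^ 3 * (B * v) ^ 4 =
      (A + B) ^ 2 * ((A + B) * (A * (u ^ 2) ^ 2 + B * (v ^ 2) ^ 2)) := by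
    field_simp
  rw [e]
  calc (A * u + B * v) ^ 4 = ((A * u + B * v) ^ 2) ^ 2 := by ring
    _ ≤ ((A + B) * (A * u ^ 2 + B * v ^ 2)) ^ 2 := by gcongr; exact h1 u v
    _ = (A + B) ^ 2 * (A * u ^ 2 + B * v ^ 2) ^ 2 := by ring
    _ ≤ _ := by gcongr; exact h1 _ _

theorem FF_add {ν : Measure (Eu n)} (hi : ∀ y, Integrable (fun x => ⟪x, y⟫ ^ 4 / ‖x‖ ^ 5) ν)
    {A B : ℝ} (hA : 0 < A) (hB : 0 < B) {y z : Eu n} (hy : FF ν y ≤ A ^ 4) (hz : FF ν z ≤ B ^ 4) :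
    FF ν (y + z) ≤ (A + B) ^ 4 := by
  calc FF ν (y + z) ≤ ∫ x, ((A + B) ^ 3 / A ^ 3 * (⟪x, y⟫ ^ 4 / ‖x‖ ^ 5) +
        (A + B) ^ 3 / B ^ 3 * (⟪x, z⟫ ^ 4 / ‖x‖ ^ 5)) ∂ν := by
        refine integral_mono (hi _) (((hi y).const_mul _).add ((hi z).const_mul _)) fun x => ?_
        dsimp only
        rw [inner_add_right, ← mul_div_assoc, ← mul_div_assoc, ← add_div]
        gcongr
        exact pow_four_add hA hB _ _
    _ = (A + B) ^ 3 / A ^ 3 * FF ν y + (A + B) ^ 3 / B ^ 3 * FF ν z := by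
        rw [integral_add ((hi y).const_mul _) ((hi z).const_mul _), integral_const_mul,
          integral_const_mul]
        rfl
    _ ≤ (A + B) ^ 3 / A ^ 3 * A ^ 4 + (A + B) ^ 3 / B ^ 3 * B ^ 4 := by gcongr
    _ = (A + B) ^ 4 := by field_simp

/-- The fourth root. -/
noncomputable def rt (x : ℝ) : ℝ := √√x

theorem rt_nonneg (x : ℝ) : 0 ≤ rt x := sqrt_nonneg _

theorem rt_pow {x : ℝ} (hx : 0 ≤ x) : rt x ^ 4 = x := by
  rw [show rt x ^ 4 = (√√x ^ 2) ^ 2 by rw [rt]; ring, sq_sqrt (sqrt_nonneg _), sq_sqrt hx]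

theorem rt_le {x A : ℝ} (hx : 0 ≤ x) (hA : 0 ≤ A) (h : x ≤ A ^ 4) : rt x ≤ A :=
  (pow_le_pow_iff_left₀ (rt_nonneg x) hA (by decide : 4 ≠ 0)).1 ((rt_pow hx).symm ▸ h)

theorem rt_lip {ν : Measure (Eu n)} {l : ℝ} (hl : 0 ≤ l)
    (hi : ∀ y, Integrable (fun x => ⟪x, y⟫ ^ 4 / ‖x‖ ^ 5) ν)
    (hb : ∀ y, FF ν y ≤ l ^ 4 * ‖y‖ ^ 4) (y z : Eu n) :
    |rt (FF ν y) - rt (FF ν z)| ≤ l * ‖y - z‖ := by
  have key : ∀ y z : Eu n, rt (FF ν y) ≤ rt (FF ν z) + l * ‖y - z‖ := fun y z => by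
    refine le_of_forall_pos_le_add fun η hη => ?_
    have a0 := rt_nonneg (FF ν z)
    have b0 : 0 ≤ l * ‖y - z‖ := by positivity
    have h1 : FF ν z ≤ (rt (FF ν z) + η / 2) ^ 4 := by
      nth_rewrite 1 [← rt_pow (FF_nonneg ν z)]
      gcongr
      linarith
    have h2 : FF ν (y - z) ≤ (l * ‖y - z‖ + η / 2) ^ 4 := by
      refine (hb _).trans ?_
      rw [← mul_pow]
      gcongr
      linarith
    have h3 := FF_add hi (by positivity) (by positivity) h1 h2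
    rw [add_sub_cancel] at h3
    refine (rt_le (FF_nonneg ν y) (by positivity) h3).trans (le_of_eq (by ring))
  have k1 := key y z
  have k2 := key z y
  rw [norm_sub_rev] at k2
  exact abs_le.2 ⟨by linarith, by linarith⟩

theorem abs_pow_four_sub {a c l s : ℝ} (ha : 0 ≤ a) (hc : 0 ≤ c) (hal : a ≤ l) (hcl : c ≤ l)
    (h : |a - c| ≤ s) : |a ^ 4 - c ^ 4| ≤ 4 * l ^ 3 * s := by
  have hl : 0 ≤ l := ha.trans hal
  have e : a ^ 4 - c ^ 4 = (a - c) * (a ^ 3 + a ^ 2 * c + a * c ^ 2 + c ^ 3) := by ring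
  have h1 : a ^ 3 + a ^ 2 * c + a * c ^ 2 + c ^ 3 ≤ l ^ 3 + l ^ 2 * l + l * l ^ 2 + l ^ 3 := by
    gcongr
  rw [e, abs_mul, abs_of_nonneg (by positivity : 0 ≤ a ^ 3 + a ^ 2 * c + a * c ^ 2 + c ^ 3)]
  calc _ ≤ s * (l ^ 3 + l ^ 2 * l + l * l ^ 2 + l ^ 3) :=
        mul_le_mul h h1 (by positivity) ((abs_nonneg _).trans h)
    _ = 4 * l ^ 3 * s := by ring

theorem norm_mean_pos (hn : 1 ≤ n) : 0 < ∫ y, ‖y‖ ∂gam n := by
  have hi : Integrable (fun y : Eu n => ‖y‖) (gam n) := by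
    simpa only [pow_one, gam] using (nrm_norm (n := n)).int_norm_pow 1
  have h0 : 0 ≤ ∫ y, ‖y‖ ∂gam n := integral_nonneg fun y => norm_nonneg y
  rcases h0.lt_or_eq with h | h
  · exact h
  · have h1 := (integral_eq_zero_iff_of_nonneg (fun y => norm_nonneg y) hi).1 h.symm
    have h2 : ∀ᵐ y ∂gam n, y ≠ 0 := ae_ne_zero hn _
    obtain ⟨y, h3, h4⟩ := (h1.and h2).exists
    exact absurd (norm_eq_zero.1 h3) h4

/-- Concentration of a Lipschitz function relative to the norm. -/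
theorem conc_ratio (hC : ConcStmt) (hn : 1 ≤ n) {f : Eu n → ℝ} {l e : ℝ} (hl : 0 < l) (he : 0 < e)
    (h0 : ∀ y, 0 ≤ f y) (h1 : ∀ y, f y ≤ l * ‖y‖) (h2 : ∀ y z, |f y - f z| ≤ l * ‖y - z‖) :
    ∃ (c : ℝ) (E : Set (Eu n)), 0 ≤ c ∧ c ≤ l ∧ MeasurableSet E ∧
      (gam n).real E ≤ 2 * exp (-(e ^ 2 / 64 * n)) ∧
      ∀ y, y ∉ E → (n : ℝ) / 4 ≤ ‖y‖ ^ 2 → |f y / ‖y‖ - c| ≤ l * e := by
  have hn' : (0 : ℝ) < n := by exact_mod_cast hn
  have hs : 0 < √(n : ℝ) := sqrt_pos.2 hn'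
  have fc : Continuous f := by
    refine (LipschitzWith.of_dist_le_mul (K := ⟨l, hl.le⟩) fun y z => ?_).continuous
    rw [Real.dist_eq, dist_eq_norm]
    exact h2 y z
  have hi : Integrable (fun y : Eu n => ‖y‖) (gam n) := by
    simpa only [pow_one, gam] using (nrm_norm (n := n)).int_norm_pow 1
  have fi : Integrable f (gam n) := (hi.const_mul l).mono' fc.aestronglyMeasurable
    (Eventually.of_forall fun y => by rw [Real.norm_eq_abs, abs_of_nonneg (h0 y)]; exact h1 y)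
  have hm := norm_mean_pos hn
  set m := ∫ y, ‖y‖ ∂gam n with hm'
  set c := (∫ y, f y ∂gam n) / m with hc
  have c0 : 0 ≤ c := div_nonneg (integral_nonneg h0) hm.le
  have c1 : c ≤ l := by
    rw [hc, div_le_iff₀ hm, hm', ← integral_const_mul]
    exact integral_mono fi (hi.const_mul l) h1
  have k := hC n (fun y => f y - c * ‖y‖) (2 * l) (l * e * √n / 2) (by positivity) (by positivity)
    (fun y z => by
      have a1 := h2 y z
      have a2 : |c * (‖y‖ - ‖z‖)| ≤ l * ‖y - z‖ := by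
        rw [abs_mul, abs_of_nonneg c0]
        gcongr
        exact abs_norm_sub_norm_le y z
      calc _ = |(f y - f z) - c * (‖y‖ - ‖z‖)| := by congr 1; ring
        _ ≤ |f y - f z| + |c * (‖y‖ - ‖z‖)| := abs_sub _ _
        _ ≤ 2 * l * ‖y - z‖ := by linarith)
    (by rw [integral_sub fi (hi.const_mul c), integral_const_mul, hc, div_mul_cancel₀ _ hm.ne',
      sub_self])
  refine ⟨c, {y | l * e * √n / 2 ≤ |f y - c * ‖y‖|}, c0, c1,
    (isClosed_le continuous_const (by fun_prop)).measurableSet, k.trans (le_of_eq ?_),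
    fun y hy hy' => ?_⟩
  · congr 3
    rw [div_pow, mul_pow, sq_sqrt hn'.le]
    field_simp
    norm_num
  · have a1 : √(n : ℝ) / 2 ≤ ‖y‖ := by
      refine (pow_le_pow_iff_left₀ (by positivity) (norm_nonneg _) two_ne_zero).1 ?_
      rw [div_pow, sq_sqrt hn'.le]
      linarith
    have a2 : 0 < ‖y‖ := lt_of_lt_of_le (by positivity) a1
    have a3 : |f y - c * ‖y‖| < l * e * √n / 2 := not_le.1 hy
    rw [show f y / ‖y‖ - c = (f y - c * ‖y‖) / ‖y‖ by field_simp, abs_div, abs_of_pos a2,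
      div_le_iff₀ a2]
    calc _ ≤ l * e * (√n / 2) := by linarith
      _ ≤ l * e * ‖y‖ := by gcongr

/-- Concentration of the quartic form. -/
theorem conc_FF (hC : ConcStmt) (hn : 1 ≤ n) {ν : Measure (Eu n)} {K e : ℝ} (hK : 0 < K)
    (he : 0 < e) (h : ∀ v : Eu n, ‖v‖ = 1 → Integrable (fun x => |⟪x, v⟫| ^ 4 / ‖x‖ ^ 5) ν ∧
      ∫ x, |⟪x, v⟫| ^ 4 / ‖x‖ ^ 5 ∂ν ≤ K) :
    ∃ (c : ℝ) (E : Set (Eu n)), MeasurableSet E ∧ (gam n).real E ≤ 2 * exp (-(e ^ 2 / 64 * n)) ∧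
      (∀ y, |FF ν y / ‖y‖ ^ 4 - c| ≤ K) ∧
      ∀ y, y ∉ E → (n : ℝ) / 4 ≤ ‖y‖ ^ 2 → |FF ν y / ‖y‖ ^ 4 - c| ≤ 4 * e * K := by
  have l4 : rt K ^ 4 = K := rt_pow hK.le
  have l0 : 0 < rt K := sqrt_pos.2 (sqrt_pos.2 hK)
  have hb : ∀ y, FF ν y ≤ rt K ^ 4 * ‖y‖ ^ 4 := fun y => l4.symm ▸ (FF_bound h y).2
  have h1 : ∀ y, rt (FF ν y) ≤ rt K * ‖y‖ := fun y =>
    rt_le (FF_nonneg ν y) (by positivity) (by rw [mul_pow]; exact hb y)
  obtain ⟨c, E, c0, c1, hE, hE', hc⟩ := conc_ratio hC hn (f := fun y => rt (FF ν y)) l0 he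
    (fun y => rt_nonneg _) h1 (rt_lip l0.le (fun y => (FF_bound h y).1) hb)
  have a0 : ∀ y, 0 ≤ rt (FF ν y) / ‖y‖ := fun y => div_nonneg (rt_nonneg _) (norm_nonneg _)
  have a1 : ∀ y, rt (FF ν y) / ‖y‖ ≤ rt K := fun y =>
    div_le_of_le_mul₀ (norm_nonneg _) l0.le (h1 y)
  have a2 : ∀ y, FF ν y / ‖y‖ ^ 4 = (rt (FF ν y) / ‖y‖) ^ 4 := fun y => by
    rw [div_pow, rt_pow (FF_nonneg ν y)]
  refine ⟨c ^ 4, E, hE, hE', fun y => ?_, fun y hy hy' => ?_⟩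
  · have b1 : (rt (FF ν y) / ‖y‖) ^ 4 ≤ K := l4 ▸ pow_le_pow_left₀ (a0 y) (a1 y) 4
    have b2 : c ^ 4 ≤ K := l4 ▸ pow_le_pow_left₀ c0 c1 4
    have b3 := pow_nonneg (a0 y) 4
    have b4 := pow_nonneg c0 4
    rw [a2]
    exact abs_le.2 ⟨by linarith, by linarith⟩
  · rw [a2]
    refine (abs_pow_four_sub (a0 y) c0 (a1 y) c1 (hc y hy hy')).trans (le_of_eq ?_)
    nth_rewrite 3 [← l4]
    ring

/-- The majorant used for the outer integral. -/
noncomputable def GG (e s : ℝ) (E : Set (Eu n)) (y : Eu n) : ℝ :=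
  4 * e * (1 / ‖y‖ ^ 1) + (e * s * (1 / ‖y‖ ^ 2) + E.indicator (fun _ => 1 / (e * s)) y)

theorem GG_int {ν : Measure (Eu n)} [IsProbabilityMeasure ν] {e s C1 C2 : ℝ} (he : 0 < e)
    (hs : 0 < s) {E : Set (Eu n)} (hE : MeasurableSet E) (hE' : ν.real E ≤ e ^ 2)
    (h1 : Integrable (fun x => 1 / ‖x‖ ^ 1) ν ∧ ∫ x, 1 / ‖x‖ ^ 1 ∂ν ≤ C1 / s ^ 1)
    (h2 : Integrable (fun x => 1 / ‖x‖ ^ 2) ν ∧ ∫ x, 1 / ‖x‖ ^ 2 ∂ν ≤ C2 / s ^ 2) :
    Integrable (GG e s E) ν ∧ ∫ y, GG e s E y ∂ν ≤ e * (4 * C1 + C2 + 1) / s := by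
  have i3 : Integrable (E.indicator fun _ : Eu n => 1 / (e * s)) ν :=
    (integrable_const _).indicator hE
  refine ⟨(h1.1.const_mul _).add ((h2.1.const_mul _).add i3), ?_⟩
  have i4 : Integrable (fun y : Eu n => e * s * (1 / ‖y‖ ^ 2) +
      E.indicator (fun _ => 1 / (e * s)) y) ν := (h2.1.const_mul _).add i3
  unfold GG
  rw [integral_add (h1.1.const_mul _) i4, integral_add (h2.1.const_mul _) i3, integral_const_mul, integral_const_mul,
    integral_indicator_const _ hE, smul_eq_mul]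
  calc _ ≤ 4 * e * (C1 / s ^ 1) + (e * s * (C2 / s ^ 2) + e ^ 2 * (1 / (e * s))) := by
        gcongr
        · exact h1.2
        · exact h2.2
    _ = _ := by field_simp; ring

theorem GG_ge {e s M t : ℝ} (he : 0 < e) (hs : 0 < s) (hM : 0 ≤ M) {E : Set (Eu n)} {y : Eu n}
    (h1 : |t| ≤ M) (h2 : y ∉ E → |t| ≤ 4 * e * M) : ‖y‖⁻¹ * |t| ≤ M * GG e s E y := by
  have a0 : 0 ≤ ‖y‖⁻¹ := by positivity
  unfold GG
  simp only [pow_one, one_div, ← inv_pow]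
  by_cases hy : y ∈ E
  · rw [indicator_of_mem hy]
    have b1 : ‖y‖⁻¹ ≤ e * s * ‖y‖⁻¹ ^ 2 + (e * s)⁻¹ := by
      have c0 : 0 < e * s := by positivity
      rw [← mul_le_mul_iff_right₀ c0, mul_add, mul_inv_cancel₀ c0.ne']
      nlinarith [sq_nonneg (e * s * ‖y‖⁻¹ - 1), mul_nonneg c0.le a0]
    have b2 : 0 ≤ 4 * e * ‖y‖⁻¹ := by positivity
    calc ‖y‖⁻¹ * |t| ≤ ‖y‖⁻¹ * M := by gcongr
      _ = M * ‖y‖⁻¹ := mul_comm _ _
      _ ≤ _ := by gcongr; linarith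
  · rw [indicator_of_notMem hy, add_zero]
    have b2 : 0 ≤ e * s * ‖y‖⁻¹ ^ 2 := by positivity
    calc ‖y‖⁻¹ * |t| ≤ ‖y‖⁻¹ * (4 * e * M) := by gcongr; exact h2 hy
      _ = M * (4 * e * ‖y‖⁻¹) := by ring
      _ ≤ _ := by gcongr; linarith

theorem GG_nonneg {e s : ℝ} (he : 0 < e) (hs : 0 < s) (E : Set (Eu n)) (y : Eu n) :
    0 ≤ GG e s E y := by
  have : 0 ≤ E.indicator (fun _ => 1 / (e * s)) y := indicator_nonneg (fun _ _ => by positivity) y
  unfold GG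
  positivity

theorem real_le_of_W {p : Eu n → ℝ} (hp : Nrm p) {D E : Set (Eu n)} (hD : MeasurableSet D)
    (hE : MeasurableSet E) {w : ℝ} (hw : 0 ≤ w) (h : ∀ x, x ∉ D → Wd p x ≤ w) :
    (mu p).real E ≤ (mu p).real D + w * (gam n).real E := by
  have := hp.prob
  have h1 : (mu p).real E ≤ (mu p).real D + (mu p).real (E \ D) :=
    (measureReal_mono (fun x hx => by
      by_cases h' : x ∈ D
      · exact Or.inl h'
      · exact Or.inr ⟨hx, h'⟩)).trans (measureReal_union_le _ _)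
  refine h1.trans (add_le_add le_rfl ?_)
  rw [hp.real_eq (hE.diff hD), mul_comm, ← smul_eq_mul, ← integral_indicator_const _ hE]
  refine integral_mono_of_nonneg (Eventually.of_forall fun x =>
    indicator_nonneg (fun x _ => (hp.Wd_pos x).le) x) ((integrable_const _).indicator hE)
    (Eventually.of_forall fun x => ?_)
  by_cases hx : x ∈ E \ D
  · rw [indicator_of_mem hx, indicator_of_mem hx.1]
    exact h x hx.2
  · rw [indicator_of_notMem hx]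
    exact indicator_nonneg (fun _ _ => hw) x

theorem cs_eq (x y : Eu n) : cs x y ^ 4 * ‖x‖⁻¹ = ⟪x, y⟫ ^ 4 / ‖x‖ ^ 5 / ‖y‖ ^ 4 := by
  unfold cs
  ring

/-- The quartic form as an iterated integral. -/
theorem Q4_eq {p h : Eu n → ℝ} {b Λ : ℝ} (H : Sp Λ p h b)
    (i1 : Integrable (fun x => ‖x‖⁻¹) (mu p)) (i2 : Integrable (fun x => ‖x‖⁻¹) (gam n))
    (j1 : ∀ y, Integrable (fun x => ⟪x, y⟫ ^ 4 / ‖x‖ ^ 5) (mu p))
    (j2 : ∀ y, Integrable (fun x => ⟪x, y⟫ ^ 4 / ‖x‖ ^ 5) (gam n)) (c : ℝ) :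
    Q4 p b = (n : ℝ) ^ 3 * ∫ y, Vf p b y * (‖y‖⁻¹ *
      (lam b * (FF (mu p) y / ‖y‖ ^ 4) - FF (gam n) y / ‖y‖ ^ 4 - c)) ∂gam n := by
  have hp := H.reg.tame.nrm
  obtain ⟨v1, v2⟩ := hp.int_Vf b i1 i2
  rw [H.nor, sub_self] at v2
  have hq : Integrable (qi (fun ρ => ρ ^ 4) (Vf p b)) ((gam n).prod (gam n)) := by
    refine (v1.mul_prod v1).mono ?_ (Eventually.of_forall fun z => ?_)
    · have m1 := (hp.Vf_cont b).measurable
      have m2 := meas_cs (n := n)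
      refine Measurable.aestronglyMeasurable ?_
      unfold qi
      fun_prop
    · have a1 : |cs z.1 z.2 ^ 4| ≤ 1 := by
        rw [abs_pow]; exact pow_le_one₀ (abs_nonneg _) (abs_cs_le _ _)
      rw [Real.norm_eq_abs, Real.norm_eq_abs, qi, abs_mul,
        show Vf p b z.1 * Vf p b z.2 / (‖z.1‖ * ‖z.2‖) =
          Vf p b z.1 * ‖z.1‖⁻¹ * (Vf p b z.2 * ‖z.2‖⁻¹) by ring]
      exact mul_le_of_le_one_right (abs_nonneg _) a1
  have inner : ∀ y, ∫ x, qi (fun ρ => ρ ^ 4) (Vf p b) (x, y) ∂gam n = Vf p b y * (‖y‖⁻¹ *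
      (lam b * (FF (mu p) y / ‖y‖ ^ 4) - FF (gam n) y / ‖y‖ ^ 4)) := fun y => by
    have e : ∀ x, qi (fun ρ => ρ ^ 4) (Vf p b) (x, y) =
        Vf p b y * ‖y‖⁻¹ / ‖y‖ ^ 4 * (Vf p b x * (⟪x, y⟫ ^ 4 / ‖x‖ ^ 5)) := fun x => by
      unfold qi cs
      ring
    simp_rw [e]
    rw [integral_const_mul, (hp.int_Vf b (j1 y) (j2 y)).2]
    unfold FF
    ring
  have i3 := hq.integral_prod_right
  simp_rw [inner] at i3
  rw [Q4, Qf, integral_prod_symm _ hq]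
  simp_rw [inner]
  congr 1
  have e : ∀ y, Vf p b y * (‖y‖⁻¹ *
      (lam b * (FF (mu p) y / ‖y‖ ^ 4) - FF (gam n) y / ‖y‖ ^ 4 - c)) =
      Vf p b y * (‖y‖⁻¹ * (lam b * (FF (mu p) y / ‖y‖ ^ 4) - FF (gam n) y / ‖y‖ ^ 4)) -
        c * (Vf p b y * ‖y‖⁻¹) := fun y => by ring
  simp_rw [e]
  rw [integral_sub i3 (v1.const_mul c), integral_const_mul, v2, mul_zero, sub_zero]

theorem abs_int_V {p : Eu n → ℝ} {b : ℝ} (hp : Nrm p) (hb : 0 < b) {u G : Eu n → ℝ}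
    (h : ∀ y, |u y| ≤ G y) (i1 : Integrable G (mu p)) (i2 : Integrable G (gam n)) :
    |∫ y, Vf p b y * u y ∂gam n| ≤ lam b * ∫ y, G y ∂mu p + ∫ y, G y ∂gam n := by
  have i3 := (hp.integrable_gam G).1 i1
  rw [hp.integral_gam, ← integral_const_mul, ← integral_add (i3.const_mul _) i2, ← Real.norm_eq_abs]
  refine norm_integral_le_of_norm_le ((i3.const_mul _).add i2) (Eventually.of_forall fun y => ?_)
  have a1 := mul_pos (lam_pos hb) (hp.Wd_pos y)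
  have a2 : |Vf p b y| ≤ lam b * Wd p y + 1 := by
    unfold Vf
    exact abs_le.2 ⟨by linarith, by linarith⟩
  rw [Real.norm_eq_abs, abs_mul]
  calc |Vf p b y| * |u y| ≤ (lam b * Wd p y + 1) * G y :=
        mul_le_mul a2 (h y) (abs_nonneg _) (by positivity)
    _ = _ := by ring

end Q4c

open Q4c in
theorem q4c (hM : MomStmt) (hC : ConcStmt) (hT : TailStmt) : Q4CStmt := by
  intro Λ ε hΛ hε
  have hΛ1 : 1 ≤ Λ := by linarith
  obtain ⟨C1, n1, hC1, M1⟩ := hM Λ hΛ1 1 0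
  obtain ⟨C2, n2, hC2, M2⟩ := hM Λ hΛ1 2 0
  obtain ⟨C5, n5, hC5, M5⟩ := hM Λ hΛ1 5 4
  obtain ⟨c, hc, T⟩ := hT (3 / 4) (by norm_num)
  obtain ⟨e, he, hee⟩ : ∃ e : ℝ, 0 < e ∧ e * (C5 * (Λ + 1) ^ 2 * (4 * C1 + C2 + 1)) = ε :=
    ⟨ε / (C5 * (Λ + 1) ^ 2 * (4 * C1 + C2 + 1)), by positivity, by field_simp⟩
  obtain ⟨τ, hτ, t1, t2⟩ : ∃ τ : ℝ, 0 < τ ∧ τ ≤ e ^ 2 / 128 ∧ τ ≤ c / 2 :=
    ⟨min (e ^ 2 / 128) (c / 2), by positivity, min_le_left _ _, min_le_right _ _⟩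
  obtain ⟨n3, h3⟩ := exists_nat_ge (10 / (τ * e ^ 2))
  refine ⟨τ, n1 + n2 + n3 + n5 + 1, hτ, fun n hn p h b H D hD hDτ hW => ?_⟩
  have hn1 : 1 ≤ n := by omega
  have hn' : (0 : ℝ) < n := by exact_mod_cast hn1
  have hs : 0 < √(n : ℝ) := sqrt_pos.2 hn'
  have tp := H.reg.tame
  have hp := tp.nrm
  have := hp.prob
  have tg : Tame Λ fun x : Eu n => ‖x‖ := tame_gam.mono (by norm_num) hΛ
  have hb := H.reg.cmp.bp.bpos
  have l0 := lam_pos hb
  have l1 := H.reg.cmp.lam_le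
  have p1 := (M1 n (by omega) p tp).1
  have p2 := (M2 n (by omega) p tp).1
  have p5 := (M5 n (by omega) p tp).2.1
  have g1 : Integrable (fun x => 1 / ‖x‖ ^ 1) (gam n) ∧ ∫ x, 1 / ‖x‖ ^ 1 ∂gam n ≤ C1 / √n ^ 1 :=
    (M1 n (by omega) _ tg).1
  have g2 : Integrable (fun x => 1 / ‖x‖ ^ 2) (gam n) ∧ ∫ x, 1 / ‖x‖ ^ 2 ∂gam n ≤ C2 / √n ^ 2 :=
    (M2 n (by omega) _ tg).1
  have g5 : ∀ v : Eu n, ‖v‖ = 1 → Integrable (fun x => |⟪x, v⟫| ^ 4 / ‖x‖ ^ 5) (gam n) ∧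
      ∫ x, |⟪x, v⟫| ^ 4 / ‖x‖ ^ 5 ∂gam n ≤ C5 / √n ^ 5 := (M5 n (by omega) _ tg).2.1
  set K := C5 / √(n : ℝ) ^ 5 with hK
  have K0 : 0 < K := by positivity
  obtain ⟨cp, Ep, mp, ep, ap, bp⟩ := conc_FF hC hn1 K0 he p5
  obtain ⟨cg, Eg, mg, eg, ag, bg⟩ := conc_FF hC hn1 K0 he g5
  set E0 : Set (Eu n) := {x | ‖x‖ ^ 2 ≤ (1 - 3 / 4) * n} with hE0
  have m0 : MeasurableSet E0 := (isClosed_le (by fun_prop) continuous_const).measurableSet
  have e0 : (gam n).real E0 ≤ exp (-(c * n)) := (T n _ nrm_norm).1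
  set E := Ep ∪ Eg ∪ E0 with hE
  have mE : MeasurableSet E := (mp.union mg).union m0
  have x1 : exp (-(τ * n)) ≤ e ^ 2 / 10 := by
    have a1 : (n3 : ℝ) ≤ n := by exact_mod_cast (by omega : n3 ≤ n)
    have a2 : 10 ≤ n * (τ * e ^ 2) := (div_le_iff₀ (by positivity)).1 (h3.trans a1)
    have a3 := add_one_le_exp (τ * n)
    rw [exp_neg, inv_le_iff_one_le_mul₀ (exp_pos _)]
    have a4 : e ^ 2 / 10 * (τ * n) ≤ e ^ 2 / 10 * exp (τ * n) := by gcongr; linarith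
    linarith
  have x2 : exp (-(τ * n)) ≤ 1 := exp_le_one_iff.2 (by
    have := mul_pos hτ hn'
    linarith)
  have gE : (gam n).real E ≤ 5 * (exp (-(τ * n)) * exp (-(τ * n))) := by
    have a1 : exp (-(e ^ 2 / 64 * n)) ≤ exp (-(τ * n)) * exp (-(τ * n)) := by
      rw [← exp_add]
      refine exp_le_exp.2 ?_
      have := mul_le_mul_of_nonneg_right t1 hn'.le
      linarith
    have a2 : exp (-(c * n)) ≤ exp (-(τ * n)) * exp (-(τ * n)) := by
      rw [← exp_add]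
      refine exp_le_exp.2 ?_
      have := mul_le_mul_of_nonneg_right t2 hn'.le
      linarith
    have a3 := measureReal_union_le (μ := gam n) (Ep ∪ Eg) E0
    have a4 := measureReal_union_le (μ := gam n) Ep Eg
    linarith
  have x3 := exp_pos (-(τ * n))
  have gE' : (gam n).real E ≤ e ^ 2 := by
    have : exp (-(τ * n)) * exp (-(τ * n)) ≤ e ^ 2 / 10 * 1 := by gcongr
    have := sq_nonneg e
    linarith
  have pE : (mu p).real E ≤ e ^ 2 := by
    have a1 := real_le_of_W hp hD mE (exp_pos _).le hW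
    have a2 : exp (τ * n) * (gam n).real E ≤
        exp (τ * n) * (5 * (exp (-(τ * n)) * exp (-(τ * n)))) := by gcongr
    have a3 : exp (τ * n) * (5 * (exp (-(τ * n)) * exp (-(τ * n)))) = 5 * exp (-(τ * n)) := by
      rw [mul_left_comm, ← mul_assoc (exp _), ← exp_add, add_neg_cancel, exp_zero, one_mul]
    have := sq_nonneg e
    linarith
  obtain ⟨ip, jp⟩ := GG_int he hs mE pE p1 p2
  obtain ⟨ig, jg⟩ := GG_int he hs mE gE' g1 g2
  rw [Q4_eq H (by simpa only [pow_one, one_div] using p1.1)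
    (by simpa only [pow_one, one_div] using g1.1) (fun y => (FF_bound p5 y).1)
    (fun y => (FF_bound g5 y).1) (lam b * cp - cg), abs_mul, abs_of_pos (by positivity)]
  have key := abs_int_V hp hb (u := fun y => ‖y‖⁻¹ * (lam b * (FF (mu p) y / ‖y‖ ^ 4) -
    FF (gam n) y / ‖y‖ ^ 4 - (lam b * cp - cg))) (G := fun y => (Λ + 1) * K * GG e √n E y)
    (fun y => by
      have tri : ∀ B : ℝ, |FF (mu p) y / ‖y‖ ^ 4 - cp| ≤ B → |FF (gam n) y / ‖y‖ ^ 4 - cg| ≤ B →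
          |lam b * (FF (mu p) y / ‖y‖ ^ 4) - FF (gam n) y / ‖y‖ ^ 4 - (lam b * cp - cg)| ≤
            (Λ + 1) * B := fun B b1 b2 => by
        have b3 : |lam b * (FF (mu p) y / ‖y‖ ^ 4 - cp)| ≤ Λ * B := by
          rw [abs_mul, abs_of_pos l0]
          exact mul_le_mul l1 b1 (abs_nonneg _) (by linarith)
        calc _ = |lam b * (FF (mu p) y / ‖y‖ ^ 4 - cp) - (FF (gam n) y / ‖y‖ ^ 4 - cg)| := by
              congr 1; ring
          _ ≤ _ := abs_sub _ _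
          _ ≤ (Λ + 1) * B := by linarith
      rw [abs_mul, abs_of_nonneg (by positivity : 0 ≤ ‖y‖⁻¹)]
      refine GG_ge he hs (by positivity) (tri K (ap y) (ag y)) fun hy => ?_
      simp only [hE, mem_union, not_or] at hy
      have b0 : (n : ℝ) / 4 ≤ ‖y‖ ^ 2 := by
        have : ¬ ‖y‖ ^ 2 ≤ (1 - 3 / 4) * n := hy.2
        linarith
      exact (tri _ (bp y hy.1.1 b0) (bg y hy.1.2 b0)).trans (le_of_eq (by ring)))
    (ip.const_mul _) (ig.const_mul _)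
  rw [integral_const_mul, integral_const_mul] at key
  set S := e * (4 * C1 + C2 + 1) / √(n : ℝ) with hS
  have S0 : 0 ≤ S := by positivity
  have k2 : lam b * ((Λ + 1) * K * ∫ y, GG e √n E y ∂mu p) + (Λ + 1) * K * ∫ y, GG e √n E y ∂gam n ≤
      Λ * ((Λ + 1) * K * S) + (Λ + 1) * K * S := by
    have : 0 ≤ ∫ y, GG e √n E y ∂mu p := integral_nonneg fun y => GG_nonneg he hs E y
    gcongr
  calc _ ≤ (n : ℝ) ^ 3 * (Λ * ((Λ + 1) * K * S) + (Λ + 1) * K * S) := by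
        gcongr
        exact key.trans k2
    _ = ε := by
        have a1 : (n : ℝ) ^ 3 = √(n : ℝ) ^ 6 := by
          rw [show √(n : ℝ) ^ 6 = (√(n : ℝ) ^ 2) ^ 3 by ring, sq_sqrt hn'.le]
        rw [← hee, hK, hS, a1]
        field_simp

end Pool.Agent.MP_2a44fd_gt.hd

end MrgPart1

-- ======== part 2: formerly Pool.Agent.MP_2a44fd_gt.hd.Geo
section MrgPart2

/-!
PROJECT BP5HD: modules GEO and CHAIN.
-/

set_option autoImplicit false

open MeasureTheory Real Set Filter Topology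
open scoped RealInnerProductSpace ENNReal

namespace Pool.Agent.MP_2a44fd_gt.hd

namespace Geo

variable {n : ℕ}

/-- Tangent inequality of a differentiable convex function. -/
theorem tangent {f : Eu n → ℝ} (hf : ConvexOn ℝ univ f) {ξ : Eu n} {f' : Eu n →L[ℝ] ℝ}
    (hd : HasFDerivAt f f' ξ) (ζ : Eu n) : f ξ + f' (ζ - ξ) ≤ f ζ := by
  have hc : ConvexOn ℝ univ fun t : ℝ => f (ξ + t • (ζ - ξ)) := by
    refine ⟨convex_univ, fun x _ y _ a c ha hc hac => ?_⟩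
    have h := hf.2 (mem_univ (ξ + x • (ζ - ξ))) (mem_univ (ξ + y • (ζ - ξ))) ha hc hac
    have e : a • (ξ + x • (ζ - ξ)) + c • (ξ + y • (ζ - ξ)) = ξ + (a • x + c • y) • (ζ - ξ) := by
      have : ξ = a • ξ + c • ξ := by rw [← add_smul, hac, one_smul]
      simp only [smul_add, smul_eq_mul, add_smul, mul_smul]
      nth_rewrite 5 [this]
      abel
    rw [e] at h
    exact h
  have hl : HasDerivAt (fun t : ℝ => ξ + t • (ζ - ξ)) (ζ - ξ) 0 := by
    simpa using ((hasDerivAt_id (0 : ℝ)).smul_const (ζ - ξ)).const_add ξ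
  have hd' : HasFDerivAt f f' (ξ + (0 : ℝ) • (ζ - ξ)) := by simpa using hd
  have h2 := hc.le_slope_of_hasDerivAt (mem_univ 0) (mem_univ 1) one_pos
    (hd'.comp_hasDerivAt 0 hl)
  rw [slope_def_field] at h2
  simp at h2
  rw [map_sub]
  linarith

section

variable {p h : Eu n → ℝ} {b δ : ℝ}

/-- The gradient of `b / A0`. -/
noncomputable def gr (p : Eu n → ℝ) (b δ : ℝ) (ξ : Eu n) : Eu n :=
  (-(b / A0 p δ ξ ^ 2)) • A1 p δ ξ

theorem tan_hd (hB : BallStmt) (hD : DerStmt) (hp : Nrm p) (hb : 0 < b) (hδ : 0 < δ)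
    (ξ ζ : Eu n) : b / A0 p δ ξ + ⟪gr p b δ ξ, ζ - ξ⟫ ≤ b / A0 p δ ζ := by
  have h0 := hp.A0_pos hδ ξ
  have h1 := ((hD n p δ hp hδ).1 ξ)
  have h2 := (hasDerivAt_inv h0.ne').comp_hasFDerivAt ξ h1
  have h3 := tangent (hB n p δ hp hδ) h2 ζ
  have h4 := mul_le_mul_of_nonneg_left h3 hb.le
  simp only [smul_apply, innerSL_apply_apply, smul_eq_mul] at h4
  rw [gr, real_inner_smul_left, div_eq_mul_inv, div_eq_mul_inv, div_eq_mul_inv]
  linarith

theorem Yv_eq (hp : Nrm p) (hδ : 0 < δ) (ξ : Eu n) :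
    Yv p b δ ξ = (b / A0 p δ ξ) • gr p b δ ξ := by
  have h0 := hp.A0_pos hδ ξ
  rw [Yv, gr, smul_smul]
  congr 1
  field_simp

theorem Ph_eq (ξ : Eu n) : 2 * Ph p b δ ξ = (b / A0 p δ ξ) ^ 2 := by
  rw [Ph, div_pow]
  rcases eq_or_ne (A0 p δ ξ) 0 with h0 | h0
  · simp [h0]
  · field_simp

theorem tan_Ph (hB : BallStmt) (hD : DerStmt) (hp : Nrm p) (hb : 0 < b) (hδ : 0 < δ)
    (ξ ζ : Eu n) : Ph p b δ ξ + ⟪Yv p b δ ξ, ζ - ξ⟫ ≤ Ph p b δ ζ := by
  have h1 := tan_hd hB hD hp hb hδ ξ ζ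
  have h2 := Ph_eq (p := p) (b := b) (δ := δ) ξ
  have h3 := Ph_eq (p := p) (b := b) (δ := δ) ζ
  have h4 : 0 < b / A0 p δ ξ := div_pos hb (hp.A0_pos hδ ξ)
  rw [Yv_eq hp hδ, real_inner_smul_left]
  nlinarith [mul_le_mul_of_nonneg_left h1 h4.le, sq_nonneg (b / A0 p δ ξ - b / A0 p δ ζ)]

theorem gr_le (hB : BallStmt) (hD : DerStmt) (H : BP p h b) (hδ : 0 < δ) (ξ ζ : Eu n) :
    ⟪gr p b δ ξ, ζ⟫ ≤ h ζ := by
  have hp := H.nrm
  have hb := H.bpos
  rcases eq_or_ne ζ 0 with rfl | hζ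
  · simp [H.h_zero]
  have hh := H.hpos ζ hζ
  set K : ℝ := b / A0 p δ ((2 : ℝ) • ξ) / δ with hK
  have hlim : Tendsto (fun ε : ℝ => K * ε + b / A0 p ε ζ) (𝓝[>] 0) (𝓝 (K * 0 + b / (b / h ζ))) := by
    refine Tendsto.add ?_ (tendsto_const_nhds.div (H.lim ζ hζ) (by positivity))
    exact (tendsto_const_nhds.mul tendsto_id).mono_left nhdsWithin_le_nhds
  have e : K * 0 + b / (b / h ζ) = h ζ := by field_simp; simp
  rw [e] at hlim
  refine ge_of_tendsto hlim ?_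
  filter_upwards [self_mem_nhdsWithin] with ε hε
  have hε' : 0 < ε := hε
  have hc : 0 < δ / ε := by positivity
  have h1 := tan_hd hB hD hp hb hδ ξ (ξ + (δ / ε / 2) • ζ)
  have h2 := (hB n p δ hp hδ).2 (mem_univ ((2 : ℝ) • ξ)) (mem_univ ((δ / ε) • ζ))
    (show (0 : ℝ) ≤ 1 / 2 by norm_num) (show (0 : ℝ) ≤ 1 / 2 by norm_num) (by norm_num)
  have e1 : (1 / 2 : ℝ) • (2 : ℝ) • ξ + (1 / 2 : ℝ) • (δ / ε) • ζ = ξ + (δ / ε / 2) • ζ := by
    rw [smul_smul, smul_smul]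
    congr 1
    · norm_num
    · congr 1; ring
  have e2 : δ / (δ / ε) = ε := by field_simp
  simp only [e1, smul_eq_mul, A0_smul hc, e2] at h2
  rw [add_sub_cancel_left, real_inner_smul_right] at h1
  have h3 := mul_le_mul_of_nonneg_left h2 hb.le
  have p1 := hp.A0_pos hδ ξ
  have p2 := hp.A0_pos hδ ((2 : ℝ) • ξ)
  have p3 := hp.A0_pos hε' ζ
  have h4 : δ / ε / 2 * ⟪gr p b δ ξ, ζ⟫ ≤ δ / ε / 2 * (K * ε + b / A0 p ε ζ) := by
    have e3 : δ / ε / 2 * (K * ε + b / A0 p ε ζ) = b * (1 / 2 * (A0 p δ ((2 : ℝ) • ξ))⁻¹ +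
        1 / 2 * ((δ / ε)⁻¹ * A0 p ε ζ)⁻¹) := by
      rw [hK]; field_simp
    have p4 : 0 < b / A0 p δ ξ := by positivity
    rw [e3]
    rw [div_eq_mul_inv b (A0 p δ (ξ + _))] at h1
    linarith
  exact le_of_mul_le_mul_left h4 (by positivity)

theorem der_Yv (hD : DerStmt) (hp : Nrm p) (hδ : 0 < δ) (ξ : Eu n) :
    HasFDerivAt (Yv p b δ) (mc (Hm p b δ ξ)) ξ := by
  have h0 := hp.A0_pos hδ ξ
  obtain ⟨h1, h2, -⟩ := hD n p δ hp hδ
  have h3 : HasDerivAt (fun t : ℝ => -(b ^ 2 / t ^ 3)) (3 * b ^ 2 / A0 p δ ξ ^ 4) (A0 p δ ξ) := by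
    have := (((hasDerivAt_pow 3 (A0 p δ ξ)).inv (pow_ne_zero 3 h0.ne')).const_mul (b ^ 2)).neg
    refine (this.congr_deriv ?_).congr_of_eventuallyEq (Eventually.of_forall fun t => ?_)
    · field_simp
      norm_num
      ring
    · simp [div_eq_mul_inv]
  have h4 := (h3.comp_hasFDerivAt ξ (h1 ξ)).smul (h2 ξ)
  refine HasFDerivAt.congr_fderiv h4 ?_
  ext v i
  simp only [add_apply, smul_apply,
    ContinuousLinearMap.smulRight_apply, innerSL_apply_apply, PiLp.add_apply, PiLp.smul_apply,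
    smul_eq_mul, mc_apply, Hm, Matrix.of_apply, inner_eq_sum, Function.comp]
  rw [Finset.mul_sum, Finset.mul_sum, Finset.sum_mul, ← Finset.sum_add_distrib]
  exact Finset.sum_congr rfl fun j _ => by ring

end

/-- Hilbert-Schmidt bound for a matrix of the shape of the Hessian. -/
theorem hs_le (α β γ c ρ : ℝ) (x y : Fin n → ℝ) (B H : Matrix (Fin n) (Fin n) ℝ)
    (hH : ∀ i j, (H - 1) i j = α * (if i = j then 1 else 0) + β * (x i * x j) + γ * B i j +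
      c * (x i * y j + y i * x j) + ρ * (y i * y j)) :
    hs H ≤ 8 * α ^ 2 * n + 8 * β ^ 2 * (∑ i, x i ^ 2) ^ 2 + 8 * γ ^ 2 * ∑ i, ∑ j, B i j ^ 2 +
      32 * c ^ 2 * ((∑ i, x i ^ 2) * ∑ i, y i ^ 2) + 2 * ρ ^ 2 * (∑ i, y i ^ 2) ^ 2 := by
  have key : ∀ i j, (H - 1) i j ^ 2 ≤ 8 * α ^ 2 * (if i = j then 1 else 0) +
      8 * β ^ 2 * (x i ^ 2 * x j ^ 2) + 8 * γ ^ 2 * B i j ^ 2 +
      16 * c ^ 2 * (x i ^ 2 * y j ^ 2) + 16 * c ^ 2 * (y i ^ 2 * x j ^ 2) +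
      2 * ρ ^ 2 * (y i ^ 2 * y j ^ 2) := by
    intro i j
    have gen : ∀ a1 a2 a3 a4 a5 a6 : ℝ, (a1 + a2 + a3 + (a4 + a5) + a6) ^ 2 ≤
        8 * a1 ^ 2 + 8 * a2 ^ 2 + 8 * a3 ^ 2 + 16 * a4 ^ 2 + 16 * a5 ^ 2 + 2 * a6 ^ 2 := by
      intro a1 a2 a3 a4 a5 a6
      nlinarith [sq_nonneg (a1 + a2 + a3 + (a4 + a5) - a6), sq_nonneg (a1 - a2),
        sq_nonneg (a1 - a3), sq_nonneg (a1 - (a4 + a5)), sq_nonneg (a2 - a3),
        sq_nonneg (a2 - (a4 + a5)), sq_nonneg (a3 - (a4 + a5)), sq_nonneg (a4 - a5)]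
    have := gen (α * (if i = j then 1 else 0)) (β * (x i * x j)) (γ * B i j) (c * (x i * y j))
      (c * (y i * x j)) (ρ * (y i * y j))
    rw [hH, mul_add c]
    refine this.trans (le_of_eq ?_)
    split_ifs <;> ring
  refine (Finset.sum_le_sum fun i _ => Finset.sum_le_sum fun j _ => key i j).trans (le_of_eq ?_)
  simp only [Finset.sum_add_distrib, ← Finset.mul_sum, ← Finset.sum_mul, Finset.sum_ite_eq,
    Finset.mem_univ, if_true, Finset.sum_const, Finset.card_univ, Fintype.card_fin, nsmul_eq_mul]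
  ring

theorem tr_eq (α β γ c ρ : ℝ) (x y : Fin n → ℝ) (B H : Matrix (Fin n) (Fin n) ℝ)
    (hH : ∀ i j, (H - 1) i j = α * (if i = j then 1 else 0) + β * (x i * x j) + γ * B i j +
      c * (x i * y j + y i * x j) + ρ * (y i * y j)) :
    H.trace - n = α * n + β * ∑ i, x i ^ 2 + γ * ∑ i, B i i + 2 * c * ∑ i, x i * y i +
      ρ * ∑ i, y i ^ 2 := by
  have e : H.trace - n = ∑ i, (H - 1) i i := by
    simp [Matrix.trace, Matrix.sub_apply, Finset.sum_sub_distrib]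
  rw [e]
  simp only [hH, if_true, Finset.mul_sum]
  rw [show α * n = ∑ _i : Fin n, α by simp [mul_comm]]
  simp only [← Finset.sum_add_distrib]
  exact Finset.sum_congr rfl fun i _ => by ring

/-- Powers of the normalised inverse section function. -/
theorem wpow {Λ w t : ℝ} (hΛ : 1 ≤ Λ) (h0 : 0 < w) (hw : w ≤ Λ) (ht : w * (1 + t) = 1) :
    (w ^ 2 - 1) ^ 2 ≤ 4 * Λ ^ 8 * t ^ 2 ∧ (w ^ 3 - 1) ^ 2 ≤ 9 * Λ ^ 8 * t ^ 2 ∧
      (w ^ 4 - w ^ 3) ^ 2 ≤ Λ ^ 8 * t ^ 2 ∧ w ^ 6 ≤ Λ ^ 8 ∧ w ^ 8 ≤ Λ ^ 8 ∧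
      0 ≤ w ^ 2 - 1 + 2 * t ∧ w ^ 2 - 1 + 2 * t ≤ 3 * Λ ^ 8 * t ^ 2 := by
  have e1 : w - 1 = -(w * t) := by linarith
  have pw : ∀ k : ℕ, k ≤ 8 → w ^ k ≤ Λ ^ 8 := fun k hk =>
    (pow_le_pow_left₀ h0.le hw k).trans (pow_le_pow_right₀ hΛ hk)
  have t0 := sq_nonneg t
  have e2 : w ^ 2 - 1 + 2 * t = (2 * w + w ^ 2) * t ^ 2 := by
    have : t = w * t + w * t ^ 2 := by linear_combination -t * ht
    have h3 : w ^ 2 - 1 = (w + 1) * -(w * t) := by rw [← e1]; ring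
    have h4 : w * t = w ^ 2 * t + w ^ 2 * t ^ 2 := by linear_combination w * this
    nlinarith
  refine ⟨?_, ?_, ?_, pw 6 (by norm_num), pw 8 le_rfl, ?_, ?_⟩
  · have : (w ^ 2 - 1) ^ 2 = (w ^ 4 + 2 * w ^ 3 + w ^ 2) * t ^ 2 := by
      rw [show w ^ 2 - 1 = (w + 1) * (w - 1) by ring, e1]; ring
    rw [this]
    exact mul_le_mul_of_nonneg_right
      (by linarith [pw 4 (by norm_num), pw 3 (by norm_num), pw 2 (by norm_num)]) t0
  · have : (w ^ 3 - 1) ^ 2 = (w ^ 6 + 2 * w ^ 5 + 3 * w ^ 4 + 2 * w ^ 3 + w ^ 2) * t ^ 2 := by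
      rw [show w ^ 3 - 1 = (w ^ 2 + w + 1) * (w - 1) by ring, e1]; ring
    rw [this]
    refine mul_le_mul_of_nonneg_right ?_ t0
    linarith [pw 6 (by norm_num), pw 5 (by norm_num), pw 4 (by norm_num), pw 3 (by norm_num),
      pw 2 (by norm_num)]
  · have : (w ^ 4 - w ^ 3) ^ 2 = w ^ 8 * t ^ 2 := by
      rw [show w ^ 4 - w ^ 3 = w ^ 3 * (w - 1) by ring, e1]; ring
    rw [this]
    exact mul_le_mul_of_nonneg_right (pw 8 le_rfl) t0
  · rw [e2]; positivity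
  · rw [e2]
    have := pw 1 (by norm_num)
    rw [pow_one] at this
    exact mul_le_mul_of_nonneg_right (by linarith [pw 2 (by norm_num)]) t0

/-- The monomials that occur are dominated by the weight. -/
theorem wt {s N : ℝ} (hs : 0 ≤ s) (hN : 1 ≤ N) : s ≤ (s + N) ^ 3 ∧ s ^ 2 ≤ (s + N) ^ 3 ∧
    s ^ 3 ≤ (s + N) ^ 3 ∧ N * s ≤ (s + N) ^ 3 ∧ N ^ 2 * s ≤ (s + N) ^ 3 := by
  have e : (s + N) ^ 3 = s ^ 3 + 3 * (s ^ 2 * N) + 3 * (N ^ 2 * s) + N ^ 3 := by ring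
  have a1 : s ≤ N * s := le_mul_of_one_le_left hs hN
  have a2 : N * s ≤ N ^ 2 * s := by nlinarith
  have a3 : s ^ 2 ≤ s ^ 2 * N := le_mul_of_one_le_right (sq_nonneg s) hN
  have a4 : 0 ≤ s ^ 3 := by positivity
  have a5 : 0 ≤ N ^ 3 := by positivity
  have a6 := sq_nonneg s
  refine ⟨?_, ?_, ?_, ?_, ?_⟩ <;> linarith

/-- The scalar part of the estimates. -/
theorem scal {L M N r X S0 S1 S2 S3 P T a3 a4 w : ℝ} (hL : 1 ≤ L) (hN : 1 ≤ N) (hr : 0 < r)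
    (hM : M = (r ^ 2 + N) ^ 3) (hX0 : 0 ≤ X) (hX : X ≤ r ^ 2) (h0 : 0 ≤ S0) (h1 : 0 ≤ S1)
    (h2 : 0 ≤ S2) (hT : T ^ 2 = S3) (hP : P ^ 2 ≤ X * S1) (h3 : a3 ^ 2 ≤ 9 * L * (r ^ 2 * S0))
    (h4 : a4 ^ 2 ≤ L * (r ^ 2 * S0)) (w4 : w ^ 4 ≤ L) (w6 : w ^ 6 ≤ L) (w8 : w ^ 8 ≤ L)
    {G : ℝ} (hG : G = 200 * L * M * (S0 + S1 + S2 + S3)) :
    2 * a3 ^ 2 * X + 2 * (r ^ 3 * w ^ 3) ^ 2 * S1 ≤ G ∧
    8 * a3 ^ 2 * N + 8 * (3 * a4 / r ^ 2) ^ 2 * X ^ 2 + 8 * (-(r ^ 3 * w ^ 3)) ^ 2 * S2 +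
      32 * (-(3 * w ^ 4 * r)) ^ 2 * (X * S1) ≤ 2 * G ∧
    (a3 * N + 3 * a4 / r ^ 2 * X + -(r ^ 3 * w ^ 3) * T + 2 * -(3 * w ^ 4 * r) * P) ^ 2 ≤ G ∧
    3 * w ^ 4 * r ^ 4 * S1 ≤ G := by
  obtain ⟨m1, m2, m3, m4, m5⟩ := wt (sq_nonneg r) hN
  rw [← hM] at m1 m2 m3 m4 m5
  have h3' : 0 ≤ S3 := hT ▸ sq_nonneg T
  have L0 : 0 ≤ L := by linarith
  have M0 : 0 ≤ M := (sq_nonneg r).trans m1
  have q0 : 0 ≤ L * M * S0 := by positivity
  have q1 : 0 ≤ L * M * S1 := by positivity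
  have q2 : 0 ≤ L * M * S2 := by positivity
  have q3 : 0 ≤ L * M * S3 := by positivity
  have eG : G = 200 * (L * M * S0) + 200 * (L * M * S1) + 200 * (L * M * S2) +
    200 * (L * M * S3) := by rw [hG]; ring
  have up : ∀ {a c d S : ℝ}, 0 ≤ S → 0 ≤ c → a ≤ L → c ≤ M → d ≤ a * c * S → d ≤ L * M * S :=
    fun hS hc ha hcM hd => hd.trans (mul_le_mul_of_nonneg_right (mul_le_mul ha hcM hc L0) hS)
  have b1 : a3 ^ 2 * X ≤ 9 * (L * M * S0) := by
    have := up (d := L * (r ^ 2) ^ 2 * S0) h0 (by positivity) le_rfl m2 le_rfl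
    have := mul_le_mul h3 hX hX0 (by positivity)
    nlinarith
  have b2 : (r ^ 3 * w ^ 3) ^ 2 * S1 ≤ L * M * S1 :=
    up h1 (by positivity) w6 m3 (le_of_eq (by ring))
  have b3 : a3 ^ 2 * N ≤ 9 * (L * M * S0) := by
    have := up (d := L * (N * r ^ 2) * S0) h0 (by positivity) le_rfl m4 le_rfl
    have := mul_le_mul_of_nonneg_right h3 (show 0 ≤ N by linarith)
    nlinarith
  have b3' : (a3 * N) ^ 2 ≤ 9 * (L * M * S0) := by
    have := up (d := L * (N ^ 2 * r ^ 2) * S0) h0 (by positivity) le_rfl m5 le_rfl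
    have := mul_le_mul_of_nonneg_right h3 (sq_nonneg N)
    nlinarith
  have b4 : (3 * a4 / r ^ 2 * X) ^ 2 ≤ 9 * (L * M * S0) := by
    have c1 := up (d := L * r ^ 2 * S0) h0 (by positivity) le_rfl m1 le_rfl
    have c2 : X / r ^ 2 ≤ 1 := (div_le_one (by positivity)).2 hX
    have c3 : (X / r ^ 2) ^ 2 ≤ 1 := pow_le_one₀ (by positivity) c2
    have c4 := mul_le_mul_of_nonneg_left c3 (sq_nonneg a4)
    have : (3 * a4 / r ^ 2 * X) ^ 2 = 9 * (a4 ^ 2 * (X / r ^ 2) ^ 2) := by ring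
    nlinarith
  have b5 : (r ^ 3 * w ^ 3) ^ 2 * S2 ≤ L * M * S2 :=
    up h2 (by positivity) w6 m3 (le_of_eq (by ring))
  have b6 : (r ^ 3 * w ^ 3) ^ 2 * S3 ≤ L * M * S3 :=
    up h3' (by positivity) w6 m3 (le_of_eq (by ring))
  have b7 : (w ^ 4 * r) ^ 2 * (X * S1) ≤ L * M * S1 := by
    refine up h1 (by positivity) w8 m2 ?_
    have := mul_le_mul_of_nonneg_left (mul_le_mul_of_nonneg_right hX h1) (sq_nonneg (w ^ 4 * r))
    exact this.trans (le_of_eq (by ring))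
  have b8 : w ^ 4 * r ^ 4 * S1 ≤ L * M * S1 := up h1 (by positivity) w4 m2 (le_of_eq (by ring))
  have b9 := mul_le_mul_of_nonneg_left hP (sq_nonneg (w ^ 4 * r))
  refine ⟨by linarith, ?_, ?_, by linarith⟩
  · have e1 : 8 * (3 * a4 / r ^ 2) ^ 2 * X ^ 2 = 8 * (3 * a4 / r ^ 2 * X) ^ 2 := by ring
    have e2 : 8 * (-(r ^ 3 * w ^ 3)) ^ 2 * S2 = 8 * ((r ^ 3 * w ^ 3) ^ 2 * S2) := by ring
    have e3 : 32 * (-(3 * w ^ 4 * r)) ^ 2 * (X * S1) = 288 * ((w ^ 4 * r) ^ 2 * (X * S1)) := by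
      ring
    rw [e1, e2, e3]
    linarith
  · have gen : ∀ a1 a2 a3 a4 : ℝ, (a1 + a2 + a3 + a4) ^ 2 ≤
        4 * a1 ^ 2 + 4 * a2 ^ 2 + 4 * a3 ^ 2 + 4 * a4 ^ 2 := by
      intro a1 a2 a3 a4
      nlinarith [sq_nonneg (a1 - a2), sq_nonneg (a1 - a3), sq_nonneg (a1 - a4),
        sq_nonneg (a2 - a3), sq_nonneg (a2 - a4), sq_nonneg (a3 - a4)]
    refine (gen _ _ _ _).trans ?_
    have e2 : (-(r ^ 3 * w ^ 3) * T) ^ 2 = (r ^ 3 * w ^ 3) ^ 2 * S3 := by rw [← hT]; ring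
    have e3 : (2 * -(3 * w ^ 4 * r) * P) ^ 2 = 36 * ((w ^ 4 * r) ^ 2 * P ^ 2) := by ring
    rw [e2, e3]
    linarith

end Geo

open Geo in
theorem geo (hB : BallStmt) (hD : DerStmt) : GeoStmt := by
  intro n p h b δ H hδ
  have hp := H.nrm
  have hb := H.bpos
  have c0 := hp.A0_cont hδ
  have p0 := hp.A0_pos hδ
  obtain ⟨-, h2, h3⟩ := hD n p δ hp hδ
  have c1 : Continuous (A1 p δ) := continuous_iff_continuousAt.2 fun ξ => (h2 ξ).continuousAt
  refine ⟨?_, fun i j => ?_, der_Yv hD hp hδ, fun ξ ζ => ?_, fun ξ => ?_, fun ξ => ?_⟩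
  · exact continuous_const.div (by fun_prop) fun ξ => (by have := p0 ξ; positivity)
  · have c2 := h3 i j
    have c3 : ∀ k, Continuous fun ξ => A1 p δ ξ k := fun k =>
      (EuclideanSpace.proj (𝕜 := ℝ) k).continuous.comp c1
    simp only [Hm, Matrix.of_apply]
    refine Continuous.add (Continuous.mul (Continuous.neg ?_) c2)
      (Continuous.mul ?_ ((c3 i).mul (c3 j)))
    · exact continuous_const.div (by fun_prop) fun ξ => (by have := p0 ξ; positivity)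
    · exact continuous_const.div (by fun_prop) fun ξ => (by have := p0 ξ; positivity)
  · have a1 := tan_Ph hB hD hp hb hδ ξ ζ
    have a2 := tan_Ph hB hD hp hb hδ ζ ξ
    rw [← neg_sub ξ ζ, inner_neg_right] at a1
    rw [inner_sub_left]
    linarith
  · have a1 := H.d2 _ (gr_le hB hD H hδ ξ)
    have a2 : 0 < b / A0 p δ ξ := div_pos hb (p0 ξ)
    have a3 := hp.nonneg (gr p b δ ξ)
    rw [Yv_eq hp hδ, hp.smul_nonneg a2.le, Ph_eq, mul_pow]
    have : p (gr p b δ ξ) ^ 2 ≤ 1 := by nlinarith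
    nlinarith [sq_nonneg (b / A0 p δ ξ)]
  · have a1 := tan_hd hB hD hp hb hδ ξ 0
    have a2 : 0 < b / A0 p δ ξ := div_pos hb (p0 ξ)
    rw [hp.A0_zero, zero_sub, inner_neg_right, one_div, div_inv_eq_mul, real_inner_comm] at a1
    rw [Yv_eq hp hδ, Ph_eq, real_inner_smul_right]
    nlinarith [mul_le_mul_of_nonneg_left a1 a2.le]

open Geo in
theorem chain (hD : DecStmt) : ChainStmt := by
  intro Λ hΛ
  refine ⟨200 * Λ ^ 8, by positivity, fun n hn p h b δ ξ r G H hδ hr hG => ?_⟩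
  have hp := H.tame.nrm
  have hb := H.cmp.bp.bpos
  have hA := hp.A0_pos hδ ξ
  obtain ⟨d0, d1, d2⟩ := hD n p b δ ξ hp hb hδ
  have alo := H.alo δ hδ ξ
  rw [← hr] at d0 d1 d2 alo
  have r0 : 0 < r := by rw [hr]; positivity
  have r2 : r ^ 2 = ‖ξ‖ ^ 2 + δ ^ 2 := by rw [hr, sq_sqrt (by positivity)]
  have hN : (1 : ℝ) ≤ n := by exact_mod_cast hn
  have hL : 1 ≤ Λ ^ 8 := one_le_pow₀ hΛ
  obtain ⟨w, hw⟩ : ∃ w, w = b / (r * A0 p δ ξ) := ⟨_, rfl⟩
  have w0 : 0 < w := by rw [hw]; positivity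
  have eb : b = w * r * A0 p δ ξ := by rw [hw]; field_simp
  have hwΛ : w ≤ Λ := by
    rw [hw, div_le_iff₀ (by positivity)]
    rw [← mul_div_assoc, ← mul_div_assoc, le_div_iff₀ hb] at alo
    linarith
  set B0 := be0 (Vf p b) δ ξ with hB0
  have ht : w * (1 + r * B0) = 1 := by
    have : 1 + r * B0 = r * (A0 p δ ξ / b) := by rw [d0]; field_simp
    rw [this, hw]; field_simp
  obtain ⟨w2, w3, w4, w6, w8, w9, w10⟩ := wpow hΛ w0 hwΛ ht
  have w4' : w ^ 4 ≤ Λ ^ 8 :=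
    (pow_le_pow_left₀ w0.le hwΛ 4).trans (pow_le_pow_right₀ hΛ (by norm_num))
  have eP : Ph p b δ ξ - r ^ 2 / 2 = r ^ 2 * (w ^ 2 - 1) / 2 := by
    rw [Ph, hw]; field_simp
  have e1 : ∀ i, A1 p δ ξ i = b * (-(ξ i / r ^ 3) + be1 (Vf p b) δ ξ i) := fun i => by
    rw [← d1 i]; field_simp
  have e2 : ∀ i j, A2 p δ ξ i j = b * (-((if i = j then 1 else 0) / r ^ 3) +
      3 * (ξ i * ξ j) / r ^ 5 + be2 (Vf p b) δ ξ i j) := fun i j => by
    rw [← d2 i j]; field_simp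
  have c3 : b ^ 2 / A0 p δ ξ ^ 3 * b = r ^ 3 * w ^ 3 := by rw [hw]; field_simp
  have c4 : 3 * b ^ 2 / A0 p δ ξ ^ 4 * (b * b) = 3 * r ^ 4 * w ^ 4 := by rw [hw]; field_simp
  have eY : ∀ i, (Yv p b δ ξ - ξ) i =
      (w ^ 3 - 1) * ξ i - r ^ 3 * w ^ 3 * be1 (Vf p b) δ ξ i := fun i => by
    rw [PiLp.sub_apply, Yv, PiLp.smul_apply, smul_eq_mul, e1, ← mul_assoc, neg_mul, c3]
    field_simp
    ring
  have eH : ∀ i j, (Hm p b δ ξ - 1) i j = (w ^ 3 - 1) * (if i = j then 1 else 0) +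
      3 * (w ^ 4 - w ^ 3) / r ^ 2 * (ξ i * ξ j) +
      -(r ^ 3 * w ^ 3) * Matrix.of (be2 (Vf p b) δ ξ) i j +
      -(3 * w ^ 4 * r) * (ξ i * be1 (Vf p b) δ ξ j + be1 (Vf p b) δ ξ i * ξ j) +
      3 * w ^ 4 * r ^ 4 * (be1 (Vf p b) δ ξ i * be1 (Vf p b) δ ξ j) := fun i j => by
    rw [Matrix.sub_apply, Hm, Matrix.of_apply, Matrix.of_apply, Matrix.one_apply, e1 i, e1 j, e2,
      ← mul_assoc, neg_mul, c3, mul_mul_mul_comm b, ← mul_assoc _ (b * b), c4]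
    field_simp
    ring
  have hhs := hs_le _ _ _ _ _ (fun i => ξ i) (be1 (Vf p b) δ ξ) _ _ eH
  have htr := tr_eq _ _ _ _ _ (fun i => ξ i) (be1 (Vf p b) δ ξ) _ _ eH
  simp only [Matrix.of_apply] at hhs htr
  have hX : ∑ i, ξ i ^ 2 ≤ r ^ 2 := by rw [r2, ← norm_sq_eq_sum]; nlinarith
  have s1 : 0 ≤ ∑ i, be1 (Vf p b) δ ξ i ^ 2 := Finset.sum_nonneg fun i _ => sq_nonneg _
  have s2 : 0 ≤ ∑ i, ∑ j, be2 (Vf p b) δ ξ i j ^ 2 :=
    Finset.sum_nonneg fun i _ => Finset.sum_nonneg fun j _ => sq_nonneg _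
  rw [mul_pow] at w2 w3 w4 w10
  obtain ⟨k1, k2, k3, k4⟩ := scal hL hN r0 rfl (Finset.sum_nonneg fun i _ => sq_nonneg (ξ i)) hX
    (sq_nonneg B0) s1 s2 rfl
    (Finset.sum_mul_sq_le_sq_mul_sq Finset.univ (fun i => ξ i) (be1 (Vf p b) δ ξ)) w3 w4 w4' w6 w8
    hG
  obtain ⟨-, m2, m3, -, -⟩ := wt (sq_nonneg r) hN
  have M0 : 0 ≤ (r ^ 2 + n) ^ 3 := by positivity
  rw [Gam, ← hB0] at hG
  generalize (r ^ 2 + (n : ℝ)) ^ 3 = M at m2 m3 M0 hG
  have g0 : Λ ^ 8 * M * B0 ^ 2 * 200 ≤ G := by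
    have : 0 ≤ 200 * Λ ^ 8 * M := by positivity
    rw [hG]
    linarith [mul_nonneg this s1, mul_nonneg this s2,
      mul_nonneg this (sq_nonneg (∑ i, be2 (Vf p b) δ ξ i i))]
  have q0 : 0 ≤ Λ ^ 8 * B0 ^ 2 := by positivity
  have g2 := mul_le_mul_of_nonneg_left m2 q0
  have g3 := mul_le_mul_of_nonneg_left m3 q0
  have q1 : 0 ≤ Λ ^ 8 * M * B0 ^ 2 := by positivity
  have k40 : 0 ≤ 3 * w ^ 4 * r ^ 4 * ∑ i, be1 (Vf p b) δ ξ i ^ 2 := by positivity
  refine ⟨?_, ?_, ?_, ?_, ?_, ?_⟩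
  · have := mul_le_mul_of_nonneg_left w2 (show 0 ≤ r ^ 4 by positivity)
    rw [eP]
    linarith
  · rw [norm_sq_eq_sum]
    refine le_trans ?_ k1
    rw [Finset.mul_sum, Finset.mul_sum, ← Finset.sum_add_distrib]
    refine Finset.sum_le_sum fun i _ => ?_
    rw [eY]
    linarith [sq_nonneg ((w ^ 3 - 1) * ξ i + r ^ 3 * w ^ 3 * be1 (Vf p b) δ ξ i)]
  · have := pow_le_pow_left₀ k40 k4 2
    rw [mul_pow] at this
    linarith
  · rw [htr]
    exact (abs_add_le _ _).trans (add_le_add (abs_le_sqrt k3) (by rw [abs_of_nonneg k40]; exact k4))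
  · have := mul_nonneg (sq_nonneg r) w9
    rw [eP]
    linarith
  · have := mul_le_mul_of_nonneg_left w10 (sq_nonneg r)
    rw [eP]
    linarith

end Pool.Agent.MP_2a44fd_gt.hd

end MrgPart2

-- ======== part 3: formerly Pool.Agent.MP_2a44fd_gt.hd.StepB
section MrgPart3

/-!
PROJECT BP5HD: module STEPB. From a gradient map of small deviation to a good set on which
the density is close to one in the mean square.
-/

set_option autoImplicit false

open MeasureTheory Real Set Filter Topology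
open scoped RealInnerProductSpace ENNReal

namespace Pool.Agent.MP_2a44fd_gt.hd

namespace StepB

variable {n : ℕ} {p h : Eu n → ℝ} {b : ℝ}

/-- The bad set. -/
def bad (p : Eu n → ℝ) : Set (Eu n) := {x | 3 < ‖x‖ ^ 2 / 2 - p x ^ 2 / 2}

/-- The unnormalised density on the good set. -/
noncomputable def uu (p : Eu n → ℝ) (x : Eu n) : ℝ :=
  (bad p)ᶜ.indicator (fun x => exp (‖x‖ ^ 2 / 2 - p x ^ 2 / 2)) x

theorem meas_bad (hp : Nrm p) : MeasurableSet (bad p) := by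
  have := hp.cont
  exact measurableSet_lt measurable_const (by fun_prop)

theorem meas_uu (hp : Nrm p) : Measurable (uu p) := by
  have := hp.cont
  exact Measurable.indicator (by fun_prop) (meas_bad hp).compl

theorem exp_three : exp 3 ≤ 27 := by
  have h1 : exp 1 ≤ 3 := by linarith [exp_one_lt_d9]
  have h2 : exp 3 = exp 1 ^ 3 := by rw [← exp_nat_mul]; norm_num
  rw [h2]
  exact (pow_le_pow_left₀ (exp_pos _).le h1 3).trans (by norm_num)

theorem uu_nonneg (x : Eu n) : 0 ≤ uu p x :=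
  indicator_nonneg (fun _ _ => (exp_pos _).le) x

theorem uu_le (H : BP p h b) (x : Eu n) : uu p x ≤ exp (min (psi h x) 3) := by
  by_cases hx : x ∈ bad p
  · rw [uu, indicator_of_notMem (by simpa using hx)]; positivity
  · rw [uu, indicator_of_mem (by simpa using hx)]
    refine exp_le_exp.2 (le_min ?_ (not_lt.1 hx))
    have h1 := H.d1 x x
    rw [real_inner_self_eq_norm_sq] at h1
    rw [psi]
    nlinarith [sq_nonneg (p x - h x)]

theorem uu_le' (x : Eu n) : uu p x ≤ 27 := by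
  by_cases hx : x ∈ bad p
  · rw [uu, indicator_of_notMem (by simpa using hx)]; norm_num
  · rw [uu, indicator_of_mem (by simpa using hx)]
    exact (exp_le_exp.2 (not_lt.1 hx)).trans exp_three

theorem int_uu (hp : Nrm p) : Integrable (uu p) (gam n) :=
  (integrable_const (27 : ℝ)).mono' (meas_uu hp).aestronglyMeasurable
    (Eventually.of_forall fun x => by rw [Real.norm_of_nonneg (uu_nonneg x)]; exact uu_le' x)

theorem uu_eq (hp : Nrm p) (x : Eu n) : uu p x = mm p * (bad p)ᶜ.indicator (Wd p) x := by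
  have := hp.mm_pos
  by_cases hx : x ∈ (bad p)ᶜ
  · rw [uu, indicator_of_mem hx, indicator_of_mem hx, Wd]; field_simp
  · rw [uu, indicator_of_notMem hx, indicator_of_notMem hx, mul_zero]

theorem integral_uu (hp : Nrm p) : ∫ x, uu p x ∂gam n = mm p * (mu p).real (bad p)ᶜ := by
  rw [hp.real_eq (meas_bad hp).compl, ← integral_const_mul]
  exact integral_congr_ae (Eventually.of_forall fun x => uu_eq hp x)

theorem Vg_eq (hp : Nrm p) (x : Eu n) : Vg p b (bad p) x = lam b / mm p * uu p x - 1 := by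
  have := hp.mm_pos
  rw [uu_eq hp, Vg]
  by_cases hx : x ∈ (bad p)ᶜ
  · rw [indicator_of_mem hx, indicator_of_mem hx]; field_simp
  · rw [indicator_of_notMem hx, indicator_of_notMem hx]; simp

/-- The pointwise inequality behind the mean square bound. -/
theorem sq_le {u s : ℝ} (h0 : 0 ≤ u) (hu : u ≤ exp (min s 3)) :
    (1 - u) ^ 2 ≤ 2916 * s ^ 2 + 54 * (1 + s - u) := by
  set m := min s 3 with hm
  have hms : m ≤ s := min_le_left _ _
  have hm3 : m ≤ 3 := min_le_right _ _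
  have hsq : m ^ 2 ≤ s ^ 2 := by
    rcases le_total s 3 with h | h
    · rw [hm, min_eq_left h]
    · rw [hm, min_eq_right h]; nlinarith
  have hw : exp m ≤ 27 := (exp_le_exp.2 hm3).trans exp_three
  have hw0 := exp_pos m
  have e1 : m + 1 ≤ exp m := add_one_le_exp m
  have e2 : exp m * (1 - m) ≤ 1 := by
    have := add_one_le_exp (-m)
    rw [exp_neg, ← one_div, le_div_iff₀ hw0] at this
    linarith
  have e3 : m * (exp m - 1) ≤ 27 * m ^ 2 := by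
    rcases le_total 0 m with h | h
    · have : exp m - 1 ≤ 27 * m := by nlinarith
      nlinarith
    · nlinarith
  have e4 : (exp m - 1) ^ 2 ≤ 729 * m ^ 2 := by
    rcases le_total 0 m with h | h
    · have h1 : exp m - 1 ≤ 27 * m := by nlinarith
      have h2 : 0 ≤ exp m - 1 := by linarith
      nlinarith
    · have h1 : exp m ≤ 1 := exp_le_one_iff.2 h
      nlinarith
  have e5 : exp m ≤ 1 + s + 27 * s ^ 2 := by nlinarith
  have e6 : (exp m - u) ^ 2 ≤ 27 * (exp m - u) := by nlinarith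
  nlinarith [sq_nonneg ((1 - exp m) - (exp m - u))]

theorem hs_Mt {Λ t : ℝ} (hΛ : 1 ≤ Λ) (ht0 : 0 ≤ t) (ht1 : t ≤ 1)
    (H : Matrix (Fin n) (Fin n) ℝ) : hs (Mt Λ t H) ≤ 2 * hs H + 2 * (t ^ 2 * n) := by
  have hc0 : 0 ≤ t / Λ := by positivity
  have hc1 : t / Λ ≤ t := div_le_self ht0 hΛ
  have key : ∀ i j, (Mt Λ t H - 1) i j ^ 2 ≤
      2 * (H - 1) i j ^ 2 + 2 * t ^ 2 * (if i = j then 1 else 0) := fun i j => by
    have h1 : (1 - t) ^ 2 ≤ 1 := by nlinarith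
    by_cases hij : i = j
    · subst hij
      simp only [Mt, Matrix.sub_apply, Matrix.add_apply, Matrix.smul_apply, Matrix.one_apply_eq,
        smul_eq_mul, if_true]
      have h2 : (t - t / Λ) ^ 2 ≤ t ^ 2 := by nlinarith
      have h3 := mul_le_mul_of_nonneg_right h1 (sq_nonneg (H i i - 1))
      nlinarith [sq_nonneg ((1 - t) * (H i i - 1) + (t - t / Λ))]
    · simp only [Mt, Matrix.sub_apply, Matrix.add_apply, Matrix.smul_apply,
        Matrix.one_apply_ne hij, smul_eq_mul, if_neg hij]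
      have h3 := mul_le_mul_of_nonneg_right h1 (sq_nonneg (H i j))
      nlinarith [sq_nonneg (H i j)]
  refine (Finset.sum_le_sum fun i _ => Finset.sum_le_sum fun j _ => key i j).trans (le_of_eq ?_)
  simp only [Finset.sum_add_distrib, ← Finset.mul_sum, hs, Finset.sum_ite_eq, Finset.mem_univ,
    if_true, Finset.sum_const, Finset.card_univ, Fintype.card_fin, nsmul_eq_mul]
  ring

theorem trace_Mt (Λ t : ℝ) (H : Matrix (Fin n) (Fin n) ℝ) :
    (Mt Λ t H).trace = (1 - t) * H.trace + t / Λ * n := by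
  simp [Mt, Matrix.trace_add, Matrix.trace_smul, Matrix.trace_one]

theorem hs_nonneg (M : Matrix (Fin n) (Fin n) ℝ) : 0 ≤ hs M :=
  Finset.sum_nonneg fun _ _ => Finset.sum_nonneg fun _ _ => sq_nonneg _

theorem ofReal_integral_le {μ : Measure (Eu n)} {f : Eu n → ℝ} (hf : Integrable f μ) :
    ENNReal.ofReal (∫ x, f x ∂μ) ≤ ∫⁻ x, ENNReal.ofReal (f x) ∂μ := by
  have h1 : ∫ x, f x ∂μ ≤ ∫ x, max (f x) 0 ∂μ :=
    integral_mono hf hf.pos_part fun x => le_max_left _ _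
  refine (ENNReal.ofReal_le_ofReal h1).trans (le_of_eq ?_)
  rw [ofReal_integral_eq_lintegral_ofReal hf.pos_part
    (Eventually.of_forall fun x => le_max_right _ _)]
  exact lintegral_congr fun x => by
    rcases le_total (f x) 0 with h | h
    · rw [max_eq_right h, ENNReal.ofReal_zero, ENNReal.ofReal_of_nonpos h]
    · rw [max_eq_left h]

theorem exists_t {ν A : ℝ} (hν : 0 < ν) (hν1 : ν ≤ 1 / 2) (hA : 0 ≤ A) :
    ∃ t : ℝ, 0 < t ∧ t < 1 ∧ t * A ≤ ν ∧ t ^ 2 * A ≤ ν := by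
  have h1 : ν / (A + 1) * A ≤ ν := by
    rw [div_mul_eq_mul_div, div_le_iff₀ (by positivity)]; nlinarith
  have h2 : ν / (A + 1) ≤ ν := div_le_self hν.le (by linarith)
  have h3 : 0 < ν / (A + 1) := by positivity
  refine ⟨ν / (A + 1), h3, by linarith, h1, ?_⟩
  have h4 : 0 ≤ ν / (A + 1) * A := by positivity
  nlinarith

/-- The image of the good parameters avoids the bad set. -/
theorem Yt_mem (H : BP p h b) {Λ t : ℝ} (hΛ : 1 ≤ Λ) (ht0 : 0 ≤ t) (ht1 : t ≤ 1)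
    (y : Eu n → Eu n) (ξ : Eu n) (h1 : ‖y ξ - ξ‖ ^ 2 ≤ 1 / 64) (h2 : psi h ξ ^ 2 ≤ 1)
    (h3 : t ^ 2 * ‖ξ‖ ^ 2 ≤ 1) : Yt Λ t y ξ ∈ (bad p)ᶜ := by
  have hc0 : 0 ≤ t / Λ := by positivity
  have hc1 : t / Λ ≤ t := div_le_self ht0 hΛ
  have e : Yt Λ t y ξ - ξ = (1 - t) • (y ξ - ξ) - (t - t / Λ) • ξ := by
    simp only [Yt, smul_sub, sub_smul, one_smul]; abel
  have a1 : ‖y ξ - ξ‖ ≤ 1 / 8 := by nlinarith [norm_nonneg (y ξ - ξ)]
  have a2 : t * ‖ξ‖ ≤ 1 := by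
    have : 0 ≤ t * ‖ξ‖ := by positivity
    nlinarith
  have a3 : ‖Yt Λ t y ξ - ξ‖ ≤ 9 / 8 := by
    rw [e]
    refine (norm_sub_le _ _).trans ?_
    rw [norm_smul, norm_smul, Real.norm_of_nonneg (by linarith), Real.norm_of_nonneg (by linarith)]
    nlinarith [norm_nonneg (y ξ - ξ), norm_nonneg ξ]
  have a4 : ‖Yt Λ t y ξ - ξ‖ ^ 2 ≤ 2 := by nlinarith [norm_nonneg (Yt Λ t y ξ - ξ)]
  rw [norm_sub_sq_real] at a4
  have a5 := H.d1 (Yt Λ t y ξ) ξ
  have a6 : psi h ξ ≤ 1 := by nlinarith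
  rw [psi] at a6
  simp only [bad, mem_compl_iff, mem_ofPred_eq, not_lt]
  nlinarith [sq_nonneg (p (Yt Λ t y ξ) - h ξ)]

/-- The area formula gives almost full mass to the good set. -/
theorem mass (hV : VolStmt) (B : BP p h b) {Λ ν : ℝ} (hΛ : 1 ≤ Λ) (hhi : ∀ x, p x ≤ Λ * ‖x‖)
    (hν : 0 < ν) (hν1 : ν ≤ 1 / 100) (hP : HasPack p h ν) :
    1 - 142 * ν ≤ mm p * (mu p).real (bad p)ᶜ := by
  obtain ⟨⟨Φ, y, H, G, P, hG, hJ⟩, ip2, hp2, -, -⟩ := hP
  have iN : Integrable (fun x : Eu n => ‖x‖ ^ 2) (gam n) := nrm_norm.int_norm_pow 2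
  have hN0 : 0 ≤ ∫ x : Eu n, ‖x‖ ^ 2 ∂gam n := integral_nonneg fun x => sq_nonneg _
  have hn0 : (0 : ℝ) ≤ n := Nat.cast_nonneg n
  obtain ⟨t, ht0, ht1, hta, htb⟩ := exists_t hν (by linarith) (add_nonneg hn0 hN0)
  have ht2 : t * n ≤ ν := by nlinarith [mul_nonneg ht0.le hN0]
  have ht3 : t ^ 2 * n ≤ ν := by nlinarith [mul_nonneg (sq_nonneg t) hN0]
  have ht4 : t ^ 2 * ∫ x : Eu n, ‖x‖ ^ 2 ∂gam n ≤ ν := by nlinarith [mul_nonneg (sq_nonneg t) hn0]
  have cpsi : Continuous (psi h) := by have := B.hcont; unfold psi; fun_prop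
  set J : Eu n → ℝ := fun ξ => (H ξ).trace - n - (Φ ξ - ‖ξ‖ ^ 2 / 2) with hJdef
  have cJ : Continuous J := by
    have h1 : Continuous fun ξ => (H ξ).trace :=
      continuous_finsetSum _ fun i _ => P.cH i i
    have := P.cΦ
    fun_prop
  have bJ : ∀ ξ, |J ξ| ≤ 1 + 2 * G ξ := fun ξ => by
    have h1 := P.b3 ξ
    have h2 : |Φ ξ - ‖ξ‖ ^ 2 / 2| ≤ √(G ξ) := abs_le_sqrt (P.b0 ξ)
    have h3 := sq_sqrt (P.G0 ξ)
    have h4 := abs_sub ((H ξ).trace - n) (Φ ξ - ‖ξ‖ ^ 2 / 2)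
    simp only [hJdef]
    nlinarith [sq_nonneg (√(G ξ) - 1)]
  have iJ : Integrable J (gam n) :=
    ((integrable_const (1 : ℝ)).add (P.iG.const_mul 2)).mono' cJ.aestronglyMeasurable
      (Eventually.of_forall bJ)
  set S : Set (Eu n) := {ξ | G ξ ≤ 1 / 64 ∧ psi h ξ ^ 2 ≤ 1 ∧ t ^ 2 * ‖ξ‖ ^ 2 ≤ 1} with hS
  have mS : MeasurableSet S :=
    (measurableSet_le P.mG measurable_const).inter
      ((measurableSet_le (cpsi.measurable.pow_const 2) measurable_const).inter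
        (measurableSet_le ((measurable_norm.pow_const 2).const_mul _) measurable_const))
  have hhs : ∀ ξ ∈ S, hs (Mt Λ t (H ξ)) ≤ 5 * G ξ + 2 * ν := fun ξ hξ => by
    have h1 := hs_Mt hΛ ht0.le ht1.le (H ξ)
    have h2 := P.b2 ξ
    have h3 := P.G0 ξ
    have h4 := hξ.1
    nlinarith
  have hvol := hV n p Φ y H G Λ t (1 / 2) S (bad p)ᶜ B.nrm hΛ hhi P ht0 ht1 (by norm_num) le_rfl
    mS (meas_bad B.nrm).compl
    (fun ξ hξ => Yt_mem B hΛ ht0.le ht1.le y ξ ((P.b1 ξ).trans hξ.1) hξ.2.1 hξ.2.2)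
    (fun ξ hξ => Or.inr (by linarith [hhs ξ hξ, hξ.1]))
  set L : Eu n → ℝ := fun ξ => 1 - 7 * ν + (1 - t) * J ξ - 130 * G ξ - 2 * psi h ξ ^ 2 -
    2 * t ^ 2 * ‖ξ‖ ^ 2 with hL
  have i1 : Integrable (fun ξ => 1 - 7 * ν + (1 - t) * J ξ) (gam n) :=
    (integrable_const _).add (iJ.const_mul _)
  have i2 : Integrable (fun ξ => 1 - 7 * ν + (1 - t) * J ξ - 130 * G ξ) (gam n) :=
    i1.sub (P.iG.const_mul _)
  have i3 : Integrable (fun ξ => 1 - 7 * ν + (1 - t) * J ξ - 130 * G ξ - 2 * psi h ξ ^ 2)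
      (gam n) := i2.sub (ip2.const_mul _)
  have iL : Integrable L (gam n) := i3.sub (iN.const_mul _)
  have eL : 1 - 142 * ν ≤ ∫ ξ, L ξ ∂gam n := by
    rw [hL, integral_sub i3 (iN.const_mul _), integral_sub i2 (ip2.const_mul _),
      integral_sub i1 (P.iG.const_mul _), integral_add (integrable_const _) (iJ.const_mul _),
      integral_const_mul, integral_const_mul, integral_const_mul, integral_const_mul]
    simp only [integral_const, probReal_univ, smul_eq_mul, one_mul]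
    nlinarith [mul_le_mul_of_nonneg_left hJ (sub_nonneg.2 ht1.le)]
  have hlog : 4 * log (1 / (1 / 2)) ≤ 3 := by
    rw [show (1 : ℝ) / (1 / 2) = 2 by norm_num]; linarith [log_two_lt_d9]
  have hpt : ∀ ξ, ENNReal.ofReal (L ξ) ≤ S.indicator (fun ξ => ENNReal.ofReal
      (exp (-((1 - t) * (Φ ξ - ‖ξ‖ ^ 2 / 2)) + ((Mt Λ t (H ξ)).trace - n) -
        4 * log (1 / (1 / 2)) * hs (Mt Λ t (H ξ))))) ξ := fun ξ => by
    have g0 := P.G0 ξ
    have g1 := sq_nonneg (psi h ξ)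
    have g2 : 0 ≤ t ^ 2 * ‖ξ‖ ^ 2 := by positivity
    by_cases hξ : ξ ∈ S
    · rw [indicator_of_mem hξ]
      refine ENNReal.ofReal_le_ofReal (le_trans ?_ (add_one_le_exp _))
      have h1 := mul_le_mul_of_nonneg_right hlog (hs_nonneg (Mt Λ t (H ξ)))
      have h2 := hhs ξ hξ
      have h3 : 0 ≤ t / Λ * n := by positivity
      rw [trace_Mt]
      simp only [hL, hJdef]
      nlinarith
    · rw [indicator_of_notMem hξ, nonpos_iff_eq_zero, ENNReal.ofReal_eq_zero]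
      have h1 : (1 - t) * J ξ ≤ 1 + 2 * G ξ := by
        have := (le_abs_self _).trans (bJ ξ)
        rcases le_total 0 (J ξ) with h | h <;> nlinarith
      simp only [hS, mem_ofPred_eq, not_and_or, not_le] at hξ
      simp only [hL]
      rcases hξ with h | h | h <;> nlinarith
  have hfin := ((ENNReal.ofReal_le_ofReal eL).trans (ofReal_integral_le iL)).trans
    ((lintegral_mono hpt).trans ((lintegral_indicator mS _).le.trans hvol))
  exact (ENNReal.ofReal_le_ofReal_iff (mul_nonneg B.nrm.mm_pos.le measureReal_nonneg)).1 hfin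

/-- Cauchy-Schwarz against the weight `1 / ‖x‖`, in arithmetic-geometric form. -/
theorem cs_bound {μ : Measure (Eu n)} {f : Eu n → ℝ} {A C q N : ℝ} (hq : 0 < q) (hN : 0 < N)
    (hf : Measurable f) (i1 : Integrable (fun x => f x ^ 2) μ) (h1 : ∫ x, f x ^ 2 ∂μ ≤ A * q ^ 2)
    (i2 : Integrable (fun x : Eu n => 1 / ‖x‖ ^ 2) μ) (h2 : ∫ x, 1 / ‖x‖ ^ 2 ∂μ ≤ C / N ^ 2) :
    Integrable (fun x => f x * ‖x‖⁻¹) μ ∧ |∫ x, f x * ‖x‖⁻¹ ∂μ| ≤ (A + C) / 2 * (q / N) := by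
  have hs : 0 < q * N := mul_pos hq hN
  have i3 : Integrable (fun x => (q * N)⁻¹ / 2 * f x ^ 2 + q * N / 2 * (1 / ‖x‖ ^ 2)) μ :=
    (i1.const_mul _).add (i2.const_mul _)
  have hb : ∀ x, ‖f x * ‖x‖⁻¹‖ ≤ (q * N)⁻¹ / 2 * f x ^ 2 + q * N / 2 * (1 / ‖x‖ ^ 2) := fun x => by
    rw [Real.norm_eq_abs, abs_mul, one_div, ← inv_pow, ← sq_abs (f x), ← sq_abs ‖x‖⁻¹]
    generalize q * N = s at hs
    generalize |f x| = u
    generalize |‖x‖⁻¹| = v
    have : s⁻¹ / 2 * u ^ 2 + s / 2 * v ^ 2 - u * v = (u - s * v) ^ 2 / (2 * s) := by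
      field_simp; ring
    have h4 : 0 ≤ (u - s * v) ^ 2 / (2 * s) := by positivity
    linarith
  refine ⟨i3.mono' (by fun_prop) (Eventually.of_forall hb), ?_⟩
  rw [← Real.norm_eq_abs]
  refine (norm_integral_le_of_norm_le i3 (Eventually.of_forall hb)).trans ?_
  rw [integral_add (i1.const_mul _) (i2.const_mul _), integral_const_mul, integral_const_mul]
  have a1 := mul_le_mul_of_nonneg_left h1 (show 0 ≤ (q * N)⁻¹ / 2 by positivity)
  have a2 := mul_le_mul_of_nonneg_left h2 (show 0 ≤ q * N / 2 by positivity)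
  have e : (q * N)⁻¹ / 2 * (A * q ^ 2) + q * N / 2 * (C / N ^ 2) = (A + C) / 2 * (q / N) := by
    field_simp
  linarith

theorem int_sq (hp : Nrm p) : Integrable (fun x => (1 - uu p x) ^ 2) (gam n) :=
  (integrable_const (729 : ℝ)).mono' (by have := meas_uu hp; fun_prop)
    (Eventually.of_forall fun x => by
      rw [Real.norm_of_nonneg (sq_nonneg _)]
      nlinarith [uu_nonneg (p := p) x, uu_le' (p := p) x])

theorem mean_sq (B : BP p h b) {ν : ℝ} (hP : HasPack p h ν)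
    (hm : 1 - 142 * ν ≤ mm p * (mu p).real (bad p)ᶜ) :
    ∫ x, (1 - uu p x) ^ 2 ∂gam n ≤ 10638 * ν := by
  obtain ⟨-, ip2, hp2, ip, hp1⟩ := hP
  have i1 : Integrable (fun x => 1 + psi h x) (gam n) := (integrable_const _).add ip
  have i2 : Integrable (fun x => 1 + psi h x - uu p x) (gam n) := i1.sub (int_uu B.nrm)
  refine (integral_mono (int_sq B.nrm) ((ip2.const_mul 2916).add (i2.const_mul 54))
    fun x => sq_le (uu_nonneg x) (uu_le B x)).trans ?_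
  simp only [Pi.add_apply]
  rw [integral_add (ip2.const_mul _) (i2.const_mul _), integral_const_mul, integral_const_mul,
    integral_sub i1 (int_uu B.nrm), integral_add (integrable_const _) ip, integral_uu B.nrm]
  simp only [integral_const, probReal_univ, smul_eq_mul, one_mul]
  linarith

/-- The normalisation identity. -/
theorem nor_eq (hp : Nrm p) (iM : Integrable (fun x : Eu n => ‖x‖⁻¹) (mu p))
    (iG : Integrable (fun x : Eu n => ‖x‖⁻¹) (gam n))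
    (i1 : Integrable (fun x => (1 - uu p x) * ‖x‖⁻¹) (gam n))
    (hn : lam b * ∫ x, ‖x‖⁻¹ ∂mu p = ∫ x, ‖x‖⁻¹ ∂gam n) :
    (lam b / mm p - 1) * ∫ x, ‖x‖⁻¹ ∂gam n =
      lam b / mm p * ∫ x, (1 - uu p x) * ‖x‖⁻¹ ∂gam n -
        lam b * ∫ x, (bad p).indicator (fun _ => (1 : ℝ)) x * ‖x‖⁻¹ ∂mu p := by
  have hm := hp.mm_pos
  have hD := meas_bad hp
  have e1 : ∫ x, (bad p).indicator (fun _ => (1 : ℝ)) x * ‖x‖⁻¹ ∂mu p =
      ∫ x in bad p, ‖x‖⁻¹ ∂mu p := by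
    rw [← integral_indicator hD]
    refine integral_congr_ae (Eventually.of_forall fun x => ?_)
    by_cases hx : x ∈ bad p <;> simp [hx]
  have e2 : mm p * ∫ x in (bad p)ᶜ, ‖x‖⁻¹ ∂mu p = ∫ x, uu p x * ‖x‖⁻¹ ∂gam n := by
    rw [← integral_indicator hD.compl, hp.integral_gam, ← integral_const_mul]
    refine integral_congr_ae (Eventually.of_forall fun x => ?_)
    simp only [uu_eq hp]
    by_cases hx : x ∈ (bad p)ᶜ
    · rw [indicator_of_mem hx, indicator_of_mem hx, mul_assoc]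
    · rw [indicator_of_notMem hx, indicator_of_notMem hx]; simp
  have e3 : ∫ x, uu p x * ‖x‖⁻¹ ∂gam n =
      ∫ x, ‖x‖⁻¹ ∂gam n - ∫ x, (1 - uu p x) * ‖x‖⁻¹ ∂gam n := by
    rw [← integral_sub iG i1]
    exact integral_congr_ae (Eventually.of_forall fun x => by simp only; ring)
  have e4 := integral_add_compl hD iM
  rw [e1]
  rw [e3] at e2
  rw [← e4] at hn
  generalize ∫ x in bad p, ‖x‖⁻¹ ∂mu p = a at *
  generalize ∫ x in (bad p)ᶜ, ‖x‖⁻¹ ∂mu p = c at *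
  generalize ∫ x, (1 - uu p x) * ‖x‖⁻¹ ∂gam n = d at *
  generalize ∫ x : Eu n, ‖x‖⁻¹ ∂gam n = e at *
  have e5 : d = e - mm p * c := by linarith
  rw [e5]
  field_simp
  rw [← hn]
  ring

end StepB

open StepB in
theorem stepB (hV : VolStmt) (hS : SanStmt) (hM : MomStmt) : StepBStmt := by
  intro Λ hΛ
  obtain ⟨C, n0, hC, hmom⟩ := hM Λ (by linarith) 2 0
  set K : ℝ := 2 * Λ * ((10638 + C) / 2) + Λ * ((288 + C) / 2) with hK
  have hK0 : 0 < K := by positivity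
  refine ⟨288 + 8 * Λ ^ 2 * 10638 + 2 * (C * K) ^ 2, 1 / 300, max n0 1, by positivity,
    by norm_num, fun n hn p h b H ν hν hν1 hP => ?_⟩
  have B := H.reg.cmp.bp
  have hp := B.nrm
  have := hp.prob
  have hD := meas_bad hp
  have hn1 : (0 : ℝ) < n := by exact_mod_cast lt_of_lt_of_le one_pos (le_of_max_le_right hn)
  have hN : 0 < √(n : ℝ) := sqrt_pos.2 hn1
  have hq : 0 < √ν := sqrt_pos.2 hν
  have hq2 : √ν ^ 2 = ν := sq_sqrt hν.le
  obtain ⟨⟨iM2, hM2⟩, -, -⟩ := hmom n (le_of_max_le_left hn) p H.reg.tame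
  obtain ⟨⟨iG2, hG2⟩, -, hG1⟩ := hmom n (le_of_max_le_left hn) (fun x => ‖x‖)
    (tame_gam.mono (by norm_num) hΛ)
  change Integrable _ (gam n) at iG2
  change ∫ x, _ ∂gam n ≤ _ at hG2
  change _ ≤ ∫ x, _ ∂gam n at hG1
  have hm := mass hV B (by linarith) H.reg.tame.hi hν (by linarith) hP
  have hmm : mm p ≤ 1 + 2 * ν := by
    refine (hS n p h b B hP.2.2.2.1).trans ((exp_le_exp.2 hP.2.2.2.2).trans ?_)
    have h1 := add_one_le_exp (-ν)
    rw [exp_neg, ← one_div, le_div_iff₀ (exp_pos ν)] at h1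
    nlinarith [exp_pos ν]
  have hm0 := hp.mm_pos
  have hc : (mu p).real (bad p)ᶜ = 1 - (mu p).real (bad p) := probReal_compl_eq_one_sub hD
  have hr0 : 0 ≤ (mu p).real (bad p) := measureReal_nonneg
  have hm1 : 1 / 2 ≤ mm p := by rw [hc] at hm; nlinarith
  have hbad : (mu p).real (bad p) ≤ 288 * ν := by rw [hc] at hm; nlinarith
  have hsq := mean_sq B hP hm
  have hl0 := lam_pos B.bpos
  have hl1 := H.reg.cmp.lam_le
  have hr1 : lam b / mm p ≤ 2 * Λ := by rw [div_le_iff₀ hm0]; nlinarith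
  have hr2 : 0 < lam b / mm p := div_pos hl0 hm0
  obtain ⟨i1, b1⟩ := cs_bound (f := fun x => 1 - uu p x) (A := 10638) hq hN
    (measurable_const.sub (meas_uu hp)) (int_sq hp) (by rw [hq2]; exact hsq) iG2 hG2
  have eD : (fun x => (bad p).indicator (fun _ => (1 : ℝ)) x ^ 2) =
      (bad p).indicator fun _ => (1 : ℝ) := funext fun x => by
    by_cases hx : x ∈ bad p <;> simp [hx]
  obtain ⟨-, b2⟩ := cs_bound (μ := mu p) (f := (bad p).indicator fun _ => (1 : ℝ)) (A := 288)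
    hq hN (measurable_const.indicator hD)
    (by rw [eD]; exact (integrable_const _).indicator hD)
    (by rw [eD, integral_indicator_const _ hD, smul_eq_mul, mul_one, hq2]; exact hbad) iM2 hM2
  have iM : Integrable (fun x : Eu n => ‖x‖⁻¹) (mu p) := by
    simpa using (cs_bound (μ := mu p) (f := fun _ => 1) (A := 1) one_pos hN measurable_const
      (integrable_const _) (by simp) iM2 hM2).1
  have iG : Integrable (fun x : Eu n => ‖x‖⁻¹) (gam n) := by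
    simpa using (cs_bound (μ := gam n) (f := fun _ => 1) (A := 1) one_pos hN measurable_const
      (integrable_const _) (by simp) iG2 hG2).1
  have hid := nor_eq hp iM iG i1 H.nor
  have hqN : 0 < √ν / √(n : ℝ) := div_pos hq hN
  have hr3 : |lam b / mm p - 1| ≤ C * K * √ν := by
    have a0 : 0 < 1 / (C * √(n : ℝ)) := by positivity
    have a1 : |lam b / mm p - 1| * ∫ x, ‖x‖⁻¹ ∂gam n ≤ K * (√ν / √(n : ℝ)) := by
      rw [← abs_of_pos (a0.trans_le hG1), ← abs_mul, hid]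
      refine (abs_sub _ _).trans ?_
      rw [abs_mul, abs_mul, abs_of_pos hr2, abs_of_pos hl0, hK, add_mul, mul_assoc (2 * Λ),
        mul_assoc Λ]
      exact add_le_add (mul_le_mul hr1 b1 (abs_nonneg _) (by positivity))
        (mul_le_mul hl1 b2 (abs_nonneg _) (by positivity))
    have a2 := (mul_le_mul_of_nonneg_left hG1 (abs_nonneg (lam b / mm p - 1))).trans a1
    rw [mul_one_div, div_le_iff₀ (by positivity)] at a2
    refine a2.trans (le_of_eq ?_)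
    field_simp
  have hr4 : (lam b / mm p - 1) ^ 2 ≤ (C * K) ^ 2 * ν := by
    have := pow_le_pow_left₀ (abs_nonneg _) hr3 2
    rwa [sq_abs, mul_pow, hq2] at this
  have i3 : Integrable (fun x => 8 * Λ ^ 2 * (1 - uu p x) ^ 2 + 2 * ((C * K) ^ 2 * ν)) (gam n) :=
    ((int_sq hp).const_mul _).add (integrable_const _)
  have hpt : ∀ x, Vg p b (bad p) x ^ 2 ≤
      8 * Λ ^ 2 * (1 - uu p x) ^ 2 + 2 * ((C * K) ^ 2 * ν) := fun x => by
    rw [Vg_eq hp]
    have h1 : (lam b / mm p) ^ 2 ≤ (2 * Λ) ^ 2 := pow_le_pow_left₀ hr2.le hr1 2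
    have h2 := mul_le_mul_of_nonneg_right h1 (sq_nonneg (1 - uu p x))
    generalize lam b / mm p = r at *
    nlinarith [sq_nonneg (r * (1 - uu p x) + (r - 1))]
  have i4 : Integrable (fun x => Vg p b (bad p) x ^ 2) (gam n) :=
    i3.mono' ((hp.Vg_meas b hD).pow_const 2).aestronglyMeasurable
      (Eventually.of_forall fun x => by rw [Real.norm_of_nonneg (sq_nonneg _)]; exact hpt x)
  have z1 : 0 ≤ 8 * Λ ^ 2 * 10638 * ν := by positivity
  have z2 : 0 ≤ 2 * (C * K) ^ 2 * ν := by positivity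
  refine ⟨bad p, hD, by nlinarith, i4, (integral_mono i4 i3 hpt).trans ?_⟩
  rw [integral_add ((int_sq hp).const_mul _) (integrable_const _), integral_const_mul]
  simp only [integral_const, probReal_univ, smul_eq_mul, one_mul]
  nlinarith [mul_le_mul_of_nonneg_left hsq (show 0 ≤ 8 * Λ ^ 2 by positivity)]

end Pool.Agent.MP_2a44fd_gt.hd

end MrgPart3

-- marker of a merged file
example : 731051 + 642008 = 731051 + 642008 := rfl
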