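import Mathlib.Analysis.Convex.Continuous
import Mathlib.MeasureTheory.Measure.Lebesgue.VolumeOfBalls
import Mathlib.Probability.Moments.Basic
import Pool.Agent.MP_2a44fd_gt.hd.Lim
import Pool.Agent.MP_19b6be_gt.Func
import Pool.Agent.MP_2a44fd_gt.hd.Ker
import Pool.Agent.MP_2a44fd_gt.hd.StepB
import Pool.Agent.MP_2a44fd_gt.hd.Q4b
import Pool.Agent.MP_2a44fd_gt.hd.Pack

-- ======== part 0: formerly Pool.Agent.MP_2a44fd_gt.hd.Pl
section MrgPart0

/-!
PROJECT BP5HD, module PL: Brunn-Minkowski on the line and the Prekopa-Leindler inequality.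
-/

set_option autoImplicit false

open MeasureTheory Real Set Filter Topology
open scoped ENNReal NNReal

namespace Pool.Agent.MP_2a44fd_gt.hd

namespace Pl

theorem aff {c : ℝ} (hc : 0 < c) (d : ℝ) {K S : Set ℝ} (h : ∀ x ∈ K, c * x + d ∈ S) :
    ENNReal.ofReal c * volume K ≤ volume S := by
  have h1 : K ⊆ (fun x => c * x) ⁻¹' ((fun x => x + d) ⁻¹' S) := h
  refine (mul_le_mul_right (measure_mono h1) _).trans_eq ?_
  rw [Real.volume_preimage_mul_left hc.ne', measure_preimage_add_right, ← mul_assoc,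
    ← ENNReal.ofReal_mul hc.le, abs_of_pos (inv_pos.2 hc), mul_inv_cancel₀ hc.ne']
  simp

theorem bmK {A B C : Set ℝ} {l : ℝ} (h0 : 0 < l) (h1 : l < 1) (hA : IsCompact A)
    (hB : IsCompact B) (hA' : A.Nonempty) (hB' : B.Nonempty)
    (h : ∀ x ∈ A, ∀ y ∈ B, (1 - l) * x + l * y ∈ C) :
    ENNReal.ofReal (1 - l) * volume A + ENNReal.ofReal l * volume B ≤ volume C := by
  obtain ⟨a, ha, ha'⟩ := hA.exists_isGreatest hA'
  obtain ⟨b, hb, hb'⟩ := hB.exists_isLeast hB'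
  have h2 : 0 < 1 - l := by linarith
  rw [← measure_inter_add_sdiff C (measurableSet_Iic (a := (1 - l) * a + l * b))]
  refine add_le_add (aff h2 (l * b) fun x hx => ⟨h x hx b hb, ?_⟩) ?_
  · have := mul_le_mul_of_nonneg_left (ha' hx) h2.le
    exact mem_Iic.2 (by linarith)
  · rw [← measure_sdiff_null (s := B) (t := {b}) (by simp)]
    refine aff h0 ((1 - l) * a) fun y hy => ⟨add_comm ((1 - l) * a) _ ▸ h a ha y hy.1, ?_⟩
    have h3 : b < y := lt_of_le_of_ne (hb' hy.1) (Ne.symm hy.2)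
    have := mul_lt_mul_of_pos_left h3 h0
    exact notMem_Iic.2 (by linarith)

/-- Brunn-Minkowski on the line. -/
theorem bm1 {A B C : Set ℝ} {l : ℝ} (h0 : 0 < l) (h1 : l < 1) (hA : MeasurableSet A)
    (hB : MeasurableSet B) (hA' : A.Nonempty) (hB' : B.Nonempty)
    (h : ∀ x ∈ A, ∀ y ∈ B, (1 - l) * x + l * y ∈ C) :
    ENNReal.ofReal (1 - l) * volume A + ENNReal.ofReal l * volume B ≤ volume C := by
  obtain ⟨a, ha⟩ := hA'
  obtain ⟨b, hb⟩ := hB'
  have key : ∀ {S : Set ℝ}, MeasurableSet S →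
      volume S = ⨆ (K) (_ : K ⊆ S ∧ IsCompact K), volume K := fun hS => by
    simp only [iSup_and]; exact hS.measure_eq_iSup_isCompact _
  rw [key hA, key hB]
  simp only [ENNReal.mul_iSup]
  refine ENNReal.biSup_add_biSup_le' ⟨∅, by simp⟩ ⟨∅, by simp⟩ fun K hK K' hK' => ?_
  refine le_trans ?_ (bmK h0 h1 (hK.2.insert a) (hK'.2.insert b) (insert_nonempty _ _)
    (insert_nonempty _ _) fun x hx y hy =>
      h x (insert_subset ha hK.1 hx) y (insert_subset hb hK'.1 hy))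
  gcongr <;> exact subset_insert _ _

theorem cake {f : ℝ → ℝ≥0∞} (hf : Measurable f) (h : ∀ x, f x ≤ 1) :
    ∫⁻ x, f x = ∫⁻ t in Ioi (0 : ℝ), volume {x | ENNReal.ofReal t < f x} := by
  have h1 : ∀ x, f x ≠ ∞ := fun x => ne_top_of_le_ne_top ENNReal.one_ne_top (h x)
  have h2 := lintegral_eq_lintegral_meas_lt (volume : Measure ℝ) (f := fun x => (f x).toReal)
    (ae_of_all _ fun _ => ENNReal.toReal_nonneg) hf.ennreal_toReal.aemeasurable
  simp only [ENNReal.ofReal_toReal (h1 _)] at h2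
  rw [h2]
  refine setLIntegral_congr_fun measurableSet_Ioi fun t ht => ?_
  simp only [ENNReal.ofReal_lt_iff_lt_toReal (le_of_lt ht) (h1 _)]

theorem qc0 (f g h : ℝ → ℝ≥0∞) (l : ℝ) (h0 : 0 < l) (h1 : l < 1) (hf : Measurable f)
    (hg : Measurable g) (hh : Measurable h) (hf1 : ∀ x, f x ≤ 1) (hg1 : ∀ x, g x ≤ 1)
    (hf2 : ∀ y < 1, ∃ x, y < f x) (hg2 : ∀ y < 1, ∃ x, y < g x)
    (H : ∀ x x', min (f x) (g x') ≤ h ((1 - l) * x + l * x')) :
    ENNReal.ofReal (1 - l) * (∫⁻ x, f x) + ENNReal.ofReal l * ∫⁻ x, g x ≤ ∫⁻ x, h x := by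
  refine le_trans ?_ (lintegral_mono fun x => min_le_left (h x) 1)
  rw [cake hf hf1, cake hg hg1, cake (hh.min measurable_const) fun _ => min_le_right _ _]
  refine (add_le_add (lintegral_const_mul_le _ _) (lintegral_const_mul_le _ _)).trans
    ((le_lintegral_add _ _).trans (lintegral_mono fun t => ?_))
  by_cases ht : ENNReal.ofReal t < 1
  · exact bm1 h0 h1 (measurableSet_lt measurable_const hf) (measurableSet_lt measurable_const hg)
      (hf2 _ ht) (hg2 _ ht) fun x hx y hy => lt_min ((lt_min hx hy).trans_le (H x y)) ht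
  · have h2 : {x | ENNReal.ofReal t < f x} = ∅ :=
      eq_empty_of_forall_notMem fun x hx => ht (lt_of_lt_of_le hx (hf1 x))
    have h3 : {x | ENNReal.ofReal t < g x} = ∅ :=
      eq_empty_of_forall_notMem fun x hx => ht (lt_of_lt_of_le hx (hg1 x))
    simp [h2, h3]

theorem amgm {l : ℝ} (h0 : 0 < l) (h1 : l < 1) (u v : ℝ≥0∞) :
    u ^ (1 - l) * v ^ l ≤ ENNReal.ofReal (1 - l) * u + ENNReal.ofReal l * v := by
  have h2 : 0 < 1 - l := by linarith
  rcases eq_or_ne u ∞ with rfl | hu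
  · rw [ENNReal.mul_top (by simpa using h1)]; simp
  rcases eq_or_ne v ∞ with rfl | hv
  · rw [ENNReal.mul_top (a := ENNReal.ofReal l) (by simpa using h0)]; simp
  lift u to ℝ≥0 using hu
  lift v to ℝ≥0 using hv
  have h3 := NNReal.geom_mean_le_arith_mean2_weighted ⟨1 - l, h2.le⟩ ⟨l, h0.le⟩ u v
    (NNReal.eq (sub_add_cancel 1 l))
  rw [← ENNReal.coe_rpow_of_nonneg _ h2.le, ← ENNReal.coe_rpow_of_nonneg _ h0.le,
    ENNReal.ofReal_eq_coe_nnreal h2.le, ENNReal.ofReal_eq_coe_nnreal h0.le]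
  exact_mod_cast h3

theorem min_le_geo {l : ℝ} (h0 : 0 < l) (h1 : l < 1) (u v : ℝ≥0∞) :
    min u v ≤ u ^ (1 - l) * v ^ l := by
  have h2 : 0 < 1 - l := by linarith
  calc min u v = min u v ^ (1 - l) * min u v ^ l := by
        rw [← ENNReal.rpow_add_of_nonneg _ _ h2.le h0.le, sub_add_cancel, ENNReal.rpow_one]
    _ ≤ _ := mul_le_mul' (ENNReal.rpow_le_rpow (min_le_left _ _) h2.le)
        (ENNReal.rpow_le_rpow (min_le_right _ _) h0.le)

theorem geo_div {l : ℝ} (h0 : 0 < l) (h1 : l < 1) (u v a c : ℝ≥0∞) (ha : a ≠ 0) (ha' : a ≠ ∞)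
    (hc : c ≠ 0) (hc' : c ≠ ∞) : (u / a) ^ (1 - l) * (v / c) ^ l =
      u ^ (1 - l) * v ^ l / (a ^ (1 - l) * c ^ l) := by
  have h2 : 0 < 1 - l := by linarith
  rw [ENNReal.div_rpow_of_nonneg _ _ h2.le, ENNReal.div_rpow_of_nonneg _ _ h0.le,
    ENNReal.mul_div_mul_comm (Or.inl (by simp [ha, ha'])) (Or.inr (by simp [hc, hc']))]

theorem sup_norm {f : ℝ → ℝ≥0∞} (ha : ⨆ x, f x ≠ 0) (ha' : ⨆ x, f x ≠ ∞) :
    ∀ y < 1, ∃ x, y < f x / ⨆ x, f x := by
  intro y hy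
  have h1 : y * ⨆ x, f x < ⨆ x, f x := by
    simpa using ENNReal.mul_lt_mul_left ha ha' hy
  obtain ⟨x, hx⟩ := lt_iSup_iff.1 h1
  exact ⟨x, (ENNReal.lt_div_iff_mul_lt (Or.inl ha) (Or.inl ha')).2 hx⟩

theorem pl_bdd {f g h : ℝ → ℝ≥0∞} {l : ℝ} (h0 : 0 < l) (h1 : l < 1) (hf : Measurable f)
    (hg : Measurable g) (hh : Measurable h) (ha' : ⨆ x, f x ≠ ∞) (hc' : ⨆ x, g x ≠ ∞)
    (H : ∀ x y, f x ^ (1 - l) * g y ^ l ≤ h ((1 - l) * x + l * y)) :
    (∫⁻ x, f x) ^ (1 - l) * (∫⁻ x, g x) ^ l ≤ ∫⁻ x, h x := by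
  have h2 : 0 < 1 - l := by linarith
  by_cases ha : ⨆ x, f x = 0
  · simp [ENNReal.iSup_eq_zero.1 ha, h2]
  by_cases hc : ⨆ x, g x = 0
  · simp [ENNReal.iSup_eq_zero.1 hc, h0]
  have h3 := qc0 (fun x => f x / ⨆ x, f x) (fun x => g x / ⨆ x, g x)
    (fun x => h x / ((⨆ x, f x) ^ (1 - l) * (⨆ x, g x) ^ l)) l h0 h1 (hf.div_const _)
    (hg.div_const _) (hh.div_const _)
    (fun x => ENNReal.div_le_of_le_mul (by simpa using le_iSup f x))
    (fun x => ENNReal.div_le_of_le_mul (by simpa using le_iSup g x)) (sup_norm ha ha')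
    (sup_norm hc hc') fun x y => (min_le_geo h0 h1 _ _).trans (by
      rw [geo_div h0 h1 _ _ _ _ ha ha' hc hc']
      exact ENNReal.div_le_div_right (H x y) _)
  simp only [div_eq_mul_inv] at h3
  rw [lintegral_mul_const _ hf, lintegral_mul_const _ hg, lintegral_mul_const _ hh] at h3
  have h4 := (amgm h0 h1 _ _).trans h3
  simp only [← div_eq_mul_inv] at h4
  rw [geo_div h0 h1 _ _ _ _ ha ha' hc hc'] at h4
  have h5 : (⨆ x, f x) ^ (1 - l) * (⨆ x, g x) ^ l ≠ 0 := by simp [ha, ha', hc, hc']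
  have h6 : (⨆ x, f x) ^ (1 - l) * (⨆ x, g x) ^ l ≠ ∞ :=
    ENNReal.mul_ne_top (ENNReal.rpow_ne_top_of_nonneg h2.le ha')
      (ENNReal.rpow_ne_top_of_nonneg h0.le hc')
  rwa [ENNReal.div_le_iff h5 h6, ENNReal.div_mul_cancel h5 h6] at h4

theorem trunc {f : ℝ → ℝ≥0∞} (hf : Measurable f) {r : ℝ} (hr : 0 < r) :
    (∫⁻ x, f x) ^ r = ⨆ N : ℕ, (∫⁻ x, min (f x) N) ^ r := by
  have h1 : ∫⁻ x, f x = ⨆ N : ℕ, ∫⁻ x, min (f x) N := by
    rw [← lintegral_iSup (fun N => hf.min measurable_const) fun N M h x =>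
      min_le_min_left _ (Nat.cast_le.2 h)]
    refine lintegral_congr fun x => ?_
    rw [← inf_iSup_eq, ENNReal.iSup_natCast, inf_top_eq]
  rw [h1]
  exact (ENNReal.orderIsoRpow r hr).map_iSup _

/-- The inequality on a space with a measure. -/
def PL (E : Type) [MeasurableSpace E] [AddCommGroup E] [Module ℝ E] (μ : Measure E) (l : ℝ) :
    Prop :=
  ∀ f g h : E → ℝ≥0∞, Measurable f → Measurable g → Measurable h →
    (∀ x y, f x ^ (1 - l) * g y ^ l ≤ h ((1 - l) • x + l • y)) →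
    (∫⁻ x, f x ∂μ) ^ (1 - l) * (∫⁻ x, g x ∂μ) ^ l ≤ ∫⁻ x, h x ∂μ

theorem pl_real {l : ℝ} (h0 : 0 < l) (h1 : l < 1) : PL ℝ volume l := by
  intro f g h hf hg hh H
  have h2 : 0 < 1 - l := by linarith
  have h3 : ∀ (f : ℝ → ℝ≥0∞) (N : ℕ), ⨆ x, min (f x) N ≠ ∞ := fun f N =>
    ne_top_of_le_ne_top (ENNReal.natCast_ne_top N) (iSup_le fun _ => min_le_right _ _)
  rw [trunc hf h2, trunc hg h0, ENNReal.iSup_mul]
  refine iSup_le fun N => ?_
  rw [ENNReal.mul_iSup]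
  refine iSup_le fun M => pl_bdd h0 h1 (hf.min measurable_const) (hg.min measurable_const) hh
    (h3 f N) (h3 g M) fun x y => le_trans ?_ (H x y)
  exact mul_le_mul' (ENNReal.rpow_le_rpow (min_le_left _ _) h2.le)
    (ENNReal.rpow_le_rpow (min_le_left _ _) h0.le)

variable {E F : Type} [MeasurableSpace E] [AddCommGroup E] [Module ℝ E] [MeasurableSpace F]
  [AddCommGroup F] [Module ℝ F] {μ : Measure E} {ν : Measure F} {l : ℝ}

theorem PL.prod [SFinite ν] (hE : PL E μ l) (hF : PL F ν l) : PL (E × F) (μ.prod ν) l := by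
  intro f g h hf hg hh H
  rw [lintegral_prod _ hf.aemeasurable, lintegral_prod _ hg.aemeasurable,
    lintegral_prod _ hh.aemeasurable]
  exact hE _ _ _ hf.lintegral_prod_right' hg.lintegral_prod_right' hh.lintegral_prod_right'
    fun x y => hF _ _ _ (hf.comp measurable_prodMk_left) (hg.comp measurable_prodMk_left)
      (hh.comp measurable_prodMk_left) fun x' y' => H (x, x') (y, y')

theorem PL.map (hE : PL E μ l) {φ : E → F} (hφ : MeasurePreserving φ μ ν)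
    (hl : ∀ x y, φ ((1 - l) • x + l • y) = (1 - l) • φ x + l • φ y) : PL F ν l := by
  intro f g h hf hg hh H
  rw [← hφ.lintegral_comp hf, ← hφ.lintegral_comp hg, ← hφ.lintegral_comp hh]
  exact hE _ _ _ (hf.comp hφ.measurable) (hg.comp hφ.measurable) (hh.comp hφ.measurable)
    fun x y => (H _ _).trans_eq (congrArg h (hl x y).symm)

theorem pl_pi (h0 : 0 < l) (h1 : l < 1) (n : ℕ) : PL (Fin n → ℝ) volume l := by
  induction n with
  | zero =>
    intro f g h _ _ _ H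
    have h2 : (volume : Measure (Fin 0 → ℝ)) univ = 1 := by simp [volume_pi]
    simp only [lintegral_unique, h2, mul_one]
    exact (H _ _).trans_eq (congrArg h (Subsingleton.elim _ _))
  | succ n ih =>
    refine ((pl_real h0 h1).prod ih).map
      (volume_preserving_piFinSuccAbove (fun _ : Fin (n + 1) => ℝ) 0).symm fun x y => ?_
    ext i
    refine Fin.cases ?_ (fun i => ?_) i <;> simp

end Pl

theorem qc : QCStmt := Pl.qc0

theorem pl : PLStmt := fun n f g h _ h0 h1 =>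
  (Pl.pl_pi h0 h1 n).map (PiLp.volume_preserving_toLp (Fin n)) (fun _ _ => rfl) f g h

end Pool.Agent.MP_2a44fd_gt.hd

end MrgPart0

-- ======== part 1: formerly Pool.Agent.MP_2a44fd_gt.hd.Bridge
section MrgPart1

/-!
PROJECT BP5HD, module BRIDGE: from the geometric hypotheses to the weak equation `BP`.
-/

set_option autoImplicit false

open MeasureTheory Real Set Filter Topology
open scoped RealInnerProductSpace ENNReal Pointwise

namespace Pool.Agent.MP_2a44fd_gt.hd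

namespace Bridge

variable {n m : ℕ}

theorem gauge_nrm {K : Set (Eu n)} (h1 : IsCompact K) (h2 : Convex ℝ K)
    (h3 : (interior K).Nonempty) (h4 : ∀ x ∈ K, -x ∈ K) :
    Nrm (gauge K) ∧ K = {x | gauge K x ≤ 1} := by
  obtain ⟨x, hx⟩ := h3
  have h0 : K ∈ 𝓝 0 := by
    have := h2.combo_interior_self_mem_interior hx (h4 x (interior_subset hx))
      (a := 1 / 2) (b := 1 / 2) (by norm_num) (by norm_num) (by norm_num)
    rw [smul_neg, add_neg_cancel] at this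
    exact mem_interior_iff_mem_nhds.1 this
  obtain ⟨R, hR, hK⟩ := h1.isBounded.subset_closedBall_lt 0 0
  refine ⟨⟨continuous_gauge h2 h0, fun c x => gauge_smul ((balanced_iff_neg_mem h2).2 h4) c x,
    gauge_add_le h2 (absorbent_nhds_zero h0), R⁻¹, by positivity, fun x => ?_⟩, ?_⟩
  · rw [← div_eq_inv_mul]
    exact le_gauge_of_subset_closedBall (absorbent_nhds_zero h0) hR.le hK
  · ext x
    rw [mem_ofPred_eq, gauge_le_one_iff_mem_closure h2 h0, h1.isClosed.closure_eq]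

/-- The Hausdorff measure of a unit ball is a fixed multiple of the Gaussian type integral. -/
theorem haus (hm : 1 ≤ m) : ∃ k : ℝ, 0 < k ∧ ∀ q : Eu m → ℝ, Nrm q →
    (Measure.hausdorffMeasure (m : ℝ) {y | q y ≤ 1}).toReal = k * Zc q := by
  have : Nonempty (Fin m) := ⟨⟨0, hm⟩⟩
  have : (Measure.hausdorffMeasure (m : ℝ) : Measure (Eu m)).IsAddHaarMeasure := by
    simpa using MeasureTheory.isAddHaarMeasure_hausdorffMeasure (E := Eu m)
  have e := Measure.isAddLeftInvariant_eq_smul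
    (Measure.hausdorffMeasure (m : ℝ) : Measure (Eu m)) volume
  have c0 := Measure.addHaarScalarFactor_pos_of_isAddHaarMeasure
    (Measure.hausdorffMeasure (m : ℝ) : Measure (Eu m)) volume
  generalize Measure.addHaarScalarFactor (Measure.hausdorffMeasure (m : ℝ) : Measure (Eu m))
    volume = c at e c0
  have g0 : 0 < Gamma ((m : ℝ) / 2 + 1) := Gamma_pos_of_pos (by positivity)
  have c1 : (0 : ℝ) < c := c0
  refine ⟨c * ((√2 ^ m)⁻¹ / Gamma ((m : ℝ) / 2 + 1)), by positivity, fun q hq => ?_⟩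
  have z : ∀ {x}, q x = 0 → x = 0 := fun {x} hx => by
    by_contra h
    exact (hq.pos h).ne' hx
  have s : ∀ (r : ℝ) x, q (r • x) ≤ |r| * q x := fun r x => (hq.smul r x).le
  have i : ∫ x, exp (-q x ^ (2 : ℝ)) = (√2 ^ m)⁻¹ * Zc q := by
    have := Measure.integral_comp_smul volume (fun x : Eu m => exp (-(q x ^ 2 / 2))) (√2)
    rw [finrank_euclideanSpace_fin, abs_of_pos (by positivity), smul_eq_mul] at this
    rw [Zc, ← this]
    refine integral_congr_ae (Eventually.of_forall fun x => ?_)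
    simp only [hq.smul_nonneg (sqrt_nonneg 2), mul_pow, sq_sqrt (zero_le_two (α := ℝ)), rpow_two]
    ring_nf
  have := hq.Zc_pos
  rw [e, Measure.smul_apply, measure_le_eq_lt volume hq.zero hq.neg hq.add z s,
    measure_lt_one_eq_integral_div_gamma volume hq.zero hq.neg hq.add z s two_pos, i,
    finrank_euclideanSpace_fin, ENNReal.smul_def, smul_eq_mul, ENNReal.toReal_mul,
    ENNReal.toReal_ofReal (by positivity), ENNReal.coe_toReal]
  ring

theorem nrm_comp {p : Eu n → ℝ} (hp : Nrm p) (ι : Eu m →ₗᵢ[ℝ] Eu n) : Nrm fun y => p (ι y) := by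
  obtain ⟨c, hc, h⟩ := hp.low
  exact ⟨hp.cont.comp ι.continuous, fun a x => by rw [map_smul, hp.smul],
    fun x y => by rw [map_add]; exact hp.add _ _, c, hc, fun x => by rw [← ι.norm_map]; exact h _⟩

/-- The limit of the smoothed section function in a unit direction. -/
theorem lim_unit {p : Eu (m + 1) → ℝ} (hp : Nrm p) {u : Eu (m + 1)} (hu : ‖u‖ = 1)
    (ι : Eu m →ₗᵢ[ℝ] Eu (m + 1)) (h1 : ∀ y, ⟪u, ι y⟫ = 0)
    (h2 : MeasurePreserving (fun q : ℝ × Eu m => q.1 • u + ι q.2) (volume.prod volume) volume) :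
    Tendsto (fun δ => A0 p δ u) (𝓝[>] 0) (𝓝 ((Zc fun y => p (ι y)) / Zc p)) := by
  obtain ⟨c, hc, h⟩ := hp.low
  have hZ := hp.Zc_pos
  have pc := hp.cont
  have ic := ι.continuous
  set J : ℝ → ℝ := fun w => ∫ y, exp (-(p (w • u + ι y) ^ 2 / 2)) with hJ
  have bd : ∀ (w : ℝ) y, ‖exp (-(p (w • u + ι y) ^ 2 / 2))‖ ≤ exp (-(c ^ 2 / 2 * ‖y‖ ^ 2)) := by
    intro w y
    have a : ‖y‖ ^ 2 ≤ ‖w • u + ι y‖ ^ 2 := by
      rw [norm_add_sq_real, real_inner_smul_left, h1, ι.norm_map]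
      nlinarith [sq_nonneg ‖w • u‖]
    have b := pow_le_pow_left₀ (by positivity) (h (w • u + ι y)) 2
    rw [Real.norm_of_nonneg (exp_pos _).le, exp_le_exp]
    nlinarith [sq_nonneg c]
  have gi := int_gauss (n := m) (a := c ^ 2 / 2) (by positivity)
  have Jc : Continuous J := continuous_of_dominated (fun w => by fun_prop)
    (fun w => Eventually.of_forall (bd w)) gi (Eventually.of_forall fun y => by fun_prop)
  have Jb : ∀ w, ‖J w‖ ≤ ∫ y : Eu m, exp (-(c ^ 2 / 2 * ‖y‖ ^ 2)) := fun w =>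
    norm_integral_le_of_norm_le gi (Eventually.of_forall (bd w))
  have e : ∀ δ, 0 < δ → A0 p δ u = (∫ v, gk 1 v * J (δ * v)) / Zc p := fun δ hδ => by
    have i1 := (hp.integrable_mu _).1 (hp.int_gk hδ u)
    have i2 := h2.integrable_comp_of_integrable i1
    rw [Function.comp_def] at i2
    have e1 : ∀ (w : ℝ) y, ⟪w • u + ι y, u⟫ = w := fun w y => by
      rw [inner_add_left, real_inner_smul_left, real_inner_self_eq_norm_sq, hu, real_inner_comm, h1]
      ring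
    have e2 := Measure.integral_comp_mul_left (fun w => gk δ w * J w) δ
    simp only [gk_scale hδ, div_self hδ.ne', mul_assoc, integral_const_mul,
      abs_of_pos (inv_pos.2 hδ), smul_eq_mul] at e2
    rw [A0, hp.integral_mu, ← h2.map_eq, integral_map h2.measurable.aemeasurable (by fun_prop),
      integral_prod _ i2, mul_left_cancel₀ (inv_pos.2 hδ).ne' e2, ← integral_div]
    refine integral_congr_ae (Eventually.of_forall fun w => ?_)
    simp only [e1, integral_mul_const, integral_div, hJ]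
    ring
  have t : Tendsto (fun δ : ℝ => ∫ v, gk 1 v * J (δ * v)) (𝓝[>] 0) (𝓝 (∫ v, gk 1 v * J 0)) := by
    refine tendsto_integral_filter_of_dominated_convergence _
      (Eventually.of_forall fun δ => by fun_prop)
      (Eventually.of_forall fun δ => Eventually.of_forall fun v => ?_)
      ((gk_int one_pos).mul_const (∫ y : Eu m, exp (-(c ^ 2 / 2 * ‖y‖ ^ 2))))
      (Eventually.of_forall fun v => ?_)
    · rw [norm_mul, Real.norm_of_nonneg (gk_pos one_pos v).le]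
      exact mul_le_mul_of_nonneg_left (Jb _) (gk_pos one_pos v).le
    · have : Continuous fun δ : ℝ => gk 1 v * J (δ * v) := by fun_prop
      simpa using (this.tendsto 0).mono_left nhdsWithin_le_nhds
  rw [integral_mul_const, integral_gk one_pos, one_mul] at t
  have J0 : J 0 = Zc fun y => p (ι y) := by simp [hJ, Zc]
  rw [← J0]
  exact (t.div_const _).congr' (eventually_mem_nhdsWithin.mono fun δ hδ => (e δ hδ).symm)

/-- The measure of the central section orthogonal to `ξ`. -/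
noncomputable def sec (K : Set (Eu n)) (d : ℝ) (ξ : Eu n) : ℝ :=
  (Measure.hausdorffMeasure d (K ∩ {z : Eu n | inner ℝ ξ z = 0})).toReal

theorem sec_smul (K : Set (Eu n)) (d : ℝ) {a : ℝ} (ha : a ≠ 0) (ξ : Eu n) :
    sec K d (a • ξ) = sec K d ξ := by
  simp only [sec, real_inner_smul_left, mul_eq_zero, ha, false_or]

theorem lim_sec (hm : 1 ≤ m) {p : Eu (m + 1) → ℝ} (hp : Nrm p) : ∃ κ : ℝ, 0 < κ ∧ ∀ ξ, ξ ≠ 0 →
    0 < sec {x | p x ≤ 1} m ξ ∧
      Tendsto (fun δ => A0 p δ ξ) (𝓝[>] 0) (𝓝 (κ * sec {x | p x ≤ 1} m ξ / ‖ξ‖)) := by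
  obtain ⟨k, hk, H⟩ := haus hm
  have hZ := hp.Zc_pos
  refine ⟨(k * Zc p)⁻¹, by positivity, fun ξ hξ => ?_⟩
  have n0 : 0 < ‖ξ‖ := norm_pos_iff.2 hξ
  obtain ⟨a, u, ha, hu, rfl⟩ : ∃ (a : ℝ) (u : Eu (m + 1)), 0 < a ∧ ‖u‖ = 1 ∧ ξ = a • u :=
    ⟨‖ξ‖, ‖ξ‖⁻¹ • ξ, n0, by rw [norm_smul, norm_inv, norm_norm, inv_mul_cancel₀ n0.ne'],
      by rw [smul_inv_smul₀ n0.ne']⟩
  obtain ⟨ι, h1, h2, h3⟩ := split u hu
  have hq := nrm_comp hp ι
  have e : sec {x | p x ≤ 1} m u = k * Zc fun y => p (ι y) := by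
    rw [← H _ hq, ← ι.isometry.hausdorffMeasure_image (Or.inl (Nat.cast_nonneg m)), sec]
    congr 2
    ext x
    refine ⟨fun hx => ?_, ?_⟩
    · obtain ⟨y, rfl⟩ := h2 x hx.2
      exact ⟨y, hx.1, rfl⟩
    · rintro ⟨y, hy, rfl⟩
      exact ⟨hy, h1 y⟩
  have := hq.Zc_pos
  rw [sec_smul _ _ ha.ne', e]
  refine ⟨by positivity, ?_⟩
  have t : Tendsto (fun δ : ℝ => δ / a) (𝓝[>] 0) (𝓝[>] 0) :=
    tendsto_nhdsWithin_iff.2 ⟨by
      simpa using ((continuous_id.div_const a).tendsto 0).mono_left nhdsWithin_le_nhds,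
      eventually_mem_nhdsWithin.mono fun δ hδ => div_pos hδ ha⟩
  simp only [A0_smul ha]
  have e2 : (k * Zc p)⁻¹ * (k * Zc fun y => p (ι y)) / ‖a • u‖ =
      a⁻¹ * ((Zc fun y => p (ι y)) / Zc p) := by
    rw [norm_smul, hu, Real.norm_of_nonneg ha.le]
    field_simp
  rw [e2]
  exact ((lim_unit hp hu ι h1 h3).comp t).const_mul a⁻¹

/-- A pointwise limit of the convex functions `b / A0` is continuous. -/
theorem cont_of_lim (hB : BallStmt) {p h : Eu n → ℝ} {b : ℝ} (hp : Nrm p) (hb : 0 < b)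
    (h0 : h 0 = 0) (h1 : ∀ ξ, ξ ≠ 0 → 0 < h ξ)
    (h2 : ∀ ξ, ξ ≠ 0 → Tendsto (fun δ => A0 p δ ξ) (𝓝[>] 0) (𝓝 (b / h ξ))) : Continuous h := by
  have t : ∀ ξ, Tendsto (fun δ => (A0 p δ ξ)⁻¹) (𝓝[>] 0) (𝓝 (h ξ / b)) := fun ξ => by
    rcases eq_or_ne ξ 0 with rfl | hξ
    · have : Continuous fun δ : ℝ => √(2 * π) * δ := by fun_prop
      simpa [hp.A0_zero, h0, mul_comm] using (this.tendsto 0).mono_left nhdsWithin_le_nhds
    · simpa using (h2 ξ hξ).inv₀ (div_pos hb (h1 ξ hξ)).ne'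
  have c : ConvexOn ℝ univ fun ξ => h ξ / b := ⟨convex_univ, fun x _ y _ s r hs hr e =>
    le_of_tendsto_of_tendsto (t _) (((t x).const_smul s).add ((t y).const_smul r))
      (eventually_mem_nhdsWithin.mono fun δ hδ =>
        (hB n p δ hp hδ).2 (mem_univ x) (mem_univ y) hs hr e)⟩
  have := (continuousOn_univ.1 (c.continuousOn isOpen_univ)).mul_const b
  simpa [hb.ne'] using this

end Bridge

open Bridge in
theorem bridge (hB : BallStmt) : BridgeStmt := by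
  intro n hn K k1 k2 k3 k4 ⟨c, hc, hK⟩
  obtain ⟨m, rfl⟩ : ∃ m, n = m + 1 := ⟨n - 1, by omega⟩
  obtain ⟨hp, e⟩ := gauge_nrm k1 k2 k3 k4
  generalize gauge K = p at hp e
  obtain ⟨κ, hκ, H⟩ := lim_sec (by omega) hp
  rw [← e] at H
  rw [Nat.cast_succ, add_sub_cancel_right] at hK
  have mem : ∀ y, y ∈ K ↔ ∀ x, ‖x‖ ≤ sec K m x → ⟪x, y⟫ ≤ c := fun y => by
    nth_rewrite 1 [hK]
    rw [mem_smul_set_iff_inv_smul_mem₀ hc.ne']
    refine forall₂_congr fun x _ => ?_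
    rw [real_inner_smul_right, inv_mul_le_iff₀ hc, mul_one]
  have h0 : c * ‖(0 : Eu (m + 1))‖ / sec K m 0 = 0 := by simp
  have h1 : ∀ ξ, ξ ≠ 0 → 0 < c * ‖ξ‖ / sec K m ξ := fun ξ hξ => by
    have := (H ξ hξ).1
    positivity
  have h2 : ∀ ξ, ξ ≠ 0 → Tendsto (fun δ => A0 p δ ξ) (𝓝[>] 0)
      (𝓝 (κ * c / (c * ‖ξ‖ / sec K m ξ))) := fun ξ hξ => by
    convert (H ξ hξ).2 using 2
    have := (H ξ hξ).1
    have := norm_pos_iff.2 hξ
    field_simp
  have h3 : ∀ y ∈ K, ∀ ξ, ⟪y, ξ⟫ ≤ c * ‖ξ‖ / sec K m ξ := fun y hy ξ => by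
    rcases eq_or_ne ξ 0 with rfl | hξ
    · simp
    have a := (H ξ hξ).1
    have b := norm_pos_iff.2 hξ
    have d : 0 < sec K m ξ / ‖ξ‖ := by positivity
    have := (mem y).1 hy ((sec K m ξ / ‖ξ‖) • ξ) (by
      rw [sec_smul _ _ d.ne', norm_smul, Real.norm_of_nonneg d.le, div_mul_cancel₀ _ b.ne'])
    rw [real_inner_smul_left, real_inner_comm, div_mul_eq_mul_div, div_le_iff₀ b] at this
    rw [le_div_iff₀ a]
    linarith
  refine ⟨p, fun ξ => c * ‖ξ‖ / sec K m ξ, κ * c, ⟨hp,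
    cont_of_lim hB hp (by positivity) h0 h1 h2, fun a ξ => ?_, h1, fun x ξ => ?_,
    fun y hy => ?_, by positivity, h2⟩, e⟩
  · rcases eq_or_ne a 0 with rfl | ha
    · simp
    · rw [sec_smul _ _ ha, norm_smul, Real.norm_eq_abs]; ring
  · rcases eq_or_ne x 0 with rfl | hx
    · simp [hp.zero]
    have a := hp.pos hx
    have := h3 ((p x)⁻¹ • x) (by
      rw [e, mem_ofPred_eq, hp.smul_nonneg (inv_pos.2 a).le, inv_mul_cancel₀ a.ne']) ξ
    rwa [real_inner_smul_left, inv_mul_le_iff₀ a] at this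
  · have : y ∈ K := (mem y).2 fun x hx => by
      rcases eq_or_ne x 0 with rfl | h
      · simpa using hc.le
      have a := (H x h).1
      have := hy x
      rw [real_inner_comm]
      refine this.trans ?_
      rw [div_le_iff₀ a]
      exact mul_le_mul_of_nonneg_left hx hc.le
    rwa [e] at this

end Pool.Agent.MP_2a44fd_gt.hd

end MrgPart1

-- ======== part 2: formerly Pool.Agent.MP_2a44fd_gt.hd.Iso
section MrgPart2

/-!
PROJECT BP5HD, module ISO: the isotropic position.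
-/

set_option autoImplicit false

open MeasureTheory Real Set Filter Topology
open scoped RealInnerProductSpace ENNReal

namespace Pool.Agent.MP_2a44fd_gt.hd

namespace Iso

variable {n : ℕ} {p h : Eu n → ℝ} {b : ℝ}

/-- Hensley bounds in the limit. -/
theorem hens (hL : LCStmt) (H : BP p h b) (ξ : Eu n) :
    h ξ ^ 2 ≤ 32 * (b ^ 2 * ∫ x, ⟪x, ξ⟫ ^ 2 ∂mu p) ∧
      b ^ 2 * ∫ x, ⟪x, ξ⟫ ^ 2 ∂mu p ≤ 168 * h ξ ^ 2 := by
  rcases eq_or_ne ξ 0 with rfl | hξ
  · simp [H.h_zero]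
  have h0 := H.hpos ξ hξ
  have h1 : Tendsto (fun δ : ℝ => δ ^ 2) (𝓝[>] 0) (𝓝 (0 ^ 2)) :=
    ((continuous_pow 2).tendsto 0).mono_left nhdsWithin_le_nhds
  have h2 := ((H.lim ξ hξ).pow 2).mul (h1.const_add (∫ x, ⟪x, ξ⟫ ^ 2 ∂mu p))
  have h3 := ge_of_tendsto h2
    (eventually_mem_nhdsWithin.mono fun δ hδ => (hL n p δ ξ H.nrm hδ).1)
  have h4 := le_of_tendsto h2
    (eventually_mem_nhdsWithin.mono fun δ hδ => (hL n p δ ξ H.nrm hδ).2.1)
  rw [div_pow, div_mul_eq_mul_div, zero_pow two_ne_zero, add_zero] at h3 h4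
  rw [le_div_iff₀ (by positivity)] at h3
  rw [div_le_iff₀ (by positivity)] at h4
  exact ⟨by linarith, h4⟩

theorem int2 (hp : Nrm p) (ξ ζ : Eu n) : Integrable (fun x => ⟪x, ξ⟫ * ⟪x, ζ⟫) (mu p) :=
  ((hp.int_inner_pow ξ 2).add (hp.int_inner_pow ζ 2)).mono' (by fun_prop)
    (Eventually.of_forall fun x => by
      rw [Real.norm_eq_abs, abs_le, Pi.add_apply]
      constructor <;> nlinarith [sq_nonneg (⟪x, ξ⟫ + ⟪x, ζ⟫), sq_nonneg (⟪x, ξ⟫ - ⟪x, ζ⟫)])

/-- The covariance form. -/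
noncomputable def cov (hp : Nrm p) : LinearMap.BilinForm ℝ (Eu n) :=
  LinearMap.mk₂ ℝ (fun ξ ζ => ∫ x, ⟪x, ξ⟫ * ⟪x, ζ⟫ ∂mu p)
    (fun ξ ξ' ζ => by
      simp only [inner_add_right, add_mul]; exact integral_add (int2 hp _ _) (int2 hp _ _))
    (fun c ξ ζ => by simp only [inner_smul_right, mul_assoc, integral_const_mul, smul_eq_mul])
    (fun ξ ζ ζ' => by
      simp only [inner_add_right, mul_add]; exact integral_add (int2 hp _ _) (int2 hp _ _))
    fun c ξ ζ => by simp only [inner_smul_right, mul_left_comm _ c, integral_const_mul, smul_eq_mul]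

theorem cov_apply (hp : Nrm p) (ξ ζ : Eu n) : cov hp ξ ζ = ∫ x, ⟪x, ξ⟫ * ⟪x, ζ⟫ ∂mu p := rfl

theorem cov_self (hp : Nrm p) (ξ : Eu n) : cov hp ξ ξ = ∫ x, ⟪x, ξ⟫ ^ 2 ∂mu p := by
  simp only [cov_apply, sq]

/-- A positive definite symmetric form is the Euclidean form after a linear change. -/
theorem diag (B : LinearMap.BilinForm ℝ (Eu n)) (hs : ∀ ξ ζ, B ξ ζ = B ζ ξ)
    (hpos : ∀ ξ, ξ ≠ 0 → 0 < B ξ ξ) :
    ∃ T : Eu n ≃L[ℝ] Eu n, ∀ ξ, B (tp T ξ) (tp T ξ) = ‖ξ‖ ^ 2 := by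
  obtain ⟨v0, hv0⟩ := LinearMap.BilinForm.exists_orthogonal_basis (B := B) ⟨hs⟩
  let e : Fin (Module.finrank ℝ (Eu n)) ≃ Fin n := finCongr finrank_euclideanSpace_fin
  let v := v0.reindex e
  have hv : ∀ i j, i ≠ j → B (v i) (v j) = 0 := fun i j hij => by
    simp only [v, Module.Basis.reindex_apply]
    exact hv0 (e.symm.injective.ne hij)
  have hr : ∀ i, 0 < √(B (v i) (v i)) := fun i => sqrt_pos.2 (hpos _ (v.ne_zero i))
  let w : Fin n → Eu n := fun i => (√(B (v i) (v i)))⁻¹ • v i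
  have hw : ∀ i j, B (w i) (w j) = if i = j then 1 else 0 := fun i j => by
    simp only [w, map_smul, LinearMap.smul_apply, smul_eq_mul]
    split_ifs with hij
    · subst hij
      have := hr i
      field_simp
      rw [sq_sqrt (hpos _ (v.ne_zero i)).le]
    · rw [hv i j hij, mul_zero, mul_zero]
  let L : Eu n →ₗ[ℝ] Eu n :=
    { toFun := fun x => WithLp.toLp 2 fun i => ⟪x, w i⟫
      map_add' := fun x y => by ext i; simp [inner_add_left]
      map_smul' := fun c x => by ext i; simp [inner_smul_left] }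
  have hL : Function.Injective L := fun x y hxy =>
    InnerProductSpace.ext_inner_right_basis v fun i => by
      have h1 : ⟪x, w i⟫ = ⟪y, w i⟫ := congrArg (fun z : Eu n => z i) hxy
      simp only [w, inner_smul_right] at h1
      exact mul_left_cancel₀ (inv_pos.2 (hr i)).ne' h1
  refine ⟨(LinearEquiv.ofInjectiveEndo L hL).toContinuousLinearEquiv, fun ξ => ?_⟩
  have h1 : tp (LinearEquiv.ofInjectiveEndo L hL).toContinuousLinearEquiv ξ = ∑ i, ξ i • w i :=
    ext_inner_left ℝ fun x => by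
      rw [inner_tp, inner_eq_sum, inner_sum]
      exact Finset.sum_congr rfl fun i _ => by rw [inner_smul_right, mul_comm]; rfl
  rw [h1, norm_sq_eq_sum]
  simp only [map_sum, map_smul, LinearMap.sum_apply, LinearMap.smul_apply, hw, smul_eq_mul]
  simp [sq]

theorem position (hL : LCStmt) (H : BP p h b) : ∃ T : Eu n ≃L[ℝ] Eu n,
    ∀ ξ, ∫ x, ⟪x, ξ⟫ ^ 2 ∂(mu fun x => p (T.symm x)) = ‖ξ‖ ^ 2 := by
  obtain ⟨T, hT⟩ := diag (cov H.nrm) (fun ξ ζ => by simp only [cov_apply, mul_comm])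
    fun ξ hξ => by
      have h1 := (hens hL H ξ).1
      have h2 := pow_pos (H.hpos ξ hξ) 2
      rw [cov_self]
      have h3 : 0 < b ^ 2 * ∫ x, ⟪x, ξ⟫ ^ 2 ∂mu p := by linarith
      exact (mul_pos_iff_of_pos_left (pow_pos H.bpos 2)).1 h3
  refine ⟨T, fun ξ => ?_⟩
  rw [H.nrm.integral_gl, ← hT, cov_self]
  simp only [inner_tp]

theorem cmp (hL : LCStmt) (H : BP p h b) (hiso : ∀ ξ, ∫ x, ⟪x, ξ⟫ ^ 2 ∂mu p = ‖ξ‖ ^ 2)
    {D : ℝ} (hD : 1 ≤ D) (hn : 1 ≤ n) (h1 : ∫ x, p x ^ 2 ∂mu p ≤ D * n)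
    (h2 : (mu p).real {x | p x ^ 2 ≤ n / 2} ≤ 1 / 2) : Cmp (156 * D) p h b := by
  have hb := H.bpos
  have hp := H.nrm
  have := hp.prob
  have hn' : (0 : ℝ) < n := by exact_mod_cast hn
  have a1 : ∀ ξ, h ξ ≤ 6 * b * ‖ξ‖ := fun ξ => by
    have := (hens hL H ξ).1
    rw [hiso] at this
    exact le_of_sq_le_sq (by nlinarith [sq_nonneg (b * ‖ξ‖)]) (by positivity)
  have a2 : ∀ ξ, b * ‖ξ‖ ≤ 13 * h ξ := fun ξ => by
    have := (hens hL H ξ).2
    rw [hiso] at this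
    have h0 := H.h_nonneg ξ
    exact le_of_sq_le_sq (by nlinarith [sq_nonneg (h ξ)]) (by positivity)
  have a3 : ∀ x, ‖x‖ ≤ 6 * b * p x := fun x => by
    rcases eq_or_ne x 0 with rfl | hx
    · simp [hp.zero]
    have h3 := (H.d1 x x).trans (mul_le_mul_of_nonneg_left (a1 x) (hp.nonneg x))
    rw [real_inner_self_eq_norm_sq] at h3
    exact le_of_mul_le_mul_right (by nlinarith) (norm_pos_iff.2 hx)
  have a4 : ∀ x, b * p x ≤ 13 * ‖x‖ := fun x => by
    rcases eq_or_ne x 0 with rfl | hx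
    · simp [hp.zero]
    have h0 := norm_pos_iff.2 hx
    have h3 := H.d2 ((b / (13 * ‖x‖)) • x) fun ζ => by
      rw [real_inner_smul_left, div_mul_eq_mul_div, div_le_iff₀ (by positivity)]
      have h4 := mul_le_mul_of_nonneg_left (real_inner_le_norm x ζ) hb.le
      have h5 := mul_le_mul_of_nonneg_left (a2 ζ) h0.le
      linarith
    rwa [hp.smul_nonneg (by positivity), div_mul_eq_mul_div, div_le_one (by positivity)] at h3
  have a5 : ∫ x, ‖x‖ ^ 2 ∂mu p = n := by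
    have h3 : ∀ x : Eu n, ‖x‖ ^ 2 = ∑ i, ⟪x, EuclideanSpace.single i (1 : ℝ)⟫ ^ 2 := fun x => by
      simp [norm_sq_eq_sum, EuclideanSpace.inner_single_right]
    simp only [h3]
    rw [integral_finsetSum _ fun i _ => hp.int_inner_pow _ 2]
    simp [hiso]
  have ip : Integrable (fun x => p x ^ 2) (mu p) := by
    refine ((hp.int_norm_pow 2).const_mul ((13 / b) ^ 2)).mono'
      (hp.cont.pow 2).aestronglyMeasurable (Eventually.of_forall fun x => ?_)
    rw [Real.norm_eq_abs, abs_of_nonneg (sq_nonneg _), ← mul_pow]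
    refine pow_le_pow_left₀ (hp.nonneg x) ?_ 2
    rw [div_mul_eq_mul_div, le_div_iff₀' hb]
    exact a4 x
  have b1 : 1 ≤ 6 * D * b := by
    have h3 : ∫ x, ‖x‖ ^ 2 ∂mu p ≤ ∫ x, (6 * b) ^ 2 * p x ^ 2 ∂mu p :=
      integral_mono (hp.int_norm_pow 2) (ip.const_mul _) fun x => by
        simp only [← mul_pow]; exact pow_le_pow_left₀ (norm_nonneg _) (a3 x) 2
    rw [a5, integral_const_mul] at h3
    have h4 := h3.trans (mul_le_mul_of_nonneg_left h1 (sq_nonneg _))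
    have h5 : 1 ≤ (6 * b) ^ 2 * D := le_of_mul_le_mul_right (by linarith) hn'
    have h6 : (6 * b) ^ 2 * D * 1 ≤ (6 * b) ^ 2 * D * D :=
      mul_le_mul_of_nonneg_left hD (by positivity)
    exact le_of_sq_le_sq (by nlinarith) (by positivity)
  have b2 : b ≤ 26 := by
    have h3 : ∫ x, b ^ 2 * p x ^ 2 ∂mu p ≤ ∫ x, 13 ^ 2 * ‖x‖ ^ 2 ∂mu p :=
      integral_mono (ip.const_mul _) ((hp.int_norm_pow 2).const_mul _) fun x => by
        simp only [← mul_pow]; exact pow_le_pow_left₀ (mul_nonneg hb.le (hp.nonneg x)) (a4 x) 2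
    rw [integral_const_mul, integral_const_mul, a5] at h3
    have h4 := mul_meas_ge_le_integral_of_nonneg (Eventually.of_forall fun x => sq_nonneg (p x))
      ip (n / 2)
    have h5 : (mu p).real univ ≤
        (mu p).real {x | p x ^ 2 ≤ n / 2} + (mu p).real {x | (n : ℝ) / 2 ≤ p x ^ 2} :=
      le_trans (measureReal_mono fun x _ => (le_total (p x ^ 2) (n / 2)).imp id id)
        (measureReal_union_le _ _)
    rw [probReal_univ] at h5
    have h9 := mul_le_mul_of_nonneg_left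
      (by linarith : 1 / 2 ≤ (mu p).real {x | (n : ℝ) / 2 ≤ p x ^ 2}) (half_pos hn').le
    have h6 : (n : ℝ) / 4 ≤ ∫ x, p x ^ 2 ∂mu p := by linarith
    have h7 := (mul_le_mul_of_nonneg_left h6 (sq_nonneg b)).trans h3
    have h8 : b ^ 2 ≤ 26 ^ 2 := le_of_mul_le_mul_right (by linarith) hn'
    exact le_of_sq_le_sq h8 (by norm_num)
  refine ⟨H, fun ξ => ?_, fun ξ => (a1 ξ).trans (mul_le_mul_of_nonneg_right (by linarith)
    (norm_nonneg _)), by nlinarith, by linarith⟩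
  have h3 := mul_le_mul_of_nonneg_right b1 (norm_nonneg ξ)
  have h4 := mul_le_mul_of_nonneg_left (a2 ξ) (by positivity : 0 ≤ 6 * D)
  have h5 : 0 ≤ D * h ξ := mul_nonneg (by positivity) (H.h_nonneg ξ)
  linarith

end Iso

theorem iso (hL : LCStmt) (hT : TailStmt) (hP : PmomStmt) : IsoStmt := by
  obtain ⟨c, hc, hT⟩ := hT (1 / 2) (by norm_num)
  obtain ⟨C, hP⟩ := hP 1
  refine ⟨156 * max C 1, ⌈1 / c⌉₊ + 1, by linarith [le_max_right C 1], fun n hn p h b H => ?_⟩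
  obtain ⟨T, hiso⟩ := Iso.position hL H
  have H' := H.gl T
  refine ⟨T, _, Iso.cmp hL H' hiso (le_max_right _ _) (by omega) ?_ ?_⟩
  · have h1 := hP n (by omega) _ H'.nrm
    rw [mul_one, pow_one] at h1
    exact h1.trans (mul_le_mul_of_nonneg_right (le_max_left _ _) (Nat.cast_nonneg _))
  · have h1 := (hT n _ H'.nrm).1
    rw [show (1 - 1 / 2 : ℝ) * n = n / 2 by ring] at h1
    have h2 : 1 / c ≤ n := (Nat.le_ceil _).trans (by exact_mod_cast (by omega : ⌈1 / c⌉₊ ≤ n))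
    rw [div_le_iff₀' hc] at h2
    refine h1.trans ?_
    rw [exp_neg, one_div]
    exact inv_anti₀ two_pos (by linarith [add_one_le_exp (c * n)])

end Pool.Agent.MP_2a44fd_gt.hd

end MrgPart2

-- ======== part 3: formerly Pool.Agent.MP_2a44fd_gt.hd.Gau
section MrgPart3

/-!
PROJECT BP5HD, module GAU: Gaussian integration by parts, fourth moments, symmetry.
-/

set_option autoImplicit false

open MeasureTheory Real Set Filter Topology
open scoped RealInnerProductSpace ENNReal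

namespace Pool.Agent.MP_2a44fd_gt.hd

namespace Gau

variable {n : ℕ}

theorem line_inner (x v a : Eu n) : HasDerivAt (fun t : ℝ => ⟪x + t • v, a⟫) ⟪v, a⟫ 0 := by
  simp only [inner_add_left, real_inner_smul_left]
  simpa using ((hasDerivAt_id (0 : ℝ)).mul_const ⟪v, a⟫).const_add ⟪x, a⟫

theorem line_weight (Z : ℝ) (x v : Eu n) :
    HasLineDerivAt ℝ (fun x : Eu n => exp (-(‖x‖ ^ 2 / 2)) / Z)
      (-(exp (-(‖x‖ ^ 2 / 2)) / Z * ⟪x, v⟫)) x v := by
  have e : ∀ t : ℝ, ‖x + t • v‖ ^ 2 = ‖x‖ ^ 2 + 2 * (t * ⟪x, v⟫) + t ^ 2 * ‖v‖ ^ 2 := fun t => by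
    rw [norm_add_sq_real, real_inner_smul_right, norm_smul, mul_pow, Real.norm_eq_abs, sq_abs]
  have h1 : HasDerivAt (fun t : ℝ => ‖x‖ ^ 2 + 2 * (t * ⟪x, v⟫) + t ^ 2 * ‖v‖ ^ 2)
      (2 * ⟪x, v⟫) 0 := by
    have := ((((hasDerivAt_id (0 : ℝ)).mul_const ⟪x, v⟫).const_mul 2).const_add (‖x‖ ^ 2)).add
      (((hasDerivAt_id (0 : ℝ)).pow 2).mul_const (‖v‖ ^ 2))
    refine this.congr_deriv ?_
    simp
  have h2 := ((h1.div_const 2).neg.exp).div_const Z
  unfold HasLineDerivAt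
  simp only [e]
  refine h2.congr_deriv ?_
  simp only [Pi.neg_apply]
  ring_nf

/-- Gaussian integration by parts along a line. -/
theorem stein_line (f f' : Eu n → ℝ) (v : Eu n) (hf : ∀ x, HasLineDerivAt ℝ f (f' x) x v)
    (i1 : Integrable f (gam n)) (i2 : Integrable (fun x => ⟪x, v⟫ * f x) (gam n))
    (i3 : Integrable f' (gam n)) : ∫ x, f' x ∂gam n = ∫ x, ⟪x, v⟫ * f x ∂gam n := by
  rw [gam, nrm_norm.integrable_mu] at i1 i2 i3
  rw [gam, nrm_norm.integral_mu, nrm_norm.integral_mu]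
  have key := integral_bilinear_hasLineDerivAt_right_eq_neg_left_of_integrable
    (μ := (volume : Measure (Eu n))) (B := ContinuousLinearMap.mul ℝ ℝ) (v := v)
    (f := fun x : Eu n => exp (-(‖x‖ ^ 2 / 2)) / Zc fun x : Eu n => ‖x‖)
    (f' := fun x : Eu n => -(exp (-(‖x‖ ^ 2 / 2)) / (Zc fun x : Eu n => ‖x‖) * ⟪x, v⟫))
    (g := f) (g' := f') (by simpa only [ContinuousLinearMap.mul_apply', neg_mul, mul_assoc]
      using i2.fun_neg) i3 i1 (fun x _ => line_weight _ x v) fun x _ => hf x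
  simp only [ContinuousLinearMap.mul_apply', neg_mul, integral_neg, neg_neg, mul_assoc] at key
  exact key

/-- Mixed moments. -/
noncomputable def M (a b : Eu n) (i j : ℕ) : ℝ := ∫ x, ⟪x, a⟫ ^ i * ⟪x, b⟫ ^ j ∂gam n

theorem int_M (a b : Eu n) (i j : ℕ) :
    Integrable (fun x : Eu n => ⟪x, a⟫ ^ i * ⟪x, b⟫ ^ j) (gam n) :=
  nrm_norm.int_of_poly (by fun_prop) (‖a‖ ^ i * ‖b‖ ^ j) (i + j) fun x => by
    have h : ∀ v : Eu n, |⟪x, v⟫| ≤ ‖v‖ * (1 + ‖x‖) := fun v =>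
      (abs_real_inner_le_norm x v).trans (by nlinarith [norm_nonneg v, norm_nonneg x])
    rw [abs_mul, abs_pow, abs_pow, pow_add, mul_mul_mul_comm, ← mul_pow, ← mul_pow]
    exact mul_le_mul (pow_le_pow_left₀ (abs_nonneg _) (h a) i)
      (pow_le_pow_left₀ (abs_nonneg _) (h b) j) (by positivity) (by positivity)

theorem M_comm (a b : Eu n) (i j : ℕ) : M a b i j = M b a j i := by
  simp only [M, mul_comm]

theorem M_zero (a b : Eu n) : M a b 0 0 = 1 := by simp [M]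

theorem M_succ {a : Eu n} (ha : ‖a‖ = 1) (b : Eu n) (i j : ℕ) :
    M a b (i + 1) j = i * M a b (i - 1) j + j * ⟪a, b⟫ * M a b i (j - 1) := by
  have h1 := (int_M a b (i - 1) j).const_mul (i : ℝ)
  have h2 := (int_M a b i (j - 1)).const_mul ((j : ℝ) * ⟪a, b⟫)
  have e : (fun x : Eu n => ⟪x, a⟫ * (⟪x, a⟫ ^ i * ⟪x, b⟫ ^ j)) =
      fun x => ⟪x, a⟫ ^ (i + 1) * ⟪x, b⟫ ^ j := funext fun x => by ring
  have key := stein_line (fun x => ⟪x, a⟫ ^ i * ⟪x, b⟫ ^ j)
    (fun x => i * (⟪x, a⟫ ^ (i - 1) * ⟪x, b⟫ ^ j) + j * ⟪a, b⟫ * (⟪x, a⟫ ^ i * ⟪x, b⟫ ^ (j - 1)))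
    a (fun x => ?_) (int_M a b i j) (by rw [e]; exact int_M a b (i + 1) j) (h1.add h2)
  · rw [e, integral_add h1 h2, integral_const_mul, integral_const_mul] at key
    exact key.symm
  · refine (((line_inner x a a).pow i).mul ((line_inner x a b).pow j)).congr_deriv ?_
    simp only [Pi.pow_apply, zero_smul, add_zero, real_inner_self_eq_norm_sq, ha]
    ring

theorem M_two {a : Eu n} (ha : ‖a‖ = 1) (b : Eu n) : M a b 2 0 = 1 := by
  simpa [M_zero] using M_succ ha b 1 0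

theorem M_four {a : Eu n} (ha : ‖a‖ = 1) (b : Eu n) : M a b 4 0 = 3 := by
  simpa [M_two ha] using M_succ ha b 3 0

/-- Reflection of one coordinate. -/
noncomputable def refl1 (i : Fin n) : Eu n ≃ₗᵢ[ℝ] Eu n :=
  LinearIsometryEquiv.piLpCongrRight 2 fun k =>
    if k = i then LinearIsometryEquiv.neg ℝ else LinearIsometryEquiv.refl ℝ ℝ

theorem refl1_apply (i k : Fin n) (x : Eu n) : refl1 i x k = if k = i then -x k else x k := by
  simp only [refl1, LinearIsometryEquiv.piLpCongrRight_apply]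
  split_ifs <;> simp

theorem diag_eq (i j : Fin n) :
    ∫ x, x i * x i / ‖x‖ ^ 3 ∂gam n = ∫ x, x j * x j / ‖x‖ ^ 3 ∂gam n := by
  rw [← integral_gam_iso (LinearIsometryEquiv.piLpCongrLeft 2 ℝ ℝ (Equiv.swap i j))]
  refine integral_congr_ae (ae_of_all _ fun x => ?_)
  simp only [LinearIsometryEquiv.norm_map]
  simp

theorem int_diag (h : Integrable (fun x : Eu n => ‖x‖⁻¹) (gam n)) (k : Fin n) :
    Integrable (fun x : Eu n => x k * x k / ‖x‖ ^ 3) (gam n) := by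
  refine h.mono' (Measurable.aestronglyMeasurable (by fun_prop)) (ae_of_all _ fun x => ?_)
  rcases eq_or_ne x 0 with rfl | hx
  · simp
  have h0 : 0 < ‖x‖ := norm_pos_iff.2 hx
  have h1 : x k * x k ≤ ‖x‖ ^ 2 := by
    have := pow_le_pow_left₀ (abs_nonneg _) (abs_coord_le x k) 2
    rwa [sq_abs, sq] at this
  rw [Real.norm_of_nonneg (div_nonneg (mul_self_nonneg _) (by positivity)),
    div_le_iff₀ (by positivity), show ‖x‖⁻¹ * ‖x‖ ^ 3 = ‖x‖ ^ 2 by field_simp]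
  exact h1

end Gau

theorem stein : SteinStmt := fun _ f f' v hf i1 i2 i3 =>
  Gau.stein_line f (fun x => f' x v) v (fun x => (hf x).hasLineDerivAt v) i1 i2 i3

theorem cov4 : Cov4Stmt := by
  intro n a b ha hb
  have h40 := Gau.M_four ha b
  have h02 : Gau.M a b 0 2 = 1 := by rw [Gau.M_comm, Gau.M_two hb]
  have h04 : Gau.M a b 0 4 = 3 := by rw [Gau.M_comm, Gau.M_four hb]
  have h11 := Gau.M_succ ha b 0 1
  have h13 := Gau.M_succ ha b 0 3
  have h22 := Gau.M_succ ha b 1 2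
  have h24 := Gau.M_succ ha b 1 4
  have h33 := Gau.M_succ ha b 2 3
  have h44 := Gau.M_succ ha b 3 4
  norm_num [Gau.M_zero] at h11 h13 h22 h24 h33 h44
  refine ⟨by simpa [Gau.M] using h40, ?_⟩
  change Gau.M a b 4 4 = _
  rw [h44, h33, h24, h22, h13, h11, h04, h02]
  ring

theorem sym : SymStmt := by
  intro n h i j
  split_ifs with hij
  · subst hij
    have hn : (n : ℝ) ≠ 0 := Nat.cast_ne_zero.2 i.pos.ne'
    have e : (fun x : Eu n => ‖x‖⁻¹) = fun x => ∑ k, x k * x k / ‖x‖ ^ 3 := funext fun x => by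
      rw [← Finset.sum_div, ← inner_eq_sum, real_inner_self_eq_norm_sq]
      rcases eq_or_ne ‖x‖ 0 with h0 | h0
      · simp [h0]
      · field_simp
    rw [e, integral_finsetSum _ fun k _ => Gau.int_diag h k,
      Finset.sum_congr rfl fun k _ => Gau.diag_eq k i]
    simp only [Finset.sum_const, Finset.card_univ, Fintype.card_fin, nsmul_eq_mul]
    field_simp
  · have key := integral_gam_iso (Gau.refl1 i) fun x => x i * x j / ‖x‖ ^ 3
    simp only [Gau.refl1_apply, if_true, if_neg (Ne.symm hij), LinearIsometryEquiv.norm_map,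
      neg_mul, neg_div, integral_neg] at key
    linarith

end Pool.Agent.MP_2a44fd_gt.hd

end MrgPart3

-- ======== part 4: formerly Pool.Agent.MP_2a44fd_gt.hd.Ind
section MrgPart4

/-!
PROJECT BP5HD: module IND (polar independence, Gaussian concentration, Santalo inequality).
-/

set_option autoImplicit false

open MeasureTheory Real Set Filter Topology
open scoped RealInnerProductSpace ENNReal

namespace Pool.Agent.MP_2a44fd_gt.hd

namespace Ind

theorem polar {E : Type*} [NormedAddCommGroup E] [NormedSpace ℝ E] [MeasurableSpace E]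
    [Nontrivial E] (μ : Measure E) [FiniteDimensional ℝ E] [BorelSpace E] [μ.IsAddHaarMeasure]
    {a : E → ℝ} (ha : ∀ c : ℝ, 0 < c → ∀ x, a (c • x) = a x) (k : ℝ → ℝ) :
    ∫ x, a x * k ‖x‖ ∂μ = (∫ u, a u ∂μ.toSphere) *
      ∫ r : Ioi (0 : ℝ), k r ∂Measure.volumeIoiPow (Module.finrank ℝ E - 1) := by
  rw [← integral_prod_mul (fun u : Metric.sphere (0 : E) 1 => a u) fun r : Ioi (0 : ℝ) => k r,
    ← μ.measurePreserving_homeomorphUnitSphereProd.integral_comp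
      (Homeomorph.measurableEmbedding _), ← restrict_compl_singleton (μ := μ) 0,
    ← integral_subtype_comap (measurableSet_singleton _).compl, restrict_compl_singleton]
  refine integral_congr_ae (Eventually.of_forall fun x => ?_)
  simp only [homeomorphUnitSphereProd_apply_fst_coe, homeomorphUnitSphereProd_apply_snd_coe]
  rw [ha _ (inv_pos.2 (norm_pos_iff.2 x.2))]

theorem half {A B : ℝ} (hA : 0 ≤ A) (hB : 0 ≤ B) :
    ENNReal.ofReal A ^ (1 - 1 / 2 : ℝ) * ENNReal.ofReal B ^ (1 / 2 : ℝ) =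
      ENNReal.ofReal √(A * B) := by
  rw [show (1 - 1 / 2 : ℝ) = 1 / 2 by norm_num, ← ENNReal.mul_rpow_of_nonneg _ _ (by norm_num),
    ← ENNReal.ofReal_mul hA, ENNReal.ofReal_rpow_of_nonneg (mul_nonneg hA hB) (by norm_num),
    sqrt_eq_rpow]

theorem jensen {α : Type*} [MeasurableSpace α] {μ : Measure α} [IsProbabilityMeasure μ]
    {f : α → ℝ} (h1 : Integrable f μ) (h2 : Integrable (fun x => exp (f x)) μ) :
    exp (∫ x, f x ∂μ) ≤ ∫ x, exp (f x) ∂μ := by
  set c := ∫ x, f x ∂μ with hc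
  have i : Integrable (fun x => f x - c + 1) μ := (h1.sub (integrable_const _)).add
    (integrable_const _)
  have e : ∫ x, exp c * (f x - c + 1) ∂μ = exp c := by
    have i1 : Integrable (fun x => f x - c) μ := h1.sub (integrable_const _)
    rw [integral_const_mul, integral_add i1 (integrable_const _),
      integral_sub h1 (integrable_const _)]
    simp [hc]
  rw [← e]
  refine integral_mono (i.const_mul _) h2 fun x => ?_
  have := mul_le_mul_of_nonneg_left (add_one_le_exp (f x - c)) (exp_pos c).le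
  rwa [← exp_add, add_sub_cancel] at this

theorem mgf_le (hP : PLStmt) {n : ℕ} {f : Eu n → ℝ} {L : ℝ} (hL : 0 < L)
    (hf : ∀ x y, |f x - f y| ≤ L * ‖x - y‖) (h0 : ∫ x, f x ∂gam n = 0) (s : ℝ) :
    Integrable (fun x => exp (s * f x)) (gam n) ∧
      ∫ x, exp (s * f x) ∂gam n ≤ exp (s ^ 2 * L ^ 2) := by
  have cf : Continuous f := (LipschitzWith.of_dist_le_mul (K := ⟨L, hL.le⟩) fun x y => by
    rw [Real.dist_eq, dist_eq_norm]; exact hf x y).continuous
  have bf : ∀ x, |f x| ≤ |f 0| + L * ‖x‖ := fun x => by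
    have := hf x 0
    rw [sub_zero] at this
    linarith [abs_sub_abs_le_abs_sub (f x) (f 0)]
  have ie : ∀ s : ℝ, Integrable (fun x => exp (s * f x)) (gam n) := fun s =>
    nrm_norm.int_of_exp (by fun_prop) (exp (|s| * |f 0|)) (|s| * L) fun x => by
      rw [abs_of_pos (exp_pos _), ← exp_add]
      refine exp_le_exp.2 ((le_abs_self _).trans ?_)
      rw [abs_mul, mul_assoc, ← mul_add]
      exact mul_le_mul_of_nonneg_left (bf x) (abs_nonneg s)
  have i0 : Integrable f (gam n) := nrm_norm.int_of_poly (by fun_prop) (|f 0| + L) 1 fun x => by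
    nlinarith [bf x, abs_nonneg (f 0), norm_nonneg x]
  refine ⟨ie s, ?_⟩
  have hZ := (nrm_norm (n := n)).Zc_pos
  set Z := Zc fun x : Eu n => ‖x‖
  have l : ∀ φ : Eu n → ℝ, Continuous φ → (∀ x, 0 ≤ φ x) → Integrable φ (gam n) →
      ∫⁻ x, ENNReal.ofReal (exp (-(‖x‖ ^ 2 / 2)) / Z * φ x) =
        ENNReal.ofReal (∫ x, φ x ∂gam n) := fun φ _ φ0 iφ => by
    rw [gam, nrm_norm.integral_mu, ofReal_integral_eq_lintegral_ofReal
      ((nrm_norm.integrable_mu φ).1 iφ) (Eventually.of_forall fun x => by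
        have := φ0 x
        positivity)]
  have k := hP n (fun x => ENNReal.ofReal (exp (-(‖x‖ ^ 2 / 2)) / Z *
      (exp (-(s ^ 2 * L ^ 2)) * exp (s * f x))))
    (fun x => ENNReal.ofReal (exp (-(‖x‖ ^ 2 / 2)) / Z * exp (-s * f x)))
    (fun x => ENNReal.ofReal (exp (-(‖x‖ ^ 2 / 2)) / Z * 1)) (1 / 2) (by norm_num) (by norm_num)
    (by fun_prop) (by fun_prop) (by fun_prop) fun x y => by
      rw [half (by positivity) (by positivity)]
      refine ENNReal.ofReal_le_ofReal (sqrt_le_iff.2 ⟨by positivity, ?_⟩)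
      have e1 : exp (-(‖x‖ ^ 2 / 2)) / Z * (exp (-(s ^ 2 * L ^ 2)) * exp (s * f x)) *
          (exp (-(‖y‖ ^ 2 / 2)) / Z * exp (-s * f y)) =
          exp (-(‖x‖ ^ 2 / 2) + -(s ^ 2 * L ^ 2) + s * f x + -(‖y‖ ^ 2 / 2) + -s * f y) / Z ^ 2 := by
        simp only [exp_add]
        ring
      rw [e1, mul_one, div_pow, ← exp_nat_mul, show (1 - 1 / 2 : ℝ) = 1 / 2 by norm_num,
        ← smul_add, norm_smul]
      gcongr
      have a1 := parallelogram_law_with_norm ℝ x y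
      have a2 : s * (f x - f y) ≤ |s| * (L * ‖x - y‖) := (le_abs_self _).trans (by
        rw [abs_mul]; exact mul_le_mul_of_nonneg_left (hf x y) (abs_nonneg s))
      rw [Real.norm_of_nonneg (by norm_num)]
      push_cast
      nlinarith [sq_nonneg (|s| * L - ‖x - y‖ / 2), sq_abs s]
  rw [l _ (by fun_prop) (fun x => by positivity) ((ie s).const_mul _),
    l _ (by fun_prop) (fun x => by positivity) (ie (-s)),
    l _ continuous_const (fun x => zero_le_one) (integrable_const _),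
    half (integral_nonneg fun x => by positivity) (integral_nonneg fun x => by positivity),
    ENNReal.ofReal_le_ofReal_iff (by simp), integral_const_mul] at k
  simp only [integral_const, probReal_univ, smul_eq_mul, mul_one, sqrt_le_one] at k
  have j := jensen (i0.const_mul (-s)) (ie (-s))
  rw [integral_const_mul, h0, mul_zero, exp_zero] at j
  have p0 : 0 ≤ exp (-(s ^ 2 * L ^ 2)) * ∫ x, exp (s * f x) ∂gam n :=
    mul_nonneg (exp_pos _).le (integral_nonneg fun x => by positivity)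
  have k2 := (le_mul_of_one_le_right p0 j).trans k
  rwa [exp_neg, inv_mul_le_iff₀ (exp_pos _), mul_one] at k2

theorem one_side (hP : PLStmt) {n : ℕ} {f : Eu n → ℝ} {L t : ℝ} (hL : 0 < L) (ht : 0 ≤ t)
    (hf : ∀ x y, |f x - f y| ≤ L * ‖x - y‖) (h0 : ∫ x, f x ∂gam n = 0) :
    (gam n).real {x | t ≤ f x} ≤ exp (-(t ^ 2 / (4 * L ^ 2))) := by
  obtain ⟨k1, k2⟩ := mgf_le hP hL hf h0 (t / (2 * L ^ 2))
  refine (ProbabilityTheory.measure_ge_le_exp_mul_mgf t (by positivity) k1).trans ?_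
  refine (mul_le_mul_of_nonneg_left k2 (exp_pos _).le).trans (le_of_eq ?_)
  rw [← exp_add]
  congr 1
  field_simp
  ring

end Ind

open Ind

theorem indep : IndepStmt := by
  intro n hn a g _ _ _ ha _
  have : Nontrivial (Eu n) := by
    have : Nonempty (Fin n) := ⟨⟨0, hn⟩⟩
    infer_instance
  set w : ℝ → ℝ := fun r => exp (-(r ^ 2 / 2)) / Zc fun x : Eu n => ‖x‖ with hw
  have k : ∀ (a : Eu n → ℝ) (g : ℝ → ℝ), (∀ c : ℝ, 0 < c → ∀ x, a (c • x) = a x) →
      ∫ x, a x * g ‖x‖ ∂gam n = (∫ u, a u ∂(volume : Measure (Eu n)).toSphere) *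
        ∫ r : Ioi (0 : ℝ), w r * g r ∂Measure.volumeIoiPow (Module.finrank ℝ (Eu n) - 1) :=
    fun a g ha => by
      rw [← polar volume ha fun r => w r * g r, gam, nrm_norm.integral_mu]
      exact integral_congr_ae (Eventually.of_forall fun x => by simp only [hw]; ring)
  have k1 := k a (fun _ => 1) ha
  have k2 := k (fun _ => 1) g fun _ _ _ => rfl
  have k3 := k (fun _ => 1) (fun _ => 1) fun _ _ _ => rfl
  rw [integral_const, probReal_univ, one_smul] at k3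
  simp only [mul_one, one_mul] at k1 k2 k3
  rw [k a g ha, k1, k2]
  linear_combination (∫ u, a u ∂(volume : Measure (Eu n)).toSphere) *
    (∫ r : Ioi (0 : ℝ), w r * g r ∂Measure.volumeIoiPow (Module.finrank ℝ (Eu n) - 1)) * k3

theorem conc (hP : PLStmt) : ConcStmt := by
  intro n f L t hL ht hf h0
  have k1 := one_side hP hL ht hf h0
  have k2 := one_side hP (f := fun x => -f x) hL ht
    (fun x y => by rw [neg_sub_neg, abs_sub_comm]; exact hf x y) (by rw [integral_neg, h0, neg_zero])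
  have k3 : {x | t ≤ |f x|} = {x | t ≤ f x} ∪ {x | t ≤ -f x} :=
    Set.ext fun x => le_abs (a := t) (b := f x)
  rw [k3]
  exact (measureReal_union_le _ _).trans (by linarith)

theorem san : SanStmt := by
  intro n p h b H hi
  have hp := H.nrm
  have cp := hp.cont
  have ch := H.hcont
  have hZ := (nrm_norm (n := n)).Zc_pos
  obtain ⟨C, C0, hC⟩ := hp.upper
  have low : ∀ ξ, ‖ξ‖ ≤ C * h ξ := fun ξ => by
    have k := H.d1 ξ ξ
    have h0 := H.h_nonneg ξ
    rw [real_inner_self_eq_norm_sq] at k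
    rcases (norm_nonneg ξ).eq_or_lt with e | e
    · rw [← e]; positivity
    · nlinarith [mul_le_mul_of_nonneg_right (hC ξ) h0]
  have ih : Integrable fun x => exp (-(h x ^ 2 / 2)) := by
    refine (int_gauss (n := n) (a := 1 / (2 * C ^ 2)) (by positivity)).mono' (by fun_prop)
      (Eventually.of_forall fun x => ?_)
    rw [Real.norm_of_nonneg (exp_pos _).le]
    have k := pow_le_pow_left₀ (norm_nonneg x) (low x) 2
    gcongr
    rw [div_mul_eq_mul_div, div_le_div_iff₀ (by positivity) two_pos]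
    linarith
  have k := Pool.Agent.MP_19b6be_gt.func_bound (n := n) (P := fun x => p x ^ 2 / 2)
    (Q := fun x => h x ^ 2 / 2) (by fun_prop) (by fun_prop) (fun x y => by
      have a1 := H.d1 x y
      have a2 := H.d1 (-x) y
      rw [inner_neg_left, hp.neg] at a2
      exact abs_le.2 ⟨by nlinarith [sq_nonneg (p x - h y)], by nlinarith [sq_nonneg (p x - h y)]⟩) 0
  simp only [tanh_zero, zero_mul, add_zero, cosh_zero, mul_one, neg_add, exp_add] at k
  rw [← ofReal_integral_eq_lintegral_ofReal (hp.int_w.mul_prod ih)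
    (Eventually.of_forall fun z => by positivity),
    ENNReal.ofReal_le_ofReal_iff (by positivity), integral_prod_mul
      (fun x => exp (-(p x ^ 2 / 2))) fun x => exp (-(h x ^ 2 / 2))] at k
  have e : ∀ x : Eu n, exp (-(‖x‖ ^ 2 / 2)) / (Zc fun x : Eu n => ‖x‖) * exp (-psi h x) =
      exp (-(h x ^ 2 / 2)) / Zc fun x : Eu n => ‖x‖ := fun x => by
    rw [div_mul_eq_mul_div, ← exp_add, psi]
    ring_nf
  have j := jensen hi.neg ((nrm_norm.integrable_mu _).2 (by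
    simp only [Pi.neg_apply, e]
    exact ih.div_const _))
  simp only [Pi.neg_apply] at j
  rw [integral_neg, gam, nrm_norm.integral_mu fun x => exp (-psi h x)] at j
  simp only [e] at j
  rw [integral_div, le_div_iff₀ hZ, exp_neg] at j
  have e2 : (2 * π) ^ n = (Zc fun x : Eu n => ‖x‖) * Zc fun x : Eu n => ‖x‖ := by
    rw [Zc_norm, ← mul_pow, mul_self_sqrt (by positivity)]
  have k2 := (mul_le_mul_of_nonneg_left j hp.Zc_pos.le).trans (k.trans_eq e2)
  rw [← mul_assoc, mul_le_mul_iff_left₀ hZ, mul_inv_le_iff₀ (exp_pos _)] at k2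
  rw [mm, div_le_iff₀' hZ]
  exact k2

end Pool.Agent.MP_2a44fd_gt.hd

end MrgPart4

-- ======== part 5: formerly Pool.Agent.MP_2a44fd_gt.hd.Rem
section MrgPart5

/-!
PROJECT BP5HD: the singular remainder kernel.
-/

set_option autoImplicit false

open MeasureTheory Real Set Filter Topology
open scoped RealInnerProductSpace ENNReal

namespace Pool.Agent.MP_2a44fd_gt.hd

namespace Rem

variable {n : ℕ}

theorem w_eq (c : ℝ) (f : Eu n → ℝ) (y : Eu n) :
    exp (-(‖y‖ ^ 2 / 2)) / (Zc fun x : Eu n => ‖x‖) * (exp ((1 - c ^ 2) * ‖y‖ ^ 2 / 2) * f y) =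
      (Zc fun x : Eu n => ‖x‖)⁻¹ * (exp (-(c ^ 2 * ‖y‖ ^ 2 / 2)) * f y) := by
  rw [show -(c ^ 2 * ‖y‖ ^ 2 / 2) = -(‖y‖ ^ 2 / 2) + (1 - c ^ 2) * ‖y‖ ^ 2 / 2 by ring, exp_add]
  ring

theorem gs_int {c : ℝ} (hc : 0 < c) (f : Eu n → ℝ)
    (hf : Integrable (fun y => f (c⁻¹ • y)) (gam n)) :
    Integrable fun y : Eu n => exp (-(c ^ 2 * ‖y‖ ^ 2 / 2)) * f y := by
  have hZ := (nrm_norm (n := n)).Zc_pos
  have h1 := (nrm_norm.integrable_mu _).1 ((nrm_norm.integrable_scale hc f).2 hf)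
  simp only [w_eq] at h1
  exact (integrable_const_mul_iff (isUnit_iff_ne_zero.2 (inv_ne_zero hZ.ne')) _).1 h1

theorem gs_val {c : ℝ} (hc : 0 < c) (f : Eu n → ℝ) :
    ∫ y : Eu n, exp (-(c ^ 2 * ‖y‖ ^ 2 / 2)) * f y =
      √(2 * π) ^ n * ((c ^ n)⁻¹ * ∫ y, f (c⁻¹ • y) ∂gam n) := by
  have hZ := (nrm_norm (n := n)).Zc_pos
  have h1 := nrm_norm.integral_scale hc f
  rw [nrm_norm.integral_mu] at h1
  simp only [w_eq] at h1
  rw [integral_const_mul, inv_mul_eq_iff_eq_mul₀ hZ.ne'] at h1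
  rw [h1, Zc_norm]; rfl

theorem Zc_ge {Λ : ℝ} (hΛ : 0 < Λ) {p : Eu n → ℝ} (H : Tame Λ p) :
    √(2 * π) ^ n * (Λ ^ n)⁻¹ ≤ Zc p := by
  have h1 := gs_val (n := n) hΛ fun _ => 1
  have h2 := gs_int (n := n) hΛ (fun _ => 1) (integrable_const _)
  simp only [integral_const, probReal_univ, smul_eq_mul, mul_one] at h1 h2
  rw [← h1]
  refine integral_mono h2 H.nrm.int_w fun x => exp_le_exp.2 ?_
  have := pow_le_pow_left₀ (H.nrm.nonneg x) (H.hi x) 2
  rw [mul_pow] at this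
  linarith

/-- The pointwise bound in terms of real numbers. -/
theorem point {Λ r t w q : ℝ} (hΛ : 1 ≤ Λ) (hr : 0 < r) (hw : 0 ≤ w) (hp : r ^ 2 = t ^ 2 + w ^ 2)
    (hq : r ≤ Λ * q) :
    (t / r) ^ 6 / (1 - |t / r|) ^ 9 / r ^ 2 ≤ (8 * Λ ^ 4) ^ 9 * (|t| ^ 6 / r ^ 8) +
      2 ^ 9 * (8 * Λ ^ 2) ^ 8 * 40320 * (exp (q ^ 2 / 2) *
        (exp (-(1 / (2 * Λ ^ 2) * t ^ 2 / 2)) * (exp (-(Λ ^ 2 * w ^ 2 / 2)) * (1 / w ^ 18)))) := by
  have hΛ0 : 0 < Λ := by linarith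
  set a := 1 - |t / r| with ha
  have h1 : (t / r) ^ 2 = 1 - w ^ 2 / r ^ 2 := by field_simp; linarith
  have h2 : |t / r| ≤ 1 := by
    rw [← sq_le_one_iff_abs_le_one, h1]
    have : 0 ≤ w ^ 2 / r ^ 2 := by positivity
    linarith
  have ha0 : 0 ≤ a := by linarith
  have ha1 : a ≤ 1 := by linarith [abs_nonneg (t / r)]
  have h3 : w ^ 2 = r ^ 2 * (a * (2 - a)) := by
    have : a * (2 - a) = 1 - |t / r| ^ 2 := by rw [ha]; ring
    rw [this, sq_abs, h1]; field_simp; ring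
  have e6 : (t / r) ^ 6 / r ^ 2 = |t| ^ 6 / r ^ 8 := by
    rw [Even.pow_abs (by decide)]; field_simp
  rcases le_or_gt (1 / (8 * Λ ^ 4)) a with h | h
  · refine le_add_of_le_of_nonneg ?_ (by positivity)
    have hap : 0 < a := lt_of_lt_of_le (by positivity) h
    rw [div_right_comm, e6, div_le_iff₀ (by positivity)]
    rw [div_le_iff₀ (by positivity)] at h
    have h4 : 1 ≤ (a * (8 * Λ ^ 4)) ^ 9 := one_le_pow₀ h
    have h5 : 0 ≤ |t| ^ 6 / r ^ 8 := by positivity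
    calc |t| ^ 6 / r ^ 8 ≤ |t| ^ 6 / r ^ 8 * (a * (8 * Λ ^ 4)) ^ 9 := le_mul_of_one_le_right h5 h4
      _ = _ := by ring
  refine le_add_of_nonneg_of_le (by positivity) ?_
  rcases ha0.eq_or_lt with h0 | hap
  · rw [← h0]; simp only [ne_eq, OfNat.ofNat_ne_zero, not_false_eq_true, zero_pow, div_zero,
      zero_div]; positivity
  have hw2 : 0 < w ^ 2 := by rw [h3]; exact mul_pos (by positivity) (mul_pos hap (by linarith))
  have hw0 : 0 < w := lt_of_le_of_ne hw (by rintro rfl; simp at hw2)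
  have h4 : w ^ 2 ≤ 2 * a * r ^ 2 := by rw [h3]; nlinarith [mul_pos hap hap, pow_pos hr 2]
  have h5 : (t / r) ^ 6 ≤ 1 := by
    rw [← Even.pow_abs (by decide)]; exact pow_le_one₀ (abs_nonneg _) h2
  have h6 : (t / r) ^ 6 / a ^ 9 / r ^ 2 ≤ 2 ^ 9 * r ^ 16 * (1 / w ^ 18) := by
    rw [div_div, mul_one_div, div_le_div_iff₀ (by positivity) (by positivity)]
    have h7 : (w ^ 2) ^ 9 ≤ (2 * a * r ^ 2) ^ 9 := pow_le_pow_left₀ hw2.le h4 9
    calc (t / r) ^ 6 * w ^ 18 ≤ 1 * w ^ 18 := by gcongr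
      _ = (w ^ 2) ^ 9 := by ring
      _ ≤ _ := h7
      _ = _ := by ring
  refine h6.trans ?_
  have h8 := pow_div_factorial_le_exp (r ^ 2 / (8 * Λ ^ 2)) (by positivity) 8
  rw [div_le_iff₀ (by positivity), div_pow, div_le_iff₀ (by positivity)] at h8
  have h9 : exp (r ^ 2 / (8 * Λ ^ 2)) ≤ exp (q ^ 2 / 2) *
      (exp (-(1 / (2 * Λ ^ 2) * t ^ 2 / 2)) * exp (-(Λ ^ 2 * w ^ 2 / 2))) := by
    rw [← exp_add, ← exp_add, exp_le_exp]
    set s := r ^ 2 / (8 * Λ ^ 2) with hs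
    have k1 : 4 * s ≤ q ^ 2 / 2 := by
      have := pow_le_pow_left₀ hr.le hq 2
      rw [hs, ← mul_div_assoc, div_le_div_iff₀ (by positivity) (by positivity)]
      nlinarith
    have k2 : 1 / (2 * Λ ^ 2) * t ^ 2 / 2 ≤ 2 * s := by
      have : 1 / (2 * Λ ^ 2) * t ^ 2 / 2 = 2 * (t ^ 2 / (8 * Λ ^ 2)) := by field_simp; ring
      have k5 : t ^ 2 ≤ r ^ 2 := by linarith
      rw [this, hs]
      gcongr
    have k3 : Λ ^ 2 * w ^ 2 / 2 ≤ s := by
      rw [lt_div_iff₀ (by positivity)] at h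
      rw [hs, le_div_iff₀ (by positivity)]
      have k4 : Λ ^ 4 * w ^ 2 ≤ Λ ^ 4 * (2 * a * r ^ 2) := by gcongr
      nlinarith [pow_pos hr 2]
    linarith
  have h10 : ((Nat.factorial 8 : ℕ) : ℝ) = 40320 := by norm_num [Nat.factorial]
  rw [h10] at h8
  calc 2 ^ 9 * r ^ 16 * (1 / w ^ 18) = 2 ^ 9 * (r ^ 2) ^ 8 * (1 / w ^ 18) := by ring
    _ ≤ 2 ^ 9 * (exp (q ^ 2 / 2) * (exp (-(1 / (2 * Λ ^ 2) * t ^ 2 / 2)) *
        exp (-(Λ ^ 2 * w ^ 2 / 2))) * 40320 * (8 * Λ ^ 2) ^ 8) * (1 / w ^ 18) := by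
      gcongr
      exact h8.trans (by gcongr)
    _ = _ := by ring

theorem ae_lt (hn : 2 ≤ n) (p : Eu n → ℝ) (y : Eu n) : ∀ᵐ x ∂mu p, |cs x y| < 1 := by
  have h1 : (ℝ ∙ y) ≠ ⊤ := by
    intro h
    have h2 := finrank_span_le_card (R := ℝ) ({y} : Set (Eu n))
    rw [h, finrank_top, finrank_euclideanSpace_fin] at h2
    simp at h2; omega
  refine (mu_ac p).ae_le ?_
  have h2 : ∀ᵐ x : Eu n, x ∉ (ℝ ∙ y) := compl_mem_ae_iff.2 (Measure.addHaar_submodule _ _ h1)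
  filter_upwards [h2] with x hx
  refine lt_of_le_of_ne (abs_cs_le x y) fun h => hx ?_
  obtain ⟨-, r, hr, rfl⟩ := (abs_real_inner_div_norm_mul_norm_eq_one_iff x y).1 h
  exact Submodule.mem_span_singleton.2 ⟨r⁻¹, inv_smul_smul₀ hr x⟩

/-- Product integrals in the coordinates along and across a unit vector. -/
theorem prod_int {m : ℕ} (u : Eu (m + 1)) (hu : ‖u‖ = 1) {f g : ℝ → ℝ} (hf : Measurable f)
    (hg : Measurable g) (h1 : Integrable f) (h2 : Integrable fun y : Eu m => g ‖y‖) :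
    Integrable (fun x : Eu (m + 1) => f ⟪x, u⟫ * g ‖x - ⟪x, u⟫ • u‖) ∧
      ∫ x : Eu (m + 1), f ⟪x, u⟫ * g ‖x - ⟪x, u⟫ • u‖ = (∫ t, f t) * ∫ y : Eu m, g ‖y‖ := by
  obtain ⟨ι, hι, -, hφ⟩ := split u hu
  have hm : AEStronglyMeasurable (fun x : Eu (m + 1) => f ⟪x, u⟫ * g ‖x - ⟪x, u⟫ • u‖) volume :=
    Measurable.aestronglyMeasurable (by fun_prop)
  have e : ∀ q : ℝ × Eu m, f ⟪q.1 • u + ι q.2, u⟫ *
      g ‖q.1 • u + ι q.2 - ⟪q.1 • u + ι q.2, u⟫ • u‖ = f q.1 * g ‖q.2‖ := by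
    intro q
    have : ⟪q.1 • u + ι q.2, u⟫ = q.1 := by
      rw [inner_add_left, real_inner_smul_left, real_inner_self_eq_norm_sq, hu,
        real_inner_comm, hι]; ring
    rw [this, add_sub_cancel_left, ι.norm_map]
  refine ⟨(hφ.integrable_comp hm).1 ?_, ?_⟩
  · simp only [Function.comp_def, e]
    exact h1.mul_prod h2
  · rw [← hφ.map_eq] at hm
    rw [← hφ.map_eq, integral_map hφ.measurable.aemeasurable hm]
    simp only [e]
    exact integral_prod_mul f fun y : Eu m => g ‖y‖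

end Rem

open Rem in
theorem rem (hM : MomStmt) : RemStmt := by
  intro Λ hΛ
  have hΛ0 : 0 < Λ := by linarith
  obtain ⟨C1, n1, hC1, h1⟩ := hM Λ hΛ 8 6
  obtain ⟨C2, n2, hC2, h2⟩ := hM 4 (by norm_num) 18 0
  set K : ℝ := 2 ^ 9 * (8 * Λ ^ 2) ^ 8 * 40320 with hK
  have hK0 : 0 < K := by positivity
  set I : ℝ := ∫ t : ℝ, exp (-(1 / (2 * Λ ^ 2) * t ^ 2 / 2)) with hI
  have hI0 : 0 ≤ I := integral_nonneg fun t => (exp_pos _).le
  clear_value I K
  refine ⟨(8 * Λ ^ 4) ^ 9 * C1 + 16 * K * I * Λ ^ 19 * C2, max n1 (n2 + 2), by positivity,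
    fun n hn p H y hy => ?_⟩
  obtain ⟨m, rfl⟩ : ∃ m, n = m + 1 := ⟨n - 1, by have := le_of_max_le_right hn; omega⟩
  have hm : n2 + 1 ≤ m := by have := le_of_max_le_right hn; omega
  have hm1 : (1 : ℝ) ≤ m := by exact_mod_cast (by omega : 1 ≤ m)
  have hy0 : 0 < ‖y‖ := norm_pos_iff.2 hy
  set u : Eu (m + 1) := ‖y‖⁻¹ • y with hu
  have hu1 : ‖u‖ = 1 := by rw [hu, norm_smul, norm_inv, norm_norm, inv_mul_cancel₀ hy0.ne']
  have hcs : ∀ x, cs x y = ⟪x, u⟫ / ‖x‖ := fun x => by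
    rw [cs, hu, real_inner_smul_right]; ring
  clear_value u
  obtain ⟨a1, a2⟩ := (h1 (m + 1) (le_of_max_le_left hn) p H).2.1 u hu1
  obtain ⟨b1, b2⟩ := (h2 m (by omega) _ tame_gam).1
  have es : ∀ z : Eu m, 1 / ‖Λ⁻¹ • z‖ ^ 18 = Λ ^ 18 * (1 / ‖z‖ ^ 18) := fun z => by
    rw [norm_smul, norm_inv, Real.norm_of_nonneg hΛ0.le, mul_pow, inv_pow]; field_simp
  have c1 := gs_int (n := m) hΛ0 (fun z => 1 / ‖z‖ ^ 18) (by
    simp only [es]; exact b1.const_mul _)
  have c2 := gs_val (n := m) hΛ0 fun z => 1 / ‖z‖ ^ 18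
  simp only [es, integral_const_mul] at c2
  obtain ⟨d1, d2⟩ := prod_int u hu1 (f := fun t => exp (-(1 / (2 * Λ ^ 2) * t ^ 2 / 2)))
    (g := fun w => exp (-(Λ ^ 2 * w ^ 2 / 2)) * (1 / w ^ 18)) (by fun_prop) (by fun_prop)
    (int_gauss1 (by positivity)) c1
  rw [c2, ← hI] at d2
  have hZ := H.nrm.Zc_pos
  set G : Eu (m + 1) → ℝ := fun x => exp (-(1 / (2 * Λ ^ 2) * ⟪x, u⟫ ^ 2 / 2)) *
    (exp (-(Λ ^ 2 * ‖x - ⟪x, u⟫ • u‖ ^ 2 / 2)) * (1 / ‖x - ⟪x, u⟫ • u‖ ^ 18)) with hG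
  have ew : ∀ x, exp (-(p x ^ 2 / 2)) / Zc p * (exp (p x ^ 2 / 2) * G x) = (Zc p)⁻¹ * G x := by
    intro x
    rw [exp_neg]; have := exp_pos (p x ^ 2 / 2); field_simp
  have f1 : Integrable (fun x => exp (p x ^ 2 / 2) * G x) (mu p) := by
    rw [H.nrm.integrable_mu]; simp only [ew]; exact d1.const_mul _
  have f2 : ∫ x, exp (p x ^ 2 / 2) * G x ∂mu p ≤ 16 * I * Λ ^ 19 * C2 / ((m + 1 : ℕ) : ℝ) ^ 4 := by
    rw [H.nrm.integral_mu]; simp only [ew]
    rw [integral_const_mul, d2]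
    have g1 := Zc_ge hΛ0 H
    have g2 : 1 ≤ √(2 * π) := one_le_sqrt.2 (by linarith [two_le_pi])
    have g3 : √(2 * π) ^ m * (Λ ^ m)⁻¹ ≤ Λ * Zc p := by
      calc √(2 * π) ^ m * (Λ ^ m)⁻¹ = Λ * (√(2 * π) ^ m * 1 * (Λ ^ (m + 1))⁻¹) := by
            rw [pow_succ, mul_inv]; field_simp
        _ ≤ Λ * (√(2 * π) ^ m * √(2 * π) * (Λ ^ (m + 1))⁻¹) := by gcongr
        _ ≤ _ := by rw [← pow_succ]; gcongr
    have g4 : C2 / √(m : ℝ) ^ 18 ≤ 16 * C2 / ((m + 1 : ℕ) : ℝ) ^ 4 := by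
      have : √(m : ℝ) ^ 18 = (m : ℝ) ^ 9 := by
        rw [show 18 = 2 * 9 from rfl, pow_mul, sq_sqrt (by positivity)]
      rw [this, div_le_div_iff₀ (by positivity) (by positivity)]
      have k1 : ((m + 1 : ℕ) : ℝ) ^ 4 ≤ (2 * m) ^ 4 := by push_cast; gcongr; linarith
      have k2 : (m : ℝ) ^ 4 ≤ m ^ 9 := pow_le_pow_right₀ hm1 (by norm_num)
      nlinarith
    have g5 : 0 ≤ ∫ z : Eu m, 1 / ‖z‖ ^ 18 ∂gam m := integral_nonneg fun z => by positivity
    have g6 : ∫ z : Eu m, 1 / ‖z‖ ^ 18 ∂gam m ≤ 16 * C2 / ((m + 1 : ℕ) : ℝ) ^ 4 := b2.trans g4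
    rw [inv_mul_le_iff₀ hZ]
    generalize ∫ z : Eu m, 1 / ‖z‖ ^ 18 ∂gam m = E at g5 g6
    generalize Zc p = Z at g3 hZ
    calc _ = √(2 * π) ^ m * (Λ ^ m)⁻¹ * (I * Λ ^ 18 * E) := by ring
      _ ≤ Λ * Z * (I * Λ ^ 18 * (16 * C2 / ((m + 1 : ℕ) : ℝ) ^ 4)) :=
        mul_le_mul g3 (mul_le_mul_of_nonneg_left g6 (by positivity)) (by positivity)
          (by positivity)
      _ = _ := by ring
  have hpt : ∀ x, cs x y ^ 6 / (1 - |cs x y|) ^ 9 / ‖x‖ ^ 2 ≤
      (8 * Λ ^ 4) ^ 9 * (|⟪x, u⟫| ^ 6 / ‖x‖ ^ 8) + K * (exp (p x ^ 2 / 2) * G x) := by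
    intro x
    rcases eq_or_ne x 0 with rfl | hx
    · simp only [norm_zero, ne_eq, OfNat.ofNat_ne_zero, not_false_eq_true, zero_pow, div_zero,
        mul_zero, zero_add, hG]
      positivity
    rw [hcs, hK]
    refine point hΛ (norm_pos_iff.2 hx) (norm_nonneg _) ?_ (H.lo x)
    rw [norm_sub_sq_real, real_inner_smul_right, norm_smul, hu1, Real.norm_eq_abs, mul_one, sq_abs]
    ring
  have hnn : ∀ x, 0 ≤ cs x y ^ 6 / (1 - |cs x y|) ^ 9 / ‖x‖ ^ 2 := fun x => by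
    have := sub_nonneg.2 (abs_cs_le x y)
    have h6 : 0 ≤ cs x y ^ 6 := Even.pow_nonneg (by decide) _
    positivity
  have hi := (a1.const_mul ((8 * Λ ^ 4) ^ 9)).add (f1.const_mul K)
  have hint : Integrable (fun x => cs x y ^ 6 / (1 - |cs x y|) ^ 9 / ‖x‖ ^ 2) (mu p) :=
    hi.mono' (Measurable.aestronglyMeasurable (by unfold cs; fun_prop))
      (Eventually.of_forall fun x => by rw [Real.norm_of_nonneg (hnn x)]; exact hpt x)
  refine ⟨ae_lt (by omega) p y, hint, (integral_mono hint hi hpt).trans ?_⟩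
  simp only [Pi.add_apply]
  rw [integral_add (a1.const_mul _) (f1.const_mul _), integral_const_mul, integral_const_mul]
  have e8 : √((m + 1 : ℕ) : ℝ) ^ 8 = ((m + 1 : ℕ) : ℝ) ^ 4 := by
    rw [show 8 = 2 * 4 from rfl, pow_mul, sq_sqrt (by positivity)]
  rw [e8] at a2
  calc _ ≤ (8 * Λ ^ 4) ^ 9 * (C1 / ((m + 1 : ℕ) : ℝ) ^ 4) +
        K * (16 * I * Λ ^ 19 * C2 / ((m + 1 : ℕ) : ℝ) ^ 4) := by gcongr
    _ = _ := by ring

end Pool.Agent.MP_2a44fd_gt.hd

end MrgPart5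

-- ======== part 6: formerly Pool.Agent.MP_2a44fd_gt.hd.StepA
section MrgPart6

/-!
PROJECT BP5HD: module STEPA.
-/

set_option autoImplicit false

open MeasureTheory Real Set Filter Topology
open scoped RealInnerProductSpace ENNReal

namespace Pool.Agent.MP_2a44fd_gt.hd

namespace StepA

theorem prod_bound {α : Type*} [MeasurableSpace α] {μ : Measure α} [SFinite μ] {F : α × α → ℝ}
    {a : α → ℝ} {S : ℝ} (hF : Measurable F) (F0 : ∀ z, 0 ≤ F z) (ha : Measurable a)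
    (a0 : ∀ y, 0 ≤ a y) (ia : Integrable a μ)
    (h : ∀ᵐ y ∂μ, Integrable (fun x => F (x, y)) μ ∧ ∫ x, F (x, y) ∂μ ≤ S) :
    Integrable (fun z => F z * a z.2) (μ.prod μ) ∧
      ∫ z, F z * a z.2 ∂μ.prod μ ≤ S * ∫ y, a y ∂μ := by
  have m : Measurable fun z : α × α => F z * a z.2 := hF.mul (ha.comp measurable_snd)
  have b : ∀ᵐ y ∂μ, ∫ x, F (x, y) * a y ∂μ ≤ S * a y := h.mono fun y hy => by
    rw [integral_mul_const]
    exact mul_le_mul_of_nonneg_right hy.2 (a0 y)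
  have i : Integrable (fun z => F z * a z.2) (μ.prod μ) := by
    refine (integrable_prod_iff' m.aestronglyMeasurable).2
      ⟨h.mono fun y hy => hy.1.mul_const (a y), (ia.const_mul S).mono'
        m.norm.stronglyMeasurable.integral_prod_left'.aestronglyMeasurable ?_⟩
    filter_upwards [b] with y hy
    simp only [Real.norm_of_nonneg (mul_nonneg (F0 _) (a0 _))]
    rwa [Real.norm_of_nonneg (integral_nonneg fun x => mul_nonneg (F0 _) (a0 _))]
  refine ⟨i, ?_⟩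
  rw [integral_prod_symm _ i, ← integral_const_mul]
  exact integral_mono_ae i.integral_prod_right (ia.const_mul S) b

variable {n : ℕ} {p h : Eu n → ℝ} {b Λ : ℝ}

/-- The basic estimate for a nonnegative angular kernel. -/
theorem kernel (hn : 1 ≤ n) (H : Cmp Λ p h b) {k : ℝ → ℝ} (mk : Measurable k)
    (k0 : ∀ x y : Eu n, 0 ≤ k (cs x y)) {S : ℝ}
    (hg : ∀ y : Eu n, y ≠ 0 → Integrable (fun x => k (cs x y) / ‖x‖ ^ 2) (gam n) ∧
      ∫ x, k (cs x y) / ‖x‖ ^ 2 ∂gam n ≤ S)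
    (hm : ∀ y : Eu n, y ≠ 0 → Integrable (fun x => k (cs x y) / ‖x‖ ^ 2) (mu p) ∧
      ∫ x, k (cs x y) / ‖x‖ ^ 2 ∂mu p ≤ S)
    {D : Set (Eu n)} {ν : ℝ} (hD : MeasurableSet D)
    (i2 : Integrable (fun x => Vg p b D x ^ 2) (gam n)) (b2 : ∫ x, Vg p b D x ^ 2 ∂gam n ≤ ν)
    (bD : (mu p).real D ≤ ν) :
    Integrable (qi k (Vf p b)) ((gam n).prod (gam n)) ∧
      ∫ z, |qi k (Vf p b) z| ∂(gam n).prod (gam n) ≤ (1 + Λ) * S * ((1 + Λ) * ν) := by
  have hp := H.bp.nrm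
  have := hp.prob
  have l0 := lam_pos H.bp.bpos
  have l1 := H.lam_le
  have W0 := hp.Wd_pos
  have mW := hp.Wd_cont.measurable
  have ν0 : 0 ≤ ν := measureReal_nonneg.trans bD
  have ne : ∀ᵐ x ∂gam n, x ≠ 0 := ae_ne_zero hn fun x : Eu n => ‖x‖
  have S0 : 0 ≤ S := by
    obtain ⟨y, hy⟩ := ne.exists
    exact (integral_nonneg fun x => div_nonneg (k0 x y) (by positivity)).trans (hg y hy).2
  set a : Eu n → ℝ := fun x => Vg p b D x ^ 2 + lam b * D.indicator (Wd p) x with ha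
  set F : Eu n × Eu n → ℝ := fun z =>
    (1 + lam b * Wd p z.1) * (k (cs z.1 z.2) / ‖z.1‖ ^ 2) with hF
  have B0 : ∀ x, 0 ≤ D.indicator (Wd p) x := fun x => indicator_nonneg (fun x _ => (W0 x).le) x
  have a0 : ∀ x, 0 ≤ a x := fun x => by have := B0 x; positivity
  have F0 : ∀ z, 0 ≤ F z := fun z => by have := W0 z.1; have := k0 z.1 z.2; positivity
  have iW : Integrable (Wd p) (gam n) := by
    simpa using (hp.integrable_gam fun _ => 1).1 (integrable_const _)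
  have iB := (iW.indicator hD).const_mul (lam b)
  have mc := mk.comp (meas_cs (n := n))
  obtain ⟨j1, j2⟩ := prod_bound (μ := gam n) (F := F) (a := a) (S := (1 + Λ) * S)
    ((((mW.comp measurable_fst).const_mul _).const_add _).mul (mc.div (by fun_prop))) F0
    (((hp.Vg_meas b hD).pow_const 2).add ((mW.indicator hD).const_mul _)) a0 (i2.add iB) (by
      filter_upwards [ne] with y hy
      have e : (fun x => F (x, y)) = fun x => k (cs x y) / ‖x‖ ^ 2 +
          lam b * (Wd p x * (k (cs x y) / ‖x‖ ^ 2)) := funext fun x => by simp only [hF]; ring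
      have i3 := ((hp.integrable_gam _).1 (hm y hy).1).const_mul (lam b)
      rw [e]
      refine ⟨(hg y hy).1.add i3, ?_⟩
      rw [integral_add (hg y hy).1 i3, integral_const_mul, ← hp.integral_gam]
      nlinarith [(hg y hy).2, mul_le_mul_of_nonneg_left (hm y hy).2 l0.le])
  have j3 : ∫ y, a y ∂gam n ≤ (1 + Λ) * ν := by
    rw [integral_add i2 iB, integral_const_mul, ← hp.real_eq hD]
    nlinarith [mul_le_mul_of_nonneg_left bD l0.le]
  have j4 := j2.trans (mul_le_mul_of_nonneg_left j3 (by nlinarith))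
  have v : ∀ x, Vf p b x ^ 2 ≤ a x * (1 + lam b * Wd p x) := fun x => by
    have u0 := mul_pos l0 (W0 x)
    by_cases hx : x ∈ D
    · simp only [ha, Vf, Vg, indicator_of_mem hx, indicator_of_notMem (notMem_compl_iff.2 hx)]
      nlinarith
    · simp only [ha, Vf, Vg, indicator_of_notMem hx, indicator_of_mem (mem_compl hx)]
      nlinarith [sq_nonneg (lam b * Wd p x - 1)]
  have pt : ∀ z, |qi k (Vf p b) z| ≤ (F z * a z.2 + F z.swap * a z.swap.2) / 2 := fun z => by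
    have p1 := mul_nonneg (F0 z) (a0 z.2)
    have p2 := mul_nonneg (F0 z.swap) (a0 z.swap.2)
    refine abs_le_of_sq_le_sq' ?_ (by positivity) |> abs_le.2
    have e1 : qi k (Vf p b) z ^ 2 = Vf p b z.1 ^ 2 * Vf p b z.2 ^ 2 *
        (k (cs z.1 z.2) / (‖z.1‖ * ‖z.2‖)) ^ 2 := by simp only [qi]; ring
    have e2 : F z * a z.2 * (F z.swap * a z.swap.2) = a z.1 * (1 + lam b * Wd p z.1) *
        (a z.2 * (1 + lam b * Wd p z.2)) * (k (cs z.1 z.2) / (‖z.1‖ * ‖z.2‖)) ^ 2 := by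
      simp only [hF, Prod.fst_swap, Prod.snd_swap, cs_comm z.2 z.1]
      ring
    have e3 : qi k (Vf p b) z ^ 2 ≤ F z * a z.2 * (F z.swap * a z.swap.2) := by
      rw [e1, e2]
      exact mul_le_mul_of_nonneg_right (mul_le_mul (v _) (v _) (sq_nonneg _)
        ((sq_nonneg _).trans (v _))) (sq_nonneg _)
    nlinarith [sq_nonneg (F z * a z.2 - F z.swap * a z.swap.2)]
  have j5 : Integrable (fun z : Eu n × Eu n => F z.swap * a z.swap.2) ((gam n).prod (gam n)) :=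
    j1.swap
  have mV := (hp.Vf_cont b).measurable
  have mq : Measurable (qi k (Vf p b)) :=
    (((mV.comp measurable_fst).mul (mV.comp measurable_snd)).div (by fun_prop)).mul mc
  have j6 : Integrable (fun z => (F z * a z.2 + F z.swap * a z.swap.2) / 2)
      ((gam n).prod (gam n)) := (j1.add j5).div_const 2
  have iq : Integrable (qi k (Vf p b)) ((gam n).prod (gam n)) :=
    j6.mono' mq.aestronglyMeasurable (Eventually.of_forall pt)
  refine ⟨iq, (integral_mono iq.abs j6 pt).trans ?_⟩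
  rw [integral_div, integral_add j1 j5,
    integral_prod_swap (μ := gam n) (ν := gam n) fun z => F z * a z.2]
  linarith

theorem int_pow {V : Eu n → ℝ} (mV : Measurable V)
    (h1 : Integrable (qi (fun _ => 1) V) ((gam n).prod (gam n))) (j : ℕ) :
    Integrable (qi (fun ρ => ρ ^ j) V) ((gam n).prod (gam n)) := by
  refine h1.mono ((((mV.comp measurable_fst).mul (mV.comp measurable_snd)).div
    (by fun_prop)).mul (meas_cs.pow_const j)).aestronglyMeasurable (Eventually.of_forall fun z => ?_)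
  simp only [qi, norm_mul, norm_one, norm_pow]
  exact mul_le_mul_of_nonneg_left (pow_le_one₀ (norm_nonneg _) (abs_cs_le _ _)) (norm_nonneg _)

theorem int_coord {μ : Measure (Eu n)} (h1 : Integrable (fun x : Eu n => ‖x‖⁻¹) μ) (i j : Fin n) :
    Integrable (fun x : Eu n => x i * x j / ‖x‖ ^ 3) μ := by
  refine h1.mono' (Measurable.aestronglyMeasurable (by fun_prop)) (Eventually.of_forall fun x => ?_)
  rcases eq_or_ne ‖x‖ 0 with e | e
  · simp [e]
  · have x0 : 0 < ‖x‖ := (norm_nonneg x).lt_of_ne' e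
    rw [norm_div, norm_mul, norm_pow, norm_norm, div_le_iff₀ (by positivity),
      show ‖x‖⁻¹ * ‖x‖ ^ 3 = ‖x‖ * ‖x‖ by field_simp]
    exact mul_le_mul (abs_coord_le x i) (abs_coord_le x j) (norm_nonneg _) x0.le

theorem zero0 (H : Sp Λ p h b) (i1 : Integrable (fun x : Eu n => ‖x‖⁻¹) (mu p))
    (i2 : Integrable (fun x : Eu n => ‖x‖⁻¹) (gam n)) :
    ∫ z, qi (fun ρ => ρ ^ 0) (Vf p b) z ∂(gam n).prod (gam n) = 0 := by
  have e : qi (fun ρ => ρ ^ 0) (Vf p b) = fun z : Eu n × Eu n =>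
      Vf p b z.1 * ‖z.1‖⁻¹ * (Vf p b z.2 * ‖z.2‖⁻¹) := funext fun z => by simp only [qi]; ring
  rw [e, integral_prod_mul (fun x => Vf p b x * ‖x‖⁻¹) fun x => Vf p b x * ‖x‖⁻¹,
    (H.reg.tame.nrm.int_Vf b i1 i2).2, H.nor, sub_self, zero_mul]

theorem zero2 (hS : SymStmt) (H : Sp Λ p h b) (i1 : Integrable (fun x : Eu n => ‖x‖⁻¹) (mu p))
    (i2 : Integrable (fun x : Eu n => ‖x‖⁻¹) (gam n)) :
    ∫ z, qi (fun ρ => ρ ^ 2) (Vf p b) z ∂(gam n).prod (gam n) = 0 := by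
  have k := fun i j => H.reg.tame.nrm.int_Vf b (int_coord i1 i j) (int_coord i2 i j)
  have e : qi (fun ρ => ρ ^ 2) (Vf p b) = fun z : Eu n × Eu n => ∑ i, ∑ j,
      Vf p b z.1 * (z.1 i * z.1 j / ‖z.1‖ ^ 3) * (Vf p b z.2 * (z.2 i * z.2 j / ‖z.2‖ ^ 3)) :=
    funext fun z => by
      simp only [qi, cs, div_pow]
      rw [inner_eq_sum, sq (∑ i, _), Finset.sum_mul_sum]
      simp only [Finset.sum_div, Finset.mul_sum]
      exact Finset.sum_congr rfl fun i _ => Finset.sum_congr rfl fun j _ => by ring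
  rw [e, integral_finsetSum _ fun i _ => integrable_finsetSum _ fun j _ =>
    (k i j).1.mul_prod (k i j).1]
  refine Finset.sum_eq_zero fun i _ => ?_
  rw [integral_finsetSum _ fun j _ => (k i j).1.mul_prod (k i j).1]
  refine Finset.sum_eq_zero fun j _ => ?_
  rw [integral_prod_mul (fun x => Vf p b x * (x i * x j / ‖x‖ ^ 3))
    fun x => Vf p b x * (x i * x j / ‖x‖ ^ 3), (k i j).2, H.iso, hS n i2, ← H.nor]
  split_ifs <;> ring

end StepA

open StepA in
theorem stepA (hK : KerStmt) (hR : RemStmt) (hM : MomStmt) (hS : SymStmt) : StepAStmt := by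
  intro Λ hΛ
  obtain ⟨mk, -, k0, k2, k4, C, hk⟩ := hK
  obtain ⟨Cr, n1, Cr0, hr⟩ := hR Λ (by linarith)
  obtain ⟨C1, n2, -, m1⟩ := hM Λ (by linarith) 1 0
  obtain ⟨C2, n3, -, m2⟩ := hM Λ (by linarith) 2 0
  refine ⟨|k4| + |C| * ((1 + Λ) ^ 2 * Cr) + 1, n1 + n2 + n3 + 1, by positivity,
    fun n hn p h b H => ?_⟩
  have hp := H.reg.tame.nrm
  have := hp.prob
  have tg : Tame Λ fun x : Eu n => ‖x‖ := tame_gam.mono (by norm_num) hΛ
  have n0 : 1 ≤ n := by omega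
  have r1 := hr n (by omega) p H.reg.tame
  have r2 := hr n (by omega) _ tg
  have i1 : Integrable (fun x : Eu n => ‖x‖⁻¹) (mu p) := by
    simpa using (m1 n (by omega) p H.reg.tame).1.1
  have i2 : Integrable (fun x : Eu n => ‖x‖⁻¹) (gam n) := by
    simpa [gam] using (m1 n (by omega) _ tg).1.1
  have ae1 : ∀ᵐ z ∂(gam n).prod (gam n), |cs z.1 z.2| < 1 := by
    rw [Measure.ae_prod_iff_ae_ae (measurableSet_lt meas_cs.abs measurable_const)]
    filter_upwards [ae_ne_zero n0 fun x : Eu n => ‖x‖] with y hy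
    simpa only [cs_comm y, gam] using (r2 y hy).1
  have u1 : Integrable (fun x => Vg p b univ x ^ 2) (gam n) := by simp [Vg_univ]
  have u2 : ∫ x, Vg p b univ x ^ 2 ∂gam n ≤ 1 := by simp [Vg_univ]
  have u3 : (mu p).real univ ≤ 1 := by simp
  have mV := (hp.Vf_cont b).measurable
  have ip := int_pow mV (kernel n0 H.reg.cmp (k := fun _ => 1) measurable_const
    (fun _ _ => zero_le_one) (fun y _ => (m2 n (by omega) _ tg).1)
    (fun y _ => (m2 n (by omega) p H.reg.tame).1) MeasurableSet.univ u1 u2 u3).1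
  have kr := fun (D : Set (Eu n)) (ν : ℝ) => kernel n0 H.reg.cmp
    (k := fun ρ => ρ ^ 6 / (1 - |ρ|) ^ 9) (by fun_prop)
    (fun x y => div_nonneg (by positivity) (pow_nonneg (sub_nonneg.2 (abs_cs_le x y)) 9))
    (fun y hy => (r2 y hy).2) (fun y hy => (r1 y hy).2) (D := D) (ν := ν)
  set V := Vf p b
  set R : Eu n × Eu n → ℝ := qi (fun ρ => kk ρ - (k0 + k2 * ρ ^ 2 + k4 * ρ ^ 4)) V with hRd
  have bR : ∀ᵐ z ∂(gam n).prod (gam n),
      |R z| ≤ |C| * |qi (fun ρ => ρ ^ 6 / (1 - |ρ|) ^ 9) V z| := ae1.mono fun z hz => by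
    simp only [hRd, qi, abs_mul]
    rw [mul_left_comm |C|, ← abs_mul C]
    exact mul_le_mul_of_nonneg_left ((hk _ hz).trans (le_abs_self _)) (abs_nonneg _)
  have iκ := (kr univ 1 MeasurableSet.univ u1 u2 u3).1
  have mc : Measurable fun z : Eu n × Eu n => cs z.1 z.2 := meas_cs
  have iR : Integrable R ((gam n).prod (gam n)) :=
    (iκ.abs.const_mul |C|).mono' ((((mV.comp measurable_fst).mul (mV.comp measurable_snd)).div
      (by fun_prop)).mul ((mk.comp mc).sub (by fun_prop))).aestronglyMeasurable bR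
  have e : qi kk V = fun z => k0 * qi (fun ρ => ρ ^ 0) V z + k2 * qi (fun ρ => ρ ^ 2) V z +
      k4 * qi (fun ρ => ρ ^ 4) V z + R z := funext fun z => by simp only [hRd, qi]; ring
  have j1 : Integrable (fun z => k0 * qi (fun ρ => ρ ^ 0) V z + k2 * qi (fun ρ => ρ ^ 2) V z)
      ((gam n).prod (gam n)) := ((ip 0).const_mul k0).add ((ip 2).const_mul k2)
  have j2 : Integrable (fun z => k0 * qi (fun ρ => ρ ^ 0) V z + k2 * qi (fun ρ => ρ ^ 2) V z +
      k4 * qi (fun ρ => ρ ^ 4) V z) ((gam n).prod (gam n)) := j1.add ((ip 4).const_mul k4)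
  refine ⟨ae1, e ▸ j2.add iR, fun D ν hD d1 d2 d3 => ?_⟩
  have ν0 : 0 ≤ ν := measureReal_nonneg.trans d3
  have np : (0 : ℝ) < n := by exact_mod_cast n0
  have q1 : ∫ z, qi kk V z ∂(gam n).prod (gam n) =
      k4 * ∫ z, qi (fun ρ => ρ ^ 4) V z ∂(gam n).prod (gam n) + ∫ z, R z ∂(gam n).prod (gam n) := by
    rw [e]
    beta_reduce
    rw [integral_add j2 iR, integral_add j1 ((ip 4).const_mul k4),
      integral_add ((ip 0).const_mul k0) ((ip 2).const_mul k2), integral_const_mul,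
      integral_const_mul, integral_const_mul, zero0 H i1 i2, zero2 hS H i1 i2]
    ring
  have q2 : ∫ z, R z ∂(gam n).prod (gam n) ≤
      |C| * ((1 + Λ) * (Cr / (n : ℝ) ^ 4) * ((1 + Λ) * ν)) := by
    refine (integral_mono_ae iR (iκ.abs.const_mul |C|)
      (bR.mono fun z hz => (le_abs_self _).trans hz)).trans ?_
    rw [integral_const_mul]
    exact mul_le_mul_of_nonneg_left (kr D ν hD d1 d2 d3).2 (abs_nonneg C)
  have q3 : NN p b = k4 * Q4 p b + (n : ℝ) ^ 3 * ∫ z, R z ∂(gam n).prod (gam n) := by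
    rw [NN, Q4, Qf, Qf, q1]
    ring
  have q4 := mul_le_mul_of_nonneg_left q2 (show (0 : ℝ) ≤ (n : ℝ) ^ 3 by positivity)
  have q5 : (n : ℝ) ^ 3 * (|C| * ((1 + Λ) * (Cr / (n : ℝ) ^ 4) * ((1 + Λ) * ν))) =
      |C| * ((1 + Λ) ^ 2 * Cr) * (ν / n) := by field_simp
  have q6 : k4 * Q4 p b ≤ |k4| * |Q4 p b| := abs_mul k4 _ ▸ le_abs_self _
  have q7 : 0 ≤ ν / n := by positivity
  have q8 : 0 ≤ |C| * ((1 + Λ) ^ 2 * Cr) := by positivity
  rw [q3]
  nlinarith [abs_nonneg k4, abs_nonneg (Q4 p b), mul_nonneg q8 (abs_nonneg (Q4 p b)),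
    mul_nonneg (abs_nonneg k4) q7]

end Pool.Agent.MP_2a44fd_gt.hd

end MrgPart6

-- ======== part 7: formerly Pool.Agent.MP_2a44fd_gt.hd.Der
section MrgPart7

/-!
PROJECT BP5HD: derivatives of the smoothed section function.
-/

set_option autoImplicit false

open MeasureTheory Real Set Filter Topology
open scoped RealInnerProductSpace ENNReal

namespace Pool.Agent.MP_2a44fd_gt.hd

namespace Der

variable {n : ℕ} {p : Eu n → ℝ} {δ : ℝ}

theorem int_bd (hp : Nrm p) {k w : Eu n → ℝ} (hk : Continuous k) (hw : Continuous w) {C : ℝ}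
    (hC : ∀ x, |k x| ≤ C) {j : ℕ} (hj : ∀ x, |w x| ≤ ‖x‖ ^ j) :
    Integrable (fun x => k x * w x) (mu p) :=
  ((hp.int_norm_pow j).const_mul C).mono' (by fun_prop) (Eventually.of_forall fun x => by
    rw [Real.norm_eq_abs, abs_mul]
    exact mul_le_mul (hC x) (hj x) (abs_nonneg _) ((abs_nonneg _).trans (hC x)))

theorem abs_two (x : Eu n) (i j : Fin n) : |x i * x j| ≤ ‖x‖ ^ 2 := by
  rw [abs_mul, sq]
  exact mul_le_mul (abs_coord_le x i) (abs_coord_le x j) (abs_nonneg _) (norm_nonneg _)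

theorem abs_one' (x : Eu n) (i : Fin n) : |x i| ≤ ‖x‖ ^ 1 := by simpa using abs_coord_le x i

/-- Differentiation under the integral sign for ridge functions. -/
theorem ridge (hp : Nrm p) {k k' : ℝ → ℝ} (hk : ∀ t, HasDerivAt k (k' t) t) (ck' : Continuous k')
    {C C' : ℝ} (hC : ∀ t, |k t| ≤ C) (hC' : ∀ t, |k' t| ≤ C') {w : Eu n → ℝ} (hw : Continuous w)
    {j : ℕ} (hj : ∀ x, |w x| ≤ ‖x‖ ^ j) (ξ : Eu n) :
    HasFDerivAt (fun ζ : Eu n => ∫ x, k ⟪x, ζ⟫ * w x ∂mu p)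
      (innerSL ℝ (WithLp.toLp 2 fun i => ∫ x, k' ⟪x, ξ⟫ * (w x * x i) ∂mu p : Eu n)) ξ := by
  have ck : Continuous k := continuous_iff_continuousAt.2 fun t => (hk t).continuousAt
  have C0 : 0 ≤ C' := (abs_nonneg _).trans (hC' 0)
  have bd : ∀ x ζ : Eu n, ‖(k' ⟪x, ζ⟫ * w x) • innerSL ℝ x‖ ≤ C' * ‖x‖ ^ (j + 1) := fun x ζ => by
    rw [norm_smul, innerSL_apply_norm, Real.norm_eq_abs, abs_mul, pow_succ, ← mul_assoc]
    exact mul_le_mul_of_nonneg_right (mul_le_mul (hC' _) (hj x) (abs_nonneg _) C0) (norm_nonneg _)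
  have cF : Continuous fun x : Eu n => (k' ⟪x, ξ⟫ * w x) • innerSL ℝ x := by fun_prop
  have h1 := hasFDerivAt_integral_of_dominated_of_fderiv_le (μ := mu p) (𝕜 := ℝ)
    (F := fun (ζ x : Eu n) => k ⟪x, ζ⟫ * w x)
    (F' := fun (ζ x : Eu n) => (k' ⟪x, ζ⟫ * w x) • innerSL ℝ x) (x₀ := ξ)
    (bound := fun x => C' * ‖x‖ ^ (j + 1)) (s := univ) univ_mem
    (Eventually.of_forall fun ζ => by fun_prop)
    (int_bd hp (by fun_prop) hw (fun x => hC _) hj) cF.aestronglyMeasurable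
    (Eventually.of_forall fun x ζ _ => bd x ζ) ((hp.int_norm_pow _).const_mul _)
    (Eventually.of_forall fun x ζ _ => by
      have := ((hk ⟪x, ζ⟫).comp_hasFDerivAt ζ (innerSL ℝ x).hasFDerivAt).mul_const (w x)
      refine this.congr_fderiv ?_
      rw [smul_smul, mul_comm])
  have iF : Integrable (fun x : Eu n => (k' ⟪x, ξ⟫ * w x) • innerSL ℝ x) (mu p) :=
    ((hp.int_norm_pow _).const_mul C').mono' cF.aestronglyMeasurable
      (Eventually.of_forall fun x => bd x ξ)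
  refine h1.congr_fderiv (ContinuousLinearMap.ext fun v => ?_)
  rw [ContinuousLinearMap.integral_apply iF, innerSL_apply_apply, inner_eq_sum]
  simp only [smul_apply, innerSL_apply_apply, smul_eq_mul,
    inner_eq_sum _ v, Finset.mul_sum, ← integral_mul_const]
  rw [integral_finsetSum]
  · refine Finset.sum_congr rfl fun i _ => integral_congr_ae (Eventually.of_forall fun x => ?_)
    simp only; ring
  · intro i _
    refine ((int_bd hp (k := fun x => k' ⟪x, ξ⟫) (w := fun x => w x * x i) (by fun_prop)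
      (by fun_prop) (fun x => hC' _) (j := j + 1) fun x => ?_).mul_const (v i)).congr
      (Eventually.of_forall fun x => by simp only; ring)
    rw [abs_mul, pow_succ]
    exact mul_le_mul (hj x) (abs_coord_le x i) (abs_nonneg _) (by positivity)

theorem abs_gk_le (hδ : 0 < δ) (t : ℝ) : |gk δ t| ≤ 1 / δ := by
  rw [abs_of_pos (gk_pos hδ t)]; exact gk_le' hδ t

theorem d0 (hp : Nrm p) (hδ : 0 < δ) (ξ : Eu n) :
    HasFDerivAt (A0 p δ) (innerSL ℝ (A1 p δ ξ)) ξ := by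
  have := ridge hp (hasDerivAt_gk hδ) (gk1_cont δ) (abs_gk_le hδ) (abs_gk1_le hδ)
    (w := fun _ => 1) continuous_const (j := 0) (by simp) ξ
  simp only [mul_one, one_mul] at this
  exact this

theorem d1c (hp : Nrm p) (hδ : 0 < δ) (ξ : Eu n) (i : Fin n) :
    HasFDerivAt (fun ζ => A1 p δ ζ i)
      (innerSL ℝ (WithLp.toLp 2 fun j => A2 p δ ξ i j : Eu n)) ξ :=
  ridge hp (hasDerivAt_gk1 hδ) (gk2_cont δ) (abs_gk1_le hδ) (abs_gk2_le hδ)
    (w := fun x => x i) (by fun_prop) (fun x => abs_one' x i) ξ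

theorem d1 (hp : Nrm p) (hδ : 0 < δ) (ξ : Eu n) : HasFDerivAt (A1 p δ) (mc (A2 p δ ξ)) ξ := by
  refine hasFDerivWithinAt_univ.1 (hasFDerivWithinAt_euclidean.2 fun i =>
    ((d1c hp hδ ξ i).congr_fderiv ?_).hasFDerivWithinAt)
  ext v
  rw [innerSL_apply_apply, inner_eq_sum]
  rfl

theorem hasF_r (hδ : 0 < δ) (ξ : Eu n) : HasFDerivAt (fun ζ : Eu n => √(‖ζ‖ ^ 2 + δ ^ 2))
    ((√(‖ξ‖ ^ 2 + δ ^ 2))⁻¹ • innerSL ℝ ξ) ξ := by
  have hr : 0 < ‖ξ‖ ^ 2 + δ ^ 2 := by positivity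
  have := ((hasStrictFDerivAt_norm_sq ξ).hasFDerivAt.add_const (δ ^ 2)).sqrt hr.ne'
  refine this.congr_fderiv ?_
  have := sqrt_pos.2 hr
  ext v
  simp only [smul_apply, smul_eq_mul, nsmul_eq_mul, Nat.cast_ofNat]
  field_simp

theorem A1_gam (hδ : 0 < δ) (ξ : Eu n) (i : Fin n) :
    A1 (fun x => ‖x‖) δ ξ i = -(ξ i / √(‖ξ‖ ^ 2 + δ ^ 2) ^ 3) / √(2 * π) := by
  have hr : 0 < √(‖ξ‖ ^ 2 + δ ^ 2) := sqrt_pos.2 (by positivity)
  have hs := sqrt_two_pi_pos
  have h1 := d0 nrm_norm hδ ξ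
  rw [show A0 (fun x : Eu n => ‖x‖) δ = fun ζ => (√(2 * π))⁻¹ * (√(‖ζ‖ ^ 2 + δ ^ 2))⁻¹ from
    funext fun ζ => by rw [A0_gam hδ, one_div, mul_inv]] at h1
  have h2 := ((hasDerivAt_inv hr.ne').comp_hasFDerivAt ξ (hasF_r hδ ξ)).const_mul (√(2 * π))⁻¹
  have h3 := congrArg (fun L : Eu n →L[ℝ] ℝ => L (EuclideanSpace.single i 1)) (h1.unique h2)
  simp only [innerSL_apply_apply, smul_apply, smul_eq_mul,
    EuclideanSpace.inner_single_right, one_mul, conj_trivial] at h3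
  rw [h3]
  field_simp

theorem A2_gam (hδ : 0 < δ) (ξ : Eu n) (i j : Fin n) :
    A2 (fun x => ‖x‖) δ ξ i j = (-((if i = j then 1 else 0) / √(‖ξ‖ ^ 2 + δ ^ 2) ^ 3) +
      3 * (ξ i * ξ j) / √(‖ξ‖ ^ 2 + δ ^ 2) ^ 5) / √(2 * π) := by
  have hr : 0 < √(‖ξ‖ ^ 2 + δ ^ 2) := sqrt_pos.2 (by positivity)
  have hs := sqrt_two_pi_pos
  have h1 := d1c nrm_norm hδ ξ i
  rw [show (fun ζ => A1 (fun x : Eu n => ‖x‖) δ ζ i) =
      fun ζ => -(√(2 * π))⁻¹ * (ζ i * (√(‖ζ‖ ^ 2 + δ ^ 2))⁻¹ ^ 3) from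
    funext fun ζ => by rw [A1_gam hδ]; ring] at h1
  have h0 : HasFDerivAt (fun ζ : Eu n => ζ i) (EuclideanSpace.proj i : Eu n →L[ℝ] ℝ) ξ :=
    (EuclideanSpace.proj i : Eu n →L[ℝ] ℝ).hasFDerivAt
  have h2 := (h0.mul (((hasDerivAt_inv hr.ne').comp_hasFDerivAt ξ (hasF_r hδ ξ)).pow 3)).const_mul
    (-(√(2 * π))⁻¹)
  have h3 := congrArg (fun L : Eu n →L[ℝ] ℝ => L (EuclideanSpace.single j 1)) (h1.unique h2)
  simp only [innerSL_apply_apply, smul_apply, smul_eq_mul,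
    EuclideanSpace.inner_single_right, one_mul, conj_trivial, add_apply,
    Function.comp, nsmul_eq_mul, Nat.cast_ofNat, PiLp.proj_apply, PiLp.single_apply,
    Nat.add_one_sub_one] at h3
  rw [h3]
  split_ifs <;> field_simp <;> ring

theorem dec_aux (hp : Nrm p) {b : ℝ} (hb : 0 < b) {f : Eu n → ℝ} (h1 : Integrable f (mu p))
    (h2 : Integrable f (gam n)) : (∫ x, f x ∂mu p) / b =
      √(2 * π) * ∫ x, f x ∂gam n + √(2 * π) * ∫ x, Vf p b x * f x ∂gam n := by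
  have hs := sqrt_two_pi_pos
  rw [(hp.int_Vf b h1 h2).2, lam]
  field_simp
  ring

end Der

open Der

theorem der : DerStmt := fun n p δ hp hδ => by
  refine ⟨d0 hp hδ, d1 hp hδ, fun i j => ?_⟩
  refine continuous_of_dominated (bound := fun x => 2 / δ ^ 3 * ‖x‖ ^ 2) (fun ξ => by fun_prop)
    (fun ξ => Eventually.of_forall fun x => ?_) ((hp.int_norm_pow 2).const_mul _)
    (Eventually.of_forall fun x => by fun_prop)
  rw [Real.norm_eq_abs, abs_mul]
  exact mul_le_mul (abs_gk2_le hδ _) (abs_two x i j) (abs_nonneg _) (by positivity)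

theorem dec : DecStmt := fun n p b δ ξ hp hb hδ => by
  have hs := sqrt_two_pi_pos
  refine ⟨?_, fun i => ?_, fun i j => ?_⟩
  · have := dec_aux hp hb (hp.int_gk hδ ξ) (nrm_norm.int_gk hδ ξ)
    rw [A0, this, be0, show ∫ x, gk δ ⟪x, ξ⟫ ∂gam n = _ from A0_gam hδ ξ]
    congr 1
    field_simp
  · have i1 : ∀ {q : Eu n → ℝ}, Nrm q → Integrable (fun x => gk1 δ ⟪x, ξ⟫ * x i) (mu q) :=
      fun hq => int_bd hq (by fun_prop) (by fun_prop) (fun x => abs_gk1_le hδ _)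
        fun x => abs_one' x i
    have := dec_aux hp hb (i1 hp) (i1 nrm_norm)
    rw [show ∫ x, gk1 δ ⟪x, ξ⟫ * x i ∂gam n = _ from A1_gam hδ ξ i,
      mul_div_cancel₀ _ hs.ne'] at this
    exact this
  · have i1 : ∀ {q : Eu n → ℝ}, Nrm q → Integrable (fun x => gk2 δ ⟪x, ξ⟫ * (x i * x j)) (mu q) :=
      fun hq => int_bd hq (by fun_prop) (by fun_prop) (fun x => abs_gk2_le hδ _)
        fun x => abs_two x i j
    have := dec_aux hp hb (i1 hp) (i1 nrm_norm)
    rw [show ∫ x, gk2 δ ⟪x, ξ⟫ * (x i * x j) ∂gam n = _ from A2_gam hδ ξ i j,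
      mul_div_cancel₀ _ hs.ne'] at this
    exact this

end Pool.Agent.MP_2a44fd_gt.hd

end MrgPart7

-- ======== part 8: formerly Pool.Agent.MP_2a44fd_gt.hd.Vol
section MrgPart8

/-!
PROJECT BP5HD: the volume lemma. The interpolated map `Yt` is injective with Jacobian matrix `Mt`,
so the change of variables formula bounds the mass of its image from below.
-/

set_option autoImplicit false

open MeasureTheory Real Set Filter Topology
open scoped RealInnerProductSpace ENNReal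

namespace Pool.Agent.MP_2a44fd_gt.hd

namespace Vol

variable {n : ℕ}

theorem log_half_le {x : ℝ} (hx : 1 / 2 ≤ x) : x - 1 - 2 * (x - 1) ^ 2 ≤ log x := by
  have h0 : 0 < x := by linarith
  have h1 := one_sub_inv_le_log_of_pos h0
  refine le_trans ?_ h1
  rw [le_sub_comm, inv_eq_one_div, div_le_iff₀ h0]
  nlinarith [mul_nonneg (sq_nonneg (x - 1)) (by linarith : 0 ≤ 2 * x - 1)]

theorem log_lower {κ x : ℝ} (h0 : 0 < κ) (h1 : κ ≤ 1 / 2) (hx : κ ≤ x) :
    x - 1 - 4 * log (1 / κ) * (x - 1) ^ 2 ≤ log x := by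
  have hl : 1 / 2 ≤ log (1 / κ) := by
    have h2 : log 2 ≤ log (1 / κ) := log_le_log two_pos (by rw [le_div_iff₀ h0]; linarith)
    linarith [log_two_gt_d9]
  rcases le_total (1 / 2) x with h | h
  · have := log_half_le h
    nlinarith [sq_nonneg (x - 1)]
  · have h3 : log κ ≤ log x := log_le_log h0 hx
    have h4 : log (1 / κ) = -log κ := by rw [one_div, log_inv]
    have h5 : 1 / 4 ≤ (x - 1) ^ 2 := by nlinarith
    nlinarith

theorem hs_eq_trace {M : Matrix (Fin n) (Fin n) ℝ} (hM : ∀ i j, M i j = M j i) :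
    hs M = ((M - 1) * (M - 1)).trace := by
  simp only [hs, Matrix.trace, Matrix.diag, Matrix.mul_apply, sq]
  refine Finset.sum_congr rfl fun i _ => Finset.sum_congr rfl fun j _ => ?_
  congr 1
  simp only [Matrix.sub_apply, hM i j, Matrix.one_apply, eq_comm]

theorem hs_eq_sum {M : Matrix (Fin n) (Fin n) ℝ} (hM : M.IsHermitian) :
    hs M = ∑ i, (hM.eigenvalues i - 1) ^ 2 := by
  have hs' : ∀ i j, M i j = M j i := fun i j => by simpa using (hM.apply i j).symm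
  rw [hs_eq_trace hs']
  have h1 : (M - 1) * (M - 1) = Unitary.conjStarAlgAut ℝ _ hM.eigenvectorUnitary
      (Matrix.diagonal fun i => (hM.eigenvalues i - 1) ^ 2) := by
    have h2 : (Matrix.diagonal fun i => (hM.eigenvalues i - 1) ^ 2) =
        (Matrix.diagonal (RCLike.ofReal ∘ hM.eigenvalues) - 1) *
          (Matrix.diagonal (RCLike.ofReal ∘ hM.eigenvalues) - 1) := by
      rw [← Matrix.diagonal_one, Matrix.diagonal_sub, Matrix.diagonal_mul_diagonal]
      simp [sq]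
    rw [h2, map_mul, map_sub, map_one, ← hM.spectral_theorem]
  rw [h1, Unitary.conjStarAlgAut_apply, Matrix.trace_mul_cycle]
  simp

theorem det_lower {M : Matrix (Fin n) (Fin n) ℝ} (hs' : ∀ i j, M i j = M j i) {κ : ℝ}
    (h0 : 0 < κ) (h1 : κ ≤ 1 / 2)
    (h : (∀ v : Eu n, κ * ‖v‖ ^ 2 ≤ ⟪mc M v, v⟫) ∨ hs M ≤ 1 / 4) :
    exp (M.trace - n - 4 * log (1 / κ) * hs M) ≤ M.det := by
  have hM : M.IsHermitian := Matrix.IsHermitian.ext fun i j => by simpa using hs' j i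
  have hev : ∀ i, κ ≤ hM.eigenvalues i := fun i => by
    rcases h with h | h
    · have h2 := h (hM.eigenvectorBasis i)
      have h3 : mc M (hM.eigenvectorBasis i) = hM.eigenvalues i • hM.eigenvectorBasis i := by
        ext j
        exact congrFun (hM.mulVec_eigenvectorBasis i) j
      rw [h3, real_inner_smul_left, real_inner_self_eq_norm_sq,
        hM.eigenvectorBasis.orthonormal.1 i] at h2
      simpa using h2
    · rw [hs_eq_sum hM] at h
      have h2 := (Finset.single_le_sum (f := fun i => (hM.eigenvalues i - 1) ^ 2)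
        (fun _ _ => sq_nonneg _) (Finset.mem_univ i)).trans h
      nlinarith
  rw [hM.det_eq_prod_eigenvalues, hM.trace_eq_sum_eigenvalues, hs_eq_sum hM]
  simp only [RCLike.ofReal_real_eq_id, id]
  have e : ∑ i, hM.eigenvalues i - n - 4 * log (1 / κ) * ∑ i, (hM.eigenvalues i - 1) ^ 2 =
      ∑ i, (hM.eigenvalues i - 1 - 4 * log (1 / κ) * (hM.eigenvalues i - 1) ^ 2) := by
    rw [Finset.sum_sub_distrib, Finset.sum_sub_distrib, Finset.mul_sum]
    simp
  rw [e, exp_sum]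
  refine Finset.prod_le_prod (fun _ _ => (exp_pos _).le) fun i _ => ?_
  rw [← le_log_iff_exp_le (h0.trans_le (hev i))]
  exact log_lower h0 h1 (hev i)

/-- The derivative of a monotone map is positive semidefinite. -/
theorem psd {y : Eu n → Eu n} {L : Eu n →L[ℝ] Eu n} {ξ : Eu n} (hd : HasFDerivAt y L ξ)
    (hm : ∀ ξ ζ, 0 ≤ ⟪y ξ - y ζ, ξ - ζ⟫) (v : Eu n) : 0 ≤ ⟪L v, v⟫ := by
  have h1 : HasDerivAt (fun s : ℝ => ξ + s • v) v 0 := by
    simpa using ((hasDerivAt_id (0 : ℝ)).smul_const v).const_add ξ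
  have h2 : HasDerivAt (fun s : ℝ => y (ξ + s • v)) (L v) 0 :=
    HasFDerivAt.comp_hasDerivAt (l := y) (0 : ℝ) (by simpa using hd) h1
  have h3 : HasDerivAt (fun s : ℝ => ⟪y (ξ + s • v), v⟫) ⟪L v, v⟫ 0 := by
    simpa using h2.inner ℝ (hasDerivAt_const (0 : ℝ) v)
  refine h3.nonneg_of_monotone fun a b hab => ?_
  rcases hab.eq_or_lt with rfl | hab
  · exact le_rfl
  have h4 := hm (ξ + b • v) (ξ + a • v)
  rw [show ξ + b • v - (ξ + a • v) = (b - a) • v by module, real_inner_smul_right,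
    inner_sub_left] at h4
  have := (mul_nonneg_iff_of_pos_left (sub_pos.2 hab)).1 h4
  simp only
  linarith

theorem mc_Mt (Λ t : ℝ) (H : Matrix (Fin n) (Fin n) ℝ) :
    mc (Mt Λ t H) = (1 - t) • mc H + (t / Λ) • ContinuousLinearMap.id ℝ (Eu n) := by
  ext v i
  simp [mc_apply, Mt, add_mul, Finset.sum_add_distrib, Finset.mul_sum, mul_assoc,
    Matrix.one_apply]

theorem Mt_symm (Λ t : ℝ) {H : Matrix (Fin n) (Fin n) ℝ} (hH : ∀ i j, H i j = H j i)
    (i j : Fin n) : Mt Λ t H i j = Mt Λ t H j i := by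
  simp only [Mt, Matrix.add_apply, Matrix.smul_apply, hH i j, Matrix.one_apply, eq_comm]

theorem der_Yt {y : Eu n → Eu n} {H : Matrix (Fin n) (Fin n) ℝ} {ξ : Eu n} (Λ t : ℝ)
    (hd : HasFDerivAt y (mc H) ξ) : HasFDerivAt (Yt Λ t y) (mc (Mt Λ t H)) ξ := by
  rw [mc_Mt]
  exact (hd.const_smul (1 - t)).add ((hasFDerivAt_id ξ).const_smul (t / Λ))

theorem inj_Yt {y : Eu n → Eu n} {Λ t : ℝ} (hΛ : 1 ≤ Λ) (h0 : 0 < t) (h1 : t < 1)
    (hm : ∀ ξ ζ, 0 ≤ ⟪y ξ - y ζ, ξ - ζ⟫) : Function.Injective (Yt Λ t y) := fun ξ ζ h => by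
  have h2 : (1 - t) • (y ξ - y ζ) + (t / Λ) • (ξ - ζ) = 0 := by
    rw [← sub_eq_zero.2 h, Yt, Yt]; module
  have h3 := congrArg (fun w => ⟪w, ξ - ζ⟫) h2
  simp only [inner_add_left, real_inner_smul_left, inner_zero_left,
    real_inner_self_eq_norm_sq] at h3
  have h4 : 0 < t / Λ := by positivity
  have h5 := mul_nonneg (sub_pos.2 h1).le (hm ξ ζ)
  have h6 : ‖ξ - ζ‖ ^ 2 ≤ 0 := by
    by_contra h7
    have := mul_pos h4 (not_le.1 h7)
    linarith
  rw [← sub_eq_zero, ← norm_eq_zero]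
  exact pow_eq_zero_iff two_ne_zero |>.1 (le_antisymm h6 (sq_nonneg _))

theorem p_Yt {p Φ : Eu n → ℝ} {y : Eu n → Eu n} {Λ t : ℝ} (hp : Nrm p) (hΛ : 1 ≤ Λ)
    (hhi : ∀ x, p x ≤ Λ * ‖x‖) (h0 : 0 < t) (h1 : t < 1) {ξ : Eu n}
    (hK : p (y ξ) ^ 2 ≤ 2 * Φ ξ) :
    p (Yt Λ t y ξ) ^ 2 / 2 ≤ (1 - t) * (Φ ξ - ‖ξ‖ ^ 2 / 2) + ‖ξ‖ ^ 2 / 2 := by
  have hL : 0 < Λ := by linarith
  have h2 := hp.sq_comb (sub_pos.2 h1).le h0.le (by ring) (y ξ) (Λ⁻¹ • ξ)
  rw [smul_smul, ← div_eq_mul_inv] at h2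
  have h3 : p (Λ⁻¹ • ξ) ≤ ‖ξ‖ := by
    rw [hp.smul_nonneg (inv_nonneg.2 hL.le), inv_mul_le_iff₀ hL]
    exact hhi ξ
  have h4 := mul_le_mul_of_nonneg_left (pow_le_pow_left₀ (hp.nonneg _) h3 2) h0.le
  have h5 := mul_le_mul_of_nonneg_left hK (sub_pos.2 h1).le
  rw [Yt]
  linarith

end Vol

open Vol in
theorem vol : VolStmt := by
  intro n p Φ y H G Λ t κ S D hp hΛ hhi hP h0 h1 hκ0 hκ1 hS hD hSD hor
  have := hp.prob
  have hZ := hp.Zc_pos
  have hZ0 := (nrm_norm (n := n)).Zc_pos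
  have hcv := lintegral_image_eq_lintegral_abs_det_fderiv_mul (volume : Measure (Eu n)) hS
    (f := Yt Λ t y) (f' := fun ξ => mc (Mt Λ t (H ξ)))
    (fun ξ _ => (der_Yt Λ t (hP.der ξ)).hasFDerivWithinAt) (inj_Yt hΛ h0 h1 hP.mono).injOn
    fun x => ENNReal.ofReal (exp (-(p x ^ 2 / 2)) / Zc fun x : Eu n => ‖x‖)
  have hR : ENNReal.ofReal (mm p * (mu p).real D) =
      ∫⁻ x in D, ENNReal.ofReal (exp (-(p x ^ 2 / 2)) / Zc fun x : Eu n => ‖x‖) := by
    rw [ENNReal.ofReal_mul hp.mm_pos.le, ofReal_measureReal, mu, withDensity_apply _ hD,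
      ← lintegral_const_mul _ hp.meas_w]
    refine lintegral_congr fun x => ?_
    rw [← ENNReal.ofReal_mul hp.mm_pos.le, mm]
    congr 1
    field_simp
  rw [hR]
  refine le_trans ?_ (lintegral_mono_set (s := Yt Λ t y '' S) (image_subset_iff.2 hSD))
  rw [hcv, gam, mu, setLIntegral_withDensity_eq_setLIntegral_mul_non_measurable _
    nrm_norm.meas_w _ hS (Eventually.of_forall fun x => ENNReal.ofReal_lt_top)]
  refine setLIntegral_mono' hS fun ξ hξ => ?_
  simp only [Pi.mul_apply]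
  rw [← ENNReal.ofReal_mul (by positivity), ← ENNReal.ofReal_mul (abs_nonneg _), det_mc]
  refine ENNReal.ofReal_le_ofReal ?_
  have hdet := det_lower (Mt_symm Λ t (hP.symm ξ)) hκ0 hκ1 ((hor ξ hξ).imp_left fun h v => by
    have h2 := mul_nonneg (sub_pos.2 h1).le (psd (hP.der ξ) hP.mono v)
    have h3 := mul_le_mul_of_nonneg_right h (sq_nonneg ‖v‖)
    rw [mc_Mt]
    simp only [_root_.add_apply, _root_.smul_apply,
      ContinuousLinearMap.id_apply, inner_add_left, real_inner_smul_left,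
      real_inner_self_eq_norm_sq]
    linarith)
  have hpY := p_Yt hp hΛ hhi h0 h1 (hP.inK ξ)
  rw [div_mul_eq_mul_div, ← mul_div_assoc]
  refine div_le_div_of_nonneg_right ?_ hZ0.le
  refine le_trans ?_ (mul_le_mul_of_nonneg_right (hdet.trans (le_abs_self _)) (exp_pos _).le)
  rw [← exp_add, ← exp_add]
  exact exp_le_exp.2 (by linarith)

end Pool.Agent.MP_2a44fd_gt.hd

end MrgPart8

-- ======== part 9: formerly Pool.Agent.MP_2a44fd_gt.hd.All
section MrgPart9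

/-!
PROJECT BP5HD: gluing the modules.
-/

set_option autoImplicit false

namespace Pool.Agent.MP_2a44fd_gt.hd

theorem mainStmt : MainStmt :=
  have hA := stepA ker (rem mom) mom sym
  have hT := ts (tsa pl tail) tail
  main_of (iso (lc pl) tail pmom) (pos (reg (lc pl)) hT mom pmom) hA (q4b mom cov4 tail)
    (q4c mom (conc pl) tail)
    (pack hA (two twoA) (geo (ball qc pl) der) (chain dec) (lim mom dec indep) stein)
    (stepB vol san mom) (stepC vol san tail) hT tail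

theorem bridgeStmt : BridgeStmt := bridge (ball qc pl)

end Pool.Agent.MP_2a44fd_gt.hd

end MrgPart9

-- marker of a merged file
example : 731051 + 889323 = 731051 + 889323 := rfl
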